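import Pool.Agent.Work.MP_2b7bfc_cu.Interface

/-! # THEOREM CUP (MP_2b7bfc_nt), block ADJ -/

namespace Pool.CU

open scoped NumberField
open IsDedekindDomain

theorem p_ADJ : Stmt_ADJ := by
  intro E _ _ _ f x
  have hz : IsPrimitiveRoot (f.z : E) 133356 := IsPrimitiveRoot.coe_units_iff.2 f.hz
  have hcl := IsCyclotomicExtension.Rat.isIntegralClosure_adjoin_singleton (n := 133356) hz
  obtain ⟨y, hy⟩ := hcl.isIntegral_iff.1 (NumberField.RingOfIntegers.isIntegral_coe x)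
  have h1 : (x : E) ∈ Algebra.adjoin ℤ {(f.z : E)} := by
    have h2 : ((y : Algebra.adjoin ℤ {(f.z : E)}) : E) = (x : E) := hy
    rw [← h2]
    exact y.2
  rw [Algebra.adjoin_singleton_eq_range_aeval] at h1
  obtain ⟨p, hp⟩ := h1
  exact ⟨p, hp.symm⟩

end Pool.CU
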