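import Pool.Agent.Work.MP_2b7bfc_cu.Interface

/-! # Block CCJ: complex conjugation -/

namespace Pool.CU

open scoped NumberField
open IsDedekindDomain

theorem CCJ_s_pow {E : Type} [Field E] [NumberField E] (f : Frame E) (k m : ℕ) :
    gu (f.s ^ k) (f.z ^ m) = f.z ^ (13 ^ k * m) := by
  induction k generalizing m with
  | zero => rw [pow_zero, pow_zero, one_mul, gu_one]
  | succ k ih =>
    rw [pow_succ, gu_mul, f.gu_s_pow, ih]
    congr 1
    ring

theorem CCJ_z {E : Type} [Field E] [NumberField E] (f : Frame E) :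
    gu (f.a * f.b * f.s ^ 5556) f.z = f.z ^ 133355 := by
  have h0 : f.z = f.z ^ 1 := (pow_one _).symm
  rw [gu_mul, gu_mul]
  nth_rewrite 1 [h0]
  rw [CCJ_s_pow, f.z_pow (13 ^ 5556 * 1)]
  have h1 : 13 ^ 5556 * 1 % 133356 = 22225 := by
    rw [mul_one]
    decide +kernel
  rw [h1, f.gu_b_pow, f.gu_a_pow]
  exact f.z_pow_congr (by norm_num)

theorem p_CCJ : Stmt_CCJ := by
  intro E _ _ _ f φ x
  have hz : (f.a * f.b * f.s ^ 5556) (f.z : E) = ((f.z : E)) ^ 133355 := by
    have h := congrArg Units.val (CCJ_z f)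
    rw [gu_val, Units.val_pow_eq_pow_val] at h
    exact h
  have hprim : IsPrimitiveRoot (f.z : E) 133356 := IsPrimitiveRoot.coe_units_iff.mpr f.hz
  have hadj : Algebra.adjoin ℚ {(f.z : E)} = ⊤ :=
    IsCyclotomicExtension.adjoin_primitive_root_eq_top (n := 133356) hprim
  have hext : (((starRingEnd ℂ).comp φ).toRatAlgHom : E →ₐ[ℚ] ℂ) =
      ((φ.comp ((f.a * f.b * f.s ^ 5556 : Gal(E/ℚ)) : E →+* E)).toRatAlgHom : E →ₐ[ℚ] ℂ) := by
    refine AlgHom.ext_of_adjoin_eq_top hadj ?_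
    intro y hy
    rw [Set.mem_singleton_iff] at hy
    subst hy
    change (starRingEnd ℂ) (φ (f.z : E)) = φ ((f.a * f.b * f.s ^ 5556) (f.z : E))
    rw [hz, map_pow]
    have hone : φ (f.z : E) ^ 133356 = 1 := by
      rw [← map_pow, hprim.pow_eq_one, map_one]
    have hnorm : ‖φ (f.z : E)‖ = 1 := Complex.norm_eq_one_of_pow_eq_one hone (by norm_num)
    rw [← Complex.inv_eq_conj hnorm]
    have hne : φ (f.z : E) ≠ 0 := by
      intro h
      rw [h, norm_zero] at hnorm
      exact zero_ne_one hnorm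
    rw [inv_eq_iff_eq_inv, ← mul_eq_one_iff_eq_inv₀ (pow_ne_zero _ hne), ← pow_succ']
    exact hone
  have := congrArg (fun g : E →ₐ[ℚ] ℂ => g x) hext
  exact this

end Pool.CU
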