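import Pool.Agent.Work.MP_2b7bfc_cu.Interface3

/-! # Block CHR of THEOREM CUP: the character `θ` -/

namespace Pool.CU

open scoped NumberField TensorProduct
open IsDedekindDomain

theorem CHR_pow : (13 : ZMod 11113) ^ 3704 ≠ 1 := by
  intro h
  have h1 : ((13 ^ 3704 : ℕ) : ZMod 11113) = ((1 : ℕ) : ZMod 11113) := by
    rw [Nat.cast_pow, Nat.cast_one, Nat.cast_ofNat]
    exact h
  rw [ZMod.natCast_eq_natCast_iff'] at h1
  exact absurd h1 (by decide +kernel)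

theorem CHR_13 : (13 : ZMod 11113) ≠ 0 := by decide

theorem CHR_ne {E : Type} [Field E] (hp : Nat.Prime 11113) (χ : MulChar (ZMod 11113) E)
    (h1 : χ ≠ 1) (h3 : χ ^ 3 = 1) : χ 13 ≠ 1 := by
  have : Fact (Nat.Prime 11113) := ⟨hp⟩
  intro h
  obtain ⟨g, hg⟩ := IsCyclic.exists_generator (α := (ZMod 11113)ˣ)
  have hx : ∀ u : (ZMod 11113)ˣ, ∃ m : ℕ, g ^ m = u := fun u =>
    (mem_powers_iff_mem_zpowers.2 (hg u))
  obtain ⟨m, hm⟩ := hx (Units.mk0 13 CHR_13)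
  have hm' : ((g : ZMod 11113)) ^ m = 13 := by
    have := congrArg (fun u : (ZMod 11113)ˣ => (u : ZMod 11113)) hm
    simpa using this
  have hg1 : χ g ≠ 1 := by
    intro h0
    refine h1 (MulChar.ext fun u => ?_)
    obtain ⟨k, rfl⟩ := hx u
    rw [MulChar.one_apply_coe, Units.val_pow_eq_pow_val, map_pow, h0, one_pow]
  have hg3 : χ g ^ 3 = 1 := by
    rw [← MulChar.pow_apply' χ (by norm_num), h3, MulChar.one_apply_coe]
  have hgm : χ g ^ m = 1 := by
    rw [← map_pow, hm', h]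
  have ho : orderOf (χ g) = 3 := orderOf_eq_prime hg3 hg1
  obtain ⟨j, rfl⟩ : 3 ∣ m := ho ▸ orderOf_dvd_of_pow_eq_one hgm
  refine CHR_pow ?_
  rw [← hm', ← pow_mul]
  have e : 3 * j * 3704 = 11112 * j := by ring
  have h4 : (g : ZMod 11113) ^ 11112 = 1 := by
    have := ZMod.units_pow_card_sub_one_eq_one 11113 g
    have h5 := congrArg (fun u : (ZMod 11113)ˣ => (u : ZMod 11113)) this
    simpa using h5
  rw [e, pow_mul, h4, one_pow]

/-- A cubic character modulo 11113. -/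
theorem CHR_cubic (K : Type) [Field K] (hK : ∃ w : K, IsPrimitiveRoot w 3) :
    ∃ χ : MulChar (ZMod 11113) K, χ 13 ^ 3 = 1 ∧ χ 13 ≠ 1 := by
  have hp : Nat.Prime 11113 := by norm_num
  have : Fact (Nat.Prime 11113) := ⟨hp⟩
  obtain ⟨w, hw⟩ := hK
  obtain ⟨χ, hχ⟩ := MulChar.exists_mulChar_orderOf (ZMod 11113) (n := 3)
    (by rw [ZMod.card]; norm_num) hw
  have h1 : χ ≠ 1 := by
    rintro rfl
    rw [orderOf_one] at hχ
    norm_num at hχ
  have h3 : χ ^ 3 = 1 := by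
    rw [← hχ]
    exact pow_orderOf_eq_one χ
  refine ⟨χ, ?_, CHR_ne hp χ h1 h3⟩
  have h5 : IsUnit (13 : ZMod 11113) := isUnit_iff_ne_zero.2 CHR_13
  rw [← MulChar.pow_apply' χ (by norm_num), h3, MulChar.one_apply h5]

/-- The quadratic character modulo 12 of the field `ℚ(√3)`. -/
def CHR_quad : MulChar (ZMod 12) ℤ where
  toFun a :=
    match a with
    | 0 | 2 | 3 | 4 | 6 | 8 | 9 | 10 => 0
    | 1 | 11 => 1
    | 5 | 7 => -1
  map_one' := rfl
  map_mul' := by decide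
  map_nonunit' := by decide

theorem CHR_quad_val (a : ZMod 12) : IsUnit a →
    CHR_quad a = if a = 1 ∨ a = 11 then 1 else -1 := by
  revert a
  decide

theorem CHR_gen (K : Type) [Field K] (hK : ∃ w : K, IsPrimitiveRoot w 3) :
    ∃ (θ : DirichletCharacter K (44452 * 3)) (ζ : K), ζ ^ 3 = 1 ∧ ζ ≠ 1 ∧
    ∀ x k : ℕ, Nat.Coprime x 133356 → x % 11113 = 13 ^ k % 11113 →
      θ ((x : ℕ) : ZMod (44452 * 3)) = (if x % 12 = 1 ∨ x % 12 = 11 then 1 else -1) * ζ ^ k := by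
  obtain ⟨χ, h1, h2⟩ := CHR_cubic K hK
  have hd1 : 12 ∣ 44452 * 3 := ⟨11113, by norm_num⟩
  have hd2 : 11113 ∣ 44452 * 3 := ⟨12, by norm_num⟩
  obtain ⟨ψ, hψ⟩ : ∃ ψ : DirichletCharacter K 12, ψ = CHR_quad.ringHomComp (Int.castRingHom K) :=
    ⟨_, rfl⟩
  refine ⟨DirichletCharacter.changeLevel hd1 ψ * DirichletCharacter.changeLevel hd2
    (χ : DirichletCharacter K 11113), χ 13, h1, h2, ?_⟩
  intro x k hx hxk
  have hx' : Nat.Coprime x (44452 * 3) := hx
  have e1 := DirichletCharacter.changeLevel_eq_cast_of_dvd ψ hd1 (ZMod.unitOfCoprime x hx')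
  have e2 := DirichletCharacter.changeLevel_eq_cast_of_dvd (χ : DirichletCharacter K 11113) hd2
    (ZMod.unitOfCoprime x hx')
  rw [ZMod.coe_unitOfCoprime, ZMod.cast_natCast hd1] at e1
  rw [ZMod.coe_unitOfCoprime, ZMod.cast_natCast hd2] at e2
  rw [MulChar.mul_apply, e1, e2]
  have e3 : ((x : ℕ) : ZMod 11113) = 13 ^ k := by
    have h3 : ((x : ℕ) : ZMod 11113) = ((13 ^ k : ℕ) : ZMod 11113) :=
      (ZMod.natCast_eq_natCast_iff' _ _ _).2 hxk
    rw [h3]
    push_cast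
    rfl
  have e4 : ψ ((x : ℕ) : ZMod 12) = if x % 12 = 1 ∨ x % 12 = 11 then 1 else -1 := by
    have hcop : Nat.Coprime x 12 := hx.coprime_dvd_right ⟨11113, by norm_num⟩
    have hu : IsUnit ((x : ℕ) : ZMod 12) := (ZMod.isUnit_iff_coprime x 12).2 hcop
    have h5 : ((x : ℕ) : ZMod 12) = 1 ↔ x % 12 = 1 := by
      have := ZMod.natCast_eq_natCast_iff' x 1 12
      rw [Nat.cast_one] at this
      exact this
    have h6 : ((x : ℕ) : ZMod 12) = 11 ↔ x % 12 = 11 := by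
      have := ZMod.natCast_eq_natCast_iff' x 11 12
      exact this
    rw [hψ, MulChar.ringHomComp_apply, CHR_quad_val _ hu]
    simp only [h5, h6]
    split_ifs <;> simp
  rw [e3, e4, map_pow]

theorem p_CHR : Stmt_CHR := by
  have : NeZero ((3 : ℕ) : AlgebraicClosure ℚ_[3]) := ⟨by norm_num⟩
  exact CHR_gen (AlgebraicClosure ℚ_[3]) (HasEnoughRootsOfUnity.exists_primitiveRoot _ 3)

end Pool.CU
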