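import Pool.Agent.Work.MP_2b7bfc_cu.Interface

/-! # Block CNZ -/

namespace Pool.CU

open scoped NumberField
open IsDedekindDomain

variable {E : Type} [Field E] [NumberField E]

omit [NumberField E] in
theorem CNZ_coe_pow (Z : 𝓞 E) (n : ℕ) : ((Z ^ n : 𝓞 E) : E) = (Z : E) ^ n :=
  map_pow (algebraMap (𝓞 E) E) Z n

theorem CNZ_Z (f : Frame E) : ∃ Z : 𝓞 E, (Z : E) = (f.z : E) := by
  have h : IsIntegral ℤ (f.z : E) := by
    refine IsIntegral.of_pow (n := 133356) (by norm_num) ?_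
    have h1 : (f.z : E) ^ 133356 = 1 := by
      have := congrArg (fun u : Eˣ => (u : E)) f.hz.pow_eq_one
      simpa using this
    rw [h1]
    exact isIntegral_one
  exact ⟨⟨(f.z : E), h⟩, rfl⟩

omit [NumberField E] in
theorem CNZ_13 (P : HeightOneSpectrum (𝓞 E)) (hP : (11113 : 𝓞 E) ∈ P.asIdeal) :
    (13 : 𝓞 E) ∉ P.asIdeal := by
  intro h
  apply P.isPrime.ne_top
  rw [Ideal.eq_top_iff_one]
  have h1 : (1 : 𝓞 E) = 6 * 11113 - 5129 * 13 := by norm_num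
  rw [h1]
  exact P.asIdeal.sub_mem (P.asIdeal.mul_mem_left _ hP) (P.asIdeal.mul_mem_left _ h)

/-- If `w` is congruent to the integer `r`, and `r` to `13 ^ k`, then `l w = k * l 13`. -/
theorem CNZ_w {f : Frame E} (L : Loc f) (t : Eˣ) (ht : (t : E) = 13) (W : 𝓞 E)
    (hW : (f.w : E) = (W : E)) (k : ℕ) (r : ℕ) (hr : 13 ^ k % 11113 = r)
    (h : W - (r : 𝓞 E) ∈ L.P.asIdeal) : L.l f.w = k * L.l t := by
  have h13 := CNZ_13 L.P L.hP
  have ht' : ((t ^ k : Eˣ) : E) = (((13 : 𝓞 E) ^ k : 𝓞 E) : E) := by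
    rw [Units.val_pow_eq_pow_val, ht, CNZ_coe_pow]
    rfl
  have hnot : ((13 : 𝓞 E) ^ k) ∉ L.P.asIdeal := fun h1 => h13 (L.P.isPrime.mem_of_pow_mem _ h1)
  have hmem : W - (13 : 𝓞 E) ^ k ∈ L.P.asIdeal := by
    have h0 := Nat.div_add_mod (13 ^ k) 11113
    rw [hr] at h0
    generalize 13 ^ k / 11113 = q at h0
    have h2 : 11113 * (q : 𝓞 E) + (r : 𝓞 E) = (13 : 𝓞 E) ^ k := by
      have := congrArg (fun m : ℕ => (m : 𝓞 E)) h0
      simp only [Nat.cast_add, Nat.cast_mul, Nat.cast_pow, Nat.cast_ofNat] at this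
      exact this
    have h3 : W - (13 : 𝓞 E) ^ k = (W - (r : 𝓞 E)) - 11113 * (q : 𝓞 E) := by
      rw [← h2]; ring
    rw [h3]
    exact L.P.asIdeal.sub_mem h (L.P.asIdeal.mul_mem_right _ L.hP)
  have h4 := L.l_U1 _ (div_mem_U1 L.P hW ht' hmem hnot)
  rw [L.l_mul, L.l_inv, L.l_pow] at h4
  linear_combination h4

theorem CNZ_mod1 : 13 ^ 3704 % 11113 = 7255 := by decide +kernel

theorem CNZ_mod2 : 13 ^ 7408 % 11113 = 3857 := by decide +kernel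

theorem p_CNZ (hINZ : Stmt_INZ) : Stmt_CNZ := by
  intro E _ _ _ f L x hx
  obtain ⟨Z, hZ⟩ := CNZ_Z f
  have hzl : (f.zl : E) = ((Z ^ 12 : 𝓞 E) : E) := by
    rw [Frame.zl, Units.val_pow_eq_pow_val, CNZ_coe_pow, hZ]
  have hw : (f.w : E) = ((Z ^ 44452 : 𝓞 E) : E) := by
    rw [Frame.w, Units.val_pow_eq_pow_val, CNZ_coe_pow, hZ]
  obtain ⟨Zl, hZl⟩ : ∃ Zl : 𝓞 E, Zl = Z ^ 12 := ⟨_, rfl⟩
  obtain ⟨W, hWdef⟩ : ∃ W : 𝓞 E, W = Z ^ 44452 := ⟨_, rfl⟩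
  rw [← hZl] at hzl
  rw [← hWdef] at hw
  clear hWdef
  have h1 : (1 : 𝓞 E) - Zl ∈ L.P.asIdeal := by
    obtain ⟨y, hy, hyP⟩ := ((hINZ E f L.P).2.2.1 L.hP).2
    have : (1 : 𝓞 E) - Zl = y := by
      apply NumberField.RingOfIntegers.ext
      rw [hy, hzl]
      rfl
    rw [this]
    exact hyP
  have h13 := CNZ_13 L.P L.hP
  have ht0 : (13 : E) ≠ 0 := by norm_num
  obtain ⟨t, ht⟩ : ∃ t : Eˣ, (t : E) = 13 := ⟨Units.mk0 13 ht0, rfl⟩
  have hx0 : (1 : E) - (f.zl : E) ≠ 0 := by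
    rw [← hx]
    exact x.ne_zero
  have hquot : ((gu f.s x * x⁻¹ : Eˣ) : E) =
      ((∑ j ∈ Finset.range 13, Zl ^ j : 𝓞 E) : E) := by
    have hsx : ((gu f.s x : Eˣ) : E) = 1 - (f.zl : E) ^ 13 := by
      rw [gu_val, hx, map_sub, map_one]
      have := congrArg (fun u : Eˣ => (u : E)) f.s_zl
      simp only [gu_val, Units.val_pow_eq_pow_val] at this
      rw [this]
    have hsum : ((∑ j ∈ Finset.range 13, Zl ^ j : 𝓞 E) : E) =
        ∑ j ∈ Finset.range 13, (f.zl : E) ^ j := by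
      have h2 : ((∑ j ∈ Finset.range 13, Zl ^ j : 𝓞 E) : E) =
          ∑ j ∈ Finset.range 13, ((Zl ^ j : 𝓞 E) : E) :=
        map_sum (algebraMap (𝓞 E) E) _ _
      rw [h2]
      refine Finset.sum_congr rfl fun j _ => ?_
      rw [CNZ_coe_pow, hzl]
    rw [Units.val_mul, Units.val_inv_eq_inv_val, hsx, hx, hsum, mul_inv_eq_iff_eq_mul₀ hx0,
      geom_sum_mul_neg]
  have hmem : (∑ j ∈ Finset.range 13, Zl ^ j : 𝓞 E) - 13 ∈ L.P.asIdeal := by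
    have h2 : (∑ j ∈ Finset.range 13, Zl ^ j : 𝓞 E) - 13 =
        ∑ j ∈ Finset.range 13, (Zl ^ j - 1) := by
      rw [Finset.sum_sub_distrib]
      simp
    rw [h2]
    refine Ideal.sum_mem _ fun j _ => ?_
    have h3 : (Zl - 1) ∣ Zl ^ j - 1 := by
      have := sub_dvd_pow_sub_pow Zl 1 j
      rwa [one_pow] at this
    have h4 : Zl - 1 ∈ L.P.asIdeal := by
      have := L.P.asIdeal.neg_mem h1
      rwa [neg_sub] at this
    exact L.P.asIdeal.mem_of_dvd h3 h4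
  have ht' : (t : E) = ((13 : 𝓞 E) : E) := by rw [ht]; rfl
  have h5 := L.l_U1 _ (div_mem_U1 L.P hquot ht' hmem h13)
  rw [L.l_mul, L.l_mul, L.l_inv, L.l_inv, L.l_pi x hx] at h5
  have h6 : L.l (gu f.s x) = L.l t := by linear_combination h5
  rw [h6]
  intro hlt
  apply L.l_w
  have hW2 : W ^ 2 + W + 1 = 0 := by
    apply NumberField.RingOfIntegers.ext
    have h8 := f.w_sq
    rw [hw] at h8
    exact h8
  have hprod : (W - ((7255 : ℕ) : 𝓞 E)) * (W - ((3857 : ℕ) : 𝓞 E)) ∈ L.P.asIdeal := by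
    have h7 : (W - ((7255 : ℕ) : 𝓞 E)) * (W - ((3857 : ℕ) : 𝓞 E)) = (2518 - W) * 11113 := by
      simp only [Nat.cast_ofNat]
      linear_combination hW2
    rw [h7]
    exact L.P.asIdeal.mul_mem_left _ L.hP
  rcases L.P.isPrime.mem_or_mem hprod with h8 | h8
  · rw [CNZ_w L t ht W hw 3704 7255 CNZ_mod1 h8, hlt, mul_zero]
  · rw [CNZ_w L t ht W hw 7408 3857 CNZ_mod2 h8, hlt, mul_zero]

end Pool.CU
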