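import Pool.Agent.Work.MP_2b7bfc_cu.Interface

namespace Pool.CU

open scoped NumberField
open IsDedekindDomain

theorem COM_prim {E : Type} [Field E] [NumberField E] (f : Frame E) :
    IsPrimitiveRoot (f.z : E) 133356 :=
  IsPrimitiveRoot.coe_units_iff.2 f.hz

theorem COM_eq {E : Type} [Field E] [NumberField E] [IsCyclotomicExtension {133356} ℚ E]
    (f : Frame E) (σ τ : Gal(E/ℚ)) (h : gu σ f.z = gu τ f.z) : σ = τ := by
  have hp := COM_prim f
  haveI : NeZero 133356 := ⟨by norm_num⟩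
  apply hp.autToPow_injective (K := ℚ)
  have h1 := hp.autToPow_spec ℚ σ
  have h2 := hp.autToPow_spec ℚ τ
  have h3 : σ (f.z : E) = τ (f.z : E) := by
    have := congrArg (fun u : Eˣ => (u : E)) h
    simpa only [gu_val] using this
  have h4 := hp.pow_inj (ZMod.val_lt _) (ZMod.val_lt _) (h1.trans (h3.trans h2.symm))
  exact Units.ext (ZMod.val_injective _ h4)

theorem COM_gu_mul {E : Type} [Field E] [NumberField E] (σ τ : Gal(E/ℚ)) (x : Eˣ) :
    gu (σ * τ) x = gu σ (gu τ x) := by
  ext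
  simp only [gu_val]
  rfl

theorem COM_gu_one {E : Type} [Field E] [NumberField E] (x : Eˣ) :
    gu (1 : Gal(E/ℚ)) x = x := by
  ext
  simp only [gu_val]
  rfl

theorem COM_s_pow {E : Type} [Field E] [NumberField E] (f : Frame E) (k : ℕ) :
    gu (f.s ^ k) f.z = f.z ^ (13 ^ k) := by
  induction k with
  | zero => rw [pow_zero, pow_zero, pow_one, COM_gu_one]
  | succ k ih => rw [pow_succ', COM_gu_mul, ih, map_pow, f.hs, ← pow_mul, pow_succ']

theorem p_COM : Stmt_COM := by
  intro E _ _ _ f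
  have hp := COM_prim f
  haveI : NeZero 133356 := ⟨by norm_num⟩
  refine ⟨fun σ τ => ?_, ?_, ?_, ?_⟩
  · apply hp.autToPow_injective (K := ℚ)
    rw [map_mul, map_mul, mul_comm]
  · apply COM_eq f
    rw [COM_gu_mul, COM_gu_one, f.ha, f.gu_a_pow]
    conv_rhs => rw [← pow_one f.z]
    exact f.z_pow_congr (by norm_num)
  · apply COM_eq f
    rw [COM_gu_mul, COM_gu_one, f.hb, f.gu_b_pow]
    conv_rhs => rw [← pow_one f.z]
    exact f.z_pow_congr (by norm_num)
  · apply COM_eq f
    rw [COM_s_pow, COM_gu_one]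
    conv_rhs => rw [← pow_one f.z]
    refine f.z_pow_congr ?_
    have h : 13 ^ 11112 % 133356 = 1 := by decide +kernel
    rw [h]

end Pool.CU
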