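import Pool.Agent.Work.MP_2b7bfc_cu.Interface

/-! # Block CUB: cube roots of unity -/

namespace Pool.CU

open scoped NumberField
open IsDedekindDomain

theorem p_CUB : Stmt_CUB := by
  intro E _ _ f t ht
  have htE : (t : E) ^ 3 = 1 := by
    have := congrArg (fun u : Eˣ => (u : E)) ht
    simpa using this
  obtain ⟨j, hj, hjt⟩ := (IsPrimitiveRoot.coe_units_iff.2 f.w_prim).eq_pow_of_pow_eq_one htE
  obtain rfl : f.w ^ j = t := Units.ext (by simpa using hjt)
  have hb : gu f.b (f.w ^ j) = f.w ^ j := by rw [map_pow, f.b_w]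
  refine ⟨fun h => ?_, fun h => ?_⟩
  · rw [hb, map_pow, f.a_w, ← pow_mul, mul_comm, pow_mul] at h
    have h1 : f.w ^ j = 1 := by
      have h2 : f.w ^ j * f.w ^ j = f.w ^ j * 1 := by
        rw [mul_one, ← sq]
        exact h
      exact mul_left_cancel h2
    exact h1
  · rw [hb] at h
    have h2 : f.w ^ j * f.w ^ j = 1 := by
      nth_rewrite 1 [h]
      exact inv_mul_cancel _
    have h3 : (f.w ^ j) ^ 3 = f.w ^ j * f.w ^ j * f.w ^ j := by
      rw [pow_succ, sq]
    rw [h2, one_mul] at h3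
    rw [← h3]
    exact ht

end Pool.CU
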