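import Pool.Agent.Work.MP_2b7bfc_cu.Interface2

/-! # DIS: finitely many relative units with small logarithms -/

namespace Pool.CU

open scoped NumberField
open IsDedekindDomain

theorem DIS_log {t : ℝ} (h0 : 0 < t) (h : |Real.log t| ≤ 1) :
    t ≤ Real.exp 1 ∧ t⁻¹ ≤ Real.exp 1 := by
  rw [abs_le] at h
  constructor
  · rw [← Real.log_le_iff_le_exp h0]
    exact h.2
  · rw [← Real.log_le_iff_le_exp (inv_pos.mpr h0), Real.log_inv]
    linarith [h.1]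

section

variable {E : Type} [Field E] [NumberField E]

/-- both `y` and its inverse are small under `φ` -/
def DIS_Q (φ : E →+* ℂ) (y : Eˣ) : Prop :=
  ‖φ (y : E)‖ ≤ Real.exp 1 ∧ ‖φ ((y⁻¹ : Eˣ) : E)‖ ≤ Real.exp 1

theorem DIS_Q_of (φ : E →+* ℂ) (y : Eˣ) (h : |Real.log ‖φ (y : E)‖| ≤ 1) : DIS_Q φ y := by
  have h0 : φ (y : E) ≠ 0 := by
    rw [map_ne_zero]
    exact y.ne_zero
  obtain ⟨h1, h2⟩ := DIS_log (norm_pos_iff.mpr h0) h
  refine ⟨h1, ?_⟩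
  rw [Units.val_inv_eq_inv_val, map_inv₀, norm_inv]
  exact h2

theorem DIS_Q_inv (φ : E →+* ℂ) (y : Eˣ) (h : DIS_Q φ y) : DIS_Q φ y⁻¹ := by
  refine ⟨h.2, ?_⟩
  rw [inv_inv]
  exact h.1

theorem DIS_pow3 (s : Gal(E/ℚ)) (x : Eˣ) (h : gu (s ^ 3) x = x) (m : ℕ) :
    gu (s ^ (3 * m)) x = x := by
  induction m with
  | zero => rw [mul_zero, pow_zero, gu_one]
  | succ m ih => rw [Nat.mul_succ, pow_add, gu_mul, h, ih]

theorem DIS_s (s : Gal(E/ℚ)) (x : Eˣ) (h : gu (s ^ 3) x = x) (k : ℕ) :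
    gu (s ^ k) x = gu (s ^ (k % 3)) x := by
  conv_lhs => rw [← Nat.mod_add_div k 3, pow_add, gu_mul, DIS_pow3 s x h]

theorem DIS_inv (a t : Gal(E/ℚ)) (hc : a * t = t * a) (x : Eˣ) (h : gu a x = x⁻¹) :
    gu a (gu t x) = (gu t x)⁻¹ := by
  rw [← gu_mul, hc, gu_mul, h, map_inv]

theorem DIS_pow2 (φ : E →+* ℂ) (a : Gal(E/ℚ)) (y : Eˣ) (h : gu a y = y⁻¹) (i : ℕ) (hi : i < 2)
    (hQ : DIS_Q φ y) : DIS_Q φ (gu (a ^ i) y) := by
  interval_cases i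
  · rw [pow_zero, gu_one]
    exact hQ
  · rw [pow_one, h]
    exact DIS_Q_inv φ y hQ

end

theorem p_DIS (h1 : Stmt_GAL) (h2 : Stmt_COM) : Stmt_DIS := by
  intro E _ _ _ f φ
  have hcom := (h2 E f).1
  have : IsGalois ℚ E := IsCyclotomicExtension.isGalois {133356} ℚ E
  refine ((NumberField.Embeddings.finite_of_norm_le E ℂ (Real.exp 1)).preimage
    (f := fun x : Eˣ => (x : E)) (Units.val_injective.injOn)).subset ?_
  rintro x ⟨⟨⟨ha, hb, hs⟩, hv⟩, hx0, hx1, hx2⟩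
  refine ⟨?_, fun ψ => ?_⟩
  · obtain ⟨y, hy⟩ := exists_integer (x := x) (fun v => (hv v).ge)
    change IsIntegral ℤ (x : E)
    rw [hy]
    exact NumberField.RingOfIntegers.isIntegral_coe y
  · obtain ⟨σ, hσ⟩ := NumberField.ComplexEmbedding.exists_comp_symm_eq_of_comp_eq (k := ℚ) φ ψ
      (Subsingleton.elim _ _)
    obtain ⟨i, j, k, hi, hj, -, hijk⟩ := h1 E f σ.symm
    have hk : DIS_Q φ (gu (f.s ^ k) x) := by
      rw [DIS_s f.s x hs k]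
      have h3 : k % 3 < 3 := Nat.mod_lt _ (by norm_num)
      interval_cases k % 3
      · rw [pow_zero, gu_one]
        exact DIS_Q_of φ _ hx0
      · rw [pow_one]
        exact DIS_Q_of φ _ hx1
      · rw [pow_two, gu_mul]
        exact DIS_Q_of φ _ hx2
    have hbk : gu f.b (gu (f.s ^ k) x) = (gu (f.s ^ k) x)⁻¹ := DIS_inv _ _ (hcom _ _) x hb
    have hj2 : DIS_Q φ (gu (f.b ^ j) (gu (f.s ^ k) x)) := DIS_pow2 φ f.b _ hbk j hj hk
    have hak : gu f.a (gu (f.b ^ j) (gu (f.s ^ k) x)) = (gu (f.b ^ j) (gu (f.s ^ k) x))⁻¹ := by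
      rw [← gu_mul (f.b ^ j) (f.s ^ k) x]
      exact DIS_inv _ _ (hcom _ _) x ha
    have hi2 := DIS_pow2 φ f.a _ hak i hi hj2
    rw [← gu_mul, ← gu_mul, ← hijk] at hi2
    rw [← hσ]
    exact hi2.1

end Pool.CU
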