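import Pool.Agent.Work.MP_2b7bfc_cu.Interface

/-! # THEOREM CUP, block E12: the elements `109 ± 16 r` (helper79) -/

namespace Pool.CU

open scoped NumberField
open IsDedekindDomain

theorem E12_half (hRAM : Stmt_RAM) (hLEL : Stmt_LEL) {E : Type} [Field E] [NumberField E]
    [IsCyclotomicExtension {133356} ℚ E] (f : Frame E) (L : Loc f) (e e' : Eˣ) (X Y : 𝓞 E)
    (hX : (e : E) = X) (hY : (e' : E) = Y) (hXY : X + Y = 218) (hp : (e : E) * (e' : E) = 11113)
    (h0 : ord L.P e' = 0) : L.l e = 0 ∧ L.l e' = 0 ∧ ord L.P e = 11112 := by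
  have hpe : ((e * e' : Eˣ) : E) = 11113 := by
    rw [Units.val_mul]
    exact hp
  have h1 := (hRAM E f L.P L.hP).2 (e * e') hpe
  rw [ord_mul, h0, add_zero] at h1
  have h2 := hLEL E f L (e * e') hpe
  rw [L.l_mul] at h2
  have hXP : X ∈ L.P.asIdeal := (ord_pos_iff L.P hX).1 (by rw [h1]; norm_num)
  have h3 : Y - ((4016 ^ 3 : ℤ) : 𝓞 E) ∈ L.P.asIdeal := by
    have h4 : Y - ((4016 ^ 3 : ℤ) : 𝓞 E) = -X - 5828406 * 11113 := by
      have h5 : Y = 218 - X := by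
        rw [← hXY]
        ring
      rw [h5]
      push_cast
      ring
    rw [h4]
    exact L.P.asIdeal.sub_mem (L.P.asIdeal.neg_mem hXP) (L.P.asIdeal.mul_mem_left _ L.hP)
  obtain ⟨-, h5⟩ := L.l_congr e' Y hY 4016 (by norm_num) h3
  rw [h5, add_zero] at h2
  exact ⟨h2, h5, h1⟩

theorem p_E12 (hRAM : Stmt_RAM) (hLEL : Stmt_LEL) : Stmt_E12 := by
  intro E _ _ _ f L e e' he he'
  have hr : IsIntegral ℤ f.r := by
    refine IsIntegral.of_pow (n := 2) (by norm_num) ?_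
    rw [f.r_sq]
    have h3 : (3 : E) = algebraMap ℤ E 3 := by simp
    rw [h3]
    exact isIntegral_algebraMap
  obtain ⟨R, hR⟩ : ∃ R : 𝓞 E, (R : E) = f.r := ⟨⟨f.r, hr⟩, rfl⟩
  have hX : (e : E) = ((109 + 16 * R : 𝓞 E) : E) := by
    rw [he, ← hR]
    change _ = algebraMap (𝓞 E) E (109 + 16 * R)
    rw [map_add, map_mul, map_ofNat, map_ofNat]
  have hY : (e' : E) = ((109 - 16 * R : 𝓞 E) : E) := by
    rw [he', ← hR]
    change _ = algebraMap (𝓞 E) E (109 - 16 * R)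
    rw [map_sub, map_mul, map_ofNat, map_ofNat]
  have hXY : (109 + 16 * R : 𝓞 E) + (109 - 16 * R) = 218 := by ring
  have hYX : (109 - 16 * R : 𝓞 E) + (109 + 16 * R) = 218 := by ring
  have hp : (e : E) * (e' : E) = 11113 := by
    rw [he, he']
    linear_combination (-256) * f.r_sq
  have hp' : (e' : E) * (e : E) = 11113 := by
    rw [mul_comm]
    exact hp
  have n1 := ord_nonneg L.P hX
  have n2 := ord_nonneg L.P hY
  have hor : ord L.P e = 0 ∨ ord L.P e' = 0 := by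
    by_contra hcon
    push Not at hcon
    have p1 := (ord_pos_iff L.P hX).1 (by omega)
    have p2 := (ord_pos_iff L.P hY).1 (by omega)
    have p3 := L.P.asIdeal.add_mem p1 p2
    rw [hXY] at p3
    apply L.P.isPrime.ne_top
    rw [Ideal.eq_top_iff_one]
    have h1 : (1 : 𝓞 E) = 87 * 11113 - 4435 * 218 := by norm_num
    rw [h1]
    exact L.P.asIdeal.sub_mem (L.P.asIdeal.mul_mem_left _ L.hP) (L.P.asIdeal.mul_mem_left _ p3)
  rcases hor with h | h
  · obtain ⟨a1, a2, a3⟩ := E12_half hRAM hLEL f L e' e _ _ hY hX hYX hp' h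
    exact ⟨a2, a1, Or.inr ⟨h, a3⟩⟩
  · obtain ⟨a1, a2, a3⟩ := E12_half hRAM hLEL f L e e' _ _ hX hY hXY hp h
    exact ⟨a1, a2, Or.inl ⟨a3, h⟩⟩

end Pool.CU
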