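import Pool.Agent.Work.MP_2b7bfc_cu.Interface

/-! Block E4: the prime elements `77 ± 72 i`. -/

namespace Pool.CU

open scoped NumberField
open IsDedekindDomain

theorem E4_aux (hRAM : Stmt_RAM) (hLEL : Stmt_LEL) (E : Type) [Field E] [NumberField E]
    [IsCyclotomicExtension {133356} ℚ E] (f : Frame E) (L : Loc f) (e e' : Eˣ) (X Y : 𝓞 E)
    (hX : (e : E) = X) (hY : (e' : E) = Y) (hs : X + Y = 154) (hp : ((e * e' : Eˣ) : E) = 11113)
    (hm : X ∈ L.P.asIdeal) : ord L.P e = 11112 ∧ ord L.P e' = 0 ∧ L.l e = 0 ∧ L.l e' = 0 := by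
  have h1 : Y - ((4973 ^ 3 : ℤ) : 𝓞 E) ∈ L.P.asIdeal := by
    have h2 : Y - ((4973 ^ 3 : ℤ) : 𝓞 E) = (-11066851 : 𝓞 E) * 11113 - X := by
      have : Y = 154 - X := by rw [← hs]; ring
      rw [this]
      push_cast
      ring
    rw [h2]
    exact L.P.asIdeal.sub_mem (L.P.asIdeal.mul_mem_left _ L.hP) hm
  obtain ⟨h3, h4⟩ := L.l_congr e' Y hY 4973 (by norm_num) h1
  have h5 := (hRAM E f L.P L.hP).2 (e * e') hp
  have h6 := hLEL E f L (e * e') hp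
  rw [ord_mul, h3, add_zero] at h5
  rw [L.l_mul, h4, add_zero] at h6
  exact ⟨h5, h3, h6, h4⟩

theorem p_E4 (hRAM : Stmt_RAM) (hLEL : Stmt_LEL) : Stmt_E4 := by
  intro E _ _ _ f L e e' he he'
  have hint : IsIntegral ℤ (f.i : E) :=
    (IsPrimitiveRoot.coe_units_iff.2 f.i_prim).isIntegral (by norm_num)
  obtain ⟨I, hI⟩ : ∃ I : 𝓞 E, (I : E) = f.i := ⟨⟨f.i, hint⟩, rfl⟩
  have hX : (e : E) = ((77 + 72 * I : 𝓞 E) : E) := by
    rw [he, ← hI]
    rfl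
  have hY : (e' : E) = ((77 - 72 * I : 𝓞 E) : E) := by
    rw [he', ← hI]
    rfl
  have hp : ((e * e' : Eˣ) : E) = 11113 := by
    rw [Units.val_mul, he, he']
    have := f.i_sq
    linear_combination (-5184 : E) * this
  have hs : (77 + 72 * I : 𝓞 E) + (77 - 72 * I) = 154 := by ring
  have hprod : (77 + 72 * I : 𝓞 E) * (77 - 72 * I) = 11113 := by
    apply NumberField.RingOfIntegers.ext
    have h1 : (((77 + 72 * I : 𝓞 E) * (77 - 72 * I) : 𝓞 E) : E) =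
        ((77 + 72 * I : 𝓞 E) : E) * ((77 - 72 * I : 𝓞 E) : E) := rfl
    rw [h1, ← hX, ← hY, ← Units.val_mul, hp]
    rfl
  have hmem : (77 + 72 * I : 𝓞 E) * (77 - 72 * I) ∈ L.P.asIdeal := by
    rw [hprod]
    exact L.hP
  rcases L.P.isPrime.mem_or_mem hmem with h | h
  · obtain ⟨a1, a2, a3, a4⟩ := E4_aux hRAM hLEL E f L e e' _ _ hX hY hs hp h
    exact ⟨a3, a4, Or.inl ⟨a1, a2⟩⟩
  · obtain ⟨a1, a2, a3, a4⟩ := E4_aux hRAM hLEL E f L e' e _ _ hY hX (by rw [add_comm]; exact hs)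
      (by rw [mul_comm]; exact hp) h
    exact ⟨a4, a3, Or.inr ⟨a2, a1⟩⟩

end Pool.CU
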