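import Pool.Agent.Work.MP_2b7bfc_cu.Interface2

/-! Block EPS of THEOREM CUP: `2 + √3` is not a cube. -/

namespace Pool.CU

open scoped NumberField
open IsDedekindDomain

theorem EPS_int (Q : ℚ) (h : Q ^ 3 + 9 * Q = 18) : False := by
  have hint : IsIntegral ℤ Q := by
    refine ⟨Polynomial.X ^ 3 + 9 * Polynomial.X - 18, ?_, ?_⟩
    · have : (Polynomial.X ^ 3 + 9 * Polynomial.X - 18 : Polynomial ℤ) =
        Polynomial.X ^ 3 + (9 * Polynomial.X - 18) := by ring
      rw [this]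
      apply Polynomial.monic_X_pow_add
      have h1 : (9 * Polynomial.X - 18 : Polynomial ℤ) =
        Polynomial.C 9 * Polynomial.X + Polynomial.C (-18) := by
        simp [sub_eq_add_neg]
      rw [h1]
      exact lt_of_le_of_lt Polynomial.degree_linear_le (by norm_num)
    · simp only [Polynomial.eval₂_sub, Polynomial.eval₂_add, Polynomial.eval₂_mul,
        Polynomial.eval₂_pow, Polynomial.eval₂_X, Polynomial.eval₂_ofNat]
      linarith
  obtain ⟨k, hk⟩ := IsIntegrallyClosed.isIntegral_iff.1 hint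
  have hk' : (k : ℚ) = Q := by simpa using hk
  rw [← hk'] at h
  have h2 : k ^ 3 + 9 * k = 18 := by exact_mod_cast h
  rcases le_or_gt k 1 with h3 | h3
  · nlinarith [sq_nonneg k, sq_nonneg (k - 1), sq_nonneg (k + 1)]
  · nlinarith [sq_nonneg k, sq_nonneg (k - 2)]

variable {E : Type} [Field E] [NumberField E]

theorem EPS_mul (f : Frame E) {x y : Eˣ} (hx : f.T12 x) (hy : f.T12 y) : f.T12 (x * y) := by
  obtain ⟨h1, h2, h3⟩ := hx
  obtain ⟨h4, h5, h6⟩ := hy
  refine ⟨?_, ?_, ?_⟩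
  · rw [map_mul, h1, h4, mul_inv]
  · rw [map_mul, h2, h5, mul_inv]
  · rw [map_mul, h3, h6]

theorem EPS_zpow (f : Frame E) {x : Eˣ} (hx : f.T12 x) (k : ℤ) : f.T12 (x ^ k) := by
  obtain ⟨h1, h2, h3⟩ := hx
  refine ⟨?_, ?_, ?_⟩
  · rw [map_zpow, h1, inv_zpow]
  · rw [map_zpow, h2, inv_zpow]
  · rw [map_zpow, h3]

theorem EPS_s3 (f : Frame E) : (f.s ^ 3 : Gal(E/ℚ)) f.r = f.r := by
  have h : ∀ n : ℕ, (f.s ^ n : Gal(E/ℚ)) f.r = f.r := by
    intro n
    induction n with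
    | zero => rfl
    | succ n ih => rw [pow_succ]; change (f.s ^ n) (f.s f.r) = f.r; rw [f.s_r, ih]
  exact h 3

theorem EPS_eps (f : Frame E) {ε : Eˣ} (hε : (ε : E) = 2 + f.r) : f.T12 ε := by
  have hr := f.r_sq
  have key : ∀ σ : Gal(E/ℚ), σ f.r = -f.r → gu σ ε = ε⁻¹ := by
    intro σ hσ
    apply eq_inv_of_mul_eq_one_left
    apply Units.ext
    rw [Units.val_mul, gu_val, hε, map_add, hσ]
    have : σ (2 : E) = 2 := map_ofNat σ 2
    rw [this, Units.val_one]
    linear_combination -hr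
  refine ⟨key _ f.a_r, key _ f.b_r, ?_⟩
  apply Units.ext
  rw [gu_val, hε, map_add, EPS_s3]
  have : (f.s ^ 3 : Gal(E/ℚ)) (2 : E) = 2 := map_ofNat (f.s ^ 3 : Gal(E/ℚ)) 2
  rw [this]

theorem EPS_seps (f : Frame E) {ε : Eˣ} (hε : (ε : E) = 2 + f.r) : gu f.s ε = ε := by
  apply Units.ext
  rw [gu_val, hε, map_add, f.s_r]
  have : f.s (2 : E) = 2 := map_ofNat f.s 2
  rw [this]

theorem EPS_core [IsCyclotomicExtension {133356} ℚ E] (h1 : Stmt_CUB) (h2 : Stmt_FX12)
    (h3 : Stmt_COM) (f : Frame E) {ε y : Eˣ} (hε : (ε : E) = 2 + f.r) (hy : f.T12 y)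
    (h : y ^ 3 = ε) : False := by
  obtain ⟨hya, hyb, -⟩ := hy
  obtain ⟨hcomm, -, -, -⟩ := h3 E f
  -- s y = y
  have hs : gu f.s y = y := by
    have ht3 : (gu f.s y * y⁻¹) ^ 3 = 1 := by
      rw [mul_pow, inv_pow, ← map_pow, h, EPS_seps f hε, mul_inv_cancel]
    have hbt : gu f.b (gu f.s y * y⁻¹) = (gu f.s y * y⁻¹)⁻¹ := by
      rw [map_mul, ← gu_mul, hcomm f.b f.s, gu_mul, map_inv, hyb, map_inv, mul_inv]
    have := (h1 E f _ ht3).2 hbt
    exact mul_inv_eq_one.1 this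
  have hab : f.a (f.b (y : E)) = y := by
    have h4 : gu f.a (gu f.b y) = y := by rw [hyb, map_inv, hya, inv_inv]
    have h5 := congrArg (fun u : Eˣ => (u : E)) h4
    exact h5
  have hsy : f.s (y : E) = y := by
    have h5 := congrArg (fun u : Eˣ => (u : E)) hs
    exact h5
  obtain ⟨p, q, hpq⟩ := h2 E f (y : E) hab hsy
  have hr := f.r_sq
  have hcast : ∀ (σ : Gal(E/ℚ)) (x : ℚ), σ (x : E) = x := fun σ x => map_ratCast σ x
  -- norm one
  have hn : p ^ 2 - 3 * q ^ 2 = 1 := by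
    have h4 : (y : E) * f.a (y : E) = 1 := by
      have h5 : y * gu f.a y = 1 := by rw [hya, mul_inv_cancel]
      have h6 := congrArg (fun u : Eˣ => (u : E)) h5
      exact h6
    rw [hpq, map_add, map_mul, f.a_r, hcast, hcast] at h4
    have h5 : ((p : E)) ^ 2 - 3 * (q : E) ^ 2 = 1 := by
      linear_combination h4 + (q : E) ^ 2 * hr
    exact_mod_cast h5
  -- the cube
  have hc : ((p : E) + (q : E) * f.r) ^ 3 = 2 + f.r := by
    have h5 := congrArg (fun u : Eˣ => (u : E)) h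
    simp only [Units.val_pow_eq_pow_val] at h5
    rw [hpq, hε] at h5
    exact h5
  have hcb : ((p : E) - (q : E) * f.r) ^ 3 = 2 - f.r := by
    have h5 := congrArg (fun u : E => f.b u) hc
    simp only [map_pow, map_add, map_mul, f.b_r, hcast] at h5
    have : f.b (2 : E) = 2 := map_ofNat f.b 2
    rw [this] at h5
    linear_combination h5
  have hr0 : f.r ≠ 0 := by
    intro h0
    rw [h0] at hr
    norm_num at hr
  have h6 : 3 * (p : E) ^ 2 * q + 3 * (q : E) ^ 3 = 1 := by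
    have h7 : f.r * (3 * (p : E) ^ 2 * q + 3 * (q : E) ^ 3) = f.r * 1 := by
      have h8 : (2 : E) ≠ 0 := two_ne_zero
      apply mul_left_cancel₀ h8
      linear_combination hc - hcb - 2 * (q : E) ^ 3 * f.r * hr
    exact mul_left_cancel₀ hr0 h7
  have h7 : 3 * p ^ 2 * q + 3 * q ^ 3 = 1 := by exact_mod_cast h6
  apply EPS_int (6 * q)
  have h8 : p ^ 2 = 1 + 3 * q ^ 2 := by linarith
  rw [h8] at h7
  linear_combination 18 * h7

theorem p_EPS (h1 : Stmt_CUB) (h2 : Stmt_FX12) (h3 : Stmt_COM) : Stmt_EPS := by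
  intro E _ _ _ f ε y hε hy q hq
  by_contra hd
  have he := EPS_eps f hε
  have hmod : q % 3 = 1 ∨ q % 3 = 2 := by omega
  rcases hmod with hm | hm
  · have hq' : q = 3 * (q / 3) + 1 := by omega
    set k := q / 3 with hk
    refine EPS_core h1 h2 h3 f hε (EPS_mul f hy (EPS_zpow f he (-k))) ?_
    rw [mul_pow, ← hq, ← zpow_natCast, ← zpow_mul, ← zpow_add]
    have : q + -k * ((3 : ℕ) : ℤ) = 1 := by push_cast; omega
    rw [this, zpow_one]
  · have hq' : q = 3 * (q / 3 + 1) - 1 := by omega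
    set k := q / 3 + 1 with hk
    refine EPS_core h1 h2 h3 f hε (EPS_mul f (EPS_zpow f hy (-1)) (EPS_zpow f he k)) ?_
    rw [mul_pow, ← zpow_natCast (y ^ (-1 : ℤ)), ← zpow_mul, mul_comm (-1 : ℤ), zpow_mul, zpow_natCast, ← hq,
      ← zpow_mul, ← zpow_natCast (ε ^ k), ← zpow_mul, ← zpow_add]
    have : q * -1 + k * ((3 : ℕ) : ℤ) = 1 := by push_cast; omega
    rw [this, zpow_one]

end Pool.CU
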