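import Pool.Agent.Work.MP_2b7bfc_cu.Interface3

namespace Pool.CU

open scoped NumberField
open IsDedekindDomain

theorem EQV_act_mul {E : Type} [Field E] [NumberField E] (σ τ : Gal(E/ℚ)) (x : K2 E) :
    act ((σ * τ : Gal(E/ℚ)) : E ≃+* E) x =
      act (σ : E ≃+* E) (act (τ : E ≃+* E) x) := by
  induction x using K2_induction with
  | h0 => simp only [map_zero]
  | hs a b => rfl
  | ha x y hx hy => rw [map_add, map_add, map_add, hx, hy]

theorem EQV_act_one {E : Type} [Field E] [NumberField E] (x : K2 E) :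
    act ((1 : Gal(E/ℚ)) : E ≃+* E) x = x := by
  induction x using K2_induction with
  | h0 => simp only [map_zero]
  | hs a b => rfl
  | ha x y hx hy => rw [map_add, hx, hy]

theorem EQV_pow {E : Type} [Field E] [NumberField E] (F : K2 E → ZMod 3) (c : ZMod 3)
    (σ : Gal(E/ℚ)) (h : ∀ x : K2 E, F (act (σ : E ≃+* E) x) = c * F x) (n : ℕ) (x : K2 E) :
    F (act ((σ ^ n : Gal(E/ℚ)) : E ≃+* E) x) = c ^ n * F x := by
  induction n generalizing x with
  | zero => rw [pow_zero, pow_zero, one_mul, EQV_act_one]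
  | succ n ih =>
    rw [pow_succ, EQV_act_mul, ih, h, pow_succ, mul_assoc]

theorem EQV_gu_pow {E : Type} [Field E] [NumberField E] (σ : Gal(E/ℚ)) (z : Eˣ) (m : ℕ)
    (h : gu σ z = z ^ m) (n : ℕ) : gu (σ ^ n) z = z ^ (m ^ n) := by
  induction n with
  | zero => rw [pow_zero, pow_zero, pow_one, gu_one]
  | succ n ih =>
    rw [pow_succ, gu_mul, h, map_pow, ih, ← pow_mul, pow_succ]

theorem p_EQV : Stmt_EQV := by
  intro E _ _ _ f L θ red hred hgal hphi σ x
  obtain ⟨i, j, k, hi, hj, hk, hσ⟩ := hgal σ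
  -- the left side
  have h1 : L.Phi (act (σ : E ≃+* E) x) = (-1) ^ i * ((-1) ^ j * L.Phi x) := by
    rw [hσ, EQV_act_mul, EQV_act_mul]
    rw [EQV_pow (fun y => L.Phi y) (-1) f.a (fun y => by rw [(hphi y).1]; ring)]
    rw [EQV_pow (fun y => L.Phi y) (-1) f.b (fun y => by rw [(hphi y).2.1]; ring)]
    rw [EQV_pow (fun y => L.Phi y) 1 f.s (fun y => by rw [(hphi y).2.2]; ring)]
    rw [one_pow, one_mul]
  -- the right side
  set u : (ZMod (44452 * 3))ˣ := IsCyclotomicExtension.Rat.galEquivZMod (44452 * 3) E σ with hu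
  set t : ℕ := (u : ZMod (44452 * 3)).val with ht
  have hcop : Nat.Coprime t 133356 := ZMod.val_coe_unit_coprime u
  have hθ : ((thetaVal E θ σ : Zp θ) : AlgebraicClosure ℚ_[3]) =
      θ ((t : ℕ) : ZMod (44452 * 3)) := by
    rw [ht, ZMod.natCast_zmod_val]
    rfl
  have h2 := hred t hcop _ hθ
  -- the exponent
  have hz1 : gu σ f.z = f.z ^ t := by
    apply Units.ext
    rw [gu_val, Units.val_pow_eq_pow_val]
    exact IsCyclotomicExtension.Rat.galEquivZMod_apply_of_pow_eq (44452 * 3) E σ (x := (f.z : E))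
      (by
        have := congrArg (fun u : Eˣ => (u : E)) f.hz.pow_eq_one
        simpa using this)
  have hz2 : gu σ f.z = f.z ^ (44453 ^ i * 66679 ^ j * 13 ^ k) := by
    rw [hσ, gu_mul, gu_mul, EQV_gu_pow f.s f.z 13 f.hs, map_pow, EQV_gu_pow f.b f.z 66679 f.hb,
      map_pow, map_pow, EQV_gu_pow f.a f.z 44453 f.ha, ← pow_mul, ← pow_mul, mul_assoc]
  have hmod : t % 133356 = (44453 ^ i * 66679 ^ j * 13 ^ k) % 133356 := by
    have h3 := hz1.symm.trans hz2
    have h4 := (pow_eq_pow_iff_modEq (x := f.z)).1 h3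
    rw [← f.hz.eq_orderOf] at h4
    exact h4
  have hmod12 : t % 12 = (44453 ^ i * 66679 ^ j * 13 ^ k) % 12 := by
    have h5 := congrArg (fun n => n % 12) hmod
    change t % 133356 % 12 = (44453 ^ i * 66679 ^ j * 13 ^ k) % 133356 % 12 at h5
    rwa [Nat.mod_mod_of_dvd _ (by norm_num : 12 ∣ 133356),
      Nat.mod_mod_of_dvd _ (by norm_num : 12 ∣ 133356)] at h5
  have h13 : 13 ^ k % 12 = 1 := by
    rw [Nat.pow_mod]
    norm_num
  have hmod' : t % 12 = ((44453 ^ i * 66679 ^ j) % 12) := by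
    rw [hmod12, Nat.mul_mod, h13, mul_one, Nat.mod_mod]
  rw [h1, h2, hmod']
  interval_cases i <;> interval_cases j <;> norm_num
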