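import Pool.Agent.Work.MP_2b7bfc_cu.Interface

/-! Block FRA (helper69): existence of a frame of the field of 133356-th roots of unity. -/

namespace Pool.CU

open scoped NumberField
open IsDedekindDomain

theorem FRA_aut (E : Type) [Field E] [NumberField E] [IsCyclotomicExtension {133356} ℚ E]
    (z : Eˣ) (hz : z ^ 133356 = 1) (m : ℕ) (hm : m.Coprime 133356) (hlt : m < 133356) :
    ∃ σ : Gal(E/ℚ), gu σ z = z ^ m := by
  refine ⟨(IsCyclotomicExtension.Rat.galEquivZMod 133356 E).symm (ZMod.unitOfCoprime m hm), ?_⟩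
  have hz' : (z : E) ^ 133356 = 1 := by
    have := congrArg (fun u : Eˣ => (u : E)) hz
    push_cast at this
    exact this
  have h := IsCyclotomicExtension.Rat.galEquivZMod_apply_of_pow_eq 133356 E
    ((IsCyclotomicExtension.Rat.galEquivZMod 133356 E).symm (ZMod.unitOfCoprime m hm)) hz'
  rw [MulEquiv.apply_symm_apply, ZMod.coe_unitOfCoprime, ZMod.val_natCast, Nat.mod_eq_of_lt hlt] at h
  apply Units.ext
  rw [gu_val, h]
  push_cast
  rfl

theorem p_FRA : Stmt_FRA := by
  intro E _ _ _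
  have h0 := IsCyclotomicExtension.zeta_spec 133356 ℚ E
  obtain ⟨z, hz0⟩ := h0.isUnit (by norm_num)
  have hz : IsPrimitiveRoot z 133356 := by
    rw [← IsPrimitiveRoot.coe_units_iff, hz0]
    exact h0
  obtain ⟨a, ha⟩ := FRA_aut E z hz.pow_eq_one 44453 (by norm_num) (by norm_num)
  obtain ⟨b, hb⟩ := FRA_aut E z hz.pow_eq_one 66679 (by norm_num) (by norm_num)
  obtain ⟨s, hs⟩ := FRA_aut E z hz.pow_eq_one 13 (by norm_num) (by norm_num)
  exact ⟨⟨z, hz, a, b, s, ha, hb, hs⟩⟩

end Pool.CU
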