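import Pool.Agent.Work.MP_2b7bfc_cu.Interface

/-! # THEOREM CUP: block FRO (Frobenius at 3) -/

set_option autoImplicit false

namespace Pool.CU

open scoped NumberField
open IsDedekindDomain

/-- the cube map in characteristic three -/
def FRO_F {R : Type} [CommRing R] (h : (3 : R) = 0) : R →+* R where
  toFun c := c ^ 3
  map_one' := one_pow 3
  map_mul' a b := mul_pow a b 3
  map_zero' := by simp
  map_add' a b := by
    linear_combination (a ^ 2 * b + a * b ^ 2) * h

lemma FRO_eval {R : Type} [CommRing R] (h : (3 : R) = 0) (c : R) (p : Polynomial ℤ) :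
    (Polynomial.eval₂ (Int.castRingHom R) c p) ^ 3 =
      Polynomial.eval₂ (Int.castRingHom R) (c ^ 3) p := by
  have h1 := Polynomial.hom_eval₂ p (Int.castRingHom R) (FRO_F h) c
  have h2 : (FRO_F h).comp (Int.castRingHom R) = Int.castRingHom R := RingHom.ext_int _ _
  rw [h2] at h1
  exact h1

lemma FRO_int {E : Type} [Field E] (n : ℕ) (hn : n ≠ 0) (z : Eˣ) (hz : z ^ n = 1) :
    IsIntegral ℤ (z : E) := by
  have h1 : (z : E) ^ n = 1 := by
    have := congrArg Units.val hz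
    rwa [Units.val_pow_eq_pow_val, Units.val_one] at this
  exact IsIntegral.of_pow (Nat.pos_of_ne_zero hn) (by rw [h1]; exact isIntegral_one)

theorem p_FRO (hADJ : Stmt_ADJ) (hVAL : Stmt_VAL) : Stmt_FRO := by
  intro E _ _ _ f σ v h3 ⟨y0, hy0, hy0v⟩
  obtain ⟨v', hv', hord⟩ := hVAL E σ v
  have hzi : IsIntegral ℤ (f.z : E) := FRO_int 133356 (by norm_num) f.z f.hz.pow_eq_one
  obtain ⟨Z, hZ⟩ : ∃ Z : 𝓞 E, algebraMap (𝓞 E) E Z = f.z := ⟨⟨f.z, hzi⟩, rfl⟩
  have hy0' : algebraMap (𝓞 E) E y0 = σ (f.z : E) - (f.z : E) ^ 3 := hy0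
  have hinj : Function.Injective (algebraMap (𝓞 E) E) := FaithfulSMul.algebraMap_injective _ _
  set φ := Ideal.Quotient.mk v.asIdeal with hφ
  have h3' : (3 : 𝓞 E ⧸ v.asIdeal) = 0 := by
    have := Ideal.Quotient.eq_zero_iff_mem.mpr h3
    rwa [map_ofNat] at this
  have hle : v.asIdeal ≤ v'.asIdeal := by
    intro x hx
    obtain ⟨p, hp⟩ := hADJ E f x
    have hyi : IsIntegral ℤ (σ (x : E)) := map_isIntegral_int σ (NumberField.RingOfIntegers.isIntegral_coe x)
    obtain ⟨y, hy⟩ : ∃ y : 𝓞 E, (y : E) = σ (x : E) := ⟨⟨σ x, hyi⟩, rfl⟩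
    rw [hv' x y hy]
    have hp' : algebraMap (𝓞 E) E x = Polynomial.aeval (f.z : E) p := hp
    have hy' : algebraMap (𝓞 E) E y = σ (Polynomial.aeval (f.z : E) p) := by
      rw [← hp]
      exact hy
    -- x = p(Z)
    have hx1 : x = Polynomial.eval₂ (Int.castRingHom (𝓞 E)) Z p := by
      apply hinj
      rw [Polynomial.hom_eval₂, hZ]
      have e : (algebraMap (𝓞 E) E).comp (Int.castRingHom (𝓞 E)) = algebraMap ℤ E :=
        RingHom.ext_int _ _
      rw [e]
      exact hp'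
    have hW : algebraMap (𝓞 E) E (y0 + Z ^ 3) = σ (f.z : E) := by
      rw [map_add, map_pow, hZ, hy0']
      ring
    have hy1 : y = Polynomial.eval₂ (Int.castRingHom (𝓞 E)) (y0 + Z ^ 3) p := by
      apply hinj
      rw [Polynomial.hom_eval₂, hW, hy']
      have e : (algebraMap (𝓞 E) E).comp (Int.castRingHom (𝓞 E)) = algebraMap ℤ E :=
        RingHom.ext_int _ _
      rw [e, Polynomial.aeval_def]
      have e2 := Polynomial.hom_eval₂ p (algebraMap ℤ E) ((σ : E ≃+* E) : E →+* E) (f.z : E)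
      have e3 : ((σ : E ≃+* E) : E →+* E).comp (algebraMap ℤ E) = algebraMap ℤ E :=
        RingHom.ext_int _ _
      rw [e3] at e2
      exact e2
    have hφx : φ x = Polynomial.eval₂ (Int.castRingHom (𝓞 E ⧸ v.asIdeal)) (φ Z) p := by
      rw [hx1, Polynomial.hom_eval₂]
      congr 1
    have hφy : φ y = Polynomial.eval₂ (Int.castRingHom (𝓞 E ⧸ v.asIdeal)) (φ Z ^ 3) p := by
      rw [hy1, Polynomial.hom_eval₂, map_add, map_pow,
        Ideal.Quotient.eq_zero_iff_mem.mpr hy0v, zero_add]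
      congr 1
    have hxy : φ y = φ x ^ 3 := by
      rw [hφy, hφx, FRO_eval h3']
    have hx0 : φ x = 0 := Ideal.Quotient.eq_zero_iff_mem.mpr hx
    rw [hx0] at hxy
    exact Ideal.Quotient.eq_zero_iff_mem.mp (by rw [← hφ, hxy]; simp)
  have heq : v = v' := HeightOneSpectrum.ext (v.isMaximal.eq_of_le v'.isPrime.ne_top hle)
  intro x
  rw [hord x, ← heq]

end Pool.CU
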