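import Pool.Agent.Work.MP_2b7bfc_cu.Interface

/-! # Block FX12: the fixed field of `a b` and `s` is `ℚ(√3)` -/

namespace Pool.CU

open scoped NumberField
open IsDedekindDomain

theorem FX12_pow {E : Type} [Field E] [NumberField E] (σ : Gal(E/ℚ)) (y : E) (h : σ y = y)
    (k : ℕ) : (σ ^ k) y = y := by
  induction k with
  | zero => rw [pow_zero, AlgEquiv.one_apply]
  | succ k ih => rw [pow_succ, AlgEquiv.mul_apply, h, ih]

theorem FX12_rat (hGAL : Stmt_GAL) {E : Type} [Field E] [NumberField E]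
    [IsCyclotomicExtension {133356} ℚ E] (f : Frame E) (y : E) (ha : f.a y = y) (hb : f.b y = y)
    (hs : f.s y = y) : ∃ p : ℚ, y = (p : E) := by
  haveI : IsGalois ℚ E := IsCyclotomicExtension.isGalois {133356} ℚ E
  have h1 : y ∈ (⊥ : IntermediateField ℚ E) := by
    rw [IsGalois.mem_bot_iff_fixed]
    intro σ
    obtain ⟨i, j, k, -, -, -, rfl⟩ := hGAL E f σ
    rw [AlgEquiv.mul_apply, AlgEquiv.mul_apply, FX12_pow _ _ hs, FX12_pow _ _ hb, FX12_pow _ _ ha]
  rw [IntermediateField.mem_bot] at h1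
  obtain ⟨p, hp⟩ := h1
  exact ⟨p, by rw [← hp, eq_ratCast]⟩

theorem p_FX12 (hGAL : Stmt_GAL) (hCOM : Stmt_COM) : Stmt_FX12 := by
  intro E _ _ _ f x hab hs
  obtain ⟨hc, haa, -, -⟩ := hCOM E f
  have haa' : ∀ y, f.a (f.a y) = y := by
    intro y
    rw [← AlgEquiv.mul_apply, haa, AlgEquiv.one_apply]
  have hcomm : ∀ (σ τ : Gal(E/ℚ)) (y : E), σ (τ y) = τ (σ y) := by
    intro σ τ y
    rw [← AlgEquiv.mul_apply, hc, AlgEquiv.mul_apply]
  have hb : f.b x = f.a x := by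
    rw [← haa' (f.b x), hab]
  have hba : f.b (f.a x) = x := by
    rw [hcomm, hab]
  have hsa : f.s (f.a x) = f.a x := by
    rw [hcomm, hs]
  obtain ⟨p, hp⟩ := FX12_rat hGAL f (x + f.a x) (by rw [map_add, haa', add_comm])
    (by rw [map_add, hb, hba, add_comm]) (by rw [map_add, hs, hsa])
  obtain ⟨q, hq⟩ := FX12_rat hGAL f ((x - f.a x) * f.r)
    (by rw [map_mul, map_sub, haa', f.a_r]; ring)
    (by rw [map_mul, map_sub, hb, hba, f.b_r]; ring)
    (by rw [map_mul, map_sub, hs, hsa, f.s_r])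
  refine ⟨p / 2, q / 6, ?_⟩
  have hr := f.r_sq
  push_cast
  have h3 : (x - f.a x) * 3 = q * f.r := by
    rw [← hr, ← hq]
    ring
  have h6 : (6 : E) ≠ 0 := by norm_num
  have h2 : (2 : E) ≠ 0 := by norm_num
  apply mul_left_cancel₀ h6
  have e1 : (6 : E) * ((p : E) / 2 + (q : E) / 6 * f.r) = 3 * (p : E) + (q : E) * f.r := by
    field_simp
    ring
  rw [e1, ← hp, ← h3]
  ring

end Pool.CU
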