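import Pool.Agent.Work.MP_2b7bfc_cu.Interface4

/-! Block GAD of THEOREM CUP -/

namespace Pool.CU

open scoped NumberField
open IsDedekindDomain

theorem p_GAD : Stmt_GAD := by
  intro E _ _ f
  have hzl : IsPrimitiveRoot (f.zl : E) 11113 := IsPrimitiveRoot.coe_units_iff.2 f.zl_prim
  haveI : NeZero (11113 : ℕ) := ⟨by norm_num⟩
  have ha : f.a (f.zl : E) = f.zl := by
    have := congrArg (fun u : Eˣ => (u : E)) f.a_zl
    simpa only [gu_val] using this
  have hb : f.b (f.zl : E) = f.zl := by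
    have := congrArg (fun u : Eˣ => (u : E)) f.b_zl
    simpa only [gu_val] using this
  have hs : f.s (f.zl : E) = (f.zl : E) ^ 13 := by
    have := congrArg (fun u : Eˣ => (u : E)) f.s_zl
    simpa only [gu_val, Units.val_pow_eq_pow_val] using this
  have hint : IsIntegral ℤ (f.zl : E) := hzl.isIntegral (by norm_num)
  refine ⟨AddChar.zmodChar 11113 hzl.pow_eq_one,
    AddChar.zmodChar_primitive_of_primitive_root 11113 hzl, ?_⟩
  intro t
  have hψ : AddChar.zmodChar 11113 hzl.pow_eq_one t = (f.zl : E) ^ t.val :=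
    AddChar.zmodChar_apply _ _
  have h13 : AddChar.zmodChar 11113 hzl.pow_eq_one (13 * t) =
      (AddChar.zmodChar 11113 hzl.pow_eq_one t) ^ 13 := by
    rw [← AddChar.map_nsmul_eq_pow]
    congr 1
    rw [nsmul_eq_mul]
    norm_num
  refine ⟨?_, ?_, ?_, ?_⟩
  · rw [hψ, map_pow, ha]
  · rw [hψ, map_pow, hb]
  · rw [h13, hψ, map_pow, hs, ← pow_mul, ← pow_mul, mul_comm]
  · rw [hψ]
    exact hint.pow _

end Pool.CU
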