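import Pool.Agent.Work.MP_2b7bfc_cu.Interface

/-! # Block GAL of THEOREM CUP -/

namespace Pool.CU

open scoped NumberField
open IsDedekindDomain

theorem GAL_prime : Nat.Prime 11113 := by norm_num

theorem GAL_primes {p : ℕ} (hp : p.Prime) (h : p ∣ 11112) : p = 2 ∨ p = 3 ∨ p = 463 := by
  have h1 : p ∣ 2 ^ 3 * 3 * 463 := by
    have : (2 ^ 3 * 3 * 463 : ℕ) = 11112 := by norm_num
    rw [this]; exact h
  have hp2 : Nat.Prime 2 := by norm_num
  have hp3 : Nat.Prime 3 := by norm_num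
  have hp463 : Nat.Prime 463 := by norm_num
  rcases (Nat.Prime.dvd_mul hp).1 h1 with h2 | h2
  · rcases (Nat.Prime.dvd_mul hp).1 h2 with h3 | h3
    · left
      exact (Nat.prime_dvd_prime_iff_eq hp hp2).1 (hp.dvd_of_dvd_pow h3)
    · right; left
      exact (Nat.prime_dvd_prime_iff_eq hp hp3).1 h3
  · right; right
    exact (Nat.prime_dvd_prime_iff_eq hp hp463).1 h2

theorem GAL_ne (n r : ℕ) (h : 13 ^ n % 11113 = r) (h1 : r ≠ 1)
    (g : (ZMod 11113)ˣ) (hg : (g : ZMod 11113) = 13) : g ^ n ≠ 1 := by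
  intro h2
  have h3 : ((g ^ n : (ZMod 11113)ˣ) : ZMod 11113) = 1 := by rw [h2]; rfl
  rw [Units.val_pow_eq_pow_val, hg] at h3
  have h4 : ((13 ^ n : ℕ) : ZMod 11113) = ((1 : ℕ) : ZMod 11113) := by
    push_cast
    exact h3
  rw [ZMod.natCast_eq_natCast_iff'] at h4
  rw [h] at h4
  norm_num at h4
  exact h1 h4

theorem GAL_order (g : (ZMod 11113)ˣ) (hg : (g : ZMod 11113) = 13) : orderOf g = 11112 := by
  have : Fact (Nat.Prime 11113) := ⟨GAL_prime⟩
  refine orderOf_eq_of_pow_and_pow_div_prime (by norm_num) ?_ ?_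
  · exact ZMod.units_pow_card_sub_one_eq_one 11113 g
  · intro p hp hd
    rcases GAL_primes hp hd with h | h | h
    · subst h
      exact GAL_ne _ (13 ^ 5556 % 11113) rfl (by decide +kernel) g hg
    · subst h
      exact GAL_ne _ (13 ^ 3704 % 11113) rfl (by decide +kernel) g hg
    · subst h
      exact GAL_ne _ (13 ^ 24 % 11113) rfl (by decide +kernel) g hg

theorem GAL_root (m : ℕ) (hm : m.Coprime 11113) : ∃ k, k < 11112 ∧ 13 ^ k ≡ m [MOD 11113] := by
  have : Fact (Nat.Prime 11113) := ⟨GAL_prime⟩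
  have h13 : Nat.Coprime 13 11113 := by norm_num
  obtain ⟨g, hg⟩ : ∃ g : (ZMod 11113)ˣ, (g : ZMod 11113) = 13 :=
    ⟨ZMod.unitOfCoprime 13 h13, by simp⟩
  have hord := GAL_order g hg
  have htop : Subgroup.zpowers g = ⊤ := by
    apply Subgroup.eq_top_of_card_eq
    rw [Nat.card_zpowers, hord, Nat.card_eq_fintype_card, ZMod.card_units_eq_totient,
      Nat.totient_prime GAL_prime]
  have hu : ZMod.unitOfCoprime m hm ∈ Subgroup.zpowers g := by rw [htop]; trivial
  rw [mem_zpowers_iff_mem_range_orderOf, Finset.mem_image] at hu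
  obtain ⟨k, hk, hk2⟩ := hu
  rw [Finset.mem_range, hord] at hk
  refine ⟨k, hk, ?_⟩
  rw [← ZMod.natCast_eq_natCast_iff]
  have h3 := congrArg (fun u : (ZMod 11113)ˣ => (u : ZMod 11113)) hk2
  simp only [Units.val_pow_eq_pow_val, ZMod.coe_unitOfCoprime] at h3
  rw [hg] at h3
  push_cast
  exact h3

theorem GAL_crt (x y : ℕ) (h1 : x ≡ y [MOD 12]) (h2 : x ≡ y [MOD 11113]) :
    x ≡ y [MOD 133356] := by
  have h : (12 : ℕ).Coprime 11113 := by norm_num
  have := (Nat.modEq_and_modEq_iff_modEq_mul h).1 ⟨h1, h2⟩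
  exact this

theorem GAL_arith (m : ℕ) (hm : m.Coprime 133356) :
    ∃ i j k : ℕ, i < 2 ∧ j < 2 ∧ k < 11112 ∧ 44453 ^ i * 66679 ^ j * 13 ^ k ≡ m [MOD 133356] := by
  have hm1 : m.Coprime 11113 := Nat.Coprime.coprime_dvd_right (by norm_num) hm
  have hm2 : m.Coprime 12 := Nat.Coprime.coprime_dvd_right (by norm_num) hm
  obtain ⟨k, hk, hkm⟩ := GAL_root m hm1
  have h13 : 13 ^ k ≡ 1 [MOD 12] := by
    have h : (13 : ℕ) ≡ 1 [MOD 12] := by decide
    simpa using h.pow k
  have key : ∀ i j : ℕ, i < 2 → j < 2 → 44453 ^ i * 66679 ^ j ≡ m [MOD 12] →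
      44453 ^ i * 66679 ^ j * 13 ^ k ≡ m [MOD 133356] := by
    intro i j _ _ h
    apply GAL_crt
    · simpa using h.mul h13
    · have ha : (44453 : ℕ) ≡ 1 [MOD 11113] := by decide
      have hb : (66679 : ℕ) ≡ 1 [MOD 11113] := by decide
      have h3 := ((ha.pow i).mul (hb.pow j)).mul hkm
      simpa using h3
  have h4 : m % 12 = 1 ∨ m % 12 = 5 ∨ m % 12 = 7 ∨ m % 12 = 11 := by
    have h5 : Nat.Coprime (m % 12) 12 := by
      have h7 := Nat.gcd_rec 12 m
      rw [Nat.Coprime, ← h7, Nat.gcd_comm]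
      exact hm2
    have h6 : m % 12 < 12 := Nat.mod_lt _ (by norm_num)
    revert h5
    interval_cases (m % 12) <;> norm_num
  rcases h4 with h | h | h | h
  · exact ⟨0, 0, k, by norm_num, by norm_num, hk, key 0 0 (by norm_num) (by norm_num)
      (by unfold Nat.ModEq; rw [h]; norm_num)⟩
  · exact ⟨1, 0, k, by norm_num, by norm_num, hk, key 1 0 (by norm_num) (by norm_num)
      (by unfold Nat.ModEq; rw [h]; norm_num)⟩
  · exact ⟨0, 1, k, by norm_num, by norm_num, hk, key 0 1 (by norm_num) (by norm_num)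
      (by unfold Nat.ModEq; rw [h]; norm_num)⟩
  · exact ⟨1, 1, k, by norm_num, by norm_num, hk, key 1 1 (by norm_num) (by norm_num)
      (by unfold Nat.ModEq; rw [h]; norm_num)⟩

/-- The exponent of an automorphism on roots of unity. -/
theorem GAL_exp {E : Type} [Field E] [NumberField E] [IsCyclotomicExtension {133356} ℚ E]
    (f : Frame E) (σ : Gal(E/ℚ)) : ∃ m : ℕ, m.Coprime 133356 ∧ gu σ f.z = f.z ^ m := by
  have hz : (f.z : E) ^ 133356 = 1 := by
    have := congrArg (fun u : Eˣ => (u : E)) f.hz.pow_eq_one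
    simpa using this
  have h1 := IsCyclotomicExtension.Rat.galEquivZMod_apply_of_pow_eq 133356 E σ hz
  refine ⟨(IsCyclotomicExtension.Rat.galEquivZMod 133356 E σ).val.val, ?_, ?_⟩
  · exact ZMod.val_coe_unit_coprime _
  · apply Units.ext
    rw [gu_val, h1, Units.val_pow_eq_pow_val]

theorem GAL_gu_pow {E : Type} [Field E] [NumberField E] (z : Eˣ) (σ : Gal(E/ℚ)) (m : ℕ)
    (h : gu σ z = z ^ m) (i : ℕ) : gu (σ ^ i) z = z ^ (m ^ i) := by
  induction i with
  | zero => rw [pow_zero, pow_zero, pow_one, gu_one]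
  | succ n ih =>
    rw [pow_succ, gu_mul, h, map_pow, ih, ← pow_mul, pow_succ]

theorem GAL_ext {E : Type} [Field E] [NumberField E] [IsCyclotomicExtension {133356} ℚ E]
    (f : Frame E) (σ τ : Gal(E/ℚ)) (h : gu σ f.z = gu τ f.z) : σ = τ := by
  have hz : (f.z : E) ^ 133356 = 1 := by
    have := congrArg (fun u : Eˣ => (u : E)) f.hz.pow_eq_one
    simpa using this
  have h1 := IsCyclotomicExtension.Rat.galEquivZMod_apply_of_pow_eq 133356 E σ hz
  have h2 := IsCyclotomicExtension.Rat.galEquivZMod_apply_of_pow_eq 133356 E τ hz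
  apply (IsCyclotomicExtension.Rat.galEquivZMod 133356 E).injective
  apply Units.ext
  apply ZMod.val_injective
  refine f.hz.pow_inj (ZMod.val_lt _) (ZMod.val_lt _) ?_
  apply Units.ext
  rw [Units.val_pow_eq_pow_val, Units.val_pow_eq_pow_val]
  exact h1.symm.trans ((congrArg (fun u : Eˣ => (u : E)) h).trans h2)

theorem p_GAL : Stmt_GAL := by
  intro E _ _ _ f σ
  obtain ⟨m, hm, hσ⟩ := GAL_exp f σ
  obtain ⟨i, j, k, hi, hj, hk, h⟩ := GAL_arith m hm
  refine ⟨i, j, k, hi, hj, hk, ?_⟩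
  apply GAL_ext f
  rw [hσ, gu_mul, gu_mul, GAL_gu_pow f.z f.s 13 f.hs k, map_pow, map_pow,
    GAL_gu_pow f.z f.b 66679 f.hb j, map_pow, GAL_gu_pow f.z f.a 44453 f.ha i, ← pow_mul, ← pow_mul,
    ← mul_assoc]
  exact f.z_pow_congr h.symm

end Pool.CU
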