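import Pool.Agent.Work.MP_2b7bfc_cu.Interface4

/-! # Block GCH of THEOREM CUP: a cubic character modulo 11113 -/

namespace Pool.CU

open scoped NumberField
open IsDedekindDomain

theorem GCH_pow : (13 : ZMod 11113) ^ 3704 ≠ 1 := by
  intro h
  have h1 : ((13 ^ 3704 : ℕ) : ZMod 11113) = ((1 : ℕ) : ZMod 11113) := by
    push_cast
    exact h
  rw [ZMod.natCast_eq_natCast_iff'] at h1
  exact absurd h1 (by decide +kernel)

theorem GCH_ne {E : Type} [Field E] (χ : MulChar (ZMod 11113) E) (h1 : χ ≠ 1) (h3 : χ ^ 3 = 1) :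
    χ 13 ≠ 1 := by
  intro h
  obtain ⟨g, hg⟩ := IsCyclic.exists_generator (α := (ZMod 11113)ˣ)
  have h130 : (13 : ZMod 11113) ≠ 0 := by decide
  have hx : ∀ u : (ZMod 11113)ˣ, ∃ m : ℕ, g ^ m = u := fun u =>
    (mem_powers_iff_mem_zpowers.2 (hg u))
  obtain ⟨m, hm⟩ := hx (Units.mk0 13 h130)
  have hm' : ((g : ZMod 11113)) ^ m = 13 := by
    have := congrArg (fun u : (ZMod 11113)ˣ => (u : ZMod 11113)) hm
    simpa using this
  have hg1 : χ g ≠ 1 := by
    intro h0
    refine h1 (MulChar.ext fun u => ?_)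
    obtain ⟨k, rfl⟩ := hx u
    rw [MulChar.one_apply_coe, Units.val_pow_eq_pow_val, map_pow, h0, one_pow]
  have hg3 : χ g ^ 3 = 1 := by
    rw [← MulChar.pow_apply' χ (by norm_num), h3, MulChar.one_apply_coe]
  have hgm : χ g ^ m = 1 := by
    rw [← map_pow, hm', h]
  have ho : orderOf (χ g) = 3 := orderOf_eq_prime hg3 hg1
  obtain ⟨j, rfl⟩ : 3 ∣ m := ho ▸ orderOf_dvd_of_pow_eq_one hgm
  refine GCH_pow ?_
  rw [← hm', ← pow_mul]
  have e : 3 * j * 3704 = 11112 * j := by ring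
  have h4 : (g : ZMod 11113) ^ 11112 = 1 := by
    have := ZMod.units_pow_card_sub_one_eq_one 11113 g
    have h5 := congrArg (fun u : (ZMod 11113)ˣ => (u : ZMod 11113)) this
    simpa using h5
  rw [e, pow_mul, h4, one_pow]

theorem p_GCH : Stmt_GCH := by
  intro E _ _ f
  have hw : IsPrimitiveRoot ((f.w : Eˣ) : E) 3 := IsPrimitiveRoot.coe_units_iff.2 f.w_prim
  obtain ⟨χ, hχ⟩ := MulChar.exists_mulChar_orderOf (ZMod 11113) (n := 3)
    (by rw [ZMod.card]; norm_num) hw
  have h1 : χ ≠ 1 := by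
    rintro rfl
    rw [orderOf_one] at hχ
    norm_num at hχ
  have h3 : χ ^ 3 = 1 := by
    rw [← hχ]
    exact pow_orderOf_eq_one χ
  have h130 : (13 : ZMod 11113) ≠ 0 := by decide
  have ha : f.a ((f.w : Eˣ) : E) = (f.w : E) ^ 2 := by
    have := congrArg (fun u : Eˣ => (u : E)) f.a_w
    rw [gu_val, Units.val_pow_eq_pow_val] at this
    exact this
  have hb : f.b ((f.w : Eˣ) : E) = (f.w : E) := by
    have := congrArg (fun u : Eˣ => (u : E)) f.b_w
    rwa [gu_val] at this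
  have hs : f.s ((f.w : Eˣ) : E) = (f.w : E) := by
    have := congrArg (fun u : Eˣ => (u : E)) f.s_w
    rwa [gu_val] at this
  have hw3 := f.w_pow_three
  have hinv : χ⁻¹ = χ ^ 2 := by
    rw [inv_eq_iff_mul_eq_one, ← pow_succ', h3]
  refine ⟨χ, h1, h3, ?_, ?_⟩
  · obtain ⟨k, hk, hk'⟩ := MulChar.exists_apply_eq_pow h3 hw h130
    interval_cases k
    · exact absurd (by rw [hk', pow_zero]) (GCH_ne χ h1 h3)
    · left
      rw [hk', pow_one]
    · right
      exact hk'
  · intro t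
    rcases eq_or_ne t 0 with rfl | ht
    · have e1 : χ (0 : ZMod 11113) = 0 := χ.map_nonunit not_isUnit_zero
      have e2 : χ⁻¹ (0 : ZMod 11113) = 0 := χ⁻¹.map_nonunit not_isUnit_zero
      rw [e1, e2]
      simp only [map_zero, true_and, and_self]
      exact isIntegral_zero
    · obtain ⟨k, hk, hk'⟩ := MulChar.exists_apply_eq_pow h3 hw ht
      have e2 : χ⁻¹ t = ((f.w : E) ^ k) ^ 2 := by
        rw [hinv, MulChar.pow_apply' χ (by norm_num), hk']
      have e3 : ((((f.w : E) ^ 2) ^ k) ^ 2) = (f.w : E) ^ k := by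
        rw [← pow_mul, ← pow_mul, show 2 * (k * 2) = 3 * k + k by ring, pow_add, pow_mul, hw3,
          one_pow, one_mul]
      have hi : IsIntegral ℤ ((f.w : E)) := hw.isIntegral (by norm_num)
      rw [e2, hk']
      simp only [map_pow, ha, hb, hs]
      refine ⟨by rw [← pow_mul, ← pow_mul, mul_comm], e3, trivial, trivial, trivial, trivial,
        hi.pow k, (hi.pow k).pow 2⟩

end Pool.CU
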