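import Pool.Agent.Work.MP_2b7bfc_cu.Interface4

/-! # Block GJA of THEOREM CUP: relations between the cubic Gauss sums -/

namespace Pool.CU

open scoped NumberField
open IsDedekindDomain

theorem GJA_check : ∀ n ∈ Finset.Icc (-40 : ℤ) 40, ∀ p ∈ Finset.Icc (-40 : ℤ) 40,
    (3 * n - 1) ^ 2 - (3 * n - 1) * (3 * p) + (3 * p) ^ 2 = 11113 →
      (n = -16 ∧ p = 24) ∨ (n = -40 ∧ p = -24) := by
  decide +kernel

theorem GJA_int (n p : ℤ)
    (h : (3 * n - 1) ^ 2 - (3 * n - 1) * (3 * p) + (3 * p) ^ 2 = 11113) :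
    (n = -16 ∧ p = 24) ∨ (n = -40 ∧ p = -24) := by
  have hx : (3 * n - 1) ^ 2 < 122 ^ 2 := by
    nlinarith [sq_nonneg (2 * (3 * p) - (3 * n - 1))]
  have hy : (3 * p) ^ 2 < 122 ^ 2 := by
    nlinarith [sq_nonneg (2 * (3 * n - 1) - 3 * p)]
  have hx' := abs_lt_of_sq_lt_sq hx (by norm_num)
  have hy' := abs_lt_of_sq_lt_sq hy (by norm_num)
  rw [abs_lt] at hx' hy'
  refine GJA_check n ?_ p ?_ h
  · rw [Finset.mem_Icc]
    omega
  · rw [Finset.mem_Icc]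
    omega

theorem GJA_adjoin {E : Type} [Field E] (w : E) (hw : w ^ 2 + w + 1 = 0) (z : E)
    (hz : z ∈ Algebra.adjoin ℤ {w}) : ∃ m n : ℤ, z = m + n * w := by
  induction hz using Algebra.adjoin_induction with
  | mem x hx =>
    rw [Set.mem_singleton_iff] at hx
    exact ⟨0, 1, by rw [hx]; push_cast; ring⟩
  | algebraMap r => exact ⟨r, 0, by simp⟩
  | add x y _ _ hx hy =>
    obtain ⟨m, n, rfl⟩ := hx
    obtain ⟨m', n', rfl⟩ := hy
    exact ⟨m + m', n + n', by push_cast; ring⟩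
  | mul x y _ _ hx hy =>
    obtain ⟨m, n, rfl⟩ := hx
    obtain ⟨m', n', rfl⟩ := hy
    refine ⟨m * m' - n * n', m * n' + n * m' - n * n', ?_⟩
    push_cast
    linear_combination (n * n' : E) * hw

theorem GJA_neg_one {E : Type} [Field E] (χ : MulChar (ZMod 11113) E) (h3 : χ ^ 3 = 1) :
    χ (-1) = 1 := by
  have h1 : χ (-1) ^ 3 = 1 := by
    have h := congrArg (fun c : MulChar (ZMod 11113) E => c (-1)) h3
    rw [MulChar.pow_apply' _ (by norm_num)] at h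
    rw [h, MulChar.one_apply isUnit_one.neg]
  have h2 : χ (-1) ^ 2 = 1 := by
    rw [← map_pow, neg_one_sq, map_one]
  calc χ (-1) = χ (-1) ^ 3 * χ (-1) := by rw [h1, one_mul]
    _ = (χ (-1) ^ 2) ^ 2 := by ring
    _ = 1 := by rw [h2, one_pow]

theorem p_GJA : Stmt_GJA := by
  intro E _ _ f χ ψ hχ1 hχ3 hψ ha
  have hw : (f.w : E) ^ 2 + (f.w : E) + 1 = 0 := f.w_sq
  have hinv : χ⁻¹ = χ * χ := by
    rw [inv_eq_iff_mul_eq_one, ← pow_two, ← pow_succ']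
    exact hχ3
  have hinv2 : χ⁻¹ * χ⁻¹ = χ := by
    rw [hinv, ← pow_two, ← pow_two, ← pow_mul]
    change χ ^ 4 = χ
    rw [pow_succ, hχ3, one_mul]
  have hinv1 : χ⁻¹ ≠ 1 := by
    intro h
    exact hχ1 (inv_eq_one.1 h)
  have hinv3 : χ⁻¹ ^ 3 = 1 := by rw [inv_pow, hχ3, inv_one]
  -- the product
  have hGG : gaussSum χ ψ * gaussSum χ⁻¹ ψ = 11113 := by
    have h1 := gaussSum_mul_gaussSum_eq_card hχ1 hψ
    have h2 := mul_gaussSum_inv_eq_gaussSum χ⁻¹ ψ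
    rw [GJA_neg_one χ⁻¹ hinv3, one_mul] at h2
    rw [h2, ZMod.card] at h1
    rw [h1]
    norm_num
  -- the Jacobi sums
  have hJ1 : gaussSum χ⁻¹ ψ * jacobiSum χ χ = gaussSum χ ψ * gaussSum χ ψ := by
    have h := jacobiSum_mul_nontrivial (χ := χ) (φ := χ) (by rw [← hinv]; exact hinv1) ψ
    rw [← hinv] at h
    exact h
  have hJ2 : gaussSum χ ψ * jacobiSum χ⁻¹ χ⁻¹ = gaussSum χ⁻¹ ψ * gaussSum χ⁻¹ ψ := by
    have h := jacobiSum_mul_nontrivial (χ := χ⁻¹) (φ := χ⁻¹) (by rw [hinv2]; exact hχ1) ψ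
    rw [hinv2] at h
    exact h
  have hJa : f.a (jacobiSum χ χ) = jacobiSum χ⁻¹ χ⁻¹ := by
    simp only [jacobiSum, map_sum, map_mul]
    exact Finset.sum_congr rfl (fun x _ => by rw [ha, ha])
  have hJJ : jacobiSum χ χ * jacobiSum χ⁻¹ χ⁻¹ = 11113 := by
    have hne : (11113 : E) ≠ 0 := by norm_num
    have h : (11113 : E) * (jacobiSum χ χ * jacobiSum χ⁻¹ χ⁻¹) = 11113 * 11113 := by
      rw [← hGG]
      calc gaussSum χ ψ * gaussSum χ⁻¹ ψ * (jacobiSum χ χ * jacobiSum χ⁻¹ χ⁻¹)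
          = (gaussSum χ⁻¹ ψ * jacobiSum χ χ) * (gaussSum χ ψ * jacobiSum χ⁻¹ χ⁻¹) := by ring
        _ = _ := by rw [hJ1, hJ2]; ring
    exact mul_left_cancel₀ hne h
  have haw : f.a (f.w : E) = (f.w : E) ^ 2 := by
    have := congrArg (fun u : Eˣ => (u : E)) f.a_w
    simpa only [gu_val, Units.val_pow_eq_pow_val] using this
  have hprim : IsPrimitiveRoot (f.w : E) 3 := IsPrimitiveRoot.coe_units_iff.2 f.w_prim
  obtain ⟨z, hz, hJz⟩ := exists_jacobiSum_eq_neg_one_add (n := 3) (by norm_num) (χ := χ) (ψ := χ)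
    hχ3 hχ3 (by rw [ZMod.card]; norm_num) hprim
  obtain ⟨m, n, rfl⟩ := GJA_adjoin (f.w : E) hw z hz
  have hJ : jacobiSum χ χ = ((3 * n - 1 : ℤ) : E) + ((3 * (n - m) : ℤ) : E) * (f.w : E) := by
    rw [hJz]
    push_cast
    linear_combination (m + n * (f.w : E) - 3 * n) * hw
  have hJ' : jacobiSum χ⁻¹ χ⁻¹ =
      ((3 * n - 1 : ℤ) : E) + ((3 * (n - m) : ℤ) : E) * (f.w : E) ^ 2 := by
    rw [← hJa, hJ, map_add, map_mul, map_intCast, map_intCast, haw]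
  have hint : (3 * n - 1) ^ 2 - (3 * n - 1) * (3 * (n - m)) + (3 * (n - m)) ^ 2 = 11113 := by
    have h : (((3 * n - 1) ^ 2 - (3 * n - 1) * (3 * (n - m)) + (3 * (n - m)) ^ 2 : ℤ) : E) =
        ((11113 : ℤ) : E) := by
      rw [hJ, hJ'] at hJJ
      push_cast at hJJ ⊢
      rw [← hJJ]
      linear_combination (-((3 * (n : E) - 1) * (3 * ((n : E) - m))) -
        (3 * ((n : E) - m)) ^ 2 * ((f.w : E) - 1)) * hw
    exact_mod_cast h
  refine ⟨hGG, jacobiSum χ χ, jacobiSum χ⁻¹ χ⁻¹, ?_, ?_, ?_⟩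
  · rw [pow_two, ← hJ1, mul_comm]
  · rw [pow_two, ← hJ2, mul_comm]
  · rcases GJA_int n (n - m) hint with ⟨h1, h2⟩ | ⟨h1, h2⟩
    · left
      rw [hJ, hJ', h2, h1]
      constructor
      · push_cast; ring
      · push_cast; linear_combination 72 * hw
    · right
      rw [hJ, hJ', h2, h1]
      constructor
      · push_cast; ring
      · push_cast; linear_combination (-72) * hw

end Pool.CU
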