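import Pool.Agent.Work.MP_2b7bfc_cu.Interface4

/-! Block GSS of THEOREM CUP -/

namespace Pool.CU

open scoped NumberField
open IsDedekindDomain

theorem GSS_map {E : Type} [Field E] [NumberField E] (σ : Gal(E/ℚ))
    (χ χ' : MulChar (ZMod 11113) E) (ψ ψ' : AddChar (ZMod 11113) E)
    (h1 : ∀ t, σ (χ t) = χ' t) (h2 : ∀ t, σ (ψ t) = ψ' t) :
    σ (gaussSum χ ψ) = gaussSum χ' ψ' := by
  simp only [gaussSum, map_sum, map_mul]
  exact Finset.sum_congr rfl fun t _ => by rw [h1, h2]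

theorem GSS_int {E : Type} [Field E] [NumberField E] (χ : MulChar (ZMod 11113) E)
    (ψ : AddChar (ZMod 11113) E) (h1 : ∀ t, IsIntegral ℤ (χ t)) (h2 : ∀ t, IsIntegral ℤ (ψ t)) :
    IsIntegral ℤ (gaussSum χ ψ) := by
  simp only [gaussSum]
  exact IsIntegral.sum _ fun t _ => (h1 t).mul (h2 t)

theorem GSS_s {E : Type} [Field E] [NumberField E] (σ : Gal(E/ℚ))
    (χ : MulChar (ZMod 11113) E) (ψ : AddChar (ZMod 11113) E)
    (h1 : ∀ t, σ (χ t) = χ t) (h2 : ∀ t, σ (ψ t) = ψ (13 * t)) :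
    χ 13 * σ (gaussSum χ ψ) = gaussSum χ ψ := by
  have hu : IsUnit (13 : ZMod 11113) := by
    rw [isUnit_iff_ne_zero]
    intro h
    have h' : ((13 : ℕ) : ZMod 11113) = 0 := by exact_mod_cast h
    rw [ZMod.natCast_eq_zero_iff] at h'
    norm_num at h'
  obtain ⟨a, ha⟩ := hu
  have h3 := gaussSum_mulShift χ ψ a
  rw [ha] at h3
  rw [GSS_map σ χ χ ψ (AddChar.mulShift ψ 13) h1 (fun t => by
    rw [h2, AddChar.mulShift_apply])]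
  exact h3

theorem GSS_inv {E : Type} [Field E] (w x g : E) (hw : w ^ 3 = 1) (h : w * x = g) :
    x = w ^ 2 * g := by
  rw [← h]
  linear_combination (-x) * hw

theorem p_GSS (hGCH : Stmt_GCH) (hGAD : Stmt_GAD) (hGJA : Stmt_GJA) : Stmt_GSS := by
  intro E _ _ f
  obtain ⟨χ, hχ1, hχ3, h13, hχ⟩ := hGCH E f
  obtain ⟨ψ, hψp, hψ⟩ := hGAD E f
  obtain ⟨hprod, J, J', hJ, hJ', hcase⟩ := hGJA E f χ ψ hχ1 hχ3 hψp (fun t => (hχ t).1)
  have ha : f.a (gaussSum χ ψ) = gaussSum χ⁻¹ ψ :=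
    GSS_map _ _ _ _ _ (fun t => (hχ t).1) (fun t => (hψ t).1)
  have ha' : f.a (gaussSum χ⁻¹ ψ) = gaussSum χ ψ :=
    GSS_map _ _ _ _ _ (fun t => (hχ t).2.1) (fun t => (hψ t).1)
  have hb : f.b (gaussSum χ ψ) = gaussSum χ ψ :=
    GSS_map _ _ _ _ _ (fun t => (hχ t).2.2.1) (fun t => (hψ t).2.1)
  have hb' : f.b (gaussSum χ⁻¹ ψ) = gaussSum χ⁻¹ ψ :=
    GSS_map _ _ _ _ _ (fun t => (hχ t).2.2.2.1) (fun t => (hψ t).2.1)
  have hs : χ 13 * f.s (gaussSum χ ψ) = gaussSum χ ψ :=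
    GSS_s _ _ _ (fun t => (hχ t).2.2.2.2.1) (fun t => (hψ t).2.2.1)
  have hs' : χ⁻¹ 13 * f.s (gaussSum χ⁻¹ ψ) = gaussSum χ⁻¹ ψ :=
    GSS_s _ _ _ (fun t => (hχ t).2.2.2.2.2.1) (fun t => (hψ t).2.2.1)
  have hi : IsIntegral ℤ (gaussSum χ ψ) :=
    GSS_int _ _ (fun t => (hχ t).2.2.2.2.2.2.1) (fun t => (hψ t).2.2.2)
  have hi' : IsIntegral ℤ (gaussSum χ⁻¹ ψ) :=
    GSS_int _ _ (fun t => (hχ t).2.2.2.2.2.2.2) (fun t => (hψ t).2.2.2)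
  have hw3 : (f.w : E) ^ 3 = 1 := f.w_pow_three
  have haw : f.a (f.w : E) = (f.w : E) ^ 2 := by
    have := congrArg (fun u : Eˣ => (u : E)) f.a_w
    simpa only [gu_val, Units.val_pow_eq_pow_val] using this
  have hss : (f.s (gaussSum χ ψ) = (f.w : E) * gaussSum χ ψ ∧
        f.s (gaussSum χ⁻¹ ψ) = (f.w : E) ^ 2 * gaussSum χ⁻¹ ψ) ∨
      (f.s (gaussSum χ ψ) = (f.w : E) ^ 2 * gaussSum χ ψ ∧
        f.s (gaussSum χ⁻¹ ψ) = (f.w : E) * gaussSum χ⁻¹ ψ) := by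
    have h1 := (hχ 13).1
    have hw6 : ((f.w : E) ^ 2) ^ 3 = 1 := by
      rw [← pow_mul, mul_comm, pow_mul, hw3, one_pow]
    have hw4 : ((f.w : E) ^ 2) ^ 2 = (f.w : E) := by
      linear_combination (f.w : E) * hw3
    rcases h13 with h | h
    · right
      rw [h, haw] at h1
      rw [h] at hs
      rw [← h1] at hs'
      refine ⟨GSS_inv _ _ _ hw3 hs, ?_⟩
      have h2 := GSS_inv _ _ _ hw6 hs'
      rwa [hw4] at h2
    · left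
      rw [h, map_pow, haw, hw4] at h1
      rw [h] at hs
      rw [← h1] at hs'
      refine ⟨?_, GSS_inv _ _ _ hw3 hs'⟩
      have h2 := GSS_inv _ _ _ hw6 hs
      rwa [hw4] at h2
  rcases hcase with ⟨e1, e2⟩ | ⟨e1, e2⟩
  · refine ⟨gaussSum χ ψ, gaussSum χ⁻¹ ψ, hi, hi', hprod, ?_, ?_, ha, ha', hb, hb', hss⟩
    · rw [hJ, e1]
    · rw [hJ', e2]
  · refine ⟨gaussSum χ⁻¹ ψ, gaussSum χ ψ, hi', hi, ?_, ?_, ?_, ha', ha, hb', hb, ?_⟩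
    · rw [mul_comm]; exact hprod
    · rw [hJ', e2]
    · rw [hJ, e1]
    · rcases hss with h | h
      · exact Or.inr ⟨h.2, h.1⟩
      · exact Or.inl ⟨h.2, h.1⟩

end Pool.CU
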