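import Pool.Agent.Work.MP_2b7bfc_cu.Interface2

/-! # Block IND of THEOREM CUP -/

namespace Pool.CU

open scoped NumberField
open IsDedekindDomain

theorem IND_add {A : Type*} [AddCommGroup A] (H : AddSubgroup A) (s : A →+ A)
    (hs : ∀ x ∈ H, s x ∈ H) (u : A) (hu : u ∈ H) (hs3 : s (s (s u)) = u)
    (hE : ∀ y ∈ H, ∀ q : ℤ, q • (u + s u + s (s u)) = (3 : ℤ) • y → (3 : ℤ) ∣ q)
    (e0 e1 e2 : ℤ) (y : A) (hy : y ∈ H)
    (h : e0 • u + e1 • s u + e2 • s (s u) = (3 : ℤ) • y) :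
    (3 : ℤ) ∣ e0 ∧ (3 : ℤ) ∣ e1 ∧ (3 : ℤ) ∣ e2 := by
  have h2 : e0 • s u + e1 • s (s u) + e2 • u = (3 : ℤ) • s y := by
    have := congrArg s h
    simpa only [map_add, map_zsmul, hs3] using this
  have h3 : e0 • s (s u) + e1 • u + e2 • s u = (3 : ℤ) • s (s y) := by
    have := congrArg s h2
    simpa only [map_add, map_zsmul, hs3] using this
  have k1 : (3 : ℤ) ∣ e0 + e1 + e2 := by
    apply hE (y + s y + s (s y)) (H.add_mem (H.add_mem hy (hs _ hy)) (hs _ (hs _ hy)))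
    linear_combination (norm := module) h + h2 + h3
  obtain ⟨m, hm⟩ := k1
  obtain rfl : e2 = 3 * m - e0 - e1 := by omega
  have k2 : (3 : ℤ) ∣ e0 - e1 := by
    apply hE (s y - y - (m - e0) • u - (e1 - m) • s (s u))
      (H.sub_mem (H.sub_mem (H.sub_mem (hs _ hy) hy) (H.zsmul_mem hu _))
        (H.zsmul_mem (hs _ (hs _ hu)) _))
    linear_combination (norm := module) h2 - h
  obtain ⟨k, hk⟩ := k2
  obtain rfl : e1 = e0 - 3 * k := by omega
  have k3 : (3 : ℤ) ∣ e0 := by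
    apply hE (y + k • s u - (m + k - e0) • s (s u))
      (H.sub_mem (H.add_mem hy (H.zsmul_mem (hs _ hu) _)) (H.zsmul_mem (hs _ (hs _ hu)) _))
    linear_combination (norm := module) h
  refine ⟨k3, ?_, ?_⟩ <;> omega

/-- the subgroup of elements of type T12 -/
def IND_T {E : Type} [Field E] [NumberField E] (f : Frame E) : Subgroup Eˣ where
  carrier := {x | f.T12 x}
  one_mem' := ⟨by simp, by simp, by simp⟩
  mul_mem' := by
    rintro x x' ⟨h1, h2, h3⟩ ⟨h1', h2', h3'⟩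
    exact ⟨by rw [map_mul, h1, h1', mul_inv], by rw [map_mul, h2, h2', mul_inv],
      by rw [map_mul, h3, h3']⟩
  inv_mem' := by
    rintro x ⟨h1, h2, h3⟩
    exact ⟨by rw [map_inv, h1], by rw [map_inv, h2], by rw [map_inv, h3]⟩

theorem p_IND (hEPS : Stmt_EPS) (hCOM : Stmt_COM) : Stmt_IND := by
  intro E _ _ _ f u hu hN e0 e1 e2 y hy h
  obtain ⟨hcom, -, -, -⟩ := hCOM E f
  have hTs : ∀ x : Eˣ, f.T12 x → f.T12 (gu f.s x) := by
    rintro x ⟨h1, h2, h3⟩
    refine ⟨?_, ?_, ?_⟩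
    · rw [← gu_mul, hcom, gu_mul, h1, map_inv]
    · rw [← gu_mul, hcom, gu_mul, h2, map_inv]
    · rw [← gu_mul, hcom, gu_mul, h3]
  have hs3 : gu f.s (gu f.s (gu f.s u)) = u := by
    have := hu.2.2
    rwa [pow_three, gu_mul, gu_mul] at this
  refine IND_add (Subgroup.toAddSubgroup (IND_T f)) (MonoidHom.toAdditive (gu f.s))
    (fun x hx => hTs (Additive.toMul x) hx) (Additive.ofMul u) hu
    (congrArg Additive.ofMul hs3) ?_ e0 e1 e2 (Additive.ofMul y) hy ?_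
  · intro y' hy' q hq
    refine hEPS E f (u * gu f.s u * gu f.s (gu f.s u)) (Additive.toMul y') ?_ hy' q ?_
    · push_cast
      exact hN
    · have := congrArg Additive.toMul hq
      have h4 : (u * gu f.s u * gu f.s (gu f.s u)) ^ q = (Additive.toMul y') ^ (3 : ℤ) := this
      rw [h4]
      exact zpow_ofNat _ _
  · have h5 : u ^ e0 * gu f.s u ^ e1 * gu f.s (gu f.s u) ^ e2 = y ^ (3 : ℤ) := by
      rw [h]
      exact (zpow_ofNat _ _).symm
    exact congrArg Additive.ofMul h5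

end Pool.CU
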