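import Pool.Agent.Work.MP_2b7bfc_cu.Interface

/-! Block INE: automorphisms in the inertia group of a place. -/

namespace Pool.CU

open scoped NumberField
open IsDedekindDomain

/-- the image of an integer is an integer -/
theorem INE_map {E : Type} [Field E] [NumberField E] (σ : Gal(E/ℚ)) (x : 𝓞 E) :
    ∃ y : 𝓞 E, (y : E) = σ (x : E) :=
  ⟨NumberField.RingOfIntegers.mapRingEquiv (σ : E ≃+* E) x, rfl⟩

theorem p_INE (h1 : Stmt_ADJ) (h2 : Stmt_VAL) : Stmt_INE := by
  intro E _ _ _ f σ v hd0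
  obtain ⟨d, hd, hdv⟩ := hd0
  have hzint : IsIntegral ℤ (f.z : E) :=
    (IsPrimitiveRoot.coe_units_iff.2 f.hz).isIntegral (by norm_num)
  obtain ⟨Z, hZ⟩ : ∃ Z : 𝓞 E, (Z : E) = f.z := ⟨⟨f.z, hzint⟩, rfl⟩
  obtain ⟨W, hW⟩ := INE_map σ Z
  have hWZ : W - Z = d := by
    apply NumberField.RingOfIntegers.ext
    rw [hd, ← hZ, ← hW]
    rfl
  have c1 : ∀ x y : 𝓞 E, (y : E) = σ (x : E) - (x : E) → y ∈ v.asIdeal := by
    intro x y hy
    obtain ⟨p, hp⟩ := h1 E f x
    have e1 : ((Polynomial.aeval Z p : 𝓞 E) : E) = (x : E) := by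
      rw [hp, ← hZ]
      exact (Polynomial.aeval_algebraMap_apply E Z p).symm
    have e2 : ((Polynomial.aeval W p : 𝓞 E) : E) = σ (x : E) := by
      rw [hp, ← hZ]
      have h3 : ((Polynomial.aeval W p : 𝓞 E) : E) = Polynomial.aeval (W : E) p :=
        (Polynomial.aeval_algebraMap_apply E W p).symm
      rw [h3, hW]
      exact (Polynomial.aeval_algHom_apply
        ((σ : E ≃+* E) : E →+* E).toIntAlgHom (Z : E) p)
    have hyp : y = Polynomial.aeval W p - Polynomial.aeval Z p := by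
      apply NumberField.RingOfIntegers.ext
      rw [hy, ← e2, ← e1]
      rfl
    have hdvd : W - Z ∣ Polynomial.aeval W p - Polynomial.aeval Z p := by
      have h4 := Polynomial.sub_dvd_eval_sub W Z (p.map (algebraMap ℤ (𝓞 E)))
      rwa [Polynomial.eval_map_algebraMap, Polynomial.eval_map_algebraMap] at h4
    rw [hyp]
    rw [hWZ] at hdvd
    exact Ideal.mem_of_dvd _ hdvd hdv
  have c2 : ∀ x : Eˣ, ord v (gu σ x) = ord v x := by
    obtain ⟨v', hv1, hv2⟩ := h2 E σ v
    have hvv : v' = v := by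
      apply HeightOneSpectrum.ext
      ext x
      obtain ⟨y, hy⟩ := INE_map σ x
      rw [hv1 x y hy]
      have h3 : y - x ∈ v.asIdeal := by
        apply c1 x (y - x)
        rw [← hy]
        rfl
      constructor
      · intro hyv
        have h4 := sub_mem hyv h3
        simpa using h4
      · intro hxv
        have h4 := add_mem h3 hxv
        simpa using h4
    rw [hvv] at hv2
    exact hv2
  refine ⟨c1, c2, ?_⟩
  have c3 : ∀ (A : Eˣ) (a : 𝓞 E), (A : E) = a → a ∉ v.asIdeal → gu σ A * A⁻¹ ∈ U1 v := by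
    intro A a hA ha
    obtain ⟨b, hb⟩ := INE_map σ a
    apply div_mem_U1 v (x := gu σ A) (y := A) (X := b) (Y := a)
    · rw [gu_val, hA, hb]
    · exact hA
    · apply c1 a (b - a)
      rw [← hb]
      rfl
    · exact ha
  intro x hx
  have hval : v.valuation E (x : E) ≤ 1 := (valuation_le_one_iff' v x).2 hx.ge
  obtain ⟨n, ⟨m, hm⟩, hnm⟩ := v.exists_primeCompl_mul_eq_of_integer (x : E) hval
  have hm' : m ∉ v.asIdeal := hm
  have hm0 : (m : E) ≠ 0 := by
    intro h0
    apply hm'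
    have h5 : m = 0 := by
      apply NumberField.RingOfIntegers.ext
      rw [h0]
      rfl
    rw [h5]
    exact v.asIdeal.zero_mem
  have hY : ((Units.mk0 (m : E) hm0 : Eˣ) : E) = m := rfl
  have hX : ((x * Units.mk0 (m : E) hm0 : Eˣ) : E) = n := by
    rw [Units.val_mul, hY]
    exact hnm
  have hn : n ∉ v.asIdeal := by
    rw [← ord_eq_zero_iff v hX, ord_mul, hx, (ord_eq_zero_iff v hY).2 hm', add_zero]
  have g1 := c3 _ n hX hn
  have g2 := c3 _ m hY hm'
  have g3 := (U1 v).mul_mem g1 ((U1 v).inv_mem g2)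
  have e3 : gu σ (x * Units.mk0 (m : E) hm0) * (x * Units.mk0 (m : E) hm0)⁻¹ *
      (gu σ (Units.mk0 (m : E) hm0) * (Units.mk0 (m : E) hm0)⁻¹)⁻¹ = gu σ x * x⁻¹ := by
    rw [map_mul, mul_inv, mul_mul_mul_comm, mul_inv_cancel_right]
  rw [e3] at g3
  exact g3

end Pool.CU
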