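import Pool.Agent.Work.MP_2b7bfc_cu.Interface

/-! # THEOREM CUP (MP_2b7bfc_nt), block INZ -/

namespace Pool.CU

open scoped NumberField
open IsDedekindDomain

section

variable {E : Type} [Field E] [NumberField E]

theorem INZ_s_pow (f : Frame E) (k : ℕ) : gu (f.s ^ k) f.z = f.z ^ (13 ^ k) := by
  induction k with
  | zero => simp [gu_one]
  | succ k ih =>
    rw [pow_succ, gu_mul, f.hs, map_pow, ih, ← pow_mul, ← pow_succ]

theorem INZ_mod : (66679 * 13 ^ 3384) % 133356 = 44455 % 133356 := by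
  decide +kernel

/-- The root of unity as an integer. -/
theorem INZ_int (f : Frame E) : IsIntegral ℤ (f.z : E) :=
  (IsPrimitiveRoot.coe_units_iff.2 f.hz).isIntegral (by norm_num)

end

theorem p_INZ : Stmt_INZ := by
  intro E _ _ _ f v
  obtain ⟨Z, hZ⟩ : ∃ Z : 𝓞 E, (Z : E) = (f.z : E) := ⟨⟨(f.z : E), INZ_int f⟩, rfl⟩
  have hinj : Function.Injective (algebraMap (𝓞 E) E) := NumberField.RingOfIntegers.coe_injective
  have hmap : ∀ x : 𝓞 E, (algebraMap (𝓞 E) E) x = (x : E) := fun x => rfl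
  -- powers
  have hZp : ∀ m : ℕ, ((Z ^ m : 𝓞 E) : E) = ((f.z ^ m : Eˣ) : E) := by
    intro m
    rw [← hmap, map_pow, hmap, hZ, Units.val_pow_eq_pow_val]
  have hW : (Z ^ 44452) ^ 2 + Z ^ 44452 + 1 = 0 := by
    apply hinj
    rw [map_add, map_add, map_pow, map_one, map_zero, hmap, hZp]
    exact f.w_sq
  have hW1 : (3 : 𝓞 E) ∈ v.asIdeal → Z ^ 44452 - 1 ∈ v.asIdeal := by
    intro h3
    have h1 : (Z ^ 44452 - 1) ^ 2 = -(Z ^ 44452) * 3 := by
      linear_combination hW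
    have h2 : (Z ^ 44452 - 1) ^ 2 ∈ v.asIdeal := by
      rw [h1]
      exact v.asIdeal.mul_mem_left _ h3
    exact v.isPrime.mem_of_pow_mem 2 h2
  refine ⟨?_, ?_, ?_, ?_⟩
  · intro h2
    refine ⟨-Z * 2, ?_, v.asIdeal.mul_mem_left _ h2⟩
    have h1 : f.b (f.z : E) = ((f.z ^ 66679 : Eˣ) : E) := by
      rw [← gu_val, f.hb]
    have h3 : ((f.z ^ 66679 : Eˣ) : E) = ((f.z ^ 66678 : Eˣ) : E) * (f.z : E) := by
      rw [← Units.val_mul, ← pow_succ]
    rw [h1, h3, f.half, ← hmap, map_mul, map_neg, map_ofNat, hmap, hZ]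
    ring
  · intro h3
    refine ⟨Z * (Z ^ 44452 - 1), ?_, v.asIdeal.mul_mem_left _ (hW1 h3)⟩
    have h1 : f.a (f.z : E) = ((f.z ^ 44453 : Eˣ) : E) := by
      rw [← gu_val, f.ha]
    have h4 : ((f.z ^ 44453 : Eˣ) : E) = ((f.z ^ 44452 : Eˣ) : E) * (f.z : E) := by
      rw [← Units.val_mul, ← pow_succ]
    rw [h1, h4, ← hmap, map_mul, map_sub, map_one, hmap, hmap, hZp, hZ]
    ring
  · intro hl
    have hzl : IsPrimitiveRoot (Z ^ 12) 11113 := by
      have h1 : IsPrimitiveRoot ((algebraMap (𝓞 E) E) (Z ^ 12)) 11113 := by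
        rw [hmap, hZp]
        exact IsPrimitiveRoot.coe_units_iff.2 f.zl_prim
      exact IsPrimitiveRoot.of_map_of_injective h1 hinj
    have hprime : Nat.Prime 11113 := by norm_num
    have h1 : 1 - Z ^ 12 ∈ v.asIdeal := by
      have : Fact (Nat.Prime 11113) := ⟨hprime⟩
      have h2 := Polynomial.eval_one_cyclotomic_prime (R := 𝓞 E) (p := 11113)
      rw [Polynomial.cyclotomic_eq_prod_X_sub_primitiveRoots hzl, Polynomial.eval_prod] at h2
      have h3 : ∏ μ ∈ primitiveRoots 11113 (𝓞 E),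
          Polynomial.eval 1 (Polynomial.X - Polynomial.C μ) ∈ v.asIdeal := by
        rw [h2]
        exact_mod_cast hl
      rw [v.isPrime.prod_mem_iff] at h3
      obtain ⟨μ, hμ, h4⟩ := h3
      have hμ' : IsPrimitiveRoot μ 11113 := isPrimitiveRoot_of_mem_primitiveRoots hμ
      obtain ⟨k, -, hk⟩ := hμ'.eq_pow_of_pow_eq_one hzl.pow_eq_one
      rw [← hk]
      have h5 : (1 - μ) ∣ 1 ^ k - μ ^ k := sub_dvd_pow_sub_pow 1 μ k
      rw [one_pow] at h5
      simp only [Polynomial.eval_sub, Polynomial.eval_X, Polynomial.eval_C] at h4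
      exact v.asIdeal.mem_of_dvd h5 h4
    refine ⟨⟨-Z * (1 - Z ^ 12), ?_, v.asIdeal.mul_mem_left _ h1⟩, ⟨1 - Z ^ 12, ?_, h1⟩⟩
    · have h2 : f.s (f.z : E) = ((f.z ^ 13 : Eˣ) : E) := by
        rw [← gu_val, f.hs]
      have h4 : ((f.z ^ 13 : Eˣ) : E) = ((f.z ^ 12 : Eˣ) : E) * (f.z : E) := by
        rw [← Units.val_mul, ← pow_succ]
      rw [h2, h4, ← hmap, map_mul, map_neg, map_sub, map_one, hmap, hmap, hZp, hZ]
      ring
    · rw [← hmap, map_sub, map_one, hmap, hZp]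
      rfl
  · intro h3
    refine ⟨Z ^ 3 * (Z ^ 44452 - 1), ?_, v.asIdeal.mul_mem_left _ (hW1 h3)⟩
    have h1 : (f.b * f.s ^ 3384) (f.z : E) = ((f.z ^ 44455 : Eˣ) : E) := by
      rw [← gu_val, gu_mul, INZ_s_pow, f.gu_b_pow]
      exact congrArg _ (f.z_pow_congr INZ_mod)
    have h4 : ((f.z ^ 44455 : Eˣ) : E) = ((f.z ^ 44452 : Eˣ) : E) * (f.z : E) ^ 3 := by
      rw [← Units.val_pow_eq_pow_val, ← Units.val_mul, ← pow_add]
    rw [h1, h4, ← hmap, map_mul, map_sub, map_one, map_pow, hmap, hmap, hZp, hZ]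
    ring

end Pool.CU
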