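import Pool.Agent.Work.MP_2b7bfc_cu.Interface2

/-! # Block KRO -/

namespace Pool.CU

open scoped NumberField
open IsDedekindDomain

theorem p_KRO (hCCJ : Stmt_CCJ) (hVAL : Stmt_VAL) : Stmt_KRO := by
  intro E _ _ _ f x hx
  have h1 : ∀ v : HeightOneSpectrum (𝓞 E),
      ord v (x * (gu (f.a * f.b * f.s ^ 5556) x)⁻¹) = 0 := by
    intro v
    obtain ⟨v', _, hv'⟩ := hVAL E (f.a * f.b * f.s ^ 5556) v
    rw [ord_mul, ord_inv, hx v, hv' x, hx v']
    simp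
  obtain ⟨u, hu⟩ := exists_unit h1
  have hint : IsIntegral ℤ ((x * (gu (f.a * f.b * f.s ^ 5556) x)⁻¹ : Eˣ) : E) := by
    rw [hu]
    exact NumberField.RingOfIntegers.isIntegral_coe _
  have hnorm : ∀ φ : E →+* ℂ,
      ‖φ ((x * (gu (f.a * f.b * f.s ^ 5556) x)⁻¹ : Eˣ) : E)‖ = 1 := by
    intro φ
    have h2 : ‖φ ((gu (f.a * f.b * f.s ^ 5556) x : Eˣ) : E)‖ = ‖φ (x : E)‖ := by
      rw [gu_val, ← hCCJ E f φ (x : E)]
      exact RCLike.norm_conj _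
    have h3 : φ (x : E) ≠ 0 := by
      rw [Ne, map_eq_zero]
      exact x.ne_zero
    rw [Units.val_mul, map_mul, Units.val_inv_eq_inv_val, map_inv₀, norm_mul, norm_inv, h2]
    exact mul_inv_cancel₀ (norm_ne_zero_iff.2 h3)
  obtain ⟨k, hk, h⟩ := NumberField.Embeddings.pow_eq_one_of_norm_eq_one E ℂ hint hnorm
  refine ⟨k, hk, Units.ext ?_⟩
  rw [Units.val_pow_eq_pow_val, h, Units.val_one]

end Pool.CU
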