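import Pool.Agent.Work.MP_2b7bfc_cu.Interface2

/-! # Block LAT: four vectors of a discrete group in dimension three (MP_2b7bfc, THEOREM CUP) -/

set_option autoImplicit false

namespace Pool.CU

theorem p_LAT : Stmt_LAT := by
  intro v hfin
  have hdisc : DiscreteTopology (Submodule.span ℤ (Set.range v)) := by
    apply discreteTopology_of_isOpen_singleton_zero
    have hS : ({x : Fin 3 → ℝ | x ∈ Submodule.span ℤ (Set.range v) ∧ ∀ i, |x i| ≤ 1} \
        {0}).Finite := hfin.subset Set.sdiff_subset
    have hO : IsOpen (({x : Fin 3 → ℝ | x ∈ Submodule.span ℤ (Set.range v) ∧ ∀ i, |x i| ≤ 1} \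
        {0})ᶜ ∩ Metric.ball 0 1) := hS.isClosed.isOpen_compl.inter Metric.isOpen_ball
    have h1 : ({0} : Set (Submodule.span ℤ (Set.range v))) = Subtype.val ⁻¹'
        (({x : Fin 3 → ℝ | x ∈ Submodule.span ℤ (Set.range v) ∧ ∀ i, |x i| ≤ 1} \
          {0})ᶜ ∩ Metric.ball 0 1) := by
      ext x
      constructor
      · intro hx
        have hx0 : x = 0 := hx
        subst hx0
        refine ⟨?_, ?_⟩
        · intro h2
          exact h2.2 rfl
        · rw [Metric.mem_ball, Submodule.coe_zero, dist_self]
          exact one_pos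
      · rintro ⟨h2, h3⟩
        have h4 : ‖(x : Fin 3 → ℝ)‖ < 1 := by
          rw [mem_ball_zero_iff] at h3
          exact h3
        by_contra hne
        apply h2
        refine ⟨⟨x.2, fun i => ?_⟩, ?_⟩
        · have h5 := norm_le_pi_norm (x : Fin 3 → ℝ) i
          rw [Real.norm_eq_abs] at h5
          linarith
        · intro h5
          apply hne
          exact Subtype.ext h5
    rw [h1]
    exact hO.preimage continuous_subtype_val
  by_contra hcon
  have hli : LinearIndependent ℤ v := by
    rw [Fintype.linearIndependent_iff]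
    intro g hg
    by_contra hne
    apply hcon
    refine ⟨g, ?_, hg⟩
    intro h0
    apply hne
    intro i
    rw [h0]
    rfl
  have h1 := finrank_span_eq_card hli
  have h2 : Set.finrank ℝ (Set.range v) = Set.finrank ℤ (Set.range v) :=
    Real.finrank_eq_int_finrank_of_discrete hdisc
  have h3 : Set.finrank ℝ (Set.range v) ≤ 3 := by
    have h4 := Submodule.finrank_le (Submodule.span ℝ (Set.range v))
    rw [Module.finrank_fin_fun] at h4
    exact h4
  rw [h2] at h3
  unfold Set.finrank at h3
  rw [h1, Fintype.card_fin] at h3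
  omega

end Pool.CU
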