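import Pool.Agent.Work.MP_2b7bfc_cu.Interface

/-! # Block LEL of THEOREM CUP: `l 11113 = 0` -/

namespace Pool.CU

open scoped NumberField
open IsDedekindDomain

theorem LEL_prime : Nat.Prime 11113 := by norm_num

theorem LEL_ne (n r : ℕ) (h : 13 ^ n % 11113 = r) (h1 : r ≠ 1) : (13 : ZMod 11113) ^ n ≠ 1 := by
  intro h2
  have h4 : ((13 ^ n : ℕ) : ZMod 11113) = ((1 : ℕ) : ZMod 11113) := by
    push_cast
    exact h2
  rw [ZMod.natCast_eq_natCast_iff', h] at h4
  norm_num at h4
  exact h1 h4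

theorem LEL_13 : (13 : ZMod 11113) ≠ 0 := by decide

theorem LEL_a : 13 ^ 5556 % 11113 = 11112 := by decide +kernel

theorem LEL_b : 13 ^ 3704 % 11113 = 7255 := by decide +kernel

theorem LEL_c : 13 ^ 24 % 11113 = 1748 := by decide +kernel

theorem LEL_order : orderOf (13 : ZMod 11113) = 11112 := by
  have : Fact (Nat.Prime 11113) := ⟨LEL_prime⟩
  refine orderOf_eq_of_pow_and_pow_div_prime (by norm_num) ?_ ?_
  · exact ZMod.pow_card_sub_one_eq_one LEL_13
  · intro q hq hd
    have h1 : q ∣ 2 ^ 3 * 3 * 463 := by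
      have : (2 ^ 3 * 3 * 463 : ℕ) = 11112 := by norm_num
      rw [this]; exact hd
    have hp2 : Nat.Prime 2 := by norm_num
    have hp3 : Nat.Prime 3 := by norm_num
    have hp463 : Nat.Prime 463 := by norm_num
    rcases (Nat.Prime.dvd_mul hq).1 h1 with h2 | h2
    · rcases (Nat.Prime.dvd_mul hq).1 h2 with h3 | h3
      · have h5 : q = 2 := (Nat.prime_dvd_prime_iff_eq hq hp2).1 (hq.dvd_of_dvd_pow h3)
        subst h5
        have h6 := LEL_ne 5556 _ LEL_a (by norm_num)
        exact h6
      · have h5 : q = 3 := (Nat.prime_dvd_prime_iff_eq hq hp3).1 h3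
        subst h5
        have h6 := LEL_ne 3704 _ LEL_b (by norm_num)
        exact h6
    · have h5 : q = 463 := (Nat.prime_dvd_prime_iff_eq hq hp463).1 h2
      subst h5
      have h6 := LEL_ne 24 _ LEL_c (by norm_num)
      exact h6

/-- 11113 is the product of the `1 - z ^ (13 ^ k)`. -/
theorem LEL_prod {K : Type} [Field K] {z : K} (hz : IsPrimitiveRoot z 11113) :
    ∏ k ∈ Finset.range 11112, (1 - z ^ (13 ^ k)) = 11113 := by
  classical
  have : Fact (Nat.Prime 11113) := ⟨LEL_prime⟩
  have h2 := Polynomial.eval_one_cyclotomic_prime (R := K) (p := 11113)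
  rw [Polynomial.cyclotomic_eq_prod_X_sub_primitiveRoots hz, Polynomial.eval_prod] at h2
  simp only [Polynomial.eval_sub, Polynomial.eval_X, Polynomial.eval_C] at h2
  have hcop : ∀ k : ℕ, (13 ^ k).Coprime 11113 := fun k =>
    Nat.Coprime.pow_left k (by norm_num)
  have hinj : Set.InjOn (fun k : ℕ => z ^ (13 ^ k)) (Finset.range 11112 : Set ℕ) := by
    intro a ha b hb hab
    have ha' : a < 11112 := by simpa using ha
    have hb' : b < 11112 := by simpa using hb
    have h3 : (13 ^ a) ≡ (13 ^ b) [MOD 11113] := by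
      have h7 : IsUnit z := hz.isUnit (by norm_num)
      obtain ⟨u, rfl⟩ := h7
      have hu : IsPrimitiveRoot u 11113 := IsPrimitiveRoot.coe_units_iff.1 hz
      have hab' : u ^ (13 ^ a) = u ^ (13 ^ b) := by
        apply Units.ext
        rw [Units.val_pow_eq_pow_val, Units.val_pow_eq_pow_val]
        exact hab
      have h4 := pow_eq_pow_iff_modEq.1 hab'
      rwa [← hu.eq_orderOf] at h4
    have h5 : (13 : ZMod 11113) ^ a = (13 : ZMod 11113) ^ b := by
      have := (ZMod.natCast_eq_natCast_iff _ _ _).2 h3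
      push_cast at this
      exact this
    exact pow_injOn_Iio_orderOf (by rw [LEL_order]; exact ha') (by rw [LEL_order]; exact hb') h5
  have himg : Finset.image (fun k : ℕ => z ^ (13 ^ k)) (Finset.range 11112) =
      primitiveRoots 11113 K := by
    apply Finset.eq_of_subset_of_card_le
    · intro y hy
      obtain ⟨k, -, rfl⟩ := Finset.mem_image.1 hy
      exact (mem_primitiveRoots (by norm_num)).2 (hz.pow_of_coprime _ (hcop k))
    · rw [hz.card_primitiveRoots, Nat.totient_prime LEL_prime, Finset.card_image_of_injOn hinj,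
        Finset.card_range]
  rw [← himg, Finset.prod_image hinj] at h2
  rw [h2]
  norm_num

theorem p_LEL (hLSX : Stmt_LSX) (hRAM : Stmt_RAM) : Stmt_LEL := by
  intro E _ _ _ f L x hx
  obtain ⟨hord, c, -, hc⟩ := hLSX E f L
  have hz : IsPrimitiveRoot (f.zl : E) 11113 := IsPrimitiveRoot.coe_units_iff.2 f.zl_prim
  have hne : (1 : E) - (f.zl : E) ≠ 0 := by
    intro h
    exact hz.ne_one (by norm_num) (sub_eq_zero.1 h).symm
  obtain ⟨p, hp⟩ : ∃ p : Eˣ, (p : E) = 1 - (f.zl : E) := ⟨Units.mk0 _ hne, rfl⟩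
  have hop : ord L.P p = 1 := (hRAM E f L.P L.hP).1 p hp
  have hlp : L.l p = 0 := L.l_pi p hp
  have hiter : ∀ k : ℕ, (gu (f.s ^ k) p : E) = 1 - (f.zl : E) ^ (13 ^ k) ∧
      ord L.P (gu (f.s ^ k) p) = 1 ∧ L.l (gu (f.s ^ k) p) = (k : ZMod 3) * c := by
    intro k
    induction k with
    | zero =>
      rw [pow_zero, gu_one]
      refine ⟨by rw [hp, pow_zero, pow_one], hop, ?_⟩
      rw [hlp, Nat.cast_zero, zero_mul]
    | succ k ih =>
      obtain ⟨h1, h2, h3⟩ := ih
      rw [pow_succ', gu_mul]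
      refine ⟨?_, ?_, ?_⟩
      · have hs : f.s (f.zl : E) = (f.zl : E) ^ 13 := by
          have := congrArg (fun u : Eˣ => (u : E)) f.s_zl
          simpa only [gu_val, Units.val_pow_eq_pow_val] using this
        rw [gu_val, h1, map_sub, map_one, map_pow, hs, ← pow_mul, ← pow_succ']
      · rw [hord, h2]
      · rw [hc, h2, h3]
        push_cast
        ring
  have hprod : x = ∏ k ∈ Finset.range 11112, gu (f.s ^ k) p := by
    apply Units.ext
    rw [Units.coe_prod, hx, Finset.prod_congr rfl fun k _ => (hiter k).1]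
    exact (LEL_prod hz).symm
  have hsum : ∀ s : Finset ℕ, ∀ g : ℕ → Eˣ, L.l (∏ k ∈ s, g k) = ∑ k ∈ s, L.l (g k) := by
    intro s g
    induction s using Finset.induction_on with
    | empty => simp [L.l_one]
    | insert a s ha ih => rw [Finset.prod_insert ha, Finset.sum_insert ha, L.l_mul, ih]
  rw [hprod, hsum, Finset.sum_congr rfl fun k _ => (hiter k).2.2, ← Finset.sum_mul,
    ← Nat.cast_sum, Finset.sum_range_id]
  have h0 : ((11112 * (11112 - 1) / 2 : ℕ) : ZMod 3) = 0 := by
    rw [ZMod.natCast_eq_zero_iff]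
    norm_num
  rw [h0, zero_mul]

end Pool.CU
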