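import Pool.Agent.Work.MP_2b7bfc_cu.Interface3

/-!
# MP_2b7bfc_nt, theorem CUP: block LIF (helper21)
-/

namespace Pool.CU

open scoped TensorProduct NumberField
open IsDedekindDomain

/-- The additive map `z ⊗ x ↦ red z * Φ x`. -/
noncomputable def LIF_g {A : Type*} [CommRing A] {K : Type*} [AddCommGroup K]
    (red : A →+* ZMod 3) (Φ : K →+ ZMod 3) : A ⊗[ℤ] K →+ ZMod 3 :=
  TensorProduct.liftAddHom
    (AddMonoidHom.mk' (fun z => (AddMonoidHom.mulLeft (red z)).comp Φ)
      (fun z z' => by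
        ext x
        simp [add_mul]))
    (fun r m n => by
      simp only [AddMonoidHom.mk'_apply, AddMonoidHom.comp_apply, AddMonoidHom.coe_mulLeft,
        map_zsmul, zsmul_eq_mul]
      simp only [map_mul, map_intCast]
      ring)

theorem LIF_g_tmul {A : Type*} [CommRing A] {K : Type*} [AddCommGroup K]
    (red : A →+* ZMod 3) (Φ : K →+ ZMod 3) (z : A) (x : K) :
    LIF_g red Φ (z ⊗ₜ[ℤ] x) = red z * Φ x := rfl

theorem LIF_g_smul {A : Type*} [CommRing A] {K : Type*} [AddCommGroup K]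
    (red : A →+* ZMod 3) (Φ : K →+ ZMod 3) (z : A) (t : A ⊗[ℤ] K) :
    LIF_g red Φ (z • t) = red z * LIF_g red Φ t := by
  induction t using TensorProduct.induction_on with
  | zero => simp
  | tmul a x =>
    rw [TensorProduct.smul_tmul', smul_eq_mul, LIF_g_tmul, LIF_g_tmul, map_mul, mul_assoc]
  | add a b h1 h2 => rw [smul_add, map_add, map_add, h1, h2, mul_add]

/-- A submodule generated by elements killed by `g` is killed by `g`. -/
theorem LIF_span {A : Type*} [CommRing A] {K : Type*} [AddCommGroup K]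
    (red : A →+* ZMod 3) (Φ : K →+ ZMod 3) (S : Set (A ⊗[ℤ] K))
    (hS : ∀ t ∈ S, LIF_g red Φ t = 0) (t : A ⊗[ℤ] K) (ht : t ∈ Submodule.span A S) :
    LIF_g red Φ t = 0 := by
  induction ht using Submodule.span_induction with
  | mem x h => exact hS x h
  | zero => exact map_zero _
  | add x y _ _ h1 h2 => rw [map_add, h1, h2, add_zero]
  | smul a x _ h => rw [LIF_g_smul, h, mul_zero]

theorem p_LIF : Stmt_LIF := by
  intro m _ E _ _ _ θ red Φ h1 h2 h3
  obtain ⟨x, hx, hΦ⟩ := h3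
  intro htop
  set Φ' : tameKernel E m →+ ZMod 3 := Φ.comp (tameKernel E m).subtype with hΦ'
  -- the generators of the relations are killed
  have hrel : ∀ t ∈ thetaRel E θ, LIF_g red Φ' t = 0 := by
    intro t ht
    refine LIF_span red Φ' _ ?_ t ht
    rintro t ⟨σ, x, y, hy, rfl⟩
    rw [map_sub, LIF_g_tmul, LIF_g_tmul, map_one, one_mul]
    have e1 : Φ' y = Φ (y : K2 E) := rfl
    have e2 : Φ' x = Φ (x : K2 E) := rfl
    rw [e1, e2, hy, h1, sub_self]
  -- the preimage of the cup image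
  have hcup : ∀ t, (thetaRel E θ).mkQ t ∈ cupImage E θ → LIF_g red Φ' t = 0 := by
    intro t ht
    set S : Set (Zp θ ⊗[ℤ] tameKernel E m) := {t | ∃ (a b : Eˣ) (x : tameKernel E m),
      IsUnitAway m a ∧ IsUnitAway m b ∧ (x : K2 E) = sym a b ∧ t = 1 ⊗ₜ[ℤ] x} with hSdef
    have hS : cupImage E θ = (Submodule.span (Zp θ) S).map (thetaRel E θ).mkQ := by
      rw [cupImage, Submodule.map_span]
      congr 1
      ext u
      constructor
      · rintro ⟨a, b, x, ha, hb, hx, rfl⟩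
        exact ⟨_, ⟨a, b, x, ha, hb, hx, rfl⟩, rfl⟩
      · rintro ⟨_, ⟨a, b, x, ha, hb, hx, rfl⟩, rfl⟩
        exact ⟨a, b, x, ha, hb, hx, rfl⟩
    rw [hS, Submodule.mem_map] at ht
    obtain ⟨u, hu, hut⟩ := ht
    have hdiff : u - t ∈ thetaRel E θ := by
      rw [← Submodule.ker_mkQ (thetaRel E θ), LinearMap.mem_ker, map_sub, hut, sub_self]
    have e1 := hrel _ hdiff
    rw [map_sub, sub_eq_zero] at e1
    rw [← e1]
    refine LIF_span red Φ' _ ?_ u hu
    rintro t ⟨a, b, x, ha, hb, hx, rfl⟩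
    rw [LIF_g_tmul, map_one, one_mul]
    have e2 : Φ' x = Φ (x : K2 E) := rfl
    rw [e2, hx, h2 a b ha hb]
  have hfin := hcup (1 ⊗ₜ[ℤ] ⟨x, hx⟩) (by rw [htop]; exact Submodule.mem_top)
  rw [LIF_g_tmul, map_one, one_mul] at hfin
  exact hΦ hfin

end Pool.CU
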