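import Pool.Agent.Work.MP_2b7bfc_cu.Interface

/-!
# Block LOC: the cubic residue symbol exists
-/

namespace Pool.CU

open scoped NumberField
open IsDedekindDomain

/-- The logarithm modulo 3 on the multiplicative group of the field with 11113 elements. -/
theorem LOC_lam : ∃ lam : (ZMod 11113)ˣ → ZMod 3, (∀ x y, lam (x * y) = lam x + lam y) ∧
    ∀ t, t ^ 3 = 1 → t ≠ 1 → lam t ≠ 0 := by
  have hpr : Nat.Prime 11113 := by norm_num
  have : Fact (Nat.Prime 11113) := ⟨hpr⟩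
  have hn : Nat.card (ZMod 11113)ˣ = 11112 := by
    rw [Nat.card_eq_fintype_card, ZMod.card_units_eq_totient, Nat.totient_prime hpr]
  have hcyc : IsCyclic (ZMod 11113)ˣ := inferInstance
  have hdvd : 3 ∣ Nat.card (ZMod 11113)ˣ := by rw [hn]; norm_num
  have hne : NeZero (Nat.card (ZMod 11113)ˣ) := ⟨by rw [hn]; norm_num⟩
  refine ⟨fun t => ZMod.castHom hdvd (ZMod 3)
    (Multiplicative.toAdd ((zmodCyclicMulEquiv hcyc).symm t)), ?_, ?_⟩
  · intro x y
    show ZMod.castHom hdvd (ZMod 3)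
      (Multiplicative.toAdd ((zmodCyclicMulEquiv hcyc).symm (x * y))) = _
    rw [map_mul, toAdd_mul, map_add]
  · intro t ht ht1 h0
    obtain ⟨x, hx⟩ : ∃ x, x = Multiplicative.toAdd ((zmodCyclicMulEquiv hcyc).symm t) := ⟨_, rfl⟩
    have h3 : (3 : ℕ) • x = 0 := by
      rw [hx, ← toAdd_pow, ← map_pow, ht, map_one, toAdd_one]
    obtain ⟨k, hk⟩ : ∃ k : ℕ, k = x.val := ⟨_, rfl⟩
    have hxv : ((k : ℕ) : ZMod (Nat.card (ZMod 11113)ˣ)) = x := by
      rw [hk]; exact ZMod.natCast_zmod_val x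
    have h4 : ((3 * k : ℕ) : ZMod (Nat.card (ZMod 11113)ˣ)) = 0 := by
      rw [Nat.cast_mul, hxv, ← nsmul_eq_mul]; exact h3
    rw [ZMod.natCast_eq_zero_iff, hn] at h4
    have h5 : ((k : ℕ) : ZMod 3) = 0 := by
      have h : ZMod.castHom hdvd (ZMod 3) ((k : ℕ) : ZMod (Nat.card (ZMod 11113)ˣ)) = 0 := by
        rw [hxv, hx]; exact h0
      rwa [map_natCast] at h
    rw [ZMod.natCast_eq_zero_iff] at h5
    have h6 : k < 11112 := by
      have h := ZMod.val_lt x
      rw [← hk] at h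
      exact h.trans_eq hn
    have h7 : k = 0 := by omega
    have h8 : x = 0 := by rw [← hxv, h7, Nat.cast_zero]
    apply ht1
    have h9 : (zmodCyclicMulEquiv hcyc).symm t = 1 := by
      apply Multiplicative.toAdd.injective
      rw [← hx, h8]
      rfl
    exact (zmodCyclicMulEquiv hcyc).symm.map_eq_one_iff.1 h9

variable {E : Type} [Field E] [NumberField E] (P : HeightOneSpectrum (𝓞 E))

theorem LOC_int (hP : (11113 : 𝓞 E) ∈ P.asIdeal) (n : ℤ) (hn : ((n : ℤ) : 𝓞 E) ∈ P.asIdeal) :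
    (11113 : ℤ) ∣ n := by
  by_contra ht
  have hp : Prime ((11113 : ℕ) : ℤ) := Nat.prime_iff_prime_int.1 (by norm_num)
  have hcop : IsCoprime ((11113 : ℕ) : ℤ) n := (Prime.coprime_iff_not_dvd hp).2 (by
    intro h2
    exact ht (by exact_mod_cast h2))
  obtain ⟨u, v, huv⟩ := hcop
  apply P.isPrime.ne_top
  rw [Ideal.eq_top_iff_one]
  have h3 : (1 : 𝓞 E) = (u : 𝓞 E) * 11113 + (v : 𝓞 E) * (n : 𝓞 E) := by
    have := congrArg (fun k : ℤ => (k : 𝓞 E)) huv
    push_cast at this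
    exact this.symm
  rw [h3]
  exact P.asIdeal.add_mem (P.asIdeal.mul_mem_left _ hP) (P.asIdeal.mul_mem_left _ hn)

theorem LOC_cast (n : ℤ) : ((n : ℤ) : E) = algebraMap (𝓞 E) E (n : 𝓞 E) :=
  (map_intCast (algebraMap (𝓞 E) E) n).symm

theorem LOC_val_lt (hP : (11113 : 𝓞 E) ∈ P.asIdeal) (n : ℤ) :
    P.valuation E (n : E) < 1 ↔ (11113 : ℤ) ∣ n := by
  rw [LOC_cast, P.valuation_lt_one_iff_mem]
  refine ⟨LOC_int P hP n, ?_⟩
  rintro ⟨k, rfl⟩
  push_cast
  exact P.asIdeal.mul_mem_right _ hP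

theorem LOC_val_le (n : ℤ) : P.valuation E (n : E) ≤ 1 := by
  rw [LOC_cast]
  exact P.valuation_le_one _

/-- `u` is the class of the leading coefficient of `x`. -/
def LOC_R (π x : Eˣ) (u : (ZMod 11113)ˣ) : Prop :=
  ∃ t : ℤ, (t : ZMod 11113) = (u : ZMod 11113) ∧
    P.valuation E (((x * π ^ (-ord P x) : Eˣ) : E) - (t : E)) < 1

theorem LOC_lead (π x : Eˣ) (hπ : ord P π = 1) : ord P (x * π ^ (-ord P x)) = 0 := by
  rw [ord_mul, ord_zpow, hπ]
  ring

theorem LOC_ex (hP : (11113 : 𝓞 E) ∈ P.asIdeal)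
    (hRES : ∀ x : 𝓞 E, ∃ t : ℤ, x - (t : 𝓞 E) ∈ P.asIdeal) (π x : Eˣ) (hπ : ord P π = 1) :
    ∃ u, LOC_R P π x u := by
  have : Fact (Nat.Prime 11113) := ⟨by norm_num⟩
  obtain ⟨y, hy⟩ : ∃ y : Eˣ, y = x * π ^ (-ord P x) := ⟨_, rfl⟩
  have hy0 : P.valuation E (y : E) = 1 := by
    rw [valuation_eq_one_iff', hy]
    exact LOC_lead P π x hπ
  obtain ⟨d, hd⟩ := HeightOneSpectrum.exists_valuation_sub_lt_of_integer P hy0.le 1
  obtain ⟨t, ht⟩ := hRES d
  have h1 : P.valuation E (algebraMap (𝓞 E) E (d - (t : 𝓞 E))) < 1 :=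
    (P.valuation_lt_one_iff_mem _).2 ht
  have h2 : P.valuation E ((y : E) - (t : E)) < 1 := by
    have h3 : (y : E) - (t : E) = algebraMap (𝓞 E) E (d - (t : 𝓞 E)) -
        (algebraMap (𝓞 E) E d - (y : E)) := by
      rw [map_sub, map_intCast]; ring
    rw [h3]
    exact Valuation.map_sub_lt _ h1 (by simpa using hd)
  have h4 : (t : ZMod 11113) ≠ 0 := by
    intro h5
    rw [ZMod.intCast_zmod_eq_zero_iff_dvd] at h5
    have h6 := (LOC_val_lt P hP t).2 (by exact_mod_cast h5)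
    have h7 : (y : E) = ((y : E) - (t : E)) + (t : E) := by ring
    have h8 : P.valuation E (y : E) < 1 := by
      rw [h7]; exact Valuation.map_add_lt _ h2 h6
    rw [hy0] at h8
    exact lt_irrefl _ h8
  exact ⟨Units.mk0 _ h4, t, rfl, hy ▸ h2⟩

theorem LOC_un (hP : (11113 : 𝓞 E) ∈ P.asIdeal) (π x : Eˣ) (u u' : (ZMod 11113)ˣ)
    (h : LOC_R P π x u) (h' : LOC_R P π x u') : u = u' := by
  obtain ⟨t, ht, hv⟩ := h
  obtain ⟨t', ht', hv'⟩ := h'
  have h1 : P.valuation E ((t - t' : ℤ) : E) < 1 := by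
    have h2 : ((t - t' : ℤ) : E) = (((x * π ^ (-ord P x) : Eˣ) : E) - (t' : E)) -
        (((x * π ^ (-ord P x) : Eˣ) : E) - (t : E)) := by
      push_cast; ring
    rw [h2]
    exact Valuation.map_sub_lt _ hv' hv
  have h3 := (LOC_val_lt P hP _).1 h1
  apply Units.ext
  rw [← ht, ← ht']
  have h4 : ((t - t' : ℤ) : ZMod 11113) = 0 := by
    rw [ZMod.intCast_zmod_eq_zero_iff_dvd]; exact_mod_cast h3
  rw [Int.cast_sub] at h4
  exact sub_eq_zero.1 h4

theorem LOC_mul (π x x' : Eˣ) (hπ : ord P π = 1) (u u' : (ZMod 11113)ˣ)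
    (h : LOC_R P π x u) (h' : LOC_R P π x' u') : LOC_R P π (x * x') (u * u') := by
  obtain ⟨t, ht, hv⟩ := h
  obtain ⟨t', ht', hv'⟩ := h'
  have hx' : P.valuation E ((x' * π ^ (-ord P x') : Eˣ) : E) = 1 := by
    rw [valuation_eq_one_iff']
    exact LOC_lead P π x' hπ
  have he : (x * x' * π ^ (-ord P (x * x')) : Eˣ) = (x * π ^ (-ord P x)) *
      (x' * π ^ (-ord P x')) := by
    rw [ord_mul, neg_add, zpow_add]
    exact mul_mul_mul_comm _ _ _ _
  refine ⟨t * t', ?_, ?_⟩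
  · rw [Int.cast_mul, ht, ht', Units.val_mul]
  · rw [he, Units.val_mul]
    have h3 : ((x * π ^ (-ord P x) : Eˣ) : E) * ((x' * π ^ (-ord P x') : Eˣ) : E) -
        ((t * t' : ℤ) : E) = (((x * π ^ (-ord P x) : Eˣ) : E) - (t : E)) *
          ((x' * π ^ (-ord P x') : Eˣ) : E) +
          (t : E) * (((x' * π ^ (-ord P x') : Eˣ) : E) - (t' : E)) := by
      push_cast; ring
    rw [h3]
    refine Valuation.map_add_lt _ ?_ ?_
    · rw [map_mul, hx', mul_one]; exact hv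
    · rw [map_mul, mul_comm]
      exact mul_lt_one_of_lt_of_le hv' (LOC_val_le P t)

/-- A place above 11113. -/
theorem LOC_place (E : Type) [Field E] [NumberField E] :
    ∃ P : HeightOneSpectrum (𝓞 E), (11113 : 𝓞 E) ∈ P.asIdeal := by
  have hp : Prime ((11113 : ℕ) : ℤ) := Nat.prime_iff_prime_int.1 (by norm_num)
  have hm : (Ideal.span {((11113 : ℕ) : ℤ)}).IsMaximal :=
    PrincipalIdealRing.isMaximal_of_irreducible hp.irreducible
  obtain ⟨Q, hQ, hQ2⟩ := Ideal.exists_maximal_ideal_liesOver_of_isIntegral (S := 𝓞 E)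
    (Ideal.span {((11113 : ℕ) : ℤ)})
  have h1 : (11113 : 𝓞 E) ∈ Q := by
    have h2 := (Ideal.mem_of_liesOver Q (Ideal.span {((11113 : ℕ) : ℤ)}) ((11113 : ℕ) : ℤ)).1
      (Ideal.mem_span_singleton_self _)
    simpa using h2
  refine ⟨⟨Q, hQ.isPrime, ?_⟩, h1⟩
  intro h0
  rw [h0] at h1
  have h2 : (11113 : 𝓞 E) = 0 := (Submodule.mem_bot _).1 h1
  have h3 : ((11113 : ℕ) : 𝓞 E) = 0 := by exact_mod_cast h2
  exact absurd (Nat.cast_eq_zero.1 h3) (by norm_num)

theorem p_LOC (hRAM : Stmt_RAM) (hRES : Stmt_RES) (_hINZ : Stmt_INZ) : Stmt_LOC := by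
  intro E _ _ _ f
  obtain ⟨P, hP⟩ := LOC_place E
  obtain ⟨lam, hlm, hl3⟩ := LOC_lam
  have hπ0 : (1 : E) - (f.zl : E) ≠ 0 := by
    intro h
    have h1 : f.zl = 1 := Units.ext (by rw [Units.val_one]; exact (sub_eq_zero.1 h).symm)
    exact f.zl_prim.ne_one (by norm_num) h1
  obtain ⟨π, hπv⟩ : ∃ π : Eˣ, (π : E) = 1 - (f.zl : E) := ⟨Units.mk0 _ hπ0, rfl⟩
  have hπ : ord P π = 1 := (hRAM E f P hP).1 π hπv
  have hex : ∀ x : Eˣ, ∃ u, LOC_R P π x u := fun x => LOC_ex P hP (hRES E f P hP) π x hπ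
  choose c hc using hex
  have hcm : ∀ x y, c (x * y) = c x * c y := fun x y =>
    LOC_un P hP π (x * y) _ _ (hc _) (LOC_mul P π x y hπ _ _ (hc x) (hc y))
  have hc1 : ∀ x ∈ U1 P, c x = 1 := by
    intro x hx
    have h0 := ord_of_mem_U1 P hx
    have hx' : P.valuation E ((x : E) - 1) < 1 := hx
    refine LOC_un P hP π x _ _ (hc _) ⟨1, by simp, ?_⟩
    rw [h0, neg_zero, zpow_zero, mul_one, Int.cast_one]
    exact hx'
  have hlam1 : lam 1 = 0 := by
    have h := hlm 1 1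
    rw [mul_one] at h
    exact left_eq_add.1 h
  refine ⟨⟨P, hP, fun x => lam (c x), ?_, ?_, ?_, ?_⟩⟩
  · intro x y
    show lam (c (x * y)) = _
    rw [hcm, hlm]
  · intro x hx
    show lam (c x) = 0
    rw [hc1 x hx, hlam1]
  · intro x hx
    show lam (c x) = 0
    have hxπ : x = π := Units.ext (by rw [hx, hπv])
    have h1 : c x = 1 := by
      refine LOC_un P hP π x _ _ (hc _) ⟨1, by simp, ?_⟩
      rw [hxπ, hπ]
      have h2 : (π * π ^ (-1 : ℤ) : Eˣ) = 1 := by rw [zpow_neg_one, mul_inv_cancel]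
      rw [h2, Units.val_one, Int.cast_one, sub_self, map_zero]
      exact zero_lt_one
    rw [h1, hlam1]
  · show lam (c f.w) ≠ 0
    have hw3 : f.w * f.w * f.w = 1 := by
      have h := f.w_prim.pow_eq_one
      rw [pow_succ, pow_succ, pow_one] at h
      exact h
    have hc11 : c 1 = 1 := hc1 1 (U1 P).one_mem
    apply hl3
    · rw [pow_succ, pow_succ, pow_one, ← hcm, ← hcm, hw3, hc11]
    · intro h1
      have hR := hc f.w
      rw [h1] at hR
      obtain ⟨t, ht, hv⟩ := hR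
      have hw0 : ord P f.w = 0 := by
        have h := congrArg (ord P) hw3
        rw [ord_mul, ord_mul, ord_one] at h
        omega
      rw [hw0, neg_zero, zpow_zero, mul_one] at hv
      have ht1 : P.valuation E ((t - 1 : ℤ) : E) < 1 := by
        rw [LOC_val_lt P hP]
        have h2 : ((t - 1 : ℤ) : ZMod 11113) = 0 := by
          rw [Int.cast_sub, ht]; simp
        rw [ZMod.intCast_zmod_eq_zero_iff_dvd] at h2
        exact_mod_cast h2
      have hw1 : P.valuation E ((f.w : E) - 1) < 1 := by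
        have h3 : (f.w : E) - 1 = ((f.w : E) - (t : E)) + ((t - 1 : ℤ) : E) := by
          push_cast; ring
        rw [h3]
        exact Valuation.map_add_lt _ hv ht1
      have h4 : ((3 : ℤ) : E) * (f.w : E) = -(((f.w : E) - 1) * ((f.w : E) - 1)) := by
        have h5 := f.w_sq
        push_cast
        linear_combination h5
      have h6 : P.valuation E (((3 : ℤ) : E) * (f.w : E)) < 1 := by
        rw [h4, Valuation.map_neg, map_mul]
        exact mul_lt_one_of_lt_of_le hw1 hw1.le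
      rw [map_mul, (valuation_eq_one_iff' P f.w).2 hw0, mul_one, LOC_val_lt P hP] at h6
      norm_num at h6

end Pool.CU
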