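import Pool.Agent.Work.MP_2b7bfc_cu.Interface

namespace Pool.CU

open scoped NumberField
open IsDedekindDomain

theorem p_LSX (hINE : Stmt_INE) (hINZ : Stmt_INZ) (hRAM : Stmt_RAM) (hCNZ : Stmt_CNZ) :
    Stmt_LSX := by
  intro E _ _ _ f L
  obtain ⟨-, -, h3, -⟩ := hINZ E f L.P
  obtain ⟨hz, -⟩ := h3 L.hP
  obtain ⟨-, hord, hU⟩ := hINE E f f.s L.P hz
  refine ⟨hord, ?_⟩
  have hne : (1 : E) - (f.zl : E) ≠ 0 := by
    intro h
    have h1 : f.zl = 1 := Units.ext (by rw [Units.val_one]; exact (sub_eq_zero.1 h).symm)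
    exact f.zl_prim.ne_one (by norm_num) h1
  have hpv : ((Units.mk0 (1 - (f.zl : E)) hne : Eˣ) : E) = 1 - (f.zl : E) := rfl
  have hordp : ord L.P (Units.mk0 (1 - (f.zl : E)) hne) = 1 := (hRAM E f L.P L.hP).1 _ hpv
  refine ⟨L.l (gu f.s (Units.mk0 (1 - (f.zl : E)) hne)), hCNZ E f L _ hpv, ?_⟩
  have hlp : L.l (Units.mk0 (1 - (f.zl : E)) hne) = 0 := L.l_pi _ hpv
  generalize (Units.mk0 (1 - (f.zl : E)) hne : Eˣ) = p at hpv hordp hlp
  intro x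
  obtain ⟨y, hx, hoy⟩ : ∃ y : Eˣ, x = p ^ (ord L.P x) * y ∧ ord L.P y = 0 := by
    refine ⟨x * p ^ (-(ord L.P x)), ?_, ?_⟩
    · rw [mul_comm x, ← mul_assoc, ← zpow_add, add_neg_cancel, zpow_zero, one_mul]
    · rw [ord_mul, ord_zpow, hordp]
      ring
  have hly : L.l (gu f.s y) = L.l y := by
    have h4 := L.l_U1 _ (hU y hoy)
    rw [L.l_mul, L.l_inv] at h4
    linear_combination h4
  have e1 := congrArg (fun t : Eˣ => L.l (gu f.s t)) hx
  have e2 := congrArg (fun t : Eˣ => L.l t) hx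
  simp only [map_mul, map_zpow, L.l_mul, L.l_zpow, hly, hlp] at e1 e2
  rw [e1, e2]
  ring

end Pool.CU
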