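import Pool.Agent.Work.MP_2b7bfc_cu.Interface3

namespace Pool.CU

open scoped NumberField TensorProduct
open IsDedekindDomain

theorem PH1_away (hVAL : Stmt_VAL) {E : Type} [Field E] [NumberField E] (m : ℕ) (σ : Gal(E/ℚ))
    (x : Eˣ) (hx : IsUnitAway m x) : IsUnitAway m (gu σ x) := by
  intro v hv
  obtain ⟨v', h1, h2⟩ := hVAL E σ v
  rw [h2]
  apply hx
  intro h
  apply hv
  refine (h1 (m : 𝓞 E) (m : 𝓞 E) ?_).1 h
  push_cast
  rw [map_natCast]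

theorem p_PH1 (hVAL : Stmt_VAL) (hCOM : Stmt_COM) : Stmt_PH1 := by
  intro E _ _ _ f L H x y hx hy
  obtain ⟨hcomm, -, -, -⟩ := hCOM E f
  have hab : ∀ t : Eˣ, gu f.a (gu f.b t) = gu f.b (gu f.a t) := by
    intro t
    rw [← gu_mul, ← gu_mul, hcomm]
  have hax := PH1_away hVAL _ f.a x hx
  have hay := PH1_away hVAL _ f.a y hy
  rw [L.Phi_sym, L.tau_sym, L.tau_sym, L.tau_sym, L.tau_sym, hab, hab]
  obtain ⟨h1, h2⟩ := H x hx
  obtain ⟨h3, h4⟩ := H y hy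
  obtain ⟨h5, h6⟩ := H _ hax
  obtain ⟨h7, h8⟩ := H _ hay
  rw [← h1, ← h2, ← h3, ← h4, ← h5, ← h6, ← h7, ← h8]
  ring

end Pool.CU
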