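import Pool.Agent.Work.MP_2b7bfc_cu.Interface3

/-! # Block PH2: equivariance of Phi (MP_2b7bfc_nt, helper95) -/

namespace Pool.CU

open scoped NumberField TensorProduct
open IsDedekindDomain

theorem p_PH2 (hLSX : Stmt_LSX) (hCOM : Stmt_COM) : Stmt_PH2 := by
  intro E _ _ _ f L x
  obtain ⟨hcomm, haa, hbb, -⟩ := hCOM E f
  obtain ⟨hord, c, -, hl⟩ := hLSX E f L
  have hab : ∀ t : Eˣ, gu f.a (gu f.b t) = gu f.b (gu f.a t) := by
    intro t
    rw [← gu_mul, ← gu_mul, hcomm]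
  have has : ∀ t : Eˣ, gu f.a (gu f.s t) = gu f.s (gu f.a t) := by
    intro t
    rw [← gu_mul, ← gu_mul, hcomm]
  have hbs : ∀ t : Eˣ, gu f.b (gu f.s t) = gu f.s (gu f.b t) := by
    intro t
    rw [← gu_mul, ← gu_mul, hcomm]
  have ha2 : ∀ t : Eˣ, gu f.a (gu f.a t) = t := by
    intro t
    rw [← gu_mul, haa]
    ext
    rfl
  have hb2 : ∀ t : Eˣ, gu f.b (gu f.b t) = t := by
    intro t
    rw [← gu_mul, hbb]
    ext
    rfl
  have hs : ∀ u v : Eˣ, L.tau (sym (gu f.s u) (gu f.s v)) = L.tau (sym u v) := by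
    intro u v
    rw [L.tau_sym, L.tau_sym, hord, hord, hl, hl]
    ring
  induction x using K2_induction with
  | h0 => simp only [map_zero, neg_zero, and_self]
  | hs u v =>
    refine ⟨?_, ?_, ?_⟩
    · change L.Phi (sym (gu f.a u) (gu f.a v)) = _
      rw [L.Phi_sym, L.Phi_sym, ha2, ha2, ← hab u, ← hab v, ha2, ha2]
      ring
    · change L.Phi (sym (gu f.b u) (gu f.b v)) = _
      rw [L.Phi_sym, L.Phi_sym, hb2, hb2]
      ring
    · change L.Phi (sym (gu f.s u) (gu f.s v)) = _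
      rw [L.Phi_sym, L.Phi_sym, hbs, hbs, has, has, has, has, hs, hs, hs, hs]
  | ha p q hp hq =>
    obtain ⟨p1, p2, p3⟩ := hp
    obtain ⟨q1, q2, q3⟩ := hq
    simp only [map_add]
    rw [p1, p2, p3, q1, q2, q3]
    refine ⟨?_, ?_, rfl⟩ <;> ring

end Pool.CU
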