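import Pool.Agent.Work.MP_2b7bfc_cu.Interface3

/-! # Block PH3 -/

namespace Pool.CU

open scoped NumberField TensorProduct
open IsDedekindDomain

theorem p_PH3 (hTKA : Stmt_TKA) (hPHN : Stmt_PHN) : Stmt_PH3 := by
  intro E _ _ _ f L
  have hx : (1 : E) - (f.zl : E) ≠ 0 := by
    intro h
    have h1 : f.zl = 1 := Units.ext (sub_eq_zero.1 h).symm
    exact f.zl_prim.ne_one (by norm_num) h1
  have hy : (1 : E) + 6 * f.r ≠ 0 := by
    intro h
    have h1 : ((1 : E) + 6 * f.r) * (1 - 6 * f.r) = -107 := by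
      have : ((1 : E) + 6 * f.r) * (1 - 6 * f.r) = 1 - 36 * f.r ^ 2 := by ring
      rw [this, f.r_sq]
      norm_num
    rw [h, zero_mul] at h1
    norm_num at h1
  refine ⟨((107 : ℤ) ^ 1389 - 1) • sym (Units.mk0 _ hx) (Units.mk0 _ hy),
    hTKA E f _ _ rfl rfl, ?_⟩
  have hP := hPHN E f L (Units.mk0 _ hx) (Units.mk0 _ hy) rfl rfl
  rw [map_zsmul, zsmul_eq_mul]
  have h3 : (((107 : ℤ) ^ 1389 - 1 : ℤ) : ZMod 3) = 1 := by
    rw [Int.cast_sub, Int.cast_pow]
    have h4 : (((107 : ℤ) : ZMod 3)) = -1 := by decide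
    have h5 : Odd 1389 := by decide
    rw [h4, h5.neg_one_pow]
    decide
  rw [h3, one_mul]
  exact hP

end Pool.CU
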