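import Pool.Agent.Work.MP_2b7bfc_cu.Interface3

/-! # Block PHN of THEOREM CUP: `Phi` does not vanish on the symbol -/

namespace Pool.CU

open scoped NumberField TensorProduct
open IsDedekindDomain

section

variable {E : Type} [Field E] [NumberField E]

omit [NumberField E] in
theorem PHN_not_mem (P : HeightOneSpectrum (𝓞 E)) (hP : (11113 : 𝓞 E) ∈ P.asIdeal) (Y : 𝓞 E)
    (m t a b : ℤ) (hY : Y - (m : 𝓞 E) ∈ P.asIdeal) (h : a * (m * t ^ 3) - b * 11113 = 1) :
    Y * (t : 𝓞 E) ^ 3 ∉ P.asIdeal := by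
  intro h1
  apply P.isPrime.ne_top
  rw [Ideal.eq_top_iff_one]
  have h2 : (1 : 𝓞 E) = (a : 𝓞 E) * (Y * (t : 𝓞 E) ^ 3) - (a : 𝓞 E) * (t : 𝓞 E) ^ 3 *
      (Y - (m : 𝓞 E)) - (b : 𝓞 E) * 11113 := by
    have h3 := congrArg (fun k : ℤ => (k : 𝓞 E)) h
    push_cast at h3
    linear_combination -h3
  rw [h2]
  exact P.asIdeal.sub_mem (P.asIdeal.sub_mem (P.asIdeal.mul_mem_left _ h1)
    (P.asIdeal.mul_mem_left _ hY)) (P.asIdeal.mul_mem_left _ hP)

/-- If `U W` is congruent to `Y t ^ 3` then `l u + l w = l y`. -/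
theorem PHN_key {f : Frame E} (L : Loc f) (u y : Eˣ) (U Y W : 𝓞 E) (hu : (u : E) = U)
    (hy : (y : E) = Y) (hw : (f.w : E) = W) (m n r t a b c : ℤ) (hU : U - (n : 𝓞 E) ∈ L.P.asIdeal)
    (hY : Y - (m : 𝓞 E) ∈ L.P.asIdeal) (hW : W - (r : 𝓞 E) ∈ L.P.asIdeal)
    (h : a * (m * t ^ 3) - b * 11113 = 1) (h2 : n * r - m * t ^ 3 = c * 11113) (ht : t ≠ 0) :
    L.l u + L.l f.w = L.l y := by
  have ht0 : (t : E) ≠ 0 := by exact_mod_cast ht
  obtain ⟨v, hv⟩ : ∃ v : Eˣ, (v : E) = (t : E) := ⟨Units.mk0 (t : E) ht0, rfl⟩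
  have h3 := PHN_not_mem L.P L.hP Y m t a b hY h
  have e1 : ((u * f.w : Eˣ) : E) = ((U * W : 𝓞 E) : E) := by
    rw [Units.val_mul, hu, hw]
    rfl
  have e2 : ((y * v ^ 3 : Eˣ) : E) = ((Y * (t : 𝓞 E) ^ 3 : 𝓞 E) : E) := by
    have h5 : ((Y * (t : 𝓞 E) ^ 3 : 𝓞 E) : E) = (Y : E) * (t : E) ^ 3 := by
      change algebraMap (𝓞 E) E (Y * (t : 𝓞 E) ^ 3) = _
      rw [map_mul, map_pow, map_intCast]
    rw [Units.val_mul, Units.val_pow_eq_pow_val, hy, hv, h5]
  have h4 : U * W - Y * (t : 𝓞 E) ^ 3 ∈ L.P.asIdeal := by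
    have h5 := congrArg (fun k : ℤ => (k : 𝓞 E)) h2
    push_cast at h5
    have h6 : U * W - Y * (t : 𝓞 E) ^ 3 = W * (U - (n : 𝓞 E)) + (n : 𝓞 E) * (W - (r : 𝓞 E)) -
        (t : 𝓞 E) ^ 3 * (Y - (m : 𝓞 E)) + (c : 𝓞 E) * 11113 := by
      linear_combination h5
    rw [h6]
    exact L.P.asIdeal.add_mem (L.P.asIdeal.sub_mem (L.P.asIdeal.add_mem
      (L.P.asIdeal.mul_mem_left _ hU) (L.P.asIdeal.mul_mem_left _ hW))
      (L.P.asIdeal.mul_mem_left _ hY)) (L.P.asIdeal.mul_mem_left _ L.hP)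
  have h7 := L.l_U1 _ (div_mem_U1 L.P e1 e2 h4 h3)
  rw [L.l_mul, L.l_inv, L.l_mul, L.l_mul, L.l_cube] at h7
  linear_combination h7

theorem PHN_int (f : Frame E) : ∃ Z : 𝓞 E, (Z : E) = (f.z : E) := by
  have h : IsIntegral ℤ (f.z : E) :=
    (IsPrimitiveRoot.coe_units_iff.2 f.hz).isIntegral (by norm_num)
  exact ⟨⟨(f.z : E), h⟩, rfl⟩

/-- The two elements `9684` and `1431` modulo `P` have different cubic residue symbols. -/
theorem PHN_ne {f : Frame E} (L : Loc f) (u y : Eˣ) (U Y : 𝓞 E) (hu : (u : E) = U)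
    (hy : (y : E) = Y) (hU : U - ((9684 : ℤ) : 𝓞 E) ∈ L.P.asIdeal)
    (hY : Y - ((1431 : ℤ) : 𝓞 E) ∈ L.P.asIdeal) : L.l u ≠ L.l y := by
  obtain ⟨Z, hZ⟩ := PHN_int f
  obtain ⟨W, hW⟩ : ∃ W : 𝓞 E, (f.w : E) = W := by
    refine ⟨Z ^ 44452, ?_⟩
    change _ = algebraMap (𝓞 E) E (Z ^ 44452)
    rw [map_pow, Frame.w, Units.val_pow_eq_pow_val, ← hZ]
  have hW2 : W ^ 2 + W + 1 = 0 := by
    apply NumberField.RingOfIntegers.ext
    have h8 := f.w_sq
    rw [hW] at h8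
    exact h8
  have hprod : (W - ((7255 : ℤ) : 𝓞 E)) * (W - ((3857 : ℤ) : 𝓞 E)) ∈ L.P.asIdeal := by
    have h7 : (W - ((7255 : ℤ) : 𝓞 E)) * (W - ((3857 : ℤ) : 𝓞 E)) = (2518 - W) * 11113 := by
      push_cast
      linear_combination hW2
    rw [h7]
    exact L.P.asIdeal.mul_mem_left _ L.hP
  intro he
  apply L.l_w
  rcases L.P.isPrime.mem_or_mem hprod with h8 | h8
  · have := PHN_key L u y U Y W hu hy hW 1431 9684 7255 1254 10006 2540747035031 (-253916028)
      hU hY h8 (by norm_num) (by norm_num) (by norm_num)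
    rw [he] at this
    linear_combination this
  · have := PHN_key L y u Y U W hy hu hW 9684 1431 3857 257 9130 135049696943 (-14791365)
      hY hU h8 (by norm_num) (by norm_num) (by norm_num)
    rw [he] at this
    linear_combination this

end

theorem p_PHN (hRAM : Stmt_RAM) : Stmt_PHN := by
  intro E _ _ _ f L x y hx hy
  obtain ⟨Z, hZ⟩ := PHN_int f
  obtain ⟨R, hR⟩ : ∃ R : 𝓞 E, (R : E) = f.r := by
    refine ⟨Z ^ 11113 + Z ^ 122243, ?_⟩
    change algebraMap (𝓞 E) E (Z ^ 11113 + Z ^ 122243) = _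
    rw [map_add, map_pow, map_pow, Frame.r, Units.val_pow_eq_pow_val, Units.val_pow_eq_pow_val,
      ← hZ]
  have hy0 : (1 : E) - 6 * f.r ≠ 0 := by
    intro h
    have h1 : (1 + 6 * f.r) * (1 - 6 * f.r) = -107 := by
      linear_combination (-36 : E) * f.r_sq
    rw [h, mul_zero] at h1
    norm_num at h1
  obtain ⟨y', hy'⟩ : ∃ y' : Eˣ, (y' : E) = 1 - 6 * f.r := ⟨Units.mk0 _ hy0, rfl⟩
  have ha1 : f.a (f.zl : E) = f.zl := by
    have := congrArg (fun u : Eˣ => (u : E)) f.a_zl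
    simpa only [gu_val] using this
  have hb1 : f.b (f.zl : E) = f.zl := by
    have := congrArg (fun u : Eˣ => (u : E)) f.b_zl
    simpa only [gu_val] using this
  have hax : gu f.a x = x := by
    apply Units.ext
    rw [gu_val, hx, map_sub, map_one, ha1]
  have hbx : gu f.b x = x := by
    apply Units.ext
    rw [gu_val, hx, map_sub, map_one, hb1]
  have hay : gu f.a y = y' := by
    apply Units.ext
    rw [gu_val, hy, hy', map_add, map_one, map_mul, map_ofNat, f.a_r]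
    ring
  have hby : gu f.b y = y' := by
    apply Units.ext
    rw [gu_val, hy, hy', map_add, map_one, map_mul, map_ofNat, f.b_r]
    ring
  have hay' : gu f.a y' = y := by
    apply Units.ext
    rw [gu_val, hy, hy', map_sub, map_one, map_mul, map_ofNat, f.a_r]
    ring
  have hox : ord L.P x = 1 := (hRAM E f L.P L.hP).1 x hx
  have hlx : L.l x = 0 := L.l_pi x hx
  have hY : (y : E) = ((1 + 6 * R : 𝓞 E) : E) := by
    rw [hy, ← hR]
    rfl
  have hY' : (y' : E) = ((1 - 6 * R : 𝓞 E) : E) := by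
    rw [hy', ← hR]
    rfl
  have hR2 : R ^ 2 = 3 := by
    apply NumberField.RingOfIntegers.ext
    have h8 := f.r_sq
    rw [← hR] at h8
    exact h8
  have hprod : (R - 3466) * (R + 3466) ∈ L.P.asIdeal := by
    have h7 : (R - 3466) * (R + 3466) = -1081 * 11113 := by
      linear_combination hR2
    rw [h7]
    exact L.P.asIdeal.mul_mem_left _ L.hP
  have hne : L.l y ≠ L.l y' := by
    rcases L.P.isPrime.mem_or_mem hprod with h8 | h8
    · refine PHN_ne L y y' _ _ hY hY' ?_ ?_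
      · have h9 : (1 + 6 * R) - ((9684 : ℤ) : 𝓞 E) = 6 * (R - 3466) + 11113 := by
          push_cast
          ring
        rw [h9]
        exact L.P.asIdeal.add_mem (L.P.asIdeal.mul_mem_left _ h8) L.hP
      · have h9 : (1 - 6 * R) - ((1431 : ℤ) : 𝓞 E) = -6 * (R - 3466) + (-2) * 11113 := by
          push_cast
          ring
        rw [h9]
        exact L.P.asIdeal.add_mem (L.P.asIdeal.mul_mem_left _ h8)
          (L.P.asIdeal.mul_mem_left _ L.hP)
    · refine (PHN_ne L y' y _ _ hY' hY ?_ ?_).symm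
      · have h9 : (1 - 6 * R) - ((9684 : ℤ) : 𝓞 E) = -6 * (R + 3466) + 11113 := by
          push_cast
          ring
        rw [h9]
        exact L.P.asIdeal.add_mem (L.P.asIdeal.mul_mem_left _ h8) L.hP
      · have h9 : (1 + 6 * R) - ((1431 : ℤ) : 𝓞 E) = 6 * (R + 3466) + (-2) * 11113 := by
          push_cast
          ring
        rw [h9]
        exact L.P.asIdeal.add_mem (L.P.asIdeal.mul_mem_left _ h8)
          (L.P.asIdeal.mul_mem_left _ L.hP)
  rw [L.Phi_sym, hax, hbx, hax, hay, hby, hay', L.tau_sym, L.tau_sym, hox, hlx]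
  intro h0
  apply hne
  push_cast at h0
  have h3 : (3 : ZMod 3) = 0 := by decide
  linear_combination h0 + (L.l y - L.l y') * h3

end Pool.CU
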