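import Pool.Agent.Work.MP_2b7bfc_cu.Interface3

/-!
Block PRM: the character is primitive and even, and not trivial on the Frobenius.
-/

namespace Pool.CU

theorem PRM_prime : Nat.Prime 11113 := by norm_num

theorem PRM_divisor {d : ℕ} (hd : d ∣ 44452 * 3) (hne : d ≠ 44452 * 3) :
    d ∣ 66678 ∨ d ∣ 44452 ∨ d ∣ 12 := by
  obtain ⟨e, he⟩ := hd
  have he1 : e ≠ 1 := by
    rintro rfl
    rw [mul_one] at he
    exact hne he.symm
  obtain ⟨q, hq, hqe⟩ := Nat.exists_prime_and_dvd he1
  have hqn : q ∣ 2 ^ 2 * 3 * 11113 := by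
    have : q ∣ 44452 * 3 := by
      rw [he]
      exact hqe.mul_left d
    have h2 : 44452 * 3 = 2 ^ 2 * 3 * 11113 := by norm_num
    rwa [h2] at this
  obtain ⟨e', rfl⟩ := hqe
  have hcase : q = 2 ∨ q = 3 ∨ q = 11113 := by
    rcases (Nat.Prime.dvd_mul hq).mp hqn with h | h
    · rcases (Nat.Prime.dvd_mul hq).mp h with h | h
      · left
        exact (Nat.prime_dvd_prime_iff_eq hq Nat.prime_two).mp (hq.dvd_of_dvd_pow h)
      · right; left
        exact (Nat.prime_dvd_prime_iff_eq hq Nat.prime_three).mp h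
    · right; right
      exact (Nat.prime_dvd_prime_iff_eq hq PRM_prime).mp h
  rcases hcase with rfl | rfl | rfl
  · left
    refine ⟨e', ?_⟩
    have : d * e' * 2 = 66678 * 2 := by
      rw [show 66678 * 2 = 44452 * 3 by norm_num, he]
      ring
    omega
  · right; left
    refine ⟨e', ?_⟩
    have : d * e' * 3 = 44452 * 3 := by
      rw [he]
      ring
    omega
  · right; right
    refine ⟨e', ?_⟩
    have : d * e' * 11113 = 12 * 11113 := by
      rw [show 12 * 11113 = 44452 * 3 by norm_num, he]
      ring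
    omega

theorem PRM_value {R : Type} [CommMonoidWithZero R] (θ : DirichletCharacter R (44452 * 3)) {m : ℕ}
    (hθ : DirichletCharacter.FactorsThrough θ m) (x : ℕ) (hx : Nat.Coprime x (44452 * 3))
    (h1 : ((x : ℕ) : ZMod m) = 1) : θ ((x : ℕ) : ZMod (44452 * 3)) = 1 := by
  rw [hθ.eq_changeLevel]
  have h2 : IsUnit ((x : ℕ) : ZMod (44452 * 3)) := (ZMod.isUnit_iff_coprime x (44452 * 3)).mpr hx
  obtain ⟨u, hu⟩ := h2
  rw [← hu, DirichletCharacter.changeLevel_eq_cast_of_dvd, hu, ZMod.cast_natCast hθ.dvd, h1,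
    map_one]

theorem p_PRM : Stmt_PRM := by
  intro θ ζ hζ3 hζ1 hθ
  have hm1 : (-1 : AlgebraicClosure ℚ_[3]) ≠ 1 := by
    intro h
    have h2 : (2 : AlgebraicClosure ℚ_[3]) = 0 := by linear_combination -h
    exact two_ne_zero h2
  have hζ : ∀ j, ζ ^ (3 * j) = 1 := fun j => by rw [pow_mul, hζ3, one_pow]
  refine ⟨?_, ?_, ?_⟩
  · by_contra hprim
    have hfac := θ.factorsThrough_conductor
    rcases PRM_divisor θ.conductor_dvd_level hprim with h | h | h
    · have h1 := DirichletCharacter.FactorsThrough.mono θ hfac h (by norm_num)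
      have h2 := PRM_value θ h1 66679 (by norm_num) (by decide)
      rw [hθ 66679 0 (by norm_num) (by norm_num)] at h2
      rw [if_neg (by norm_num)] at h2
      simp at h2
      exact hm1 h2
    · have h1 := DirichletCharacter.FactorsThrough.mono θ hfac h (by norm_num)
      have h2 := PRM_value θ h1 44453 (by norm_num) (by decide)
      rw [hθ 44453 0 (by norm_num) (by norm_num)] at h2
      rw [if_neg (by norm_num)] at h2
      simp at h2
      exact hm1 h2
    · have h1 := DirichletCharacter.FactorsThrough.mono θ hfac h (by norm_num)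
      have h2 := PRM_value θ h1 13 (by norm_num) (by decide)
      rw [hθ 13 1 (by norm_num) (by norm_num)] at h2
      rw [if_pos (by norm_num), one_mul, pow_one] at h2
      exact hζ1 h2
  · have h1 : ((133355 : ℕ) : ZMod (44452 * 3)) = -1 := by
      have h2 : ((133355 : ℕ) : ZMod (44452 * 3)) + 1 = 0 := by
        have : (((133355 + 1 : ℕ)) : ZMod (44452 * 3)) = 0 :=
          (ZMod.natCast_self (44452 * 3))
        rw [← this]; push_cast; ring
      exact eq_neg_of_add_eq_zero_left h2
    show θ (-1) = 1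
    rw [← h1, hθ 133355 (3 * 1852) (by norm_num) (by decide +kernel), hζ,
      if_pos (by norm_num), one_mul]
  · intro hT
    have h1 := hT 44455 (by decide) (by decide)
    have h2 := hθ 44455 (3 * 1128) (by norm_num) (by decide +kernel)
    rw [if_neg (by norm_num), hζ, mul_one] at h2
    push_cast at h1 h2
    rw [h1] at h2
    exact hm1 h2.symm

end Pool.CU
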