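import Pool.Agent.Work.MP_2b7bfc_cu.Interface

/-! # Block RAM of THEOREM CUP -/

namespace Pool.CU

open scoped NumberField
open IsDedekindDomain

theorem RAM_prime : Nat.Prime 11113 := by norm_num

variable {E : Type} [Field E] [NumberField E]

theorem RAM_liesOver (v : HeightOneSpectrum (𝓞 E)) (h : (11113 : 𝓞 E) ∈ v.asIdeal) :
    v.asIdeal.LiesOver (Ideal.span {((11113 : ℕ) : ℤ)}) := by
  have hmax : (Ideal.span {((11113 : ℕ) : ℤ)}).IsMaximal := by
    refine PrincipalIdealRing.isMaximal_of_irreducible ?_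
    exact (Nat.prime_iff_prime_int.1 RAM_prime).irreducible
  refine ⟨hmax.eq_of_le ?_ ?_⟩
  · exact Ideal.comap_ne_top _ v.isPrime.ne_top
  · rw [Ideal.span_singleton_le_iff_mem, Ideal.under_def, Ideal.mem_comap]
    simpa using h

theorem RAM_mult [IsCyclotomicExtension {133356} ℚ E] (v : HeightOneSpectrum (𝓞 E))
    (h : (11113 : 𝓞 E) ∈ v.asIdeal) :
    ∀ n : ℕ, v.asIdeal ^ n ∣ Ideal.span {(11113 : 𝓞 E)} ↔ n ≤ 11112 := by
  have : Fact (Nat.Prime 11113) := ⟨RAM_prime⟩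
  have := RAM_liesOver v h
  have := v.isPrime
  have h1 : v.asIdeal.ramificationIdx ℤ = 11113 ^ 0 * (11113 - 1) :=
    IsCyclotomicExtension.Rat.ramificationIdx_eq (m := 12) (p := 11113) (k := 0) 133356 E v.asIdeal
      (by norm_num) (by norm_num)
  have hmap : Ideal.map (algebraMap ℤ (𝓞 E)) (Ideal.span {((11113 : ℕ) : ℤ)}) =
      Ideal.span {(11113 : 𝓞 E)} := by
    rw [Ideal.map_span, Set.image_singleton]
    simp
  have hne : Ideal.span {(11113 : 𝓞 E)} ≠ ⊥ := by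
    rw [Ne, Ideal.span_singleton_eq_bot]
    norm_num
  have h2 := Ideal.IsDedekindDomain.ramificationIdx_eq_multiplicity
    (Ideal.span {((11113 : ℕ) : ℤ)}) v.asIdeal (by rw [hmap]; exact hne)
  rw [h1, hmap] at h2
  have h3 : multiplicity v.asIdeal (Ideal.span {(11113 : 𝓞 E)}) = 11112 := by
    rw [← h2]; norm_num
  intro n
  have hf : FiniteMultiplicity v.asIdeal (Ideal.span {(11113 : 𝓞 E)}) :=
    FiniteMultiplicity.of_prime_left v.prime hne
  rw [hf.pow_dvd_iff_le_multiplicity, h3]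

theorem RAM_ord_le (v : HeightOneSpectrum (𝓞 E)) (x : Eˣ) (y : 𝓞 E) (h : (x : E) = y) (n : ℕ) :
    (n : ℤ) ≤ ord v x ↔ v.asIdeal ^ n ∣ Ideal.span {y} := by
  rw [← v.intValuation_le_pow_iff_dvd y n, ← HeightOneSpectrum.valuation_of_algebraMap (K := E)]
  have h1 : v.valuation E (algebraMap (𝓞 E) E y) = v.valuation E (x : E) := by rw [h]
  rw [h1, valuation_eq_exp]
  change _ ↔ ((Multiplicative.ofAdd (-ord v x) : Multiplicative ℤ) : WithZero (Multiplicative ℤ)) ≤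
    ((Multiplicative.ofAdd (-(n : ℤ)) : Multiplicative ℤ) : WithZero (Multiplicative ℤ))
  rw [WithZero.coe_le_coe, Multiplicative.ofAdd_le]
  omega

theorem RAM_ord [IsCyclotomicExtension {133356} ℚ E] (v : HeightOneSpectrum (𝓞 E))
    (h : (11113 : 𝓞 E) ∈ v.asIdeal) (x : Eˣ) (hx : (x : E) = 11113) : ord v x = 11112 := by
  have hx' : (x : E) = ((11113 : 𝓞 E) : E) := by
    rw [hx]
    exact (map_ofNat (algebraMap (𝓞 E) E) 11113).symm
  have h1 : ∀ n : ℕ, (n : ℤ) ≤ ord v x ↔ n ≤ 11112 := fun n =>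
    (RAM_ord_le v x _ hx' n).trans (RAM_mult v h n)
  have h2 := (h1 11112).2 le_rfl
  have h3 := mt (h1 11113).1 (by norm_num)
  push_cast at h2 h3
  omega

/-- The order of `1 - y ^ j` is at least that of `1 - y`. -/
theorem RAM_mono (v : HeightOneSpectrum (𝓞 E)) (X X' : Eˣ) (y : 𝓞 E) (j : ℕ)
    (h : (X : E) = 1 - (y : E)) (h' : (X' : E) = 1 - (y : E) ^ j) : ord v X ≤ ord v X' := by
  have h1 : (1 - (y : E) ^ j) = (1 - (y : E)) * ∑ i ∈ Finset.range j, (y : E) ^ i := by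
    rw [mul_comm, geom_sum_mul_neg]
  have h2 : ((X' * X⁻¹ : Eˣ) : E) = ((∑ i ∈ Finset.range j, y ^ i : 𝓞 E) : E) := by
    rw [Units.val_mul, h', h1, ← h, Units.val_inv_eq_inv_val]
    have h5 : (X : E) ≠ 0 := X.ne_zero
    field_simp
    simp
  have h3 := ord_nonneg v h2
  rw [ord_mul, ord_inv] at h3
  linarith

theorem RAM_pow (v : HeightOneSpectrum (𝓞 E)) (ζ : E) (hζ : IsPrimitiveRoot ζ 11113) (X X' : Eˣ)
    (j : ℕ) (hj : j.Coprime 11113) (h : (X : E) = 1 - ζ) (h' : (X' : E) = 1 - ζ ^ j) :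
    ord v X' = ord v X := by
  obtain ⟨y, hy⟩ : ∃ y : 𝓞 E, (y : E) = ζ := ⟨⟨ζ, hζ.isIntegral (by norm_num)⟩, rfl⟩
  have hyj : ((y ^ j : 𝓞 E) : E) = ζ ^ j := by
    rw [← hy]
    exact map_pow (algebraMap (𝓞 E) E) y j
  apply le_antisymm
  · obtain ⟨i, -, hi⟩ := Nat.exists_mul_mod_eq_one_of_coprime hj (by norm_num)
    refine RAM_mono v X' X (y ^ j) i ?_ ?_
    · rw [h', hyj]
    · rw [h, hyj, ← pow_mul]
      have h3 : ζ ^ (j * i) = ζ := by
        have h4 := pow_mod_orderOf ζ (j * i)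
        rw [← hζ.eq_orderOf, hi, pow_one] at h4
        exact h4.symm
      rw [h3]
  · refine RAM_mono v X X' y j ?_ ?_
    · rw [h, hy]
    · rw [h', hy]

theorem RAM_prod (v : HeightOneSpectrum (𝓞 E)) (ζ : E) (hζ : IsPrimitiveRoot ζ 11113) (X Y : Eˣ)
    (h : (X : E) = 1 - ζ) (hY : (Y : E) = 11113) : ord v Y = 11112 * ord v X := by
  have h1 := (show IsPrimitiveRoot ζ (11112 + 1) from hζ).prod_one_sub_pow_eq_order
  have hne : ∀ k : ℕ, k < 11112 → 1 - ζ ^ (k + 1) ≠ 0 := by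
    intro k hk h2
    exact hζ.pow_ne_one_of_pos_of_lt (by omega) (by omega) (sub_eq_zero.1 h2).symm
  obtain ⟨W, hW⟩ : ∃ W : ℕ → Eˣ, ∀ k, k < 11112 → (W k : E) = 1 - ζ ^ (k + 1) := by
    classical
    refine ⟨fun k => if hk : k < 11112 then Units.mk0 _ (hne k hk) else 1, fun k hk => ?_⟩
    dsimp only
    rw [dif_pos hk, Units.val_mk0]
  have h3 : Y = ∏ k ∈ Finset.range 11112, W k := by
    apply Units.ext
    rw [hY, Units.coe_prod, Finset.prod_congr rfl (fun k hk => hW k (Finset.mem_range.1 hk)), h1]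
    norm_num
  have h4 : ∀ k ∈ Finset.range 11112, ord v (W k) = ord v X := by
    intro k hk
    rw [Finset.mem_range] at hk
    refine RAM_pow v ζ hζ X (W k) (k + 1) ?_ h (hW k hk)
    rw [Nat.coprime_comm]
    exact (Nat.Prime.coprime_iff_not_dvd RAM_prime).2
      (Nat.not_dvd_of_pos_of_lt (by omega) (by omega))
  rw [h3, ord_prod, Finset.sum_congr rfl h4, Finset.sum_const, Finset.card_range]
  simp

theorem p_RAM : Stmt_RAM := by
  intro E _ _ _ f v hv
  have h11 : (11113 : E) ≠ 0 := by norm_num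
  obtain ⟨Y, hY⟩ : ∃ Y : Eˣ, (Y : E) = 11113 := ⟨Units.mk0 _ h11, rfl⟩
  have hYo := RAM_ord v hv Y hY
  have hζ : IsPrimitiveRoot (f.zl : E) 11113 := by
    have := f.zl_prim
    exact IsPrimitiveRoot.coe_units_iff.2 this
  constructor
  · intro x hx
    have h1 := RAM_prod v (f.zl : E) hζ x Y hx hY
    omega
  · intro x hx
    exact RAM_ord v hv x hx

end Pool.CU
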