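import Pool.Agent.Work.MP_2b7bfc_cu.Interface2

/-! # Block RD1: the order at `P` is divisible by 3 -/

namespace Pool.CU

open scoped NumberField
open IsDedekindDomain

theorem p_RD1 (hLSX : Stmt_LSX) (hINE : Stmt_INE) (hINZ : Stmt_INZ) (hCOM : Stmt_COM)
    (hVAL : Stmt_VAL) : Stmt_RD1 := by
  intro E _ _ _ f L H x hb hs hx
  obtain ⟨hcom, -, -, -⟩ := hCOM E f
  have hc : ∀ (σ τ : Gal(E/ℚ)) (u : Eˣ), gu σ (gu τ u) = gu τ (gu σ u) := by
    intro σ τ u
    rw [← gu_mul, ← gu_mul, hcom]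
  have h1 : ∀ v : HeightOneSpectrum (𝓞 E), ord v (gu f.s x * x⁻¹) = 0 := by
    intro v
    rw [ord_mul, ord_inv]
    by_cases hv : (11113 : 𝓞 E) ∈ v.asIdeal
    · have h2 := (hINE E f f.s v ((hINZ E f v).2.2.1 hv).1).2.1 x
      rw [h2]
      ring
    · obtain ⟨v', hv', hord⟩ := hVAL E f.s v
      have h3 : (11113 : 𝓞 E) ∉ v'.asIdeal := by
        rw [hv' 11113 11113 (by
          have h4 : (((11113 : 𝓞 E) : 𝓞 E) : E) = (11113 : E) := by
            exact map_ofNat (algebraMap (𝓞 E) E) 11113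
          rw [h4]
          exact (map_ofNat f.s 11113).symm)]
        exact hv
      rw [hord, hx v hv, hx v' h3]
      ring
  have h2 : gu f.b (gu f.s x * x⁻¹) = (gu f.s x * x⁻¹)⁻¹ := by
    rw [map_mul, map_inv, hc f.b f.s, hb, map_inv, mul_inv]
  have h3 : gu (f.s ^ 3) (gu f.s x * x⁻¹) = gu f.s x * x⁻¹ := by
    rw [map_mul, map_inv, hc (f.s ^ 3) f.s, hs]
  have h4 := H _ h1 h2 h3
  obtain ⟨-, c, hc0, hlc⟩ := hLSX E f L
  rw [L.l_mul, L.l_inv, hlc x] at h4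
  have h5 : (ord L.P x : ZMod 3) * c = 0 := by linear_combination h4
  haveI : Fact (Nat.Prime 3) := ⟨by norm_num⟩
  have h6 : (ord L.P x : ZMod 3) = 0 := by
    rcases mul_eq_zero.mp h5 with h | h
    · exact h
    · exact absurd h hc0
  have h7 := (ZMod.intCast_zmod_eq_zero_iff_dvd (ord L.P x) 3).mp h6
  exact_mod_cast h7

end Pool.CU
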