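import Pool.Agent.Work.MP_2b7bfc_cu.Interface2

/-! # Block RD2: the residue symbol is trivial -/

namespace Pool.CU

open scoped NumberField
open IsDedekindDomain

section aux

variable {E : Type} [Field E] [NumberField E]

theorem RD2_Z (f : Frame E) : ∃ Z : 𝓞 E, (Z : E) = (f.z : E) := by
  have h1 : (f.z : E) ^ 133356 = 1 := by
    have := congrArg (fun u : Eˣ => (u : E)) f.hz.pow_eq_one
    push_cast at this
    exact this
  have h2 : IsIntegral ℤ (f.z : E) :=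
    IsIntegral.of_pow (n := 133356) (by norm_num) (by rw [h1]; exact isIntegral_one)
  exact (IsIntegralClosure.isIntegral_iff (A := 𝓞 E)).1 h2

theorem RD2_i (f : Frame E) : ∃ Z : 𝓞 E, (Z : E) = (f.i : E) := by
  obtain ⟨Z, hZ⟩ := RD2_Z f
  refine ⟨Z ^ 33339, ?_⟩
  rw [Frame.i, Units.val_pow_eq_pow_val, ← hZ]
  push_cast
  rfl

theorem RD2_r (f : Frame E) : ∃ Z : 𝓞 E, (Z : E) = f.r := by
  obtain ⟨Z, hZ⟩ := RD2_Z f
  refine ⟨Z ^ 11113 + Z ^ 122243, ?_⟩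
  rw [Frame.r, Units.val_pow_eq_pow_val, Units.val_pow_eq_pow_val, ← hZ]
  push_cast
  rfl

theorem RD2_away {X X' : 𝓞 E} {e e' : Eˣ} (he : (e : E) = X) (he' : (e' : E) = X')
    (h : (e : E) * (e' : E) = 11113) (v : HeightOneSpectrum (𝓞 E))
    (hv : (11113 : 𝓞 E) ∉ v.asIdeal) : ord v e = 0 ∧ ord v e' = 0 := by
  have hX : X * X' = 11113 := by
    apply NumberField.RingOfIntegers.ext
    calc ((X * X' : 𝓞 E) : E) = (X : E) * (X' : E) := map_mul (algebraMap (𝓞 E) E) X X'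
      _ = 11113 := by rw [← he, ← he', h]
      _ = ((11113 : 𝓞 E) : E) := (map_ofNat (algebraMap (𝓞 E) E) 11113).symm
  rw [ord_eq_zero_iff v he, ord_eq_zero_iff v he']
  constructor
  · intro h1
    apply hv
    rw [← hX]
    exact v.asIdeal.mul_mem_right _ h1
  · intro h1
    apply hv
    rw [← hX]
    exact v.asIdeal.mul_mem_left _ h1

theorem RD2_val (hVAL : Stmt_VAL) (σ : Gal(E/ℚ)) (x : Eˣ)
    (h : ∀ v : HeightOneSpectrum (𝓞 E), (11113 : 𝓞 E) ∉ v.asIdeal → ord v x = 0) :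
    ∀ v : HeightOneSpectrum (𝓞 E), (11113 : 𝓞 E) ∉ v.asIdeal → ord v (gu σ x) = 0 := by
  intro v hv
  obtain ⟨v', h1, h2⟩ := hVAL E σ v
  rw [h2]
  apply h
  intro h3
  apply hv
  refine (h1 11113 11113 ?_).1 h3
  have h4 : ((11113 : 𝓞 E) : E) = ((11113 : ℕ) : E) := by
    push_cast
    rfl
  rw [h4, map_natCast]

/-- The quotient of two conjugate elements. -/
theorem RD2_quot (f : Frame E) (L : Loc f) (e e' : Eˣ) (X X' : 𝓞 E) (he : (e : E) = X)
    (he' : (e' : E) = X') (h : (e : E) * (e' : E) = 11113) (hl : L.l e = 0) (hl' : L.l e' = 0)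
    (ho : (ord L.P e = 11112 ∧ ord L.P e' = 0) ∨ (ord L.P e = 0 ∧ ord L.P e' = 11112)) :
    ∃ δ : Eˣ, ord L.P δ = 11112 ∧ L.l δ = 0 ∧
      (∀ v : HeightOneSpectrum (𝓞 E), (11113 : 𝓞 E) ∉ v.asIdeal → ord v δ = 0) ∧
      (∀ σ : Gal(E/ℚ), gu σ e = e → gu σ e' = e' → gu σ δ = δ) ∧
      (∀ σ : Gal(E/ℚ), gu σ e = e' → gu σ e' = e → gu σ δ = δ⁻¹) := by
  rcases ho with ⟨h1, h2⟩ | ⟨h1, h2⟩
  · refine ⟨e * e'⁻¹, ?_, ?_, ?_, ?_, ?_⟩
    · rw [ord_mul, ord_inv, h1, h2]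
      norm_num
    · rw [L.l_mul, L.l_inv, hl, hl']
      simp
    · intro v hv
      obtain ⟨h3, h4⟩ := RD2_away he he' h v hv
      rw [ord_mul, ord_inv, h3, h4]
      norm_num
    · intro σ h3 h4
      rw [map_mul, map_inv, h3, h4]
    · intro σ h3 h4
      rw [map_mul, map_inv, h3, h4, mul_inv, inv_inv, mul_comm]
  · refine ⟨e' * e⁻¹, ?_, ?_, ?_, ?_, ?_⟩
    · rw [ord_mul, ord_inv, h1, h2]
      norm_num
    · rw [L.l_mul, L.l_inv, hl, hl']
      simp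
    · intro v hv
      obtain ⟨h3, h4⟩ := RD2_away he he' h v hv
      rw [ord_mul, ord_inv, h3, h4]
      norm_num
    · intro σ h3 h4
      rw [map_mul, map_inv, h3, h4]
    · intro σ h3 h4
      rw [map_mul, map_inv, h3, h4, mul_inv, inv_inv, mul_comm]

theorem RD2_four (hE4 : Stmt_E4) [IsCyclotomicExtension {133356} ℚ E] (f : Frame E)
    (L : Loc f) : ∃ δ : Eˣ, ord L.P δ = 11112 ∧ L.l δ = 0 ∧
      (∀ v : HeightOneSpectrum (𝓞 E), (11113 : 𝓞 E) ∉ v.asIdeal → ord v δ = 0) ∧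
      gu f.a δ = δ ∧ gu f.b δ = δ⁻¹ ∧ gu f.s δ = δ := by
  obtain ⟨I, hI⟩ := RD2_i f
  have hprod : (77 + 72 * (f.i : E)) * (77 - 72 * (f.i : E)) = 11113 := by
    linear_combination (-5184 : E) * f.i_sq
  have hne : (11113 : E) ≠ 0 := by norm_num
  have h1 : 77 + 72 * (f.i : E) ≠ 0 := by
    intro h0
    rw [h0, zero_mul] at hprod
    exact hne hprod.symm
  have h2 : 77 - 72 * (f.i : E) ≠ 0 := by
    intro h0
    rw [h0, mul_zero] at hprod
    exact hne hprod.symm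
  obtain ⟨e, he⟩ : ∃ e : Eˣ, (e : E) = 77 + 72 * (f.i : E) := ⟨Units.mk0 _ h1, rfl⟩
  obtain ⟨e', he'⟩ : ∃ e' : Eˣ, (e' : E) = 77 - 72 * (f.i : E) := ⟨Units.mk0 _ h2, rfl⟩
  obtain ⟨hl, hl', ho⟩ := hE4 E f L e e' he he'
  have hX : (e : E) = ((77 + 72 * I : 𝓞 E) : E) := by
    rw [he, ← hI]
    push_cast
    rfl
  have hX' : (e' : E) = ((77 - 72 * I : 𝓞 E) : E) := by
    rw [he', ← hI]
    push_cast
    rfl
  obtain ⟨δ, hδ1, hδ2, hδ3, hδ4, hδ5⟩ := RD2_quot f L e e' _ _ hX hX'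
    (by rw [he, he', hprod]) hl hl' ho
  have hae : gu f.a e = e := by
    apply Units.ext
    rw [gu_val, he, map_add, map_mul, f.a_iE, map_ofNat, map_ofNat]
  have hae' : gu f.a e' = e' := by
    apply Units.ext
    rw [gu_val, he', map_sub, map_mul, f.a_iE, map_ofNat, map_ofNat]
  have hse : gu f.s e = e := by
    apply Units.ext
    rw [gu_val, he, map_add, map_mul, f.s_iE, map_ofNat, map_ofNat]
  have hse' : gu f.s e' = e' := by
    apply Units.ext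
    rw [gu_val, he', map_sub, map_mul, f.s_iE, map_ofNat, map_ofNat]
  have hbe : gu f.b e = e' := by
    apply Units.ext
    rw [gu_val, he, he', map_add, map_mul, f.b_iE, map_ofNat, map_ofNat]
    ring
  have hbe' : gu f.b e' = e := by
    apply Units.ext
    rw [gu_val, he, he', map_sub, map_mul, f.b_iE, map_ofNat, map_ofNat]
    ring
  exact ⟨δ, hδ1, hδ2, hδ3, hδ4 _ hae hae', hδ5 _ hbe hbe', hδ4 _ hse hse'⟩

theorem RD2_twelve (hE12 : Stmt_E12) [IsCyclotomicExtension {133356} ℚ E] (f : Frame E)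
    (L : Loc f) : ∃ δ : Eˣ, ord L.P δ = 11112 ∧ L.l δ = 0 ∧
      (∀ v : HeightOneSpectrum (𝓞 E), (11113 : 𝓞 E) ∉ v.asIdeal → ord v δ = 0) ∧
      gu f.a δ = δ⁻¹ ∧ gu f.b δ = δ⁻¹ ∧ gu f.s δ = δ := by
  obtain ⟨I, hI⟩ := RD2_r f
  have hprod : (109 + 16 * f.r) * (109 - 16 * f.r) = 11113 := by
    linear_combination (-256 : E) * f.r_sq
  have hne : (11113 : E) ≠ 0 := by norm_num
  have h1 : 109 + 16 * f.r ≠ 0 := by
    intro h0
    rw [h0, zero_mul] at hprod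
    exact hne hprod.symm
  have h2 : 109 - 16 * f.r ≠ 0 := by
    intro h0
    rw [h0, mul_zero] at hprod
    exact hne hprod.symm
  obtain ⟨e, he⟩ : ∃ e : Eˣ, (e : E) = 109 + 16 * f.r := ⟨Units.mk0 _ h1, rfl⟩
  obtain ⟨e', he'⟩ : ∃ e' : Eˣ, (e' : E) = 109 - 16 * f.r := ⟨Units.mk0 _ h2, rfl⟩
  obtain ⟨hl, hl', ho⟩ := hE12 E f L e e' he he'
  have hX : (e : E) = ((109 + 16 * I : 𝓞 E) : E) := by
    rw [he, ← hI]
    push_cast
    rfl
  have hX' : (e' : E) = ((109 - 16 * I : 𝓞 E) : E) := by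
    rw [he', ← hI]
    push_cast
    rfl
  obtain ⟨δ, hδ1, hδ2, hδ3, hδ4, hδ5⟩ := RD2_quot f L e e' _ _ hX hX'
    (by rw [he, he', hprod]) hl hl' ho
  have hse : gu f.s e = e := by
    apply Units.ext
    rw [gu_val, he, map_add, map_mul, f.s_r, map_ofNat, map_ofNat]
  have hse' : gu f.s e' = e' := by
    apply Units.ext
    rw [gu_val, he', map_sub, map_mul, f.s_r, map_ofNat, map_ofNat]
  have hae : gu f.a e = e' := by
    apply Units.ext
    rw [gu_val, he, he', map_add, map_mul, f.a_r, map_ofNat, map_ofNat]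
    ring
  have hae' : gu f.a e' = e := by
    apply Units.ext
    rw [gu_val, he, he', map_sub, map_mul, f.a_r, map_ofNat, map_ofNat]
    ring
  have hbe : gu f.b e = e' := by
    apply Units.ext
    rw [gu_val, he, he', map_add, map_mul, f.b_r, map_ofNat, map_ofNat]
    ring
  have hbe' : gu f.b e' = e := by
    apply Units.ext
    rw [gu_val, he, he', map_sub, map_mul, f.b_r, map_ofNat, map_ofNat]
    ring
  exact ⟨δ, hδ1, hδ2, hδ3, hδ5 _ hae hae', hδ5 _ hbe hbe', hδ4 _ hse hse'⟩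

end aux

theorem p_RD2 (hE4 : Stmt_E4) (hE12 : Stmt_E12) (hTRB : Stmt_TRB) (hCOM : Stmt_COM)
    (hVAL : Stmt_VAL) : Stmt_RD2 := by
  intro E _ _ _ f L H1 H2 x hbx hsx hax
  obtain ⟨hcomm, -, -, -⟩ := hCOM E f
  have hba : gu f.b (gu f.a x) = (gu f.a x)⁻¹ := by
    rw [← gu_mul, hcomm, gu_mul, hbx, map_inv]
  have hsa : gu (f.s ^ 3) (gu f.a x) = gu f.a x := by
    rw [← gu_mul, hcomm, gu_mul, hsx]
  have haa := RD2_val hVAL f.a x hax
  obtain ⟨m, hm⟩ := H2 x hbx hsx hax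
  obtain ⟨n, hn⟩ := H2 (gu f.a x) hba hsa haa
  obtain ⟨δ, hδo, hδl, hδv, hδa, hδb, hδs⟩ := RD2_four hE4 f L
  obtain ⟨δ', hδo', hδl', hδv', hδa', hδb', hδs'⟩ := RD2_twelve hE12 f L
  have hs3 : ∀ y : Eˣ, gu f.s y = y → gu (f.s ^ 3) y = y := by
    intro y hy
    have h1 : f.s ^ 3 = f.s * (f.s * f.s) := by
      rw [pow_succ, pow_two, mul_assoc]
    rw [h1, gu_mul, gu_mul, hy, hy, hy]
  obtain ⟨X, hX⟩ : ∃ X : Eˣ, X = x ^ 7408 * δ ^ (-(m + n)) * δ' ^ (-(m - n)) := ⟨_, rfl⟩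
  have hXb : gu f.b X = X⁻¹ := by
    rw [hX, map_mul, map_mul, map_pow, map_zpow, map_zpow, hbx, hδb, hδb', inv_pow, inv_zpow,
      inv_zpow, mul_inv, mul_inv]
  have hXs : gu (f.s ^ 3) X = X := by
    rw [hX, map_mul, map_mul, map_pow, map_zpow, map_zpow, hsx, hs3 _ hδs, hs3 _ hδs']
  have hXv : ∀ v : HeightOneSpectrum (𝓞 E), (11113 : 𝓞 E) ∉ v.asIdeal → ord v X = 0 := by
    intro v hv
    rw [hX, ord_mul, ord_mul, ord_pow, ord_zpow, ord_zpow, hax v hv, hδv v hv, hδv' v hv]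
    ring
  have hXP : ord L.P X = 0 := by
    rw [hX, ord_mul, ord_mul, ord_pow, ord_zpow, ord_zpow, hm, hδo, hδo']
    push_cast
    ring
  have hXa : ord L.P (gu f.a X) = 0 := by
    rw [hX, map_mul, map_mul, map_pow, map_zpow, map_zpow, hδa, hδa', ord_mul, ord_mul, ord_pow,
      ord_zpow, ord_zpow, ord_inv, hn, hδo, hδo']
    push_cast
    ring
  have hall := hTRB E f L X hXb hXs hXv hXP hXa
  have hl := H1 X hall hXb hXs
  rw [hX, L.l_mul, L.l_mul, L.l_pow, L.l_zpow, L.l_zpow, hδl, hδl', mul_zero, mul_zero, add_zero,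
    add_zero] at hl
  have h7408 : ((7408 : ℕ) : ZMod 3) = 1 := by decide
  rwa [h7408, one_mul] at hl

end Pool.CU
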