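import Pool.Agent.Work.MP_2b7bfc_cu.Interface3

/-! # Block RDN: reduction of the ring of values of the character -/

namespace Pool.CU

open scoped NumberField TensorProduct
open IsDedekindDomain

theorem RDN_h : (13 : ℕ) ^ 252 % 11113 = 10870 := by norm_num

theorem RDN_p2 : (13 : ℕ) ^ 5556 % 11113 = 11112 := by
  have h1 : (13 : ℕ) ^ 5556 = (13 ^ 252) ^ 22 * 13 ^ 12 := by
    rw [← pow_mul, ← pow_add]
  rw [h1, Nat.mul_mod, Nat.pow_mod, RDN_h]
  norm_num

theorem RDN_p3 : (13 : ℕ) ^ 3704 % 11113 = 7255 := by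
  have h1 : (13 : ℕ) ^ 3704 = (13 ^ 252) ^ 14 * 13 ^ 176 := by
    rw [← pow_mul, ← pow_add]
  rw [h1, Nat.mul_mod, Nat.pow_mod, RDN_h]
  norm_num

theorem RDN_p463 : (13 : ℕ) ^ 24 % 11113 = 1748 := by norm_num

theorem RDN_ne (n r : ℕ) (h : (13 : ℕ) ^ n % 11113 = r) (hr : r ≠ 1) (u : (ZMod 11113)ˣ)
    (hu : (u : ZMod 11113) = ((13 : ℕ) : ZMod 11113)) : u ^ n ≠ 1 := by
  intro h0
  have h1 := congrArg (fun x : (ZMod 11113)ˣ => (x : ZMod 11113)) h0
  simp only [Units.val_pow_eq_pow_val, hu, Units.val_one] at h1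
  rw [← Nat.cast_pow, ← Nat.cast_one, ZMod.natCast_eq_natCast_iff'] at h1
  rw [h] at h1
  exact hr (by rw [h1])

/-- 13 is a primitive root modulo 11113 -/
theorem RDN_root (x : ℕ) (hx : Nat.Coprime x 11113) : ∃ k : ℕ, x % 11113 = 13 ^ k % 11113 := by
  have hp : Nat.Prime 11113 := by norm_num
  have hF : Fact (Nat.Prime 11113) := ⟨hp⟩
  set u : (ZMod 11113)ˣ := ZMod.unitOfCoprime 13 (by norm_num) with hu
  have huv : (u : ZMod 11113) = ((13 : ℕ) : ZMod 11113) := rfl
  have hcard : Nat.card (ZMod 11113)ˣ = 11112 := by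
    rw [Nat.card_eq_fintype_card, ZMod.card_units_eq_totient, Nat.totient_prime hp]
  have hord : orderOf u = 11112 := by
    refine orderOf_eq_of_pow_and_pow_div_prime (by norm_num) ?_ ?_
    · rw [← hcard]
      exact pow_card_eq_one'
    · intro p hp hd
      have h1 : p ∣ 2 ^ 3 * (3 * 463) := by
        have : 2 ^ 3 * (3 * 463) = 11112 := by norm_num
        rw [this]
        exact hd
      have h2 : p = 2 ∨ p = 3 ∨ p = 463 := by
        rcases (Nat.Prime.dvd_mul hp).1 h1 with h | h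
        · left
          exact (Nat.prime_dvd_prime_iff_eq hp (by norm_num)).1 (hp.dvd_of_dvd_pow h)
        · rcases (Nat.Prime.dvd_mul hp).1 h with h | h
          · right; left
            exact (Nat.prime_dvd_prime_iff_eq hp (by norm_num)).1 h
          · right; right
            exact (Nat.prime_dvd_prime_iff_eq hp (by norm_num)).1 h
      rcases h2 with rfl | rfl | rfl
      · exact RDN_ne 5556 11112 RDN_p2 (by norm_num) u huv
      · exact RDN_ne 3704 7255 RDN_p3 (by norm_num) u huv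
      · exact RDN_ne 24 1748 RDN_p463 (by norm_num) u huv
  have htop : Subgroup.zpowers u = ⊤ := by
    apply Subgroup.eq_top_of_card_eq
    rw [Nat.card_zpowers, hord, hcard]
  have hmem : ZMod.unitOfCoprime x hx ∈ Subgroup.zpowers u := by
    rw [htop]
    exact Subgroup.mem_top _
  rw [← mem_powers_iff_mem_zpowers] at hmem
  obtain ⟨k, hk⟩ := hmem
  refine ⟨k, ?_⟩
  have h3 := congrArg (fun y : (ZMod 11113)ˣ => (y : ZMod 11113)) hk
  simp only [Units.val_pow_eq_pow_val, huv, ZMod.coe_unitOfCoprime] at h3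
  rw [← Nat.cast_pow, ZMod.natCast_eq_natCast_iff'] at h3
  exact h3.symm

/-- the residue ring of a subring generated by elements which are integers there -/
theorem RDN_gen {K : Type} [Field K] [Algebra ℤ_[3] K]
    (hinj : Function.Injective (algebraMap ℤ_[3] K)) (S : Set K)
    (hint : ∀ s ∈ S, IsIntegral ℤ_[3] s) (ζ : K) (hζ3 : ζ ^ 3 = 1)
    (hS : ∀ s ∈ S, s = 0 ∨ ∃ k : ℕ, s = ζ ^ k ∨ s = -ζ ^ k) :
    ∃ red : Algebra.adjoin ℤ_[3] S →+* ZMod 3, ∀ t : Algebra.adjoin ℤ_[3] S,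
      (∃ k : ℕ, (t : K) = ζ ^ k) → red t = 1 := by
  set R := Algebra.adjoin ℤ_[3] S with hR
  have hRint : Algebra.IsIntegral ℤ_[3] R := by
    refine ⟨fun x => ?_⟩
    have h1 : IsIntegral ℤ_[3] (x : K) := by
      have h2 : Algebra.adjoin ℤ_[3] S ≤ integralClosure ℤ_[3] K :=
        Algebra.adjoin_le hint
      exact h2 x.2
    exact (isIntegral_algebraMap_iff (B := K) Subtype.val_injective).1 h1
  have hker : RingHom.ker (algebraMap ℤ_[3] R) ≤ IsLocalRing.maximalIdeal ℤ_[3] := by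
    have h1 : Function.Injective (algebraMap ℤ_[3] R) := by
      intro a b hab
      apply hinj
      exact congrArg Subtype.val hab
    rw [(RingHom.injective_iff_ker_eq_bot _).1 h1]
    exact bot_le
  obtain ⟨Q, hQm, hQc⟩ := Ideal.exists_ideal_over_maximal_of_isIntegral (S := R)
    (IsLocalRing.maximalIdeal ℤ_[3]) hker
  have hQf : IsDomain (R ⧸ Q) := by
    have := hQm.isPrime
    infer_instance
  -- three is zero
  have h3 : (3 : R ⧸ Q) = 0 := by
    have h4 : (3 : ℤ_[3]) ∈ IsLocalRing.maximalIdeal ℤ_[3] := by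
      have := PadicInt.maximalIdeal_eq_span_p (p := 3)
      rw [this]
      exact Ideal.mem_span_singleton_self _
    rw [← hQc, Ideal.mem_comap] at h4
    have h5 := Ideal.Quotient.eq_zero_iff_mem.2 h4
    rw [map_ofNat, map_ofNat] at h5
    exact h5
  have hone : ∀ t : R, (∃ k : ℕ, (t : K) = ζ ^ k) → Ideal.Quotient.mk Q t = 1 := by
    rintro t ⟨k, hk⟩
    have h4 : t ^ 3 = 1 := by
      apply Subtype.ext
      show (t : K) ^ 3 = 1
      rw [hk, ← pow_mul, mul_comm, pow_mul, hζ3, one_pow]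
    have h5 : (Ideal.Quotient.mk Q t - 1) ^ 3 = 0 := by
      have h6 : (Ideal.Quotient.mk Q t) ^ 3 = 1 := by rw [← map_pow, h4, map_one]
      linear_combination h6 + (Ideal.Quotient.mk Q t - (Ideal.Quotient.mk Q t) ^ 2) * h3
    exact sub_eq_zero.1 (pow_eq_zero_iff (by norm_num) |>.1 h5)
  -- surjectivity
  set g : ℤ_[3] →+* R ⧸ Q := (Ideal.Quotient.mk Q).comp (algebraMap ℤ_[3] R) with hg
  have hsurj : Function.Surjective g := by
    intro y
    obtain ⟨⟨r, hr⟩, rfl⟩ := Ideal.Quotient.mk_surjective y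
    refine Algebra.adjoin_induction (p := fun r hr => ∃ a : ℤ_[3], g a =
      Ideal.Quotient.mk Q ⟨r, hr⟩) ?_ ?_ ?_ ?_ hr
    · intro s hs
      rcases hS s hs with h | ⟨k, h | h⟩
      · refine ⟨0, ?_⟩
        rw [map_zero]
        have : (⟨s, Algebra.subset_adjoin hs⟩ : R) = 0 := Subtype.ext h
        rw [this, map_zero]
      · refine ⟨1, ?_⟩
        rw [map_one]
        exact (hone _ ⟨k, h⟩).symm
      · refine ⟨-1, ?_⟩
        rw [map_neg, map_one]
        have h7 := hone (-⟨s, Algebra.subset_adjoin hs⟩) ⟨k, by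
          show -s = ζ ^ k
          rw [h, neg_neg]⟩
        rw [map_neg] at h7
        rw [← h7, neg_neg]
    · intro a
      exact ⟨a, rfl⟩
    · rintro x y hx hy ⟨a, ha⟩ ⟨b, hb⟩
      refine ⟨a + b, ?_⟩
      rw [map_add, ha, hb, ← map_add]
      rfl
    · rintro x y hx hy ⟨a, ha⟩ ⟨b, hb⟩
      refine ⟨a * b, ?_⟩
      rw [map_mul, ha, hb, ← map_mul]
      rfl
  have hgker : RingHom.ker g ≤ RingHom.ker (PadicInt.toZMod (p := 3)) := by
    intro a ha
    rw [PadicInt.ker_toZMod, ← hQc, Ideal.mem_comap]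
    exact Ideal.Quotient.eq_zero_iff_mem.1 ha
  let h : R ⧸ Q →+* ZMod 3 := RingHom.liftOfSurjective g hsurj ⟨PadicInt.toZMod, hgker⟩
  refine ⟨h.comp (Ideal.Quotient.mk Q), fun t ht => ?_⟩
  rw [RingHom.comp_apply, hone t ht, map_one]

theorem p_RDN : Stmt_RDN := by
  intro θ ζ hζ3 hζ1 hθ
  have hinj : Function.Injective (algebraMap ℤ_[3] (AlgebraicClosure ℚ_[3])) := by
    rw [IsScalarTower.algebraMap_eq ℤ_[3] ℚ_[3] (AlgebraicClosure ℚ_[3])]
    exact (algebraMap ℚ_[3] (AlgebraicClosure ℚ_[3])).injective.comp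
      (IsFractionRing.injective ℤ_[3] ℚ_[3])
  have hval : ∀ x : ℕ, Nat.Coprime x 133356 → ∃ k : ℕ,
      θ ((x : ℕ) : ZMod (44452 * 3)) = (if x % 12 = 1 ∨ x % 12 = 11 then 1 else -1) * ζ ^ k := by
    intro x hx
    have h1 : Nat.Coprime x 11113 := Nat.Coprime.coprime_dvd_right (by norm_num) hx
    obtain ⟨k, hk⟩ := RDN_root x h1
    exact ⟨k, hθ x k hx hk⟩
  have hS : ∀ s ∈ Set.range θ, s = 0 ∨ ∃ k : ℕ, s = ζ ^ k ∨ s = -ζ ^ k := by
    rintro s ⟨u, rfl⟩
    by_cases hu : IsUnit u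
    · right
      have h1 : ((u.val : ℕ) : ZMod (44452 * 3)) = u := ZMod.natCast_zmod_val u
      have h2 : Nat.Coprime u.val 133356 := by
        have h3 := (ZMod.isUnit_iff_coprime u.val (44452 * 3)).1 (by rw [h1]; exact hu)
        exact h3
      obtain ⟨k, hk⟩ := hval u.val h2
      rw [h1] at hk
      refine ⟨k, ?_⟩
      rw [hk]
      split_ifs
      · left; rw [one_mul]
      · right; rw [neg_one_mul]
    · left
      exact θ.map_nonunit hu
  have hint : ∀ s ∈ Set.range θ, IsIntegral ℤ_[3] s := by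
    intro s hs
    have hζi : IsIntegral ℤ_[3] ζ := by
      refine IsIntegral.of_pow (n := 3) (by norm_num) ?_
      rw [hζ3]
      exact isIntegral_one
    rcases hS s hs with h | ⟨k, h | h⟩
    · rw [h]; exact isIntegral_zero
    · rw [h]; exact hζi.pow k
    · rw [h]; exact (hζi.pow k).neg
  obtain ⟨red, hred⟩ := RDN_gen hinj (Set.range θ) hint ζ hζ3 hS
  refine ⟨red, ?_⟩
  intro x hx t ht
  obtain ⟨k, hk⟩ := hval x hx
  rw [hk] at ht
  by_cases hc : x % 12 = 1 ∨ x % 12 = 11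
  · rw [if_pos hc] at ht ⊢
    exact hred t ⟨k, by rw [ht, one_mul]⟩
  · rw [if_neg hc] at ht ⊢
    have h1 := hred (-t) ⟨k, by
      show -(t : AlgebraicClosure ℚ_[3]) = ζ ^ k
      rw [ht, neg_one_mul, neg_neg]⟩
    rw [map_neg] at h1
    rw [← h1, neg_neg]

end Pool.CU
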