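import Pool.Agent.Work.MP_2b7bfc_cu.Interface2

/-!
# Block RED (MP_2b7bfc_nt): orders and residue symbols of `x` and `b x` agree (helper88)
-/

namespace Pool.CU

open scoped NumberField
open IsDedekindDomain

theorem RED_away (h1 : Stmt_VAL) {E : Type} [Field E] [NumberField E] (σ : Gal(E/ℚ)) (m : ℕ)
    {x : Eˣ} (hx : IsUnitAway m x) : IsUnitAway m (gu σ x) := by
  intro v hv
  obtain ⟨v', hv', ho⟩ := h1 E σ v
  rw [ho]
  apply hx
  intro hm
  apply hv
  refine (hv' (m : 𝓞 E) (m : 𝓞 E) ?_).1 hm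
  simp

theorem RED_away_mul {E : Type} [Field E] [NumberField E] {m : ℕ} {x y : Eˣ}
    (hx : IsUnitAway m x) (hy : IsUnitAway m y) : IsUnitAway m (x * y) := by
  intro v hv
  rw [ord_mul, hx v hv, hy v hv, add_zero]

theorem RED_away_inv {E : Type} [Field E] [NumberField E] {m : ℕ} {x : Eˣ}
    (hx : IsUnitAway m x) : IsUnitAway m x⁻¹ := by
  intro v hv
  rw [ord_inv, hx v hv, neg_zero]

theorem RED_l_prod {E : Type} [Field E] [NumberField E] {f : Frame E} (L : Loc f) (g : ℕ → Eˣ)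
    (n : ℕ) : L.l (∏ k ∈ Finset.range n, g k) = ∑ k ∈ Finset.range n, L.l (g k) := by
  induction n with
  | zero => rw [Finset.prod_range_zero, Finset.sum_range_zero, L.l_one]
  | succ n ih => rw [Finset.prod_range_succ, Finset.sum_range_succ, L.l_mul, ih]

theorem p_RED (h1 : Stmt_VAL) (h2 : Stmt_LSX) (h3 : Stmt_COM) : Stmt_RED := by
  intro E _ _ _ f L hyp x hx
  obtain ⟨hs, c, -, hl⟩ := h2 E f L
  obtain ⟨hcom, -, hb, hs'⟩ := h3 E f
  have hord : ∀ (n : ℕ) (y : Eˣ), ord L.P (gu (f.s ^ n) y) = ord L.P y := by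
    intro n y
    induction n with
    | zero => rw [pow_zero, gu_one]
    | succ n ih => rw [pow_succ', gu_mul, hs, ih]
  have hln : ∀ (n : ℕ) (y : Eˣ), L.l (gu (f.s ^ n) y) =
      L.l y + (n : ZMod 3) * ((ord L.P y : ZMod 3) * c) := by
    intro n y
    induction n with
    | zero => rw [pow_zero, gu_one, Nat.cast_zero, zero_mul, add_zero]
    | succ n ih =>
      rw [pow_succ', gu_mul, hl, hord, ih]
      push_cast
      ring
  obtain ⟨y, hy⟩ : ∃ y, y = x * (gu f.b x)⁻¹ := ⟨_, rfl⟩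
  have hya : IsUnitAway 133356 y := by
    rw [hy]
    exact RED_away_mul hx (RED_away_inv (RED_away h1 f.b _ hx))
  have hby : gu f.b y = y⁻¹ := by
    rw [hy, map_mul, map_inv, ← gu_mul, hb, gu_one, mul_inv, inv_inv, mul_comm]
  obtain ⟨g, hg⟩ : ∃ g : ℕ → Eˣ, g = fun k => gu (f.s ^ (3 * k)) y := ⟨_, rfl⟩
  have hgk : ∀ k, g k = gu (f.s ^ (3 * k)) y := fun k => by rw [hg]
  obtain ⟨Y, hY⟩ : ∃ Y, Y = ∏ k ∈ Finset.range 3704, g k := ⟨_, rfl⟩
  have hYa : IsUnitAway 133356 Y := by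
    intro v hv
    rw [hY, ord_prod]
    apply Finset.sum_eq_zero
    intro k _
    rw [hgk]
    exact RED_away h1 _ _ hya v hv
  have hbY : gu f.b Y = Y⁻¹ := by
    rw [hY, map_prod, ← Finset.prod_inv_distrib]
    apply Finset.prod_congr rfl
    intro k _
    rw [hgk, ← gu_mul, hcom, gu_mul, hby, map_inv]
  have hsY : gu (f.s ^ 3) Y = Y := by
    have e1 : gu (f.s ^ 3) Y = ∏ k ∈ Finset.range 3704, g (k + 1) := by
      rw [hY, map_prod]
      apply Finset.prod_congr rfl
      intro k _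
      have e6 : 3 + 3 * k = 3 * (k + 1) := by ring
      rw [hgk, hgk, ← gu_mul, ← pow_add, e6]
    have e2 := Finset.prod_range_succ g 3704
    have e3 := Finset.prod_range_succ' g 3704
    have e4 : g 3704 = y := by
      rw [hgk]
      have : 3 * 3704 = 11112 := by norm_num
      rw [this, hs', gu_one]
    have e5 : g 0 = y := by
      rw [hgk, mul_zero, pow_zero, gu_one]
    rw [e1]
    rw [e2, e4, e5] at e3
    rw [hY]
    exact (mul_right_cancel e3).symm
  obtain ⟨hd, hlY⟩ := hyp Y hYa hbY hsY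
  have hoY : ord L.P Y = 3704 * ord L.P y := by
    rw [hY, ord_prod]
    rw [Finset.sum_congr rfl (fun k _ => by rw [hgk, hord] : ∀ k ∈ Finset.range 3704,
      ord L.P (g k) = ord L.P y)]
    rw [Finset.sum_const, Finset.card_range, nsmul_eq_mul]
    norm_num
  have hlY' : L.l Y = 3704 * L.l y := by
    rw [hY, RED_l_prod]
    have e1 : ∀ k ∈ Finset.range 3704, L.l (g k) = L.l y := by
      intro k _
      rw [hgk, hln]
      push_cast
      have : (3 : ZMod 3) = 0 := by decide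
      rw [this]
      ring
    rw [Finset.sum_congr rfl e1, Finset.sum_const, Finset.card_range, nsmul_eq_mul]
    norm_num
  have hdy : (3 : ℤ) ∣ ord L.P y := by
    rw [hoY] at hd
    omega
  have hly : L.l y = 0 := by
    rw [hlY] at hlY'
    have h4 : ∀ t : ZMod 3, 0 = 3704 * t → t = 0 := by decide
    exact h4 _ hlY'
  have ho : ord L.P y = ord L.P x - ord L.P (gu f.b x) := by
    rw [hy, ord_mul, ord_inv]
    ring
  have hl' : L.l y = L.l x - L.l (gu f.b x) := by
    rw [hy, L.l_mul, L.l_inv]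
    ring
  constructor
  · rw [ho] at hdy
    have h5 : ((ord L.P x - ord L.P (gu f.b x) : ℤ) : ZMod 3) = 0 :=
      (ZMod.intCast_zmod_eq_zero_iff_dvd _ 3).2 (by exact_mod_cast hdy)
    push_cast at h5
    exact sub_eq_zero.1 h5
  · rw [hl'] at hly
    exact sub_eq_zero.1 hly

end Pool.CU
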