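import Pool.Agent.Work.MP_2b7bfc_cu.Interface

/-! # Block RES of THEOREM CUP: the residue field at a place above 11113 is the prime field -/

namespace Pool.CU

open scoped NumberField
open IsDedekindDomain

theorem RES_prim : IsPrimitiveRoot (6061 : ZMod 11113) 12 := by
  refine IsPrimitiveRoot.mk_of_lt _ (by norm_num) (by decide) ?_
  intro l h1 h2
  interval_cases l <;> decide

theorem p_RES (h1 : Stmt_ADJ) (h2 : Stmt_INZ) : Stmt_RES := by
  intro E _ _ _ f v hv x
  obtain ⟨p, hp⟩ := h1 E f x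
  obtain ⟨y, hy, hyv⟩ := ((h2 E f v).2.2.1 hv).2
  have hz : IsPrimitiveRoot ((f.z : Eˣ) : E) 133356 := IsPrimitiveRoot.coe_units_iff.2 f.hz
  set Z : 𝓞 E := hz.toInteger with hZ
  have hZc : (Z : E) = (f.z : E) := hz.coe_toInteger
  have hyZ : y = 1 - Z ^ 12 := by
    apply NumberField.RingOfIntegers.ext
    rw [hy]
    change _ = algebraMap (𝓞 E) E (1 - Z ^ 12)
    rw [map_sub, map_one, map_pow]
    change _ = 1 - (Z : E) ^ 12
    rw [hZc, Frame.zl, Units.val_pow_eq_pow_val]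
  have := v.isMaximal
  let : Field (𝓞 E ⧸ v.asIdeal) := Ideal.Quotient.field v.asIdeal
  set mk := Ideal.Quotient.mk v.asIdeal with hmk
  have hZ12 : mk Z ^ 12 = 1 := by
    have h3 : mk y = 0 := Ideal.Quotient.eq_zero_iff_mem.2 hyv
    rw [hyZ, map_sub, map_one, map_pow, sub_eq_zero] at h3
    exact h3.symm
  have h11113 : ((11113 : ℕ) : 𝓞 E ⧸ v.asIdeal) = 0 := by
    have h3 : mk ((11113 : ℕ) : 𝓞 E) = 0 :=
      Ideal.Quotient.eq_zero_iff_mem.2 (by exact_mod_cast hv)
    rwa [map_natCast] at h3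
  have hpr : Nat.Prime 11113 := by norm_num
  have : Fact (Nat.Prime 11113) := ⟨hpr⟩
  have : CharP (𝓞 E ⧸ v.asIdeal) 11113 := by
    refine (CharP.charP_iff_prime_eq_zero hpr).2 h11113
  have hinj : Function.Injective (ZMod.castHom (dvd_refl 11113) (𝓞 E ⧸ v.asIdeal)) :=
    (ZMod.castHom (dvd_refl 11113) (𝓞 E ⧸ v.asIdeal)).injective
  have hc := RES_prim.map_of_injective hinj
  obtain ⟨i, -, hi⟩ := hc.eq_pow_of_pow_eq_one hZ12
  set T : ℤ := (6061 : ℤ) ^ i with hT
  have hT' : mk Z = ((T : ℤ) : 𝓞 E ⧸ v.asIdeal) := by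
    rw [← hi, hT]
    push_cast
    congr 1
  have hxp : x = Polynomial.aeval Z p := by
    apply NumberField.RingOfIntegers.ext
    rw [hp, ← hZc]
    exact Polynomial.aeval_algebraMap_apply E Z p
  refine ⟨p.eval T, ?_⟩
  rw [← Ideal.Quotient.eq_zero_iff_mem, map_sub, sub_eq_zero, hxp]
  change mk (Polynomial.aeval Z p) = _
  have e1 : mk (Polynomial.aeval Z p) = Polynomial.eval₂ (Int.castRingHom _) (mk Z) p := by
    rw [Polynomial.aeval_def, Polynomial.hom_eval₂]
    congr 1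
  rw [e1, hT', map_intCast]
  simp

end Pool.CU
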