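import Pool.Agent.Work.MP_2b7bfc_cu.Interface2

/-! # Block RNK of THEOREM CUP: four relative units satisfy a relation modulo cubes -/

namespace Pool.CU

open scoped NumberField
open IsDedekindDomain

section

variable {E : Type} [Field E] [NumberField E]

theorem RNK_gu_neg (σ : Gal(E/ℚ)) (x : Eˣ) : gu σ (-x) = -(gu σ x) := by
  apply Units.ext
  rw [gu_val, Units.val_neg, Units.val_neg, gu_val, map_neg]

/-- The group of relative units. -/
def RNK_M (f : Frame E) : Subgroup Eˣ where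
  carrier := {x | f.M0 x}
  one_mem' := by
    refine ⟨⟨?_, ?_, ?_⟩, fun v => ord_one v⟩
    · rw [map_one, inv_one]
    · rw [map_one, inv_one]
    · rw [map_one]
  mul_mem' := by
    intro x y hx hy
    obtain ⟨⟨h1, h2, h3⟩, h4⟩ := hx
    obtain ⟨⟨k1, k2, k3⟩, k4⟩ := hy
    refine ⟨⟨?_, ?_, ?_⟩, ?_⟩
    · rw [map_mul, h1, k1, mul_inv]
    · rw [map_mul, h2, k2, mul_inv]
    · rw [map_mul, h3, k3]
    · intro v
      rw [ord_mul, h4 v, k4 v, add_zero]
  inv_mem' := by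
    intro x hx
    obtain ⟨⟨h1, h2, h3⟩, h4⟩ := hx
    refine ⟨⟨?_, ?_, ?_⟩, ?_⟩
    · rw [map_inv, h1]
    · rw [map_inv, h2]
    · rw [map_inv, h3]
    · intro v
      rw [ord_inv, h4 v, neg_zero]

theorem RNK_mem (f : Frame E) (x : Eˣ) : x ∈ RNK_M f ↔ f.M0 x := Iff.rfl

theorem RNK_neg_one (f : Frame E) : f.M0 (-1) := by
  have h : ∀ σ : Gal(E/ℚ), gu σ (-1 : Eˣ) = -1 := by
    intro σ
    rw [RNK_gu_neg, map_one]
  refine ⟨⟨?_, ?_, ?_⟩, fun v => ord_neg_one v⟩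
  · rw [h, inv_neg, inv_one]
  · rw [h, inv_neg, inv_one]
  · rw [h]

theorem RNK_prod_mem (f : Frame E) (g : Fin 4 → Eˣ) (hg : ∀ j, f.M0 (g j)) (n : Fin 4 → ℤ) :
    f.M0 (∏ j, g j ^ n j) := by
  rw [← RNK_mem]
  exact Subgroup.prod_mem _ (fun j _ => Subgroup.zpow_mem _ ((RNK_mem f _).2 (hg j)) _)

/-- The logarithm of the absolute value. -/
noncomputable def RNK_log (φ : E →+* ℂ) : Additive Eˣ →+ ℝ where
  toFun x := Real.log ‖φ ((Additive.toMul x : Eˣ) : E)‖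
  map_zero' := by simp
  map_add' x y := by
    rw [toMul_add, Units.val_mul, map_mul, norm_mul, Real.log_mul]
    · rw [norm_ne_zero_iff]
      exact (map_ne_zero φ).2 (Units.ne_zero _)
    · rw [norm_ne_zero_iff]
      exact (map_ne_zero φ).2 (Units.ne_zero _)

/-- The action on `Eˣ`, written additively. -/
def RNK_act (σ : Gal(E/ℚ)) : Additive Eˣ →+ Additive Eˣ := MonoidHom.toAdditive (gu σ)

/-- The vector of the three logarithms. -/
noncomputable def RNK_vec (f : Frame E) (φ : E →+* ℂ) : Additive Eˣ →+ (Fin 3 → ℝ) where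
  toFun x := ![RNK_log φ x, RNK_log φ (RNK_act f.s x), RNK_log φ (RNK_act f.s (RNK_act f.s x))]
  map_zero' := by
    ext i
    fin_cases i <;> simp
  map_add' x y := by
    ext i
    fin_cases i <;> simp

theorem RNK_vec_apply (f : Frame E) (φ : E →+* ℂ) (x : Eˣ) :
    RNK_vec f φ (Additive.ofMul x) = ![Real.log ‖φ (x : E)‖, Real.log ‖φ (gu f.s x : E)‖,
      Real.log ‖φ (gu f.s (gu f.s x) : E)‖] := rfl

theorem RNK_vec_sum (f : Frame E) (φ : E →+* ℂ) (g : Fin 4 → Eˣ) (n : Fin 4 → ℤ) :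
    ∑ j, n j • RNK_vec f φ (Additive.ofMul (g j)) =
      RNK_vec f φ (Additive.ofMul (∏ j, g j ^ n j)) := by
  rw [ofMul_prod, map_sum]
  refine Finset.sum_congr rfl (fun j _ => ?_)
  rw [ofMul_zpow, map_zsmul]

/-- The descent: one may divide the exponents by 3. -/
theorem RNK_descent (h4 : Stmt_CUB) (f : Frame E) (g : Fin 4 → Eˣ) (hg : ∀ j, f.M0 (g j)) :
    ∀ (N : ℕ) (n : Fin 4 → ℤ), ∑ j, (n j).natAbs = N → n ≠ 0 →
      (∏ j, g j ^ n j = 1 ∨ ∏ j, g j ^ n j = -1) →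
      ∃ n : Fin 4 → ℤ, (∃ j, ¬ (3 : ℤ) ∣ n j) ∧
        (∏ j, g j ^ n j = 1 ∨ ∏ j, g j ^ n j = -1) := by
  intro N
  induction N using Nat.strong_induction_on with
  | _ N ih =>
    intro n hN hn hprod
    by_cases h : ∃ j, ¬ (3 : ℤ) ∣ n j
    · exact ⟨n, h, hprod⟩
    · push Not at h
      choose m hm using h
      have hm0 : m ≠ 0 := by
        intro h0
        apply hn
        funext j
        rw [hm j, h0]
        simp
      have hpos : 0 < ∑ j, (m j).natAbs := by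
        rw [Nat.pos_iff_ne_zero]
        intro h0
        apply hm0
        funext j
        have := (Finset.sum_eq_zero_iff.1 h0) j (Finset.mem_univ j)
        simpa using this
      have hsum : N = 3 * ∑ j, (m j).natAbs := by
        rw [← hN, Finset.mul_sum]
        refine Finset.sum_congr rfl (fun j _ => ?_)
        rw [hm j, Int.natAbs_mul]
        rfl
      have hcube : (∏ j, g j ^ m j) ^ 3 = ∏ j, g j ^ n j := by
        rw [← Finset.prod_pow]
        refine Finset.prod_congr rfl (fun j _ => ?_)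
        rw [hm j, ← zpow_natCast, ← zpow_mul, mul_comm]
        rfl
      have hM := RNK_prod_mem f g hg m
      refine ih (∑ j, (m j).natAbs) (by omega) m rfl hm0 ?_
      rcases hprod with h1 | h1
      · left
        rw [h1] at hcube
        exact (h4 E f _ hcube).2 hM.1.2.1
      · right
        rw [h1] at hcube
        have h5 : (-(∏ j, g j ^ m j)) ^ 3 = 1 := by
          rw [Odd.neg_pow (by decide), hcube, neg_neg]
        have h6 := (h4 E f _ h5).2 (by rw [RNK_gu_neg, hM.1.2.1, inv_neg])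
        rw [← h6, neg_neg]

end

theorem p_RNK (h1 : Stmt_DIS) (h2 : Stmt_LAT) (h3 : Stmt_SGN) (h4 : Stmt_CUB) (_h5 : Stmt_COM)
    (_h6 : Stmt_VAL) : Stmt_RNK := by
  intro E _ _ _ f g hg
  obtain ⟨φ⟩ : Nonempty (E →+* ℂ) := inferInstance
  have hfin : {x : Fin 3 → ℝ | x ∈ Submodule.span ℤ
      (Set.range (fun j => RNK_vec f φ (Additive.ofMul (g j)))) ∧ ∀ i, |x i| ≤ 1}.Finite := by
    refine ((h1 E f φ).image (fun x => RNK_vec f φ (Additive.ofMul x))).subset ?_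
    rintro x ⟨hx, hx1⟩
    obtain ⟨n, rfl⟩ := (Submodule.mem_span_range_iff_exists_fun ℤ).1 hx
    rw [RNK_vec_sum] at hx1 ⊢
    rw [RNK_vec_apply] at hx1
    refine ⟨∏ j, g j ^ n j, ⟨RNK_prod_mem f g hg n, ?_, ?_, ?_⟩, rfl⟩
    · exact hx1 0
    · exact hx1 1
    · exact hx1 2
  obtain ⟨n, hn, hsum⟩ := h2 _ hfin
  rw [RNK_vec_sum, RNK_vec_apply] at hsum
  have hlog : Real.log ‖φ ((∏ j, g j ^ n j : Eˣ) : E)‖ = 0 := congrFun hsum 0
  have hne : φ ((∏ j, g j ^ n j : Eˣ) : E) ≠ 0 := (map_ne_zero φ).2 (Units.ne_zero _)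
  have hnorm : ‖φ ((∏ j, g j ^ n j : Eˣ) : E)‖ = 1 :=
    Real.eq_one_of_pos_of_log_eq_zero (norm_pos_iff.2 hne) hlog
  have hpm := h3 E f φ _ (RNK_prod_mem f g hg n).1 hnorm
  obtain ⟨m, hm, hpm'⟩ := RNK_descent h4 f g hg _ n rfl hn hpm
  refine ⟨m, hm, ?_⟩
  rcases hpm' with h | h
  · refine ⟨1, (RNK_mem f 1).1 (one_mem _), ?_⟩
    rw [h, one_pow]
  · refine ⟨-1, RNK_neg_one f, ?_⟩
    rw [h, Odd.neg_one_pow (by decide)]

end Pool.CU
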