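import Pool.Agent.Work.MP_2b7bfc_cu.Interface2

namespace Pool.CU

open scoped NumberField
open IsDedekindDomain

theorem ROO_exists {E : Type} [Field E] [NumberField E] [IsCyclotomicExtension {133356} ℚ E]
    (f : Frame E) (t : Eˣ) (h : ∃ k : ℕ, 0 < k ∧ t ^ k = 1) : ∃ k : ℕ, t = f.z ^ k := by
  have hfin : IsOfFinOrder t := isOfFinOrder_iff_pow_eq_one.2 h
  have hprim : IsPrimitiveRoot t (orderOf t) := IsPrimitiveRoot.orderOf t
  have hprim' : IsPrimitiveRoot (t : E) (orderOf t) := IsPrimitiveRoot.coe_units_iff.2 hprim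
  have hne : NeZero (orderOf t) := ⟨hfin.orderOf_pos.ne'⟩
  have hd := NumberField.Units.dvd_torsionOrder_of_isPrimitiveRoot hprim'
  have he : NumberField.Units.torsionOrder E = 133356 := by
    rw [IsCyclotomicExtension.Rat.torsionOrder_eq (n := 133356) (K := E)]
    exact if_pos ⟨66678, by norm_num⟩
  rw [he] at hd
  have h1 : t ^ 133356 = 1 := orderOf_dvd_iff_pow_eq_one.1 hd
  have h2 : (t : E) ^ 133356 = 1 := by
    have := congrArg (fun u : Eˣ => (u : E)) h1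
    simpa using this
  have hz : IsPrimitiveRoot (f.z : E) 133356 := IsPrimitiveRoot.coe_units_iff.2 f.hz
  obtain ⟨i, -, hi⟩ := hz.eq_pow_of_pow_eq_one h2
  refine ⟨i, Units.ext ?_⟩
  rw [Units.val_pow_eq_pow_val]
  exact hi.symm

theorem ROO_dvd (k : ℕ) (d1 : 133356 ∣ 2196 * k) (d2 : 133356 ∣ 66680 * k) : 33339 ∣ k := by
  obtain ⟨c, hc⟩ := d1
  have h1 : 11113 ∣ 183 * k := ⟨c, by linarith⟩
  have h2 : 11113 ∣ k := Nat.Coprime.dvd_of_dvd_mul_left (by norm_num) h1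
  obtain ⟨m, rfl⟩ := h2
  obtain ⟨e, he⟩ := d2
  have h3 : 3 ∣ 16670 * m := ⟨e, by linarith⟩
  have h4 : 3 ∣ m := Nat.Coprime.dvd_of_dvd_mul_left (by norm_num) h3
  obtain ⟨n, rfl⟩ := h4
  exact ⟨n, by ring⟩

theorem p_ROO : Stmt_ROO := by
  intro E _ _ _ f L t h hb hs
  obtain ⟨k, rfl⟩ := ROO_exists f t h
  have h1 : f.z ^ (2196 * k) = 1 := by
    have e : gu (f.s ^ 3) (f.z ^ k) = f.z ^ (2197 * k) := by
      rw [pow_succ, pow_succ, pow_one, gu_mul, gu_mul, f.gu_s_pow, f.gu_s_pow, f.gu_s_pow]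
      congr 1
      ring
    rw [e] at hs
    have e2 : f.z ^ (2197 * k) = f.z ^ (2196 * k) * f.z ^ k := by
      rw [← pow_add]
      congr 1
      ring
    rw [e2] at hs
    exact mul_eq_right.1 hs
  have h2 : f.z ^ (66680 * k) = 1 := by
    rw [f.gu_b_pow] at hb
    have e2 : f.z ^ (66680 * k) = f.z ^ (66679 * k) * f.z ^ k := by
      rw [← pow_add]
      congr 1
      ring
    rw [e2, hb, inv_mul_cancel]
  have d1 := (f.hz.pow_eq_one_iff_dvd _).1 h1
  have d2 := (f.hz.pow_eq_one_iff_dvd _).1 h2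
  have d3 : 33339 ∣ k := ROO_dvd k d1 d2
  have h4 : (f.z ^ k) ^ 4 = 1 := by
    obtain ⟨m, rfl⟩ := d3
    rw [← pow_mul, f.hz.pow_eq_one_iff_dvd]
    exact ⟨m, by ring⟩
  have h5 := L.l_pow (f.z ^ k) 4
  rw [h4, L.l_one] at h5
  have h6 : (4 : ZMod 3) = 1 := by decide
  push_cast at h5
  rw [h6, one_mul] at h5
  exact h5.symm

end Pool.CU
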