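import Pool.Agent.Work.MP_2b7bfc_cu.Interface2

/-!
# Block SGN: an element of type T12 of absolute value 1 at one embedding is 1 or -1
-/

namespace Pool.CU

open scoped NumberField
open IsDedekindDomain

theorem SGN_iter {E : Type} [Field E] [NumberField E] (σ : Gal(E/ℚ)) (x : Eˣ)
    (h : gu σ x = x) (n : ℕ) : gu (σ ^ n) x = x := by
  induction n with
  | zero => exact gu_one x
  | succ n ih => rw [pow_succ, gu_mul, h, ih]

theorem p_SGN (hCCJ : Stmt_CCJ) : Stmt_SGN := by
  intro E _ _ _ f φ x hx hn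
  obtain ⟨ha, hb, hs⟩ := hx
  have h1 : gu (f.a * f.b * f.s ^ 5556) x = x := by
    have e : f.s ^ 5556 = (f.s ^ 3) ^ 1852 := by
      rw [← pow_mul]
    rw [gu_mul, gu_mul, e, SGN_iter _ x hs, hb, map_inv, ha, inv_inv]
  have h2 : (starRingEnd ℂ) (φ (x : E)) = φ (x : E) := by
    rw [hCCJ E f φ (x : E)]
    congr 1
    rw [← gu_val, h1]
  obtain ⟨c, hc⟩ := Complex.conj_eq_iff_real.1 h2
  have h3 : |c| = 1 := by
    rw [hc, Complex.norm_real] at hn
    exact hn
  rcases (abs_eq (by norm_num : (0 : ℝ) ≤ 1)).1 h3 with h | h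
  · left
    apply Units.ext
    apply φ.injective
    rw [hc, h]
    simp
  · right
    apply Units.ext
    apply φ.injective
    rw [hc, h]
    simp

end Pool.CU
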