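import Pool.Agent.Work.MP_2b7bfc_cu.Interface3

/-! # Block TKA: a multiple of the symbol is in the tame kernel -/

namespace Pool.CU

open scoped NumberField TensorProduct
open IsDedekindDomain

theorem TKA_mod : (107 ^ 1389) % 11113 = 1 := by
  have h1 : 107 ^ 1389 = (107 ^ 126) ^ 11 * 107 ^ 3 := by
    rw [← pow_mul, ← pow_add]
  have h2 : 107 ^ 126 % 11113 = 9971 := by norm_num
  rw [h1, Nat.mul_mod, Nat.pow_mod, h2]
  norm_num

/-- the congruence modulo a place above 107 -/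
theorem TKA_frob {Q : Type} [CommRing Q] [Nontrivial Q] (h107 : (107 : Q) = 0) (z : Q)
    (hz : z ^ 11113 = 1) (N : ℕ) (hN : N = 107 ^ 1389) : (1 - z) ^ N = 1 - z := by
  have hp : Nat.Prime 107 := by norm_num
  haveI : Fact (Nat.Prime 107) := ⟨hp⟩
  haveI : CharP Q 107 := by
    have h1 : ringChar Q = 107 :=
      CharP.ringChar_of_prime_eq_zero hp (by exact_mod_cast h107)
    exact ringChar.of_eq h1
  have h2 : (1 - z) ^ (107 ^ 1389) = 1 ^ (107 ^ 1389) - z ^ (107 ^ 1389) :=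
    sub_pow_char_pow 1 z 1389
  have h3 := TKA_mod
  rw [← hN] at h2 h3
  rw [h2, one_pow]
  have h4 : N = 11113 * (N / 11113) + 1 := by
    have := Nat.div_add_mod N 11113
    omega
  rw [h4, pow_succ, pow_mul, hz, one_pow, one_mul]

theorem p_TKA : Stmt_TKA := by
  intro E _ _ _ f x y hx hy
  have hZ : IsPrimitiveRoot (f.zl : E) 11113 := IsPrimitiveRoot.coe_units_iff.2 f.zl_prim
  have hW : IsPrimitiveRoot (f.z : E) 133356 := IsPrimitiveRoot.coe_units_iff.2 f.hz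
  obtain ⟨Z, hZc, hZp⟩ : ∃ Z : 𝓞 E, algebraMap (𝓞 E) E Z = f.zl ∧ IsPrimitiveRoot Z 11113 :=
    ⟨hZ.toInteger, rfl, hZ.toInteger_isPrimitiveRoot⟩
  obtain ⟨W, hWc⟩ : ∃ W : 𝓞 E, algebraMap (𝓞 E) E W = f.z := ⟨hW.toInteger, rfl⟩
  obtain ⟨N, hN⟩ : ∃ N : ℕ, N = 107 ^ 1389 := ⟨_, rfl⟩
  have hNz : (107 : ℤ) ^ 1389 = (N : ℤ) := by
    rw [hN, Nat.cast_pow]
    rfl
  have hfrob : ∀ (Q : Type) [CommRing Q] [Nontrivial Q], (107 : Q) = 0 → ∀ z : Q,
      z ^ 11113 = 1 → (1 - z) ^ N = 1 - z := fun Q _ _ h z hz => TKA_frob h z hz N hN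
  clear hN
  rw [hNz, tameKernel, AddSubgroup.mem_iInf]
  rintro ⟨v, hv⟩
  rw [AddMonoidHom.mem_ker, map_zsmul, tame_sym]
  -- the element `x`
  have hxX : (x : E) = ((1 - Z : 𝓞 E) : E) := by
    show (x : E) = algebraMap (𝓞 E) E (1 - Z)
    rw [hx, map_sub, map_one, hZc]
  have hXd : (1 - Z : 𝓞 E) ∣ (11113 : 𝓞 E) := by
    have hp : Nat.Prime 11113 := by norm_num
    haveI : Fact (Nat.Prime 11113) := ⟨hp⟩
    have h1 : (Polynomial.cyclotomic 11113 (𝓞 E)).IsRoot Z :=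
      hZp.isRoot_cyclotomic (by norm_num)
    obtain ⟨q, hq⟩ := Polynomial.dvd_iff_isRoot.2 h1
    have h2 := Polynomial.eval_one_cyclotomic_prime (R := 𝓞 E) (p := 11113)
    rw [hq, Polynomial.eval_mul, Polynomial.eval_sub, Polynomial.eval_X, Polynomial.eval_C] at h2
    refine ⟨Polynomial.eval 1 q, ?_⟩
    rw [h2]
    norm_num
  have hXv : (1 - Z : 𝓞 E) ∉ v.asIdeal := by
    intro h
    apply hv
    obtain ⟨c, hc⟩ := hXd
    have h1 : ((133356 : ℕ) : 𝓞 E) = (1 - Z) * (c * 12) := by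
      rw [← mul_assoc, ← hc]
      norm_num
    rw [h1]
    exact v.asIdeal.mul_mem_right _ h
  have hx0 : ord v x = 0 := (ord_eq_zero_iff v hxX).2 hXv
  have htr : tameRep v x y = x ^ (ord v y) := by
    rw [tameRep, hx0]
    simp
  rw [htr, ← ofMul_zpow, ofMul_eq_zero, ← map_zpow, QuotientGroup.mk'_apply,
    QuotientGroup.eq_one_iff]
  by_cases hy0 : ord v y = 0
  · rw [hy0, zpow_zero, one_zpow]
    exact (U1 v).one_mem
  -- the place is above 107
  obtain ⟨R, hR⟩ : ∃ R : 𝓞 E, algebraMap (𝓞 E) E R = f.r := by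
    refine ⟨W ^ 11113 + W ^ 122243, ?_⟩
    rw [map_add, map_pow, map_pow, hWc, Frame.r]
    push_cast
    rfl
  have hyY : (y : E) = ((1 + 6 * R : 𝓞 E) : E) := by
    show (y : E) = algebraMap (𝓞 E) E (1 + 6 * R)
    rw [hy, map_add, map_mul, map_one, hR, map_ofNat]
  have hyv : (1 + 6 * R : 𝓞 E) ∈ v.asIdeal := by
    rw [← ord_pos_iff v hyY]
    have := ord_nonneg v hyY
    omega
  have h107 : (107 : 𝓞 E) ∈ v.asIdeal := by
    have h1 : (107 : 𝓞 E) = (1 + 6 * R) * (6 * R - 1) := by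
      apply NumberField.RingOfIntegers.ext
      show algebraMap (𝓞 E) E 107 = algebraMap (𝓞 E) E ((1 + 6 * R) * (6 * R - 1))
      rw [map_mul, map_add, map_sub, map_mul, map_one, hR, map_ofNat, map_ofNat]
      have h2 := f.r_sq
      linear_combination (-36 : E) * h2
    rw [h1]
    exact v.asIdeal.mul_mem_right _ hyv
  have hQ : Nontrivial (𝓞 E ⧸ v.asIdeal) := Ideal.Quotient.nontrivial_iff.2 v.isPrime.ne_top
  have h107' : (107 : 𝓞 E ⧸ v.asIdeal) = 0 := by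
    have := Ideal.Quotient.eq_zero_iff_mem.2 h107
    rw [map_ofNat] at this
    exact this
  have hz : (Ideal.Quotient.mk v.asIdeal Z) ^ 11113 = 1 := by
    rw [← map_pow, hZp.pow_eq_one, map_one]
  have hfr := hfrob (𝓞 E ⧸ v.asIdeal) h107' _ hz
  have hmem : (1 - Z) ^ N - (1 - Z) ∈ v.asIdeal := by
    rw [← Ideal.Quotient.eq_zero_iff_mem, map_sub, map_pow, map_sub, map_one, hfr, sub_self]
  have hxN : ((x ^ N : Eˣ) : E) = (((1 - Z) ^ N : 𝓞 E) : E) := by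
    show ((x ^ N : Eˣ) : E) = algebraMap (𝓞 E) E ((1 - Z) ^ N)
    rw [Units.val_pow_eq_pow_val, map_pow]
    exact congrArg (fun t : E => t ^ N) hxX
  have hU := div_mem_U1 v hxN hxX hmem hXv
  have h5 : (x ^ ord v y) ^ ((N : ℤ) - 1) = (x ^ N * x⁻¹) ^ ord v y := by
    rw [← zpow_mul, mul_comm, zpow_mul, zpow_sub_one, zpow_natCast]
  rw [h5]
  exact (U1 v).zpow_mem hU _

end Pool.CU
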