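import Pool.Agent.Work.MP_2b7bfc_cu.Interface2

/-! # Block TRB: the orders at all places above 11113 -/

namespace Pool.CU

open scoped NumberField
open IsDedekindDomain

theorem TRB_over {E : Type} [Field E] [NumberField E] (v : HeightOneSpectrum (𝓞 E))
    (hv : (11113 : 𝓞 E) ∈ v.asIdeal) :
    v.asIdeal ∈ Ideal.primesOver (Ideal.span {(11113 : ℤ)}) (𝓞 E) := by
  refine ⟨v.isPrime, ⟨?_⟩⟩
  have hmax : (Ideal.span {(11113 : ℤ)}).IsMaximal := by
    have h1 : Prime (11113 : ℤ) := Nat.prime_iff_prime_int.1 (by norm_num)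
    have h2 : (Ideal.span {(11113 : ℤ)}).IsPrime :=
      (Ideal.span_singleton_prime (by norm_num)).2 h1
    exact h2.isMaximal (by
      rw [Ne, Ideal.span_singleton_eq_bot]
      norm_num)
  refine hmax.eq_of_le ?_ ?_
  · have := v.isPrime
    exact (Ideal.IsPrime.under ℤ v.asIdeal).ne_top
  · rw [Ideal.span_singleton_le_iff_mem]
    show algebraMap ℤ (𝓞 E) 11113 ∈ v.asIdeal
    have h3 : algebraMap ℤ (𝓞 E) 11113 = 11113 := map_ofNat _ _
    rw [h3]
    exact hv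

theorem p_TRB (hVAL : Stmt_VAL) (hGAL : Stmt_GAL) (hCOM : Stmt_COM) (hLSX : Stmt_LSX) :
    Stmt_TRB := by
  intro E _ _ _ f L x hbx hsx hout hP haP v
  by_cases hv : (11113 : 𝓞 E) ∈ v.asIdeal
  swap
  · exact hout v hv
  haveI : IsGalois ℚ E := IsCyclotomicExtension.isGalois {133356} ℚ E
  obtain ⟨σ, hσ⟩ := Ideal.exists_comap_galRestrict_eq ℤ ℚ E (𝓞 E) (TRB_over L.P L.hP)
    (TRB_over v hv)
  obtain ⟨v', hv1, hv2⟩ := hVAL E σ L.P
  have hvv : v' = v := by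
    apply HeightOneSpectrum.ext
    rw [← hσ]
    ext y
    rw [Ideal.mem_comap]
    exact hv1 y (galRestrict ℤ ℚ E (𝓞 E) σ y) (algebraMap_galRestrict_apply ℤ σ y)
  rw [← hvv, ← hv2 x]
  obtain ⟨i, j, k, hi, hj, -, hσe⟩ := hGAL E f σ
  obtain ⟨hcom, -, -, -⟩ := hCOM E f
  obtain ⟨hs, -⟩ := hLSX E f L
  have hsk : ∀ (k : ℕ) (y : Eˣ), ord L.P (gu (f.s ^ k) y) = ord L.P y := by
    intro k
    induction k with
    | zero => intro y; rw [pow_zero, gu_one]
    | succ k ih => intro y; rw [pow_succ, gu_mul, ih, hs]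
  have h1 : gu σ x = gu (f.s ^ k) (gu (f.a ^ i) (gu (f.b ^ j) x)) := by
    rw [hσe, hcom (f.a ^ i * f.b ^ j) (f.s ^ k), gu_mul, gu_mul]
  rw [h1, hsk]
  have hi' : i = 0 ∨ i = 1 := by omega
  have hj' : j = 0 ∨ j = 1 := by omega
  rcases hi' with rfl | rfl <;> rcases hj' with rfl | rfl
  · rw [pow_zero, pow_zero, gu_one, gu_one, hP]
  · rw [pow_zero, pow_one, gu_one, hbx, ord_inv, hP, neg_zero]
  · rw [pow_zero, pow_one, gu_one, haP]
  · rw [pow_one, pow_one, hbx, map_inv, ord_inv, haP, neg_zero]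

end Pool.CU
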