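import Pool.Agent.Work.MP_2b7bfc_cu.Interface4

/-! # UEL: the relative unit with trivial cubic residue symbol -/

namespace Pool.CU

open scoped NumberField
open IsDedekindDomain

section algebra

variable {K : Type} [Field K] [CharZero K]

/-- The trace of `u`. -/
def UEL_t (r : K) : K := 138432883544094 - 79921565356019 * r

/-- The coefficient of the first Gauss sum. -/
def UEL_ρ (r w : K) : K :=
  (-1442798102088 + 833006060112 * r) + (-317543291592 + 183311781968 * r) * w

/-- The coefficient of the second Gauss sum. -/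
def UEL_ρ' (r w : K) : K :=
  (-1125254810496 + 649694278144 * r) + (317543291592 - 183311781968 * r) * w

/-- The unit. -/
def UEL_u (r w G H : K) : K := (UEL_t r + UEL_ρ r w * G + UEL_ρ' r w * H) / 3

omit [CharZero K] in
theorem UEL_h0 {r w : K} (hr : r ^ 2 = 3) (hw : w ^ 2 + w + 1 = 0) :
    UEL_t r * UEL_t (-r) + 11113 * (UEL_ρ r w * UEL_ρ' (-r) w + UEL_ρ' r w * UEL_ρ (-r) w) = 9 := by
  unfold UEL_t UEL_ρ UEL_ρ'
  linear_combination (-19163016536600453699887276713) * hr +
    (-2241130750471731151642356864 + 746864932308510625775911424 * r^2) * hw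

omit [CharZero K] in
theorem UEL_h1 {r w : K} (hr : r ^ 2 = 3) (hw : w ^ 2 + w + 1 = 0) :
    UEL_t r * UEL_ρ (-r) w + UEL_t (-r) * UEL_ρ r w +
      UEL_ρ' r w * UEL_ρ' (-r) w * (-121 - 72 * w) = 0 := by
  unfold UEL_t UEL_ρ UEL_ρ'
  linear_combination (199728073234798317130447584 + 43955063597208128063391456 * w) * hr +
    (46512811402547997384718272 + (-7260029426525899528401408) * w +
      (-15503355422976675974166272) * r^2 + 2419431077396417036617728 * r^2 * w) * hw

omit [CharZero K] in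
theorem UEL_h2 {r w : K} (hr : r ^ 2 = 3) (hw : w ^ 2 + w + 1 = 0) :
    UEL_t r * UEL_ρ' (-r) w + UEL_t (-r) * UEL_ρ' r w +
      UEL_ρ r w * UEL_ρ (-r) w * (-49 + 72 * w) = 0 := by
  unfold UEL_t UEL_ρ UEL_ρ'
  linear_combination (155773009637590189067056128 + (-43955063597208128063391456) * w) * hr +
    (53772840829073896913119680 + 7260029426525899528401408 * w +
      (-17922786500373093010784000) * r^2 + (-2419431077396417036617728) * r^2 * w) * hw

omit [CharZero K] in
theorem UEL_hN {r w : K} (hr : r ^ 2 = 3) (hw : w ^ 2 + w + 1 = 0) :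
    UEL_t r ^ 3 + 11113 * ((-49 + 72 * w) * UEL_ρ r w ^ 3) +
      11113 * ((-121 - 72 * w) * UEL_ρ' r w ^ 3) - 3 * 11113 * (UEL_t r * (UEL_ρ r w * UEL_ρ' r w))
      = 27 * (2 + r) := by
  unfold UEL_t UEL_ρ UEL_ρ'
  linear_combination ((-321828080948893032698707772310) +
    (-185807529161028007915974266475) * r) * hr +
    ((-1288630043806071652014142775743362533218176) +
    (-51239234548284675598007920466155777499136) * w +
    (-51239234548284675598007920466155777499136) * w^2 +
    2232036473090197889066523890743636733398464 * r +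
    88738345042326905907753489578518705324032 * r * w +
    88738345042326905907753489578518705324032 * r * w^2 +
    (-1288703663185722913139929453969602036113664) * r^2 +
    (-51226980979654237970301976633131924553728) * r^2 * w +
    (-51226980979654237970301976633131924553728) * r^2 * w^2 +
    248018216708266862357381327694180244682496 * r^3 +
    9857458197423560069499248336359324975104 * r^3 * w +
    9857458197423560069499248336359324975104 * r^3 * w^2) * hw

omit [CharZero K] in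
theorem UEL_he {r w : K} (hr : r ^ 2 = 3) (hw : w ^ 2 + w + 1 = 0) :
    UEL_t r ^ 2 - 11113 * (UEL_ρ r w * UEL_ρ' r w) =
      3 * (516630463156245 + 298276014256132 * r) := by
  unfold UEL_t UEL_ρ UEL_ρ'
  linear_combination (-323354865602210614345815) * hr +
    (1120565375235865575821178432 + (-1293762716360921843351782656) * r +
      373432466154255312887955712 * r^2) * hw

/-- `u u~ = 1`. -/
theorem UEL_inv {r w G H : K} (hr : r ^ 2 = 3) (hw : w ^ 2 + w + 1 = 0) (hGH : G * H = 11113)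
    (hG : G ^ 2 = (-49 + 72 * w) * H) (hH : H ^ 2 = (-121 - 72 * w) * G) :
    UEL_u r w G H * UEL_u (-r) w G H = 1 := by
  have h0 := UEL_h0 hr hw
  have h1 := UEL_h1 hr hw
  have h2 := UEL_h2 hr hw
  have h9 : (9 : K) ≠ 0 := by norm_num
  have h : (UEL_t r + UEL_ρ r w * G + UEL_ρ' r w * H) *
      (UEL_t (-r) + UEL_ρ (-r) w * G + UEL_ρ' (-r) w * H) = 9 := by
    linear_combination h0 + G * h1 + H * h2 +
      (UEL_ρ r w * UEL_ρ' (-r) w + UEL_ρ' r w * UEL_ρ (-r) w) * hGH +
      (UEL_ρ r w * UEL_ρ (-r) w) * hG + (UEL_ρ' r w * UEL_ρ' (-r) w) * hH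
  have h' : UEL_u r w G H * UEL_u (-r) w G H =
      ((UEL_t r + UEL_ρ r w * G + UEL_ρ' r w * H) *
      (UEL_t (-r) + UEL_ρ (-r) w * G + UEL_ρ' (-r) w * H)) / 9 := by
    unfold UEL_u
    ring
  rw [h', h]
  norm_num

omit [CharZero K] in
theorem UEL_cubes {w G H : K} (hGH : G * H = 11113)
    (hG : G ^ 2 = (-49 + 72 * w) * H) (hH : H ^ 2 = (-121 - 72 * w) * G) :
    G ^ 3 = 11113 * (-49 + 72 * w) ∧ H ^ 3 = 11113 * (-121 - 72 * w) := by
  constructor
  · linear_combination G * hG + (-49 + 72 * w) * hGH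
  · linear_combination H * hH + (-121 - 72 * w) * hGH

/-- The norm. -/
theorem UEL_norm {r w G H : K} (hr : r ^ 2 = 3) (hw : w ^ 2 + w + 1 = 0) (hGH : G * H = 11113)
    (hG : G ^ 2 = (-49 + 72 * w) * H) (hH : H ^ 2 = (-121 - 72 * w) * G) :
    UEL_u r w G H * UEL_u r w (w ^ 2 * G) (w * H) * UEL_u r w (w * G) (w ^ 2 * H) = 2 + r := by
  have hN := UEL_hN hr hw
  obtain ⟨hG3, hH3⟩ := UEL_cubes hGH hG hH
  have h : (UEL_t r + UEL_ρ r w * G + UEL_ρ' r w * H) *
      (UEL_t r + UEL_ρ r w * (w ^ 2 * G) + UEL_ρ' r w * (w * H)) *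
      (UEL_t r + UEL_ρ r w * (w * G) + UEL_ρ' r w * (w ^ 2 * H)) = 27 * (2 + r) := by
    generalize UEL_t r = t at hN ⊢
    generalize UEL_ρ r w = ρ at hN ⊢
    generalize UEL_ρ' r w = ρ' at hN ⊢
    linear_combination hN + ρ ^ 3 * hG3 + ρ' ^ 3 * hH3 - 3 * t * ρ * ρ' * hGH +
      ((t + ρ * G + ρ' * H) * (t * (ρ * G + ρ' * H) + (w - 1) * ((ρ * G) ^ 2 + (ρ' * H) ^ 2) +
        (w ^ 2 - w + 1) * (ρ * G) * (ρ' * H))) * hw
  have h' : UEL_u r w G H * UEL_u r w (w ^ 2 * G) (w * H) * UEL_u r w (w * G) (w ^ 2 * H) =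
      ((UEL_t r + UEL_ρ r w * G + UEL_ρ' r w * H) *
      (UEL_t r + UEL_ρ r w * (w ^ 2 * G) + UEL_ρ' r w * (w * H)) *
      (UEL_t r + UEL_ρ r w * (w * G) + UEL_ρ' r w * (w ^ 2 * H))) / 27 := by
    unfold UEL_u
    ring
  rw [h', h]
  have h27 : (27 : K) ≠ 0 := by norm_num
  field_simp

/-- The cubic equation of `u`. -/
theorem UEL_cubic {r w G H : K} (hr : r ^ 2 = 3) (hw : w ^ 2 + w + 1 = 0) (hGH : G * H = 11113)
    (hG : G ^ 2 = (-49 + 72 * w) * H) (hH : H ^ 2 = (-121 - 72 * w) * G) :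
    UEL_u r w G H ^ 3 - UEL_t r * UEL_u r w G H ^ 2 +
      (516630463156245 + 298276014256132 * r) * UEL_u r w G H - (2 + r) = 0 := by
  have hN := UEL_hN hr hw
  have he := UEL_he hr hw
  obtain ⟨hG3, hH3⟩ := UEL_cubes hGH hG hH
  unfold UEL_u
  generalize (516630463156245 + 298276014256132 * r : K) = e at he ⊢
  generalize UEL_t r = t at hN he ⊢
  generalize UEL_ρ r w = ρ at hN he ⊢
  generalize UEL_ρ' r w = ρ' at hN he ⊢
  have h : (t + ρ * G + ρ' * H) ^ 3 - 3 * t * (t + ρ * G + ρ' * H) ^ 2 +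
      9 * e * (t + ρ * G + ρ' * H) - 27 * (2 + r) = 0 := by
    linear_combination hN + ρ ^ 3 * hG3 + ρ' ^ 3 * hH3 - 3 * (t + ρ * G + ρ' * H) * he -
      3 * t * ρ * ρ' * hGH + 3 * (t + ρ * G + ρ' * H) * ρ * ρ' * hGH
  have h27 : (27 : K) ≠ 0 := by norm_num
  have h' : ((t + ρ * G + ρ' * H) / 3) ^ 3 - t * ((t + ρ * G + ρ' * H) / 3) ^ 2 +
      e * ((t + ρ * G + ρ' * H) / 3) - (2 + r) =
      ((t + ρ * G + ρ' * H) ^ 3 - 3 * t * (t + ρ * G + ρ' * H) ^ 2 +
      9 * e * (t + ρ * G + ρ' * H) - 27 * (2 + r)) / 27 := by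
    ring
  rw [h', h, zero_div]

omit [CharZero K] in
theorem UEL_swap {r w : K} (hw : w ^ 2 + w + 1 = 0) :
    UEL_ρ r (w ^ 2) = UEL_ρ' r w ∧ UEL_ρ' r (w ^ 2) = UEL_ρ r w := by
  unfold UEL_ρ UEL_ρ'
  constructor
  · linear_combination (-317543291592 + 183311781968 * r) * hw
  · linear_combination (317543291592 - 183311781968 * r) * hw

omit [CharZero K] in
theorem UEL_u_swap {r w G H : K} (hw : w ^ 2 + w + 1 = 0) :
    UEL_u r (w ^ 2) H G = UEL_u r w G H := by
  unfold UEL_u
  rw [(UEL_swap hw).1, (UEL_swap hw).2]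
  ring

omit [CharZero K] in
theorem UEL_map {F : Type} [FunLike F K K] [RingHomClass F K K] (σ : F) (r w G H : K) :
    σ (UEL_u r w G H) = UEL_u (σ r) (σ w) (σ G) (σ H) := by
  unfold UEL_u UEL_t UEL_ρ UEL_ρ'
  simp only [map_div₀, map_add, map_sub, map_mul, map_neg, map_ofNat]

end algebra

theorem UEL_int {E : Type} [Field E] [NumberField E] {x t e n : E} (ht : IsIntegral ℤ t)
    (he : IsIntegral ℤ e) (hn : IsIntegral ℤ n) (h : x ^ 3 - t * x ^ 2 + e * x - n = 0) :
    IsIntegral ℤ x := by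
  obtain ⟨t', ht'⟩ : ∃ t' : 𝓞 E, algebraMap (𝓞 E) E t' = t := ⟨⟨t, ht⟩, rfl⟩
  obtain ⟨e', he'⟩ : ∃ t' : 𝓞 E, algebraMap (𝓞 E) E t' = e := ⟨⟨e, he⟩, rfl⟩
  obtain ⟨n', hn'⟩ : ∃ t' : 𝓞 E, algebraMap (𝓞 E) E t' = n := ⟨⟨n, hn⟩, rfl⟩
  have key : IsIntegral (𝓞 E) x := by
    refine ⟨Polynomial.X ^ 3 + (Polynomial.C (-t') * Polynomial.X ^ 2 +
      Polynomial.C e' * Polynomial.X + Polynomial.C (-n')), ?_, ?_⟩
    · apply Polynomial.monic_X_pow_add
      refine lt_of_le_of_lt (b := (2 : WithBot ℕ)) ?_ (by norm_num)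
      compute_degree
    · simp only [Polynomial.eval₂_add, Polynomial.eval₂_mul, Polynomial.eval₂_pow,
        Polynomial.eval₂_X, Polynomial.eval₂_C, Polynomial.eval₂_neg, map_neg, ht', he', hn']
      linear_combination h
  exact isIntegral_trans x key

section numberField

variable {E : Type} [Field E] [NumberField E]

omit [NumberField E] in
theorem UEL_intNum (k : ℤ) : IsIntegral ℤ (k : E) := isIntegral_algebraMap (R := ℤ) (x := k)

theorem UEL_intR (f : Frame E) : IsIntegral ℤ f.r := by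
  apply IsIntegral.of_pow (n := 2) (by norm_num)
  rw [f.r_sq]
  exact_mod_cast UEL_intNum (E := E) 3

end numberField

theorem p_UEL (hGSS : Stmt_GSS) : Stmt_UEL := by
  intro E _ _ _ f
  obtain ⟨G, H, hGi, hHi, hGH, hG2, hH2, haG, haH, hbG, hbH, hs⟩ := hGSS E f
  have hr := f.r_sq
  have hw := f.w_sq
  have hw3 := f.w_pow_three
  set r := f.r with hrdef
  set w := (f.w : E) with hwdef
  have haw : f.a w = w ^ 2 := by
    have := congrArg (fun u : Eˣ => (u : E)) f.a_w
    simpa [gu_val] using this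
  have hbw : f.b w = w := by
    have := congrArg (fun u : Eˣ => (u : E)) f.b_w
    simpa [gu_val] using this
  have hsw : f.s w = w := by
    have := congrArg (fun u : Eˣ => (u : E)) f.s_w
    simpa [gu_val] using this
  have hinv := UEL_inv hr hw hGH hG2 hH2
  set u : E := UEL_u r w G H with hu
  set v : E := UEL_u (-r) w G H with hv
  have hbu : f.b u = v := by
    rw [hu, UEL_map, hbw, hbG, hbH, f.b_r]
  have hau : f.a u = v := by
    rw [hu, UEL_map, haw, haG, haH, f.a_r, UEL_u_swap hw]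
  have hui : IsIntegral ℤ u := by
    have hri := UEL_intR f
    refine UEL_int (t := UEL_t r) (e := 516630463156245 + 298276014256132 * r) (n := 2 + r)
      ?_ ?_ ?_ (UEL_cubic hr hw hGH hG2 hH2)
    · unfold UEL_t
      have h1 : IsIntegral ℤ (138432883544094 : E) := by
        exact_mod_cast UEL_intNum (E := E) 138432883544094
      have h2 : IsIntegral ℤ (79921565356019 : E) := by
        exact_mod_cast UEL_intNum (E := E) 79921565356019
      exact h1.sub (h2.mul hri)
    · have h1 : IsIntegral ℤ (516630463156245 : E) := by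
        exact_mod_cast UEL_intNum (E := E) 516630463156245
      have h2 : IsIntegral ℤ (298276014256132 : E) := by
        exact_mod_cast UEL_intNum (E := E) 298276014256132
      exact h1.add (h2.mul hri)
    · have h1 : IsIntegral ℤ (2 : E) := by
        exact_mod_cast UEL_intNum (E := E) 2
      exact h1.add hri
  have hvi : IsIntegral ℤ v := by
    rw [← hbu]
    exact hui.map f.b
  let U : Eˣ := ⟨u, v, hinv, by rw [mul_comm]; exact hinv⟩
  have hUinv : ((U⁻¹ : Eˣ) : E) = v := rfl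
  have hUval : (U : E) = u := rfl
  have hcases : (f.s u = UEL_u r w (w * G) (w ^ 2 * H) ∧ f.s (f.s u) = UEL_u r w (w ^ 2 * G) (w * H)) ∨
      (f.s u = UEL_u r w (w ^ 2 * G) (w * H) ∧ f.s (f.s u) = UEL_u r w (w * G) (w ^ 2 * H)) := by
    rcases hs with ⟨h1, h2⟩ | ⟨h1, h2⟩
    · left
      have h3 : f.s u = UEL_u r w (w * G) (w ^ 2 * H) := by
        rw [hu, UEL_map, hsw, h1, h2, f.s_r]
      refine ⟨h3, ?_⟩
      rw [h3, UEL_map, map_mul, map_mul, map_pow, hsw, h1, h2, f.s_r]
      congr 1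
      · ring
      · linear_combination (w * H) * hw3
    · right
      have h3 : f.s u = UEL_u r w (w ^ 2 * G) (w * H) := by
        rw [hu, UEL_map, hsw, h1, h2, f.s_r]
      refine ⟨h3, ?_⟩
      rw [h3, UEL_map, map_mul, map_mul, map_pow, hsw, h1, h2, f.s_r]
      congr 1
      · linear_combination (w * G) * hw3
      · ring
  have hs3 : f.s (f.s (f.s u)) = u := by
    rcases hs with ⟨h1, h2⟩ | ⟨h1, h2⟩
    · rw [hu, UEL_map, hsw, h1, h2, f.s_r, UEL_map, map_mul, map_mul, map_pow, hsw, h1, h2, f.s_r,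
        UEL_map, map_mul, map_mul, map_mul, map_mul, map_pow, hsw, h1, h2, f.s_r]
      congr 1
      · linear_combination G * hw3
      · linear_combination (w ^ 3 + 1) * H * hw3
    · rw [hu, UEL_map, hsw, h1, h2, f.s_r, UEL_map, map_mul, map_mul, map_pow, hsw, h1, h2, f.s_r,
        UEL_map, map_mul, map_mul, map_mul, map_mul, map_pow, hsw, h1, h2, f.s_r]
      congr 1
      · linear_combination (w ^ 3 + 1) * G * hw3
      · linear_combination H * hw3
  refine ⟨U, ⟨⟨?_, ?_, ?_⟩, ?_⟩, ?_, ?_⟩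
  · apply Units.ext
    rw [gu_val, hUval, hau, hUinv]
  · apply Units.ext
    rw [gu_val, hUval, hbu, hUinv]
  · apply Units.ext
    rw [gu_val, hUval]
    have : (f.s ^ 3) u = f.s (f.s (f.s u)) := rfl
    rw [this, hs3]
  · intro p
    have h1 : 0 ≤ ord p U := ord_nonneg p (y := ⟨u, hui⟩) rfl
    have h2 : 0 ≤ ord p U⁻¹ := ord_nonneg p (y := ⟨v, hvi⟩) rfl
    rw [ord_inv] at h2
    omega
  · rw [gu_val, gu_val, gu_val, hUval]
    rcases hcases with ⟨h1, h2⟩ | ⟨h1, h2⟩
    · rw [h2, h1]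
      have := UEL_norm hr hw hGH hG2 hH2
      rw [← hu] at this
      linear_combination this
    · rw [h2, h1]
      exact UEL_norm hr hw hGH hG2 hH2
  · intro L
    obtain ⟨hG3, hH3⟩ := UEL_cubes hGH hG2 hH2
    have hP := L.hP
    set P := L.P.asIdeal with hPdef
    have hprime : P.IsPrime := L.P.isPrime
    -- the elements of the ring of integers
    have hri := UEL_intR f
    have hwi : IsIntegral ℤ w := by
      apply IsIntegral.of_pow (n := 3) (by norm_num)
      rw [hw3]
      exact isIntegral_one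
    let G0 : 𝓞 E := ⟨G, hGi⟩
    let H0 : 𝓞 E := ⟨H, hHi⟩
    let r0 : 𝓞 E := ⟨r, hri⟩
    let w0 : 𝓞 E := ⟨w, hwi⟩
    let u0 : 𝓞 E := ⟨u, hui⟩
    have hGP : G0 ∈ P := by
      apply hprime.mem_of_pow_mem 3
      have : G0 ^ 3 = 11113 * (-49 + 72 * w0) := by
        apply NumberField.RingOfIntegers.ext
        change G ^ 3 = 11113 * (-49 + 72 * w)
        exact hG3
      rw [this]
      exact P.mul_mem_right _ hP
    have hHP : H0 ∈ P := by
      apply hprime.mem_of_pow_mem 3
      have : H0 ^ 3 = 11113 * (-121 - 72 * w0) := by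
        apply NumberField.RingOfIntegers.ext
        change H ^ 3 = 11113 * (-121 - 72 * w)
        exact hH3
      rw [this]
      exact P.mul_mem_right _ hP
    have h3u : 3 * u0 - (138432883544094 - 79921565356019 * r0) ∈ P := by
      have : 3 * u0 - (138432883544094 - 79921565356019 * r0) =
          ((-1442798102088 + 833006060112 * r0) + (-317543291592 + 183311781968 * r0) * w0) * G0 +
          ((-1125254810496 + 649694278144 * r0) + (317543291592 - 183311781968 * r0) * w0) * H0 := by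
        apply NumberField.RingOfIntegers.ext
        change 3 * u - (138432883544094 - 79921565356019 * r) =
          ((-1442798102088 + 833006060112 * r) + (-317543291592 + 183311781968 * r) * w) * G +
          ((-1125254810496 + 649694278144 * r) + (317543291592 - 183311781968 * r) * w) * H
        rw [hu]
        unfold UEL_u UEL_t UEL_ρ UEL_ρ'
        ring
      rw [this]
      exact P.add_mem (P.mul_mem_left _ hGP) (P.mul_mem_left _ hHP)
    have h3P : (3 : 𝓞 E) ∉ P := by
      intro h3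
      apply hprime.ne_top
      rw [Ideal.eq_top_iff_one]
      have : (1 : 𝓞 E) = 11113 - 3704 * 3 := by norm_num
      rw [this]
      exact P.sub_mem hP (P.mul_mem_left _ h3)
    have hr2 : (r0 - 3466) * (r0 + 3466) ∈ P := by
      have : (r0 - 3466) * (r0 + 3466) = -1081 * 11113 := by
        apply NumberField.RingOfIntegers.ext
        change (r - 3466) * (r + 3466) = -1081 * 11113
        linear_combination hr
      rw [this]
      exact P.mul_mem_left _ hP
    have key : ∀ c t : ℤ, r0 - (c : 𝓞 E) ∈ P →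
        (∃ k : ℤ, 138432883544094 - 79921565356019 * c - 3 * t ^ 3 = 11113 * k) →
        u0 - ((t ^ 3 : ℤ) : 𝓞 E) ∈ P := by
      intro c t hc ⟨k, hk⟩
      have h1 : 3 * (u0 - ((t ^ 3 : ℤ) : 𝓞 E)) ∈ P := by
        have h2 : 3 * (u0 - ((t ^ 3 : ℤ) : 𝓞 E)) =
            (3 * u0 - (138432883544094 - 79921565356019 * r0)) - 79921565356019 * (r0 - (c : 𝓞 E)) +
              (k : 𝓞 E) * 11113 := by
          have h3 : (138432883544094 : 𝓞 E) - 79921565356019 * (c : 𝓞 E) - 3 * (t : 𝓞 E) ^ 3 =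
              11113 * (k : 𝓞 E) := by exact_mod_cast congrArg (fun m : ℤ => (m : 𝓞 E)) hk
          push_cast
          linear_combination h3
        rw [h2]
        exact P.add_mem (P.sub_mem h3u (P.mul_mem_left _ hc)) (P.mul_mem_left _ hP)
      exact (hprime.mem_or_mem h1).resolve_left h3P
    rcases hprime.mem_or_mem hr2 with h | h
    · have h1 : r0 - ((3466 : ℤ) : 𝓞 E) ∈ P := by exact_mod_cast h
      exact (L.l_congr U u0 rfl 5551 (by norm_num)
        (key 3466 5551 h1 ⟨-24914084925701, by norm_num⟩)).2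
    · have h1 : r0 - ((-3466 : ℤ) : 𝓞 E) ∈ P := by
        push_cast
        rw [sub_neg_eq_add]
        exact h
      exact (L.l_congr U u0 rfl 309 (by norm_num)
        (key (-3466) 309 h1 ⟨24938952426797, by norm_num⟩)).2

end Pool.CU
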