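import Pool.Agent.Work.MP_2b7bfc_cu.Interface2

/-! Block UNB of THEOREM CUP -/

namespace Pool.CU

open scoped NumberField
open IsDedekindDomain

theorem UNB_pow {E : Type} [Field E] [NumberField E] (σ : Gal(E/ℚ)) {x : Eˣ}
    (h : gu σ x = x) (k : ℕ) : gu (σ ^ k) x = x := by
  induction k with
  | zero => rw [pow_zero, gu_one]
  | succ k ih => rw [pow_succ, gu_mul, h, ih]

theorem p_UNB (hKRO : Stmt_KRO) (hROO : Stmt_ROO) (hCOM : Stmt_COM) (hVAL : Stmt_VAL) :
    Stmt_UNB := by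
  intro E _ _ _ f L hM x hord hb hs
  obtain ⟨hc, haa, hbb, _⟩ := hCOM E f
  have hs' : gu (f.s ^ 5556) x = x := by
    have h1 : f.s ^ 5556 = (f.s ^ 3) ^ 1852 := by rw [← pow_mul]
    rw [h1]
    exact UNB_pow _ hs 1852
  have hcx : gu (f.a * f.b * f.s ^ 5556) x = (gu f.a x)⁻¹ := by
    rw [gu_mul, hs', gu_mul, hb, map_inv]
  have haax : gu f.a (gu f.a x) = x := by rw [← gu_mul, haa, gu_one]
  have hba : gu f.b (gu f.a x) = (gu f.a x)⁻¹ := by
    rw [← gu_mul, hc, gu_mul, hb, map_inv]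
  have hsa : gu (f.s ^ 3) (gu f.a x) = gu f.a x := by
    rw [← gu_mul, hc, gu_mul, hs]
  -- the root of unity
  have hle : L.l (x * gu f.a x) = 0 := by
    apply hROO E f L
    · obtain ⟨k, hk, hk1⟩ := hKRO E f x hord
      refine ⟨k, hk, ?_⟩
      rwa [hcx, inv_inv] at hk1
    · rw [map_mul, hb, hba, mul_inv]
    · rw [map_mul, hs, hsa]
  -- the relative unit
  have hly : L.l (x * (gu f.a x)⁻¹) = 0 := by
    apply hM
    refine ⟨⟨?_, ?_, ?_⟩, fun v => ?_⟩
    · rw [map_mul, map_inv, haax, mul_inv, inv_inv, mul_comm]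
    · rw [map_mul, map_inv, hb, hba, mul_inv]
    · rw [map_mul, map_inv, hs, hsa]
    · obtain ⟨v', _, hv'⟩ := hVAL E f.a v
      rw [ord_mul, ord_inv, hv', hord, hord]
      simp
  rw [L.l_mul] at hle hly
  rw [L.l_inv] at hly
  have h2 : ∀ t s : ZMod 3, t + s = 0 → t + -s = 0 → t = 0 := by decide
  exact h2 _ _ hle hly

end Pool.CU
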