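import Pool.Agent.Work.MP_2b7bfc_cu.Interface2

/-! Block UNI of THEOREM CUP -/

namespace Pool.CU

open scoped NumberField
open IsDedekindDomain

theorem UNI_T12_s {E : Type} [Field E] [NumberField E] (f : Frame E)
    (hc : ∀ σ τ : Gal(E/ℚ), σ * τ = τ * σ) {x : Eˣ} (h : f.T12 x) : f.T12 (gu f.s x) := by
  obtain ⟨h1, h2, h3⟩ := h
  refine ⟨?_, ?_, ?_⟩
  · rw [← gu_mul, hc, gu_mul, h1, map_inv]
  · rw [← gu_mul, hc, gu_mul, h2, map_inv]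
  · rw [← gu_mul, hc, gu_mul, h3]

theorem UNI_M0_s {E : Type} [Field E] [NumberField E] (f : Frame E)
    (hc : ∀ σ τ : Gal(E/ℚ), σ * τ = τ * σ) (hVAL : Stmt_VAL) {x : Eˣ} (h : f.M0 x) :
    f.M0 (gu f.s x) := by
  refine ⟨UNI_T12_s f hc h.1, fun v => ?_⟩
  obtain ⟨v', _, hv'⟩ := hVAL E f.s v
  rw [hv', h.2]

theorem UNI_T12_mul {E : Type} [Field E] [NumberField E] (f : Frame E) {x y : Eˣ}
    (hx : f.T12 x) (hy : f.T12 y) : f.T12 (x * y) := by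
  refine ⟨?_, ?_, ?_⟩
  · rw [map_mul, hx.1, hy.1, mul_inv]
  · rw [map_mul, hx.2.1, hy.2.1, mul_inv]
  · rw [map_mul, hx.2.2, hy.2.2]

theorem UNI_T12_zpow {E : Type} [Field E] [NumberField E] (f : Frame E) {x : Eˣ}
    (hx : f.T12 x) (k : ℤ) : f.T12 (x ^ k) := by
  refine ⟨?_, ?_, ?_⟩
  · rw [map_zpow, hx.1, inv_zpow]
  · rw [map_zpow, hx.2.1, inv_zpow]
  · rw [map_zpow, hx.2.2]

theorem p_UNI (hRNK : Stmt_RNK) (hIND : Stmt_IND) (hLSX : Stmt_LSX) (hCOM : Stmt_COM)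
    (hVAL : Stmt_VAL) : Stmt_UNI := by
  intro E _ _ _ f L u hu hN hlu x hx
  obtain ⟨hc, _, _, _⟩ := hCOM E f
  have hsu := UNI_M0_s f hc hVAL hu
  have hssu := UNI_M0_s f hc hVAL hsu
  obtain ⟨_, c, _, hlc⟩ := hLSX E f L
  have hl1 : L.l (gu f.s u) = 0 := by
    rw [hlc, hlu, hu.2]; simp
  have hl2 : L.l (gu f.s (gu f.s u)) = 0 := by
    rw [hlc, hl1, hsu.2]; simp
  obtain ⟨n, ⟨j, hj⟩, y, hy, hrel⟩ := hRNK E f ![x, u, gu f.s u, gu f.s (gu f.s u)] (by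
    intro j
    fin_cases j
    · exact hx
    · exact hu
    · exact hsu
    · exact hssu)
  rw [Fin.prod_univ_four] at hrel
  have hrel' : x ^ n 0 * u ^ n 1 * (gu f.s u) ^ n 2 * (gu f.s (gu f.s u)) ^ n 3 = y ^ 3 := hrel
  by_cases h0 : (3 : ℤ) ∣ n 0
  · exfalso
    obtain ⟨m, hm⟩ := h0
    have hrel2 : u ^ n 1 * (gu f.s u) ^ n 2 * (gu f.s (gu f.s u)) ^ n 3 =
        (y * x ^ (-m)) ^ 3 := by
      have h3 : (x ^ (-m)) ^ 3 = (x ^ n 0)⁻¹ := by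
        rw [hm, ← zpow_natCast, ← zpow_mul, ← zpow_neg]
        congr 1
        push_cast
        ring
      rw [mul_pow, h3, ← hrel']
      rw [eq_mul_inv_iff_mul_eq]
      rw [mul_assoc (x ^ n 0), mul_assoc (x ^ n 0), mul_comm (x ^ n 0)]
    obtain ⟨g1, g2, g3⟩ := hIND E f u hu.1 hN (n 1) (n 2) (n 3) (y * x ^ (-m))
      (UNI_T12_mul f hy.1 (UNI_T12_zpow f hx.1 _)) hrel2
    apply hj
    fin_cases j
    · exact ⟨m, hm⟩
    · exact g1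
    · exact g2
    · exact g3
  · have h1 := congrArg L.l hrel'
    rw [L.l_mul, L.l_mul, L.l_mul, L.l_zpow, L.l_zpow, L.l_zpow, L.l_zpow, L.l_cube, hlu, hl1,
      hl2] at h1
    simp only [mul_zero, add_zero] at h1
    have h2 : ((n 0 : ℤ) : ZMod 3) ≠ 0 := by
      intro h
      exact h0 ((ZMod.intCast_zmod_eq_zero_iff_dvd (n 0) 3).1 h)
    haveI : Fact (Nat.Prime 3) := ⟨Nat.prime_three⟩
    exact (mul_eq_zero.1 h1).resolve_left h2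

end Pool.CU
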