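import Pool.Agent.Work.MP_2b7bfc_cu.Interface

/-! # Block VAL: the place `v ∘ σ` -/

namespace Pool.CU

open scoped NumberField
open IsDedekindDomain

theorem p_VAL : Stmt_VAL := by
  intro E _ _ σ v
  let φ : 𝓞 E ≃+* 𝓞 E := NumberField.RingOfIntegers.mapRingEquiv (σ : E ≃+* E)
  have hφ : ∀ x : 𝓞 E, ((φ x : 𝓞 E) : E) = σ (x : E) := fun x => rfl
  have hne : v.asIdeal.comap (φ : 𝓞 E →+* 𝓞 E) ≠ ⊥ := by
    intro h
    apply v.ne_bot
    rw [eq_bot_iff]
    intro y hy
    have h1 : φ.symm y ∈ v.asIdeal.comap (φ : 𝓞 E →+* 𝓞 E) := by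
      rw [Ideal.mem_comap]
      simpa using hy
    rw [h, Ideal.mem_bot] at h1
    have h2 : φ (φ.symm y) = φ 0 := by rw [h1]
    rw [RingEquiv.apply_symm_apply, map_zero] at h2
    rw [h2]
    exact Ideal.zero_mem _
  let v' : HeightOneSpectrum (𝓞 E) :=
    ⟨v.asIdeal.comap (φ : 𝓞 E →+* 𝓞 E), Ideal.comap_isPrime _ _, hne⟩
  have hpow : ∀ (n : ℕ) (y : 𝓞 E), y ∈ v'.asIdeal ^ n ↔ φ y ∈ v.asIdeal ^ n := by
    intro n y
    have h1 : v'.asIdeal = v.asIdeal.map (φ.symm : 𝓞 E →+* 𝓞 E) := by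
      have := Ideal.map_symm (I := v.asIdeal) φ
      exact this.symm
    have h2 : v'.asIdeal ^ n = (v.asIdeal ^ n).comap (φ : 𝓞 E →+* 𝓞 E) := by
      rw [h1, ← Ideal.map_pow]
      exact Ideal.map_symm (I := v.asIdeal ^ n) φ
    rw [h2, Ideal.mem_comap]
    rfl
  have hint : ∀ y : 𝓞 E, v.intValuation (φ y) = v'.intValuation y := by
    intro y
    by_cases hy : y = 0
    · rw [hy, map_zero, map_zero, map_zero]
    have hφy : φ y ≠ 0 := by
      intro h
      apply hy
      have : φ y = φ 0 := by rw [h, map_zero]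
      exact φ.injective this
    apply le_antisymm
    · rw [v'.intValuation_if_neg hy, v.intValuation_le_pow_iff_mem, ← hpow,
        ← v'.intValuation_le_pow_iff_mem, v'.intValuation_if_neg hy]
    · rw [v.intValuation_if_neg hφy, v'.intValuation_le_pow_iff_mem, hpow,
        ← v.intValuation_le_pow_iff_mem, v.intValuation_if_neg hφy]
  have hval : ∀ x : E, v.valuation E (σ x) = v'.valuation E x := by
    intro x
    obtain ⟨a, b, _, rfl⟩ := IsFractionRing.div_surjective (A := 𝓞 E) x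
    have h1 : σ (algebraMap (𝓞 E) E a) = algebraMap (𝓞 E) E (φ a) := rfl
    have h2 : σ (algebraMap (𝓞 E) E b) = algebraMap (𝓞 E) E (φ b) := rfl
    rw [map_div₀, map_div₀, map_div₀, h1, h2, v.valuation_of_algebraMap,
      v.valuation_of_algebraMap, v'.valuation_of_algebraMap, v'.valuation_of_algebraMap, hint,
      hint]
  refine ⟨v', ?_, ?_⟩
  · intro x y hxy
    have : y = φ x := NumberField.RingOfIntegers.ext (by rw [hφ, hxy])
    rw [this]
    rfl
  · intro x
    have h1 := hval (x : E)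
    have h2 : v.valuation E ((gu σ x : Eˣ) : E) = v'.valuation E (x : E) := h1
    rw [valuation_eq_exp, valuation_eq_exp, WithZero.coe_inj] at h2
    have h3 := Multiplicative.ofAdd.injective h2
    omega

end Pool.CU
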