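import Pool.Agent.Work.MP_2b7bfc_cu.Interface

/-! # THEOREM CUP, block VY -/

set_option autoImplicit false

namespace Pool.CU

open scoped NumberField
open IsDedekindDomain

theorem VY_pow {E : Type} [Field E] [NumberField E] (σ : Gal(E/ℚ)) (x : Eˣ) (h : gu σ x = x)
    (n : ℕ) : gu (σ ^ n) x = x := by
  induction n with
  | zero => rw [pow_zero, gu_one]
  | succ n ih => rw [pow_succ, gu_mul, h, ih]

theorem p_VY (h1 : Stmt_INE) (h2 : Stmt_FRO) (h3 : Stmt_INZ) : Stmt_VY := by
  intro E _ _ _ f x hx hb hs v hv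
  by_cases h : ((133356 : ℕ) : 𝓞 E) ∈ v.asIdeal
  · have hp := v.isPrime
    have hf : ((133356 : ℕ) : 𝓞 E) = 2 * (2 * (3 * 11113)) := by
      push_cast
      norm_num
    rw [hf] at h
    have h23 : (2 : 𝓞 E) ∈ v.asIdeal ∨ (3 : 𝓞 E) ∈ v.asIdeal := by
      rcases hp.mem_or_mem h with h | h
      · exact Or.inl h
      · rcases hp.mem_or_mem h with h | h
        · exact Or.inl h
        · rcases hp.mem_or_mem h with h | h
          · exact Or.inr h
          · exact absurd h hv
    rcases h23 with h | h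
    · have e := (h1 E f f.b v ((h3 E f v).1 h)).2.1 x
      rw [hb, ord_inv] at e
      omega
    · have e := h2 E f (f.b * f.s ^ 3384) v h ((h3 E f v).2.2.2 h) x
      have hs' : gu (f.s ^ 3384) x = x := by
        have h4 := VY_pow (f.s ^ 3) x hs 1128
        rw [← pow_mul] at h4
        exact h4
      rw [gu_mul, hs', hb, ord_inv] at e
      omega
  · exact hx v h

end Pool.CU
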