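import Mathlib

/-!
# Symbols of units and the tame kernel of a number field

The objects of `MP_2b7bfc_nt` in their form in algebraic K-theory.  For a number field `E` and an
integer `m` let `O' = 𝓞 E[1/m]`.

* `K2 E` is Milnor's group `K_2(E) = (Eˣ ⊗ Eˣ) / (a ⊗ b : a + b = 1)`, written additively, and
  `sym a b` is the symbol `{a, b}`.
* `ord v a` is the order of `a` at the finite place `v`, and `tame v` is the tame symbol, with
  values in `Eˣ / U1 v` where `U1 v = 1 + (maximal ideal at v)`; on the `v`-units modulo `U1 v`,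
  where the tame symbol takes its values, this quotient is the multiplicative group of the residue
  field.
* `tameKernel E m` is the intersection of the kernels of the tame symbols at the places which do
  not divide `m`: this is the group `K_2(O')`.
-/

namespace Pool.CU

open scoped TensorProduct NumberField
open IsDedekindDomain

section field

variable (E : Type*) [Field E]

/-- The Steinberg relations. -/
def steinberg : AddSubgroup (Additive Eˣ ⊗[ℤ] Additive Eˣ) :=
  AddSubgroup.closure {t | ∃ a b : Eˣ, (a : E) + (b : E) = 1 ∧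
    t = Additive.ofMul a ⊗ₜ[ℤ] Additive.ofMul b}

/-- Milnor's group `K_2(E)`, written additively. -/
abbrev K2 : Type _ := (Additive Eˣ ⊗[ℤ] Additive Eˣ) ⧸ steinberg E

variable {E}

/-- The symbol `{a, b}`. -/
def sym (a b : Eˣ) : K2 E :=
  QuotientAddGroup.mk' (steinberg E) (Additive.ofMul a ⊗ₜ[ℤ] Additive.ofMul b)

theorem sym_mul_left (a a' b : Eˣ) : sym (a * a') b = sym a b + sym a' b := by
  simp only [sym, ofMul_mul, TensorProduct.add_tmul, map_add]

theorem sym_mul_right (a b b' : Eˣ) : sym a (b * b') = sym a b + sym a b' := by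
  simp only [sym, ofMul_mul, TensorProduct.tmul_add, map_add]

theorem sym_steinberg (a b : Eˣ) (h : (a : E) + (b : E) = 1) : sym a b = 0 := by
  rw [sym, QuotientAddGroup.mk'_apply, QuotientAddGroup.eq_zero_iff]
  exact AddSubgroup.subset_closure ⟨a, b, h, rfl⟩

/-- The symbols generate `K_2(E)`. -/
theorem K2_induction {C : K2 E → Prop} (h0 : C 0) (hs : ∀ a b, C (sym a b))
    (ha : ∀ x y, C x → C y → C (x + y)) (x : K2 E) : C x := by
  obtain ⟨t, rfl⟩ := QuotientAddGroup.mk'_surjective (steinberg E) x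
  induction t using TensorProduct.induction_on with
  | zero => simpa using h0
  | tmul a b => exact hs a.toMul b.toMul
  | add a b h1 h2 => rw [map_add]; exact ha _ _ h1 h2

/-- A bilinear map `f` on `Eˣ` as a homomorphism on the tensor product. -/
def liftT {A : Type*} [AddCommGroup A] (f : Eˣ → Eˣ → A)
    (hl : ∀ a a' b, f (a * a') b = f a b + f a' b)
    (hr : ∀ a b b', f a (b * b') = f a b + f a b') :
    Additive Eˣ ⊗[ℤ] Additive Eˣ →+ A :=
  TensorProduct.liftAddHom
    (AddMonoidHom.mk' (fun a => AddMonoidHom.mk' (fun b => f (Additive.toMul a) (Additive.toMul b))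
        (fun b b' => hr (Additive.toMul a) (Additive.toMul b) (Additive.toMul b')))
      (fun a a' => by
        ext b
        exact hl (Additive.toMul a) (Additive.toMul a') (Additive.toMul b)))
    (fun r m n => by rw [map_zsmul, map_zsmul, AddMonoidHom.zsmul_apply])

theorem liftT_tmul {A : Type*} [AddCommGroup A] (f : Eˣ → Eˣ → A)
    (hl : ∀ a a' b, f (a * a') b = f a b + f a' b)
    (hr : ∀ a b b', f a (b * b') = f a b + f a b') (a b : Eˣ) :
    liftT f hl hr (Additive.ofMul a ⊗ₜ[ℤ] Additive.ofMul b) = f a b := rfl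

/-- A bilinear map `f` on `Eˣ` with `f a b = 0` whenever `a + b = 1` gives a homomorphism on
`K_2(E)`. -/
def K2.lift {A : Type*} [AddCommGroup A] (f : Eˣ → Eˣ → A)
    (hl : ∀ a a' b, f (a * a') b = f a b + f a' b) (hr : ∀ a b b', f a (b * b') = f a b + f a b')
    (hst : ∀ a b : Eˣ, (a : E) + (b : E) = 1 → f a b = 0) : K2 E →+ A :=
  QuotientAddGroup.lift (steinberg E) (liftT f hl hr)
    (by
      rw [steinberg, AddSubgroup.closure_le]
      rintro t ⟨a, b, hab, rfl⟩
      exact hst a b hab)

@[simp] theorem K2.lift_sym {A : Type*} [AddCommGroup A] (f : Eˣ → Eˣ → A)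
    (hl : ∀ a a' b, f (a * a') b = f a b + f a' b) (hr : ∀ a b b', f a (b * b') = f a b + f a b')
    (hst : ∀ a b : Eˣ, (a : E) + (b : E) = 1 → f a b = 0) (a b : Eˣ) :
    K2.lift f hl hr hst (sym a b) = f a b := rfl

/-- The action of a field automorphism on `K_2(E)`: `{a, b}` goes to `{σ a, σ b}`. -/
def act (σ : E ≃+* E) : K2 E →+ K2 E :=
  K2.lift (fun a b => sym (Units.map (σ : E →* E) a) (Units.map (σ : E →* E) b))
    (fun a a' b => by rw [map_mul, sym_mul_left])
    (fun a b b' => by rw [map_mul, sym_mul_right])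
    (fun a b h => sym_steinberg _ _ (by
      have := congrArg σ h
      simpa using this))

@[simp] theorem act_sym (σ : E ≃+* E) (a b : Eˣ) :
    act σ (sym a b) = sym (Units.map (σ : E →* E) a) (Units.map (σ : E →* E) b) := rfl

end field

section numberField

variable {E : Type*} [Field E] [NumberField E]

/-- The order of `a` at the finite place `v`. -/
noncomputable def ord (v : HeightOneSpectrum (𝓞 E)) (a : Eˣ) : ℤ :=
  - Multiplicative.toAdd (v.valuationOfNeZero a)

theorem ord_mul (v : HeightOneSpectrum (𝓞 E)) (a b : Eˣ) : ord v (a * b) = ord v a + ord v b := by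
  simp only [ord, map_mul, toAdd_mul]; ring

/-- The elements `a` of `Eˣ` with `a ≡ 1` modulo the maximal ideal at `v`. -/
noncomputable def U1 (v : HeightOneSpectrum (𝓞 E)) : Subgroup Eˣ where
  carrier := {a | v.valuation E ((a : E) - 1) < 1}
  one_mem' := by simp
  mul_mem' := by
    intro a b ha hb
    simp only [Set.mem_ofPred_eq] at ha hb ⊢
    have hb1 : v.valuation E (b : E) ≤ 1 := by
      have h1 : (b : E) = ((b : E) - 1) + 1 := by ring
      rw [h1]
      exact (Valuation.map_add _ _ _).trans (max_le hb.le (by simp))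
    have : ((a * b : Eˣ) : E) - 1 = ((a : E) - 1) * b + ((b : E) - 1) := by
      push_cast; ring
    rw [this]
    refine Valuation.map_add_lt _ ?_ hb
    rw [map_mul]
    exact mul_lt_one_of_lt_of_le ha hb1
  inv_mem' := by
    intro a ha
    simp only [Set.mem_ofPred_eq] at ha ⊢
    have h1 : v.valuation E (a : E) = 1 := by
      have h2 : (a : E) = 1 + ((a : E) - 1) := by ring
      rw [h2, Valuation.map_one_add_of_lt _ ha]
    have h3 : ((a⁻¹ : Eˣ) : E) - 1 = -(((a : E) - 1) * (a : E)⁻¹) := by
      rw [Units.val_inv_eq_inv_val]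
      field_simp
      ring
    rw [h3, Valuation.map_neg, map_mul, map_inv₀, h1]
    simpa using ha

/-- The tame symbol of `a` and `b` at `v` before reduction:
`(-1) ^ (ord a * ord b) * a ^ (ord b) * b ^ (- ord a)`. -/
noncomputable def tameRep (v : HeightOneSpectrum (𝓞 E)) (a b : Eˣ) : Eˣ :=
  (-1) ^ (ord v a * ord v b) * a ^ (ord v b) * b ^ (-ord v a)

theorem valuation_eq_exp (v : HeightOneSpectrum (𝓞 E)) (a : Eˣ) :
    v.valuation E (a : E) = ((Multiplicative.ofAdd (-ord v a) : Multiplicative ℤ) :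
      WithZero (Multiplicative ℤ)) := by
  rw [← v.valuationOfNeZero_eq, ord, neg_neg, ofAdd_toAdd]

/-- The tame symbol respects the Steinberg relation. -/
theorem tameRep_steinberg (v : HeightOneSpectrum (𝓞 E)) (a b : Eˣ)
    (h : (a : E) + (b : E) = 1) : tameRep v a b ∈ U1 v := by
  have hb : (b : E) = 1 - a := by rw [← h]; ring
  have ha : (a : E) = 1 - b := by rw [← h]; ring
  have lt_iff : ∀ x : Eˣ, v.valuation E (x : E) < 1 ↔ 0 < ord v x := by
    intro x
    rw [valuation_eq_exp, ← WithZero.coe_one, WithZero.coe_lt_coe, ← ofAdd_zero,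
      Multiplicative.ofAdd_lt]
    omega
  have eq_iff : ∀ x : Eˣ, v.valuation E (x : E) = 1 ↔ ord v x = 0 := by
    intro x
    rw [valuation_eq_exp, ← WithZero.coe_one, WithZero.coe_inj, ← ofAdd_zero]
    rw [Multiplicative.ofAdd.injective.eq_iff]
    omega
  rcases lt_trichotomy (ord v a) 0 with h1 | h1 | h1
  · -- a has a pole: then b has the same order and -b/a = 1 - 1/a
    have hinv : v.valuation E ((a⁻¹ : Eˣ) : E) < 1 := by
      rw [lt_iff]
      simp only [ord, map_inv, toAdd_inv] at h1 ⊢
      omega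
    have hu : v.valuation E ((-(b * a⁻¹) : Eˣ) : E) = 1 := by
      have : ((-(b * a⁻¹) : Eˣ) : E) = 1 + -((a⁻¹ : Eˣ) : E) := by
        push_cast
        rw [hb]
        field_simp
        ring
      rw [this, Valuation.map_one_add_of_lt _ (by rwa [Valuation.map_neg])]
    have hord : ord v b = ord v a := by
      have h2 : ord v (-(b * a⁻¹)) = 0 := (eq_iff _).1 hu
      have h3 : ord v (b * a⁻¹) = 0 := by
        have h4 : v.valuation E ((b * a⁻¹ : Eˣ) : E) = 1 := by
          rw [← hu]; push_cast; rw [Valuation.map_neg]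
        exact (eq_iff _).1 h4
      rw [ord_mul] at h3
      have h5 : ord v a⁻¹ = - ord v a := by simp [ord]
      omega
    have hmem : -(b * a⁻¹) ∈ U1 v := by
      change v.valuation E (((-(b * a⁻¹) : Eˣ) : E) - 1) < 1
      have : ((-(b * a⁻¹) : Eˣ) : E) - 1 = -((a⁻¹ : Eˣ) : E) := by
        push_cast
        rw [hb]
        field_simp
        ring
      rw [this, Valuation.map_neg]
      exact hinv
    have : tameRep v a b = (-(b * a⁻¹)) ^ (- ord v a) := by
      rw [tameRep, hord, neg_eq_neg_one_mul (b * a⁻¹), mul_zpow, mul_zpow, inv_zpow, zpow_neg a,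
        inv_inv]
      have hsq : ((-1 : Eˣ) ^ (ord v a * ord v a)) = (-1) ^ (- ord v a) := by
        rcases Int.even_or_odd (ord v a) with he | ho
        · rw [he.mul_right _ |>.neg_one_zpow, he.neg.neg_one_zpow]
        · rw [(ho.mul ho).neg_one_zpow, ho.neg.neg_one_zpow]
      rw [hsq, mul_assoc, mul_comm (a ^ ord v a)]
    rw [this]
    exact (U1 v).zpow_mem hmem _
  · -- a is a unit at v
    rcases lt_trichotomy (ord v b) 0 with h2 | h2 | h2
    · exfalso
      have : v.valuation E (b : E) ≤ 1 := by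
        rw [hb]
        refine (Valuation.map_sub _ _ _).trans (max_le (by simp) ?_)
        exact ((eq_iff a).2 h1).le
      rcases this.lt_or_eq with h3 | h3
      · rw [lt_iff] at h3; omega
      · rw [eq_iff] at h3; omega
    · have : tameRep v a b = 1 := by simp [tameRep, h1, h2]
      rw [this]; exact (U1 v).one_mem
    · have hmem : a ∈ U1 v := by
        change v.valuation E ((a : E) - 1) < 1
        have : (a : E) - 1 = -(b : E) := by rw [ha]; ring
        rw [this, Valuation.map_neg]
        exact (lt_iff b).2 h2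
      have : tameRep v a b = a ^ (ord v b) := by simp [tameRep, h1]
      rw [this]
      exact (U1 v).zpow_mem hmem _
  · -- a has a zero: then b is congruent to 1
    have hmem : b ∈ U1 v := by
      change v.valuation E ((b : E) - 1) < 1
      have : (b : E) - 1 = -(a : E) := by rw [hb]; ring
      rw [this, Valuation.map_neg]
      exact (lt_iff a).2 h1
    have hb0 : ord v b = 0 := by
      rw [← eq_iff]
      have : (b : E) = 1 + -(a : E) := by rw [hb]; ring
      rw [this, Valuation.map_one_add_of_lt _ (by rw [Valuation.map_neg]; exact (lt_iff a).2 h1)]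
    have : tameRep v a b = b ^ (-ord v a) := by simp [tameRep, hb0]
    rw [this]
    exact (U1 v).zpow_mem hmem _

theorem mul_six {G : Type*} [CommGroup G] (s s' a a' b b' : G) :
    s * s' * (a * a') * (b * b') = s * a * b * (s' * a' * b') := by
  rw [mul_mul_mul_comm s s' a a', mul_mul_mul_comm]

/-- The tame symbol at `v`, a homomorphism on `K_2(E)` with values in `Eˣ / U1 v`. -/
noncomputable def tame (v : HeightOneSpectrum (𝓞 E)) : K2 E →+ Additive (Eˣ ⧸ U1 v) :=
  K2.lift (fun a b => Additive.ofMul (QuotientGroup.mk' (U1 v) (tameRep v a b)))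
    (fun a a' b => by
      rw [← ofMul_mul, ← map_mul]
      congr 2
      simp only [tameRep, ord_mul, add_mul, neg_add, zpow_add, mul_zpow]
      exact mul_six _ _ _ _ _ _)
    (fun a b b' => by
      rw [← ofMul_mul, ← map_mul]
      congr 2
      simp only [tameRep, ord_mul, mul_add, zpow_add, mul_zpow]
      exact mul_six _ _ _ _ _ _)
    (fun a b h => by
      rw [ofMul_eq_zero, QuotientGroup.mk'_apply, QuotientGroup.eq_one_iff]
      exact tameRep_steinberg v a b h)

theorem tame_sym (v : HeightOneSpectrum (𝓞 E)) (a b : Eˣ) :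
    tame v (sym a b) = Additive.ofMul (QuotientGroup.mk' (U1 v) (tameRep v a b)) := rfl

variable (E) in
/-- The group `K_2` of the ring `𝓞 E[1/m]`: the elements of `K_2(E)` whose tame symbols at all
places not dividing `m` are trivial. -/
noncomputable def tameKernel (m : ℕ) : AddSubgroup (K2 E) :=
  ⨅ v : {v : HeightOneSpectrum (𝓞 E) // (m : 𝓞 E) ∉ v.asIdeal}, (tame v.1).ker

/-- The units of the ring `𝓞 E[1/m]`. -/
def IsUnitAway (m : ℕ) (a : Eˣ) : Prop :=
  ∀ v : HeightOneSpectrum (𝓞 E), (m : 𝓞 E) ∉ v.asIdeal → ord v a = 0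

/-- The symbols of units of `𝓞 E[1/m]` lie in `K_2(𝓞 E[1/m])`. -/
theorem sym_mem_tameKernel (m : ℕ) {a b : Eˣ} (ha : IsUnitAway m a) (hb : IsUnitAway m b) :
    sym a b ∈ tameKernel E m := by
  rw [tameKernel, AddSubgroup.mem_iInf]
  rintro ⟨v, hv⟩
  rw [AddMonoidHom.mem_ker, tame_sym]
  have : tameRep v a b = 1 := by simp [tameRep, ha v hv, hb v hv]
  rw [this, map_one, ofMul_one]

end numberField

section theta

variable {p : ℕ} [Fact p.Prime] {m : ℕ} [NeZero m]

/-- The ring `ℤ_p[θ]` generated over `ℤ_p` by the values of `θ`. -/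
noncomputable abbrev Zp (θ : DirichletCharacter (AlgebraicClosure ℚ_[p]) m) :
    Subalgebra ℤ_[p] (AlgebraicClosure ℚ_[p]) :=
  Algebra.adjoin ℤ_[p] (Set.range θ)

variable (E : Type*) [Field E] [NumberField E] [IsCyclotomicExtension {m} ℚ E]
  (θ : DirichletCharacter (AlgebraicClosure ℚ_[p]) m)

/-- The value of `θ` at the automorphism `σ` of `E = ℚ(ζ_m)`, where `σ` corresponds to the class
`a` modulo `m` with `σ ζ = ζ ^ a`, as an element of `ℤ_p[θ]`. -/
noncomputable def thetaVal (σ : Gal(E/ℚ)) : Zp θ :=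
  ⟨θ ((IsCyclotomicExtension.Rat.galEquivZMod m E σ : (ZMod m)ˣ) : ZMod m),
    Algebra.subset_adjoin ⟨_, rfl⟩⟩

/-- The relations `θ(σ) ⊗ x = 1 ⊗ σ x` on `ℤ_p[θ] ⊗ K_2(O')`. -/
noncomputable def thetaRel : Submodule (Zp θ) (Zp θ ⊗[ℤ] tameKernel E m) :=
  Submodule.span (Zp θ) {t | ∃ (σ : Gal(E/ℚ)) (x y : tameKernel E m),
    (y : K2 E) = act (σ : E ≃+* E) x ∧ t = thetaVal E θ σ ⊗ₜ[ℤ] x - 1 ⊗ₜ[ℤ] y}

/-- The `θ`-part `M_θ` of `M = K_2(O') ⊗ ℤ_p`, that is the tensor product over `ℤ_p[Gal(E/ℚ)]` of
`M` and `ℤ_p[θ]`. -/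
abbrev ThetaPart : Type _ := (Zp θ ⊗[ℤ] tameKernel E m) ⧸ thetaRel E θ

/-- The image in the `θ`-part of the cup product, that is the submodule generated by the symbols
of two units of `O'`. -/
noncomputable def cupImage : Submodule (Zp θ) (ThetaPart E θ) :=
  Submodule.span (Zp θ) {t | ∃ (a b : Eˣ) (x : tameKernel E m), IsUnitAway m a ∧
    IsUnitAway m b ∧ (x : K2 E) = sym a b ∧ t = (thetaRel E θ).mkQ (1 ⊗ₜ[ℤ] x)}

end theta

section hypotheses

variable {p N : ℕ} [Fact p.Prime] (θ : DirichletCharacter (AlgebraicClosure ℚ_[p]) (N * p))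

/-- `θ ω⁻¹` is trivial on `(ℤ/p)ˣ`, the group of classes modulo `N * p` which are `1` modulo `N`:
the values of `θ` there are the Teichmüller representatives. -/
def TrivialAtP : Prop :=
  ∀ x : ℤ, x ≡ 1 [ZMOD N] → ¬ (p : ℤ) ∣ x →
    ∃ t : ℤ_[p], algebraMap ℤ_[p] (AlgebraicClosure ℚ_[p]) t = θ (x : ZMod (N * p)) ∧
      PadicInt.toZMod t = (x : ZMod p)

/-- The restriction of `θ ω⁻¹` to `(ℤ/N)ˣ`, the group of classes modulo `N * p` which are `1`
modulo `p`, takes the value `1` at `p`. -/
def TrivialFrob : Prop :=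
  ∀ x : ℤ, x ≡ p [ZMOD N] → x ≡ 1 [ZMOD p] → θ (x : ZMod (N * p)) = 1

end hypotheses

end Pool.CU
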