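import Pool.Agent.Work.MP_2b7bfc_cu.Part
import Pool.Agent.Work.MP_2b7bfc_cu.B_LIF

/-! # Passage to the `θ`-part, for the definitions of Part.lean -/

namespace Pool.CU

open scoped TensorProduct NumberField
open IsDedekindDomain

section group

variable {A : Type} [CommRing A] {B : Type} [AddCommGroup B]

/-- The additive map `z ⊗ x ↦ red z * Φ x`. -/
noncomputable def Tens.lift (red : A →+* ZMod 3) (Φ : B →+ ZMod 3) : Tens A B →+ ZMod 3 :=
  LIF_g red Φ

theorem Tens.lift_mk (red : A →+* ZMod 3) (Φ : B →+ ZMod 3) (z : A) (x : B) :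
    Tens.lift red Φ (Tens.mk z x) = red z * Φ x := rfl

theorem Tens.lift_smul (red : A →+* ZMod 3) (Φ : B →+ ZMod 3) (z : A) (t : Tens A B) :
    Tens.lift red Φ (z • t) = red z * Tens.lift red Φ t := LIF_g_smul red Φ z t

theorem Tens.lift_span (red : A →+* ZMod 3) (Φ : B →+ ZMod 3) (S : Set (Tens A B))
    (hS : ∀ t ∈ S, Tens.lift red Φ t = 0) (t : Tens A B) (ht : t ∈ Submodule.span A S) :
    Tens.lift red Φ t = 0 := by
  induction ht using Submodule.span_induction with
  | mem x h => exact hS x h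
  | zero => exact map_zero _
  | add x y _ _ h1 h2 => rw [map_add, h1, h2, add_zero]
  | smul a x _ h => rw [Tens.lift_smul, h, mul_zero]

end group

/-- The projection to `M_θ`. -/
noncomputable def toMTheta {p : ℕ} [Fact p.Prime] {m : ℕ} [NeZero m] (E : Type) [Field E]
    [NumberField E] [IsCyclotomicExtension {m} ℚ E]
    (θ : DirichletCharacter (AlgebraicClosure ℚ_[p]) m) :
    Tens (ValRing θ) (K2O m E) →ₗ[ValRing θ] MTheta E θ :=
  (relations E θ).mkQ

theorem toMTheta_ker {p : ℕ} [Fact p.Prime] {m : ℕ} [NeZero m] (E : Type) [Field E]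
    [NumberField E] [IsCyclotomicExtension {m} ℚ E]
    (θ : DirichletCharacter (AlgebraicClosure ℚ_[p]) m) {t} (h : toMTheta E θ t = 0) :
    t ∈ relations E θ :=
  (Submodule.Quotient.mk_eq_zero _).1 h

/-- The restriction of a homomorphism on `K_2(E)` to `K_2(O')`. -/
noncomputable def resK2O (m : ℕ) (E : Type) [Field E] [NumberField E] (Φ : K2 E →+ ZMod 3) :
    K2O m E →+ ZMod 3 := Φ.comp (tameKernel E m).subtype

theorem resK2O_apply (m : ℕ) (E : Type) [Field E] [NumberField E] (Φ : K2 E →+ ZMod 3)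
    (x : K2O m E) : resK2O m E Φ x = Φ x.val := rfl

theorem not_generated (m : ℕ) [NeZero m] (E : Type) [Field E] [NumberField E]
    [IsCyclotomicExtension {m} ℚ E] {p : ℕ} [Fact p.Prime]
    (θ : DirichletCharacter (AlgebraicClosure ℚ_[p]) m) (red : ValRing θ →+* ZMod 3)
    (Φ : K2 E →+ ZMod 3)
    (h1 : ∀ (σ : Gal(E/ℚ)) (x : K2 E),
      Φ (act (σ : E ≃+* E) x) = red (value θ (galClass m E σ)) * Φ x)
    (h2 : ∀ a b : Eˣ, IsUnitAway m a → IsUnitAway m b → Φ (sym a b) = 0)
    (h3 : ∃ x ∈ tameKernel E m, Φ x ≠ 0) : ¬ GeneratedBySymbols E θ := by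
  obtain ⟨x, hx, hΦ⟩ := h3
  intro htop
  set Φ' : K2O m E →+ ZMod 3 := resK2O m E Φ with hΦ'
  have hrel : ∀ t ∈ relations E θ, Tens.lift red Φ' t = 0 := by
    intro t ht
    refine Tens.lift_span red Φ' _ ?_ t ht
    rintro t ⟨σ, x, y, hy, rfl⟩
    rw [map_sub, Tens.lift_mk, Tens.lift_mk, map_one, one_mul]
    rw [hΦ', resK2O_apply, resK2O_apply, hy, h1, sub_self]
  have hcup : ∀ t, toMTheta E θ t ∈ Submodule.span (ValRing θ)
      {t : MTheta E θ | IsUnitSymbol E θ t} → Tens.lift red Φ' t = 0 := by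
    intro t ht
    set S : Set (Tens (ValRing θ) (K2O m E)) := {t | ∃ (a b : Eˣ) (x : K2O m E),
      IsUnitAway m a ∧ IsUnitAway m b ∧ x.val = sym a b ∧ t = Tens.mk 1 x} with hSdef
    have hS : Submodule.span (ValRing θ) {t : MTheta E θ | IsUnitSymbol E θ t} =
        (Submodule.span (ValRing θ) S).map (toMTheta E θ) := by
      rw [Submodule.map_span]
      congr 1
      ext u
      constructor
      · rintro ⟨a, b, x, ha, hb, hx, rfl⟩
        exact ⟨_, ⟨a, b, x, ha, hb, hx, rfl⟩, rfl⟩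
      · rintro ⟨_, ⟨a, b, x, ha, hb, hx, rfl⟩, rfl⟩
        exact ⟨a, b, x, ha, hb, hx, rfl⟩
    rw [hS, Submodule.mem_map] at ht
    obtain ⟨u, hu, hut⟩ := ht
    have hdiff : u - t ∈ relations E θ := by
      apply toMTheta_ker
      rw [map_sub, hut, sub_self]
    have e1 := hrel _ hdiff
    rw [map_sub, sub_eq_zero] at e1
    rw [← e1]
    refine Tens.lift_span red Φ' _ ?_ u hu
    rintro t ⟨a, b, x, ha, hb, hx, rfl⟩
    rw [Tens.lift_mk, map_one, one_mul]
    rw [hΦ', resK2O_apply, hx, h2 a b ha hb]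
  have htop' : Submodule.span (ValRing θ) {t : MTheta E θ | IsUnitSymbol E θ t} = ⊤ := htop
  have hfin := hcup (Tens.mk 1 (⟨x, hx⟩ : tameKernel E m)) (by rw [htop']; exact Submodule.mem_top)
  rw [Tens.lift_mk, map_one, one_mul] at hfin
  exact hΦ hfin

end Pool.CU
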