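import Pool.Agent.Work.MP_2b7bfc_cu.Skel
import Pool.Agent.Work.MP_2b7bfc_cu.PartProof

/-! # Assembly of THEOREM CUP from the blocks, for the definitions of Part.lean -/

namespace Pool.CU

open scoped NumberField TensorProduct
open IsDedekindDomain

theorem skel_two (hFRA : Stmt_FRA) (hGAL : Stmt_GAL) (hLOC : Stmt_LOC) (hVY : Stmt_VY)
    (hUNI : Stmt_UNI) (hUNB : Stmt_UNB) (hRD1 : Stmt_RD1)
    (hRD2 : Stmt_RD2) (hRED : Stmt_RED) (hUEL : Stmt_UEL) (hPH1 : Stmt_PH1) (hPH2 : Stmt_PH2)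
    (hPH3 : Stmt_PH3) (hCHR : Stmt_CHR) (hPRM : Stmt_PRM) (hRDN : Stmt_RDN)
    (hEQV : Stmt_EQV) :
    ∃ θ : DirichletCharacter (AlgebraicClosure ℚ_[3]) (44452 * 3),
      θ.IsPrimitive ∧ θ.Even ∧ ¬ TrivialFrob θ ∧
      ∀ (E : Type) [Field E] [NumberField E] [IsCyclotomicExtension {44452 * 3} ℚ E],
        ¬ GeneratedBySymbols E θ := by
  obtain ⟨θ, ζ, hζ, hζ1, hθ⟩ := hCHR
  obtain ⟨hprim, heven, hfrob⟩ := hPRM θ ζ hζ hζ1 hθ
  refine ⟨θ, hprim, heven, hfrob, ?_⟩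
  intro E _ _ hE
  have hE' : IsCyclotomicExtension {133356} ℚ E := hE
  obtain ⟨f⟩ := hFRA E
  obtain ⟨L⟩ := hLOC E f
  obtain ⟨red, hred⟩ := hRDN θ ζ hζ hζ1 hθ
  have hinv := skel_inv hVY hUNI hUNB hRD1 hRD2 hRED hUEL E f L
  have hk := hPH1 E f L hinv
  have hact := hPH2 E f L
  have hne := hPH3 E f L
  have heqv := hEQV E f L θ red hred (hGAL E f) hact
  exact not_generated (44452 * 3) E θ red L.Phi heqv hk hne

end Pool.CU
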