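import Pool.Agent.Work.MP_2b7bfc_cu.B_ADJ
import Pool.Agent.Work.MP_2b7bfc_cu.B_CCJ
import Pool.Agent.Work.MP_2b7bfc_cu.B_CHR
import Pool.Agent.Work.MP_2b7bfc_cu.B_CNZ
import Pool.Agent.Work.MP_2b7bfc_cu.B_COM
import Pool.Agent.Work.MP_2b7bfc_cu.B_CUB
import Pool.Agent.Work.MP_2b7bfc_cu.B_DIS
import Pool.Agent.Work.MP_2b7bfc_cu.B_E12
import Pool.Agent.Work.MP_2b7bfc_cu.B_E4
import Pool.Agent.Work.MP_2b7bfc_cu.B_EPS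
import Pool.Agent.Work.MP_2b7bfc_cu.B_EQV
import Pool.Agent.Work.MP_2b7bfc_cu.B_FRA
import Pool.Agent.Work.MP_2b7bfc_cu.B_FRO
import Pool.Agent.Work.MP_2b7bfc_cu.B_FX12
import Pool.Agent.Work.MP_2b7bfc_cu.B_GAD
import Pool.Agent.Work.MP_2b7bfc_cu.B_GAL
import Pool.Agent.Work.MP_2b7bfc_cu.B_GCH
import Pool.Agent.Work.MP_2b7bfc_cu.B_GJA
import Pool.Agent.Work.MP_2b7bfc_cu.B_GSS
import Pool.Agent.Work.MP_2b7bfc_cu.B_IND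
import Pool.Agent.Work.MP_2b7bfc_cu.B_INE
import Pool.Agent.Work.MP_2b7bfc_cu.B_INZ
import Pool.Agent.Work.MP_2b7bfc_cu.B_KRO
import Pool.Agent.Work.MP_2b7bfc_cu.B_LAT
import Pool.Agent.Work.MP_2b7bfc_cu.B_LEL
import Pool.Agent.Work.MP_2b7bfc_cu.B_LOC
import Pool.Agent.Work.MP_2b7bfc_cu.B_LSX
import Pool.Agent.Work.MP_2b7bfc_cu.B_PH1
import Pool.Agent.Work.MP_2b7bfc_cu.B_PH2
import Pool.Agent.Work.MP_2b7bfc_cu.B_PH3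
import Pool.Agent.Work.MP_2b7bfc_cu.B_PHN
import Pool.Agent.Work.MP_2b7bfc_cu.B_PRM
import Pool.Agent.Work.MP_2b7bfc_cu.B_RAM
import Pool.Agent.Work.MP_2b7bfc_cu.B_RD1
import Pool.Agent.Work.MP_2b7bfc_cu.B_RD2
import Pool.Agent.Work.MP_2b7bfc_cu.B_RDN
import Pool.Agent.Work.MP_2b7bfc_cu.B_RED
import Pool.Agent.Work.MP_2b7bfc_cu.B_RES
import Pool.Agent.Work.MP_2b7bfc_cu.B_RNK
import Pool.Agent.Work.MP_2b7bfc_cu.B_ROO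
import Pool.Agent.Work.MP_2b7bfc_cu.B_SGN
import Pool.Agent.Work.MP_2b7bfc_cu.B_TKA
import Pool.Agent.Work.MP_2b7bfc_cu.B_TRB
import Pool.Agent.Work.MP_2b7bfc_cu.B_UEL
import Pool.Agent.Work.MP_2b7bfc_cu.B_UNB
import Pool.Agent.Work.MP_2b7bfc_cu.B_UNI
import Pool.Agent.Work.MP_2b7bfc_cu.B_VAL
import Pool.Agent.Work.MP_2b7bfc_cu.B_VY
import Pool.Agent.Work.MP_2b7bfc_cu.Skel2

/-! # THEOREM CUP: all blocks together -/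

namespace Pool.CU

theorem a_ADJ : Stmt_ADJ := p_ADJ
theorem a_CCJ : Stmt_CCJ := p_CCJ
theorem a_CHR : Stmt_CHR := p_CHR
theorem a_INZ : Stmt_INZ := p_INZ
theorem a_CNZ : Stmt_CNZ := p_CNZ a_INZ
theorem a_COM : Stmt_COM := p_COM
theorem a_CUB : Stmt_CUB := p_CUB
theorem a_GAL : Stmt_GAL := p_GAL
theorem a_DIS : Stmt_DIS := p_DIS a_GAL a_COM
theorem a_RAM : Stmt_RAM := p_RAM
theorem a_VAL : Stmt_VAL := p_VAL
theorem a_INE : Stmt_INE := p_INE a_ADJ a_VAL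
theorem a_LSX : Stmt_LSX := p_LSX a_INE a_INZ a_RAM a_CNZ
theorem a_LEL : Stmt_LEL := p_LEL a_LSX a_RAM
theorem a_E12 : Stmt_E12 := p_E12 a_RAM a_LEL
theorem a_E4 : Stmt_E4 := p_E4 a_RAM a_LEL
theorem a_FX12 : Stmt_FX12 := p_FX12 a_GAL a_COM
theorem a_EPS : Stmt_EPS := p_EPS a_CUB a_FX12 a_COM
theorem a_EQV : Stmt_EQV := p_EQV
theorem a_FRA : Stmt_FRA := p_FRA
theorem a_FRO : Stmt_FRO := p_FRO a_ADJ a_VAL
theorem a_GAD : Stmt_GAD := p_GAD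
theorem a_GCH : Stmt_GCH := p_GCH
theorem a_GJA : Stmt_GJA := p_GJA
theorem a_GSS : Stmt_GSS := p_GSS a_GCH a_GAD a_GJA
theorem a_IND : Stmt_IND := p_IND a_EPS a_COM
theorem a_KRO : Stmt_KRO := p_KRO a_CCJ a_VAL
theorem a_LAT : Stmt_LAT := p_LAT
theorem a_RES : Stmt_RES := p_RES a_ADJ a_INZ
theorem a_LOC : Stmt_LOC := p_LOC a_RAM a_RES a_INZ
theorem a_PH1 : Stmt_PH1 := p_PH1 a_VAL a_COM
theorem a_PH2 : Stmt_PH2 := p_PH2 a_LSX a_COM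
theorem a_TKA : Stmt_TKA := p_TKA
theorem a_PHN : Stmt_PHN := p_PHN a_RAM
theorem a_PH3 : Stmt_PH3 := p_PH3 a_TKA a_PHN
theorem a_PRM : Stmt_PRM := p_PRM
theorem a_RD1 : Stmt_RD1 := p_RD1 a_LSX a_INE a_INZ a_COM a_VAL
theorem a_TRB : Stmt_TRB := p_TRB a_VAL a_GAL a_COM a_LSX
theorem a_RD2 : Stmt_RD2 := p_RD2 a_E4 a_E12 a_TRB a_COM a_VAL
theorem a_RDN : Stmt_RDN := p_RDN
theorem a_RED : Stmt_RED := p_RED a_VAL a_LSX a_COM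
theorem a_SGN : Stmt_SGN := p_SGN a_CCJ
theorem a_RNK : Stmt_RNK := p_RNK a_DIS a_LAT a_SGN a_CUB a_COM a_VAL
theorem a_ROO : Stmt_ROO := p_ROO
theorem a_UEL : Stmt_UEL := p_UEL a_GSS
theorem a_UNB : Stmt_UNB := p_UNB a_KRO a_ROO a_COM a_VAL
theorem a_UNI : Stmt_UNI := p_UNI a_RNK a_IND a_LSX a_COM a_VAL
theorem a_VY : Stmt_VY := p_VY a_INE a_FRO a_INZ

theorem all_main :
    ∃ θ : DirichletCharacter (AlgebraicClosure ℚ_[3]) (44452 * 3),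
      θ.IsPrimitive ∧ θ.Even ∧ ¬ TrivialFrob θ ∧
      ∀ (E : Type) [Field E] [NumberField E] [IsCyclotomicExtension {44452 * 3} ℚ E],
        ¬ GeneratedBySymbols E θ :=
  skel_two a_FRA a_GAL a_LOC a_VY a_UNI a_UNB a_RD1 a_RD2 a_RED a_UEL a_PH1 a_PH2 a_PH3 a_CHR
    a_PRM a_RDN a_EQV

end Pool.CU
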