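import Pool.Agent.Work.MP_2b7bfc_cu.Tools

/-! # Frames of the field of 133356-th roots of unity, for the blocks of THEOREM CUP

`133356 = 12 * 11113`, and `11113` is a prime number which is `1` modulo `12`. -/

namespace Pool.CU

open scoped NumberField
open IsDedekindDomain

/-- A frame of `E = ℚ(ζ)`: a primitive 133356-th root of unity `z` and the automorphisms
`a` (5 modulo 12 and 1 modulo 11113), `b` (7 modulo 12 and 1 modulo 11113) and
`s` (1 modulo 12 and 13 modulo 11113; 13 is a primitive root modulo 11113). -/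
structure Frame (E : Type) [Field E] [NumberField E] where
  z : Eˣ
  hz : IsPrimitiveRoot z 133356
  a : Gal(E/ℚ)
  b : Gal(E/ℚ)
  s : Gal(E/ℚ)
  ha : gu a z = z ^ 44453
  hb : gu b z = z ^ 66679
  hs : gu s z = z ^ 13

variable {E : Type} [Field E] [NumberField E]

namespace Frame

variable (f : Frame E)

/-- A primitive 11113-th root of unity. -/
def zl : Eˣ := f.z ^ 12

/-- A primitive cube root of unity. -/
def w : Eˣ := f.z ^ 44452

/-- A square root of `-1`. -/
def i : Eˣ := f.z ^ 33339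

/-- A square root of `3`. -/
def r : E := ((f.z ^ 11113 : Eˣ) : E) + ((f.z ^ 122243 : Eˣ) : E)

/-- Elements of type `χ_{-4}` in the field of cubes: fixed by `a` and by `s ^ 3`, inverted
by `b`. -/
def T4 (x : Eˣ) : Prop := gu f.a x = x ∧ gu f.b x = x⁻¹ ∧ gu (f.s ^ 3) x = x

/-- Elements of type `χ_{12}`: inverted by `a` and `b`, fixed by `s ^ 3`. -/
def T12 (x : Eˣ) : Prop := gu f.a x = x⁻¹ ∧ gu f.b x = x⁻¹ ∧ gu (f.s ^ 3) x = x

/-- The relative units. -/
def M0 (x : Eˣ) : Prop := f.T12 x ∧ ∀ v : HeightOneSpectrum (𝓞 E), ord v x = 0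

theorem z_pow (m : ℕ) : f.z ^ m = f.z ^ (m % 133356) := by
  conv_lhs => rw [← Nat.div_add_mod m 133356]
  rw [pow_add, pow_mul, f.hz.pow_eq_one, one_pow, one_mul]

theorem z_pow_congr {m k : ℕ} (h : m % 133356 = k % 133356) : f.z ^ m = f.z ^ k := by
  rw [f.z_pow m, h, ← f.z_pow k]

theorem gu_a_pow (m : ℕ) : gu f.a (f.z ^ m) = f.z ^ (44453 * m) := by
  rw [map_pow, f.ha, ← pow_mul]

theorem gu_b_pow (m : ℕ) : gu f.b (f.z ^ m) = f.z ^ (66679 * m) := by
  rw [map_pow, f.hb, ← pow_mul]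

theorem gu_s_pow (m : ℕ) : gu f.s (f.z ^ m) = f.z ^ (13 * m) := by
  rw [map_pow, f.hs, ← pow_mul]

theorem a_zl : gu f.a f.zl = f.zl := by
  rw [zl, f.gu_a_pow]; exact f.z_pow_congr (by norm_num)

theorem b_zl : gu f.b f.zl = f.zl := by
  rw [zl, f.gu_b_pow]; exact f.z_pow_congr (by norm_num)

theorem s_zl : gu f.s f.zl = f.zl ^ 13 := by
  rw [zl, f.gu_s_pow, ← pow_mul]

theorem a_w : gu f.a f.w = f.w ^ 2 := by
  rw [w, f.gu_a_pow, ← pow_mul]; exact f.z_pow_congr (by norm_num)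

theorem b_w : gu f.b f.w = f.w := by
  rw [w, f.gu_b_pow]; exact f.z_pow_congr (by norm_num)

theorem s_w : gu f.s f.w = f.w := by
  rw [w, f.gu_s_pow]; exact f.z_pow_congr (by norm_num)

theorem a_i : gu f.a f.i = f.i := by
  rw [i, f.gu_a_pow]; exact f.z_pow_congr (by norm_num)

theorem b_i : gu f.b f.i = f.i ^ 3 := by
  rw [i, f.gu_b_pow, ← pow_mul]; exact f.z_pow_congr (by norm_num)

theorem s_i : gu f.s f.i = f.i := by
  rw [i, f.gu_s_pow]; exact f.z_pow_congr (by norm_num)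

theorem w_prim : IsPrimitiveRoot f.w 3 :=
  f.hz.pow (by norm_num) (by norm_num)

theorem i_prim : IsPrimitiveRoot f.i 4 :=
  f.hz.pow (by norm_num) (by norm_num)

theorem zl_prim : IsPrimitiveRoot f.zl 11113 :=
  f.hz.pow (by norm_num) (by norm_num)

theorem w_pow_three : (f.w : E) ^ 3 = 1 := by
  have := f.w_prim.pow_eq_one
  have h2 := congrArg (fun u : Eˣ => (u : E)) this
  simpa using h2

theorem w_sq : (f.w : E) ^ 2 + (f.w : E) + 1 = 0 := by
  have h3 := f.w_pow_three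
  have h1 : (f.w : E) ≠ 1 := by
    intro h
    have : f.w = 1 := Units.ext h
    exact f.w_prim.ne_one (by norm_num) this
  have : ((f.w : E) - 1) * ((f.w : E) ^ 2 + (f.w : E) + 1) = 0 := by
    have : ((f.w : E) - 1) * ((f.w : E) ^ 2 + (f.w : E) + 1) = (f.w : E) ^ 3 - 1 := by ring
    rw [this, h3, sub_self]
  rcases mul_eq_zero.1 this with h | h
  · exact absurd (sub_eq_zero.1 h) h1
  · exact h

theorem half : ((f.z ^ 66678 : Eˣ) : E) = -1 := by
  have h2 : ((f.z ^ 66678 : Eˣ) : E) ^ 2 = 1 := by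
    have := f.hz.pow_eq_one
    have h3 := congrArg (fun u : Eˣ => (u : E)) this
    push_cast at h3 ⊢
    rw [← pow_mul]
    simpa using h3
  have h1 : ((f.z ^ 66678 : Eˣ) : E) ≠ 1 := by
    intro h
    have h4 : f.z ^ 66678 = 1 := Units.ext h
    have h5 := (f.hz.pow_eq_one_iff_dvd 66678).1 h4
    norm_num at h5
  rcases mul_self_eq_one_iff.1 ((sq _).symm.trans h2) with h | h
  · exact absurd h h1
  · exact h

theorem i_sq : (f.i : E) ^ 2 = -1 := by
  rw [← f.half, i]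
  push_cast
  rw [← pow_mul]

theorem r_sq : f.r ^ 2 = 3 := by
  have h6 : ((f.z : Eˣ) : E) ^ 66678 = -1 := by
    have := f.half; push_cast at this; exact this
  have hw : ((f.z : Eˣ) : E) ^ 88904 + ((f.z : Eˣ) : E) ^ 44452 + 1 = 0 := by
    have := f.w_sq
    rw [w] at this
    push_cast at this
    rw [← pow_mul] at this
    exact this
  have h7 : ((f.z : Eˣ) : E) ^ 133356 = 1 := by
    have := congrArg (fun u : Eˣ => (u : E)) f.hz.pow_eq_one
    push_cast at this
    exact this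
  have h22 : ((f.z : Eˣ) : E) ^ 22226 = -((f.z : Eˣ) : E) ^ 88904 := by
    have : ((f.z : Eˣ) : E) ^ 88904 = ((f.z : Eˣ) : E) ^ 66678 * ((f.z : Eˣ) : E) ^ 22226 := by
      rw [← pow_add]
    rw [this, h6]; ring
  have h244 : ((f.z : Eˣ) : E) ^ 244486 = -((f.z : Eˣ) : E) ^ 44452 := by
    have : ((f.z : Eˣ) : E) ^ 244486 = ((f.z : Eˣ) : E) ^ 133356 *
      (((f.z : Eˣ) : E) ^ 66678 * ((f.z : Eˣ) : E) ^ 44452) := by
      rw [← pow_add, ← pow_add]
    rw [this, h7, h6]; ring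
  rw [r]
  push_cast
  have : (((f.z : Eˣ) : E) ^ 11113 + ((f.z : Eˣ) : E) ^ 122243) ^ 2 =
      ((f.z : Eˣ) : E) ^ 22226 + 2 * ((f.z : Eˣ) : E) ^ 133356 +
        ((f.z : Eˣ) : E) ^ 244486 := by
    have e1 : ((f.z : Eˣ) : E) ^ 22226 = (((f.z : Eˣ) : E) ^ 11113) ^ 2 := by rw [← pow_mul]
    have e2 : ((f.z : Eˣ) : E) ^ 244486 = (((f.z : Eˣ) : E) ^ 122243) ^ 2 := by rw [← pow_mul]
    have e3 : ((f.z : Eˣ) : E) ^ 133356 = ((f.z : Eˣ) : E) ^ 11113 * ((f.z : Eˣ) : E) ^ 122243 := by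
      rw [← pow_add]
    rw [e1, e2, e3]; ring
  rw [this, h22, h244, h7]
  linear_combination -hw

theorem a_r : f.a f.r = -f.r := by
  have h1 := congrArg (fun u : Eˣ => (u : E)) (f.gu_a_pow 11113)
  have h2 := congrArg (fun u : Eˣ => (u : E)) (f.gu_a_pow 122243)
  simp only [gu_val] at h1 h2
  rw [r, map_add, h1, h2]
  have e1 : f.z ^ (44453 * 11113) = f.z ^ 66678 * f.z ^ 122243 := by
    rw [← pow_add]; exact f.z_pow_congr (by norm_num)
  have e2 : f.z ^ (44453 * 122243) = f.z ^ 66678 * f.z ^ 11113 := by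
    rw [← pow_add]; exact f.z_pow_congr (by norm_num)
  rw [e1, e2, Units.val_mul, Units.val_mul, f.half]
  ring

theorem b_r : f.b f.r = -f.r := by
  have h1 := congrArg (fun u : Eˣ => (u : E)) (f.gu_b_pow 11113)
  have h2 := congrArg (fun u : Eˣ => (u : E)) (f.gu_b_pow 122243)
  simp only [gu_val] at h1 h2
  rw [r, map_add, h1, h2]
  have e1 : f.z ^ (66679 * 11113) = f.z ^ 66678 * f.z ^ 11113 := by
    rw [← pow_add]; exact f.z_pow_congr (by norm_num)
  have e2 : f.z ^ (66679 * 122243) = f.z ^ 66678 * f.z ^ 122243 := by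
    rw [← pow_add]; exact f.z_pow_congr (by norm_num)
  rw [e1, e2, Units.val_mul, Units.val_mul, f.half]
  ring

theorem s_r : f.s f.r = f.r := by
  have h1 := congrArg (fun u : Eˣ => (u : E)) (f.gu_s_pow 11113)
  have h2 := congrArg (fun u : Eˣ => (u : E)) (f.gu_s_pow 122243)
  simp only [gu_val] at h1 h2
  rw [r, map_add, h1, h2]
  have e1 : f.z ^ (13 * 11113) = f.z ^ 11113 := f.z_pow_congr (by norm_num)
  have e2 : f.z ^ (13 * 122243) = f.z ^ 122243 := f.z_pow_congr (by norm_num)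
  rw [e1, e2]

theorem a_iE : f.a (f.i : E) = f.i := by
  have := congrArg (fun u : Eˣ => (u : E)) f.a_i
  simpa [gu_val] using this

theorem s_iE : f.s (f.i : E) = f.i := by
  have := congrArg (fun u : Eˣ => (u : E)) f.s_i
  simpa [gu_val] using this

theorem b_iE : f.b (f.i : E) = -(f.i : E) := by
  have := congrArg (fun u : Eˣ => (u : E)) f.b_i
  simp only [gu_val, Units.val_pow_eq_pow_val] at this
  rw [this, pow_succ, f.i_sq]
  ring

end Frame

end Pool.CU
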