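import Pool.Agent.Work.MP_2b7bfc_cu.Loc

/-!
# Blocks of THEOREM CUP (MP_2b7bfc_nt)

`133356 = 12 * 11113`; `11113` is a prime number, `11112 = 8 * 3 * 463`, `3704 = 11112 / 3`.
`f : Frame E` is a primitive 133356-th root of unity `f.z` together with three automorphisms
`f.a`, `f.b`, `f.s` (file Frame.lean: many small lemmas `Frame.a_w`, `Frame.b_i`, `Frame.s_r`, ...).
`ord v x` is the order of `x : Eˣ` at the place `v` (lemmas in Tools.lean), `gu σ x` the action of
`σ` on `x : Eˣ`, `L : Loc f` a prime `L.P` above 11113 with the cubic residue symbol `L.l`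
(lemmas in Loc.lean; `Loc.l_congr`, `Loc.l_cube`, ... ).

File `B_X.lean`, `import Pool.Agent.Work.MP_2b7bfc_cu.Interface` (or Interface2, Interface3),
`namespace Pool.CU`, `theorem p_X (hA : Stmt_A) ... : Stmt_X`, names of auxiliary lemmas start with `X_`.
-/

namespace Pool.CU

open scoped NumberField
open IsDedekindDomain

/-! ## Part 1: the field `E` and its places -/

/-- VAL. The place `v ∘ σ`. Proof: `v'.asIdeal` = comap of `v.asIdeal` under the ring automorphism
`φ` of `𝓞 E` induced by `σ` (`NumberField.RingOfIntegers.mapRingEquiv`); it is a nonzero prime.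
For the orders: write `x` as a quotient of two elements of `𝓞 E` (IsFractionRing.div_surjective), so
it is enough to treat `x = y ∈ 𝓞 E` nonzero; `ord v y` is the largest `k` with
`y ∈ v.asIdeal ^ k` (HeightOneSpectrum.intValuation_le_pow_iff_mem or similar), and
`y ∈ v'.asIdeal ^ k ↔ φ y ∈ v.asIdeal ^ k` (Ideal.comap of an equivalence commutes with powers:
Ideal.map_pow for the inverse). -/
def Stmt_VAL : Prop :=
  ∀ (E : Type) [Field E] [NumberField E] (σ : Gal(E/ℚ)) (v : HeightOneSpectrum (𝓞 E)),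
    ∃ v' : HeightOneSpectrum (𝓞 E),
      (∀ x y : 𝓞 E, (y : E) = σ (x : E) → (x ∈ v'.asIdeal ↔ y ∈ v.asIdeal)) ∧
      ∀ x : Eˣ, ord v (gu σ x) = ord v' x

/-- FRA. Existence of a frame. Proof: `z` = the unit `zeta 133356 ℚ E`
(IsCyclotomicExtension.zeta_spec, IsPrimitiveRoot.isUnit / coe_units_iff); the automorphisms are
`(IsCyclotomicExtension.Rat.galEquivZMod 133356 E).symm u` for the units `u` = 44453, 66679, 13 of
`ZMod 133356` (ZMod.unitOfCoprime); use `galEquivZMod_apply_of_pow_eq`. -/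
def Stmt_FRA : Prop :=
  ∀ (E : Type) [Field E] [NumberField E] [IsCyclotomicExtension {133356} ℚ E],
    Nonempty (Frame E)

/-- GAL. `a`, `b`, `s` generate the Galois group. Proof: `u = galEquivZMod σ` is a unit modulo
133356 and `σ z = z ^ u`. Choose `k < 11112` with `13 ^ k = u` modulo 11113 (13 is a primitive root:
`orderOf (13 : (ZMod 11113)ˣ) = 11112` by orderOf_eq_of_pow_and_pow_div_prime and
`11112 = 2 ^ 3 * 3 * 463`; then every unit is a power, e.g. by `Nat.card (ZMod 11113)ˣ = 11112` and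
IsCyclic / zpowers = ⊤). Modulo 12 the unit `u` is 1, 5, 7 or 11: take `(i, j)` = (0,0), (1,0),
(0,1), (1,1). Then `44453 ^ i * 66679 ^ j * 13 ^ k` and `u` agree modulo 12
(44453 = 5, 66679 = 7, 13 = 1) and modulo 11113 (44453 = 66679 = 1), hence modulo 133356, and the
two automorphisms agree on `z`, so they are equal (E is generated by `z`:
`IsPrimitiveRoot.autToPow_injective`, or injectivity of galEquivZMod). -/
def Stmt_GAL : Prop :=
  ∀ (E : Type) [Field E] [NumberField E] [IsCyclotomicExtension {133356} ℚ E] (f : Frame E)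
    (σ : Gal(E/ℚ)), ∃ i j k : ℕ, i < 2 ∧ j < 2 ∧ k < 11112 ∧ σ = f.a ^ i * f.b ^ j * f.s ^ k

/-- COM. The Galois group is commutative, `a` and `b` have order dividing 2 and `s` order dividing
11112. Proof: galEquivZMod is an isomorphism onto a commutative group; or compare the values at
`z`: `44453 ^ 2 = 66679 ^ 2 = 13 ^ 11112 = 1` modulo 133356. -/
def Stmt_COM : Prop :=
  ∀ (E : Type) [Field E] [NumberField E] [IsCyclotomicExtension {133356} ℚ E] (f : Frame E),
    (∀ σ τ : Gal(E/ℚ), σ * τ = τ * σ) ∧ f.a * f.a = 1 ∧ f.b * f.b = 1 ∧ f.s ^ 11112 = 1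

/-- ADJ. The ring of integers is generated by `z`. Proof: Mathlib
`IsCyclotomicExtension.Rat.isIntegralClosure_adjoin_singleton` (an integral element lies in
`Algebra.adjoin ℤ {z}`) and `Algebra.adjoin_singleton_eq_range_aeval`. -/
def Stmt_ADJ : Prop :=
  ∀ (E : Type) [Field E] [NumberField E] [IsCyclotomicExtension {133356} ℚ E] (f : Frame E)
    (x : 𝓞 E), ∃ p : Polynomial ℤ, (x : E) = Polynomial.aeval (f.z : E) p

/-- INE (inertia). Suppose `σ z ≡ z` modulo `v`. Then `σ x ≡ x` modulo `v` for all integers `x`;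
`σ` preserves the order at `v`; and `σ x / x ∈ U1 v` if `ord v x = 0`.
Proof: (1) by ADJ `x = p(z)`, `σ x - x = p(σ z) - p(z)` is a multiple of `σ z - z` in `𝓞 E`
(Polynomial.sub_dvd_eval_sub; work in `𝓞 E` with `Z : 𝓞 E`, `(Z : E) = z`, and
`W : 𝓞 E`, `(W : E) = σ z`). (2) Take `v'` from VAL for `σ`. By (1) `x ∈ v' ↔ σ x ∈ v ↔ x ∈ v`,
so `v' = v`. (3) Write `x = X / Y` with `X, Y ∈ 𝓞 E`; it is possible to take `X, Y ∉ v`
(multiply by a suitable element: e.g. choose `Y ∉ v` with `Y x` integral, by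
`HeightOneSpectrum`/localization; for instance `x ∈ E` with `v(x) ≤ 1` lies in the localization of
`𝓞 E` at `v`, see `IsDedekindDomain.HeightOneSpectrum.exists_..` /
`valuation_le_one ↔ exists a b, b ∉ v`); then `σ X / X` and `σ Y / Y` are in `U1 v` by `div_mem_U1`
and (1). -/
def Stmt_INE : Prop :=
  ∀ (E : Type) [Field E] [NumberField E] [IsCyclotomicExtension {133356} ℚ E] (f : Frame E)
    (σ : Gal(E/ℚ)) (v : HeightOneSpectrum (𝓞 E)),
    (∃ y : 𝓞 E, (y : E) = σ (f.z : E) - (f.z : E) ∧ y ∈ v.asIdeal) →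
      (∀ x y : 𝓞 E, (y : E) = σ (x : E) - (x : E) → y ∈ v.asIdeal) ∧
      (∀ x : Eˣ, ord v (gu σ x) = ord v x) ∧
      (∀ x : Eˣ, ord v x = 0 → gu σ x * x⁻¹ ∈ U1 v)

/-- FRO (Frobenius at 3). Suppose `3 ∈ v` and `σ z ≡ z ^ 3` modulo `v`. Then `σ` preserves the order
at `v`. Proof: by ADJ an integer is `x = p(z)` with `p ∈ ℤ[X]`; modulo `v` (characteristic 3,
and `c ^ 3 = c` for integers `c` modulo 3) one has `x ^ 3 = p(z) ^ 3 ≡ p(z ^ 3) ≡ p(σ z) = σ x`
(Polynomial.expand, `ZMod.expand_card`, or induction on `p` with add_pow_char). So `x ∈ v` implies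
`σ x ∈ v`; with `v'` from VAL this says `v ≤ v'`, so `v = v'` (both are maximal ideals). -/
def Stmt_FRO : Prop :=
  ∀ (E : Type) [Field E] [NumberField E] [IsCyclotomicExtension {133356} ℚ E] (f : Frame E)
    (σ : Gal(E/ℚ)) (v : HeightOneSpectrum (𝓞 E)), (3 : 𝓞 E) ∈ v.asIdeal →
    (∃ y : 𝓞 E, (y : E) = σ (f.z : E) - (f.z : E) ^ 3 ∧ y ∈ v.asIdeal) →
      ∀ x : Eˣ, ord v (gu σ x) = ord v x

/-- INZ. (1) `2 ∈ v`: `b z - z = z (z ^ 66678 - 1) = -2 z` (Frame.half).
(2) `3 ∈ v`: `a z - z = z (z ^ 44452 - 1) = z (w - 1)` and `(w - 1) ^ 2 = -3 w`, so `w - 1 ∈ v`.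
(3) `11113 ∈ v`: `1 - zl ∈ v` because the product of the `1 - zl ^ j`, `0 < j < 11113`, is 11113
(Polynomial.eval_one_cyclotomic_prime, `IsPrimitiveRoot`), so one factor is in `v`, and
`1 - zl ^ j` is associated to `1 - zl` (`zl` is a power of `zl ^ j`, so `1 - zl ^ j` divides
`1 - zl`); and `s z - z = z (zl - 1)`.
(4) `3 ∈ v`: `(b * s ^ 3384) z = z ^ (66679 * 13 ^ 3384) = z ^ 44455` (44455 = 66679 * 13 ^ 3384
modulo 133356, check with `ZMod` and `decide`/norm_num `Nat.pow_mod`), and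
`z ^ 44455 - z ^ 3 = z ^ 3 (w - 1)`. -/
def Stmt_INZ : Prop :=
  ∀ (E : Type) [Field E] [NumberField E] [IsCyclotomicExtension {133356} ℚ E] (f : Frame E)
    (v : HeightOneSpectrum (𝓞 E)),
    ((2 : 𝓞 E) ∈ v.asIdeal → ∃ y : 𝓞 E, (y : E) = f.b (f.z : E) - (f.z : E) ∧ y ∈ v.asIdeal) ∧
    ((3 : 𝓞 E) ∈ v.asIdeal → ∃ y : 𝓞 E, (y : E) = f.a (f.z : E) - (f.z : E) ∧ y ∈ v.asIdeal) ∧
    ((11113 : 𝓞 E) ∈ v.asIdeal →
      (∃ y : 𝓞 E, (y : E) = f.s (f.z : E) - (f.z : E) ∧ y ∈ v.asIdeal) ∧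
      ∃ y : 𝓞 E, (y : E) = 1 - (f.zl : E) ∧ y ∈ v.asIdeal) ∧
    ((3 : 𝓞 E) ∈ v.asIdeal → ∃ y : 𝓞 E,
      (y : E) = (f.b * f.s ^ 3384) (f.z : E) - (f.z : E) ^ 3 ∧ y ∈ v.asIdeal)

/-- RAM. At a place `v` above 11113: `1 - zl` is a uniformizer and 11113 has order 11112.
Proof: the product of the `1 - zl ^ j`, `0 < j < 11113`, is 11113 and the factors are associated in
`𝓞 E` (each `1 - zl ^ j` is a unit times `1 - zl`), so `ord v 11113 = 11112 * ord v (1 - zl)`.
And `ord v 11113` is the ramification index of `v` over 11113, which is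
`11112` by Mathlib `IsCyclotomicExtension.Rat.ramificationIdx_eq` (file
NumberTheory/NumberField/Cyclotomic/Ideal.lean) with `133356 = 11113 ^ (0 + 1) * 12`. -/
def Stmt_RAM : Prop :=
  ∀ (E : Type) [Field E] [NumberField E] [IsCyclotomicExtension {133356} ℚ E] (f : Frame E)
    (v : HeightOneSpectrum (𝓞 E)), (11113 : 𝓞 E) ∈ v.asIdeal →
    (∀ x : Eˣ, (x : E) = 1 - (f.zl : E) → ord v x = 1) ∧
    (∀ x : Eˣ, (x : E) = 11113 → ord v x = 11112)

/-- RES. The residue field at a place `v` above 11113 is `ℤ/11113`. Proof: Mathlib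
`IsCyclotomicExtension.Rat.inertiaDeg_eq`: the degree is the order of 11113 modulo 12, which is 1.
Alternative: by ADJ `x = p(z)`; `1 - zl ∈ v` (INZ), and `z` is the product of a power of `zl` and a
power of `z ^ 11113`, a root of unity of order 12; and the integer `c = 13 ^ 926` (an integer
with `c ^ 12 = 1` of order 12 modulo 11113) gives
`prod_(j < 12) (Z - c ^ j) = Z ^ 12 - 1 = 0` modulo `v` for `Z = z ^ 11113`, so `Z` is congruent to
an integer, hence `z` and `x` are. -/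
def Stmt_RES : Prop :=
  ∀ (E : Type) [Field E] [NumberField E] [IsCyclotomicExtension {133356} ℚ E] (f : Frame E)
    (v : HeightOneSpectrum (𝓞 E)), (11113 : 𝓞 E) ∈ v.asIdeal →
    ∀ x : 𝓞 E, ∃ t : ℤ, x - (t : 𝓞 E) ∈ v.asIdeal

/-- LOC. Existence of the local data. Proof: `P` = any prime of `𝓞 E` above 11113 (it exists:
11113 is not a unit of `𝓞 E`; or `Ideal.exists_ideal_liesOver..`). Let `π` be the unit `1 - zl` of
`Eˣ`, `H = U1 P ⊔ zpowers π`. The map from `(ZMod 11113)ˣ` to `Eˣ ⧸ H` sending the class of the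
integer `t` to the class of `t` is well defined (`t ≡ t'` modulo 11113 implies `t / t' ∈ U1 P`),
surjective (given `x`, `x π ^ (-ord x)` has order zero by RAM, it is a quotient `X / Y` of
integers not in `P`, and RES gives integers `t, t'` congruent to them) and injective (if
`t ∈ U1 P * π ^ k` then comparing orders `k = 0` by RAM, so `t - 1` has positive order at `P` and
is an integer of ℤ, so divisible by 11113: `P ∩ ℤ` is the maximal ideal of 11113). Let
`λ : (ZMod 11113)ˣ →* Multiplicative (ZMod 3)` be a surjective homomorphism (the group is cyclic of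
order 11112 = 3 * 3704; its kernel is the group of cubes) and `l` the composition
`Eˣ → Eˣ ⧸ H ≃ (ZMod 11113)ˣ → ZMod 3`. `l w ≠ 0`: the class `t` of `w` has `t ^ 3 = 1` and
`t ≠ 1` (otherwise `w - 1 ∈ P`, so 3 ∈ P, but 3 and 11113 are coprime); if `λ t = 0` then `t = u ^ 3`
is a cube, `u ^ 9 = 1` and `u ^ 11112 = 1`, `gcd(9, 11112) = 3`, so `u ^ 3 = 1 = t`,
contradiction. -/
def Stmt_LOC : Prop :=
  ∀ (E : Type) [Field E] [NumberField E] [IsCyclotomicExtension {133356} ℚ E] (f : Frame E),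
    Nonempty (Loc f)

/-- CNZ. `l (s (1 - zl))` is not zero. Proof: `s π / π = (1 - zl ^ 13) / (1 - zl) =
1 + zl + ... + zl ^ 12` is congruent to 13 modulo `P` (`1 - zl ∈ P`: INZ (3)), so
`s π * π⁻¹ * 13⁻¹ ∈ U1 P` (`div_mem_U1`; `13 ∉ P` because 13 and 11113 are coprime) and
`l (s π) = l π + l 13 = l 13` (`l π = 0` is `l_pi`, `13` denotes the unit with value 13). And
`(w - 7255) (w + 7256) = w ^ 2 + w - 7255 * 7256 = -11113 * 4737` (w_sq) is in `P`, so `w ≡ 7255` or
`w ≡ -7256` modulo `P`; 11113 divides `13 ^ 3704 - 7255` and `13 ^ 7408 + 7256`; so `l w` is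
`3704 * l 13` or `7408 * l 13` (`div_mem_U1`), and `l w ≠ 0` (`l_w`) gives `l 13 ≠ 0`. -/
def Stmt_CNZ : Prop :=
  ∀ (E : Type) [Field E] [NumberField E] [IsCyclotomicExtension {133356} ℚ E] (f : Frame E)
    (L : Loc f) (x : Eˣ), (x : E) = 1 - (f.zl : E) → L.l (gu f.s x) ≠ 0

/-- LSX. `ord L.P` is invariant under `s` and `l (s x) = l x + ord x * c` for a constant `c ≠ 0`.
Proof: the first claim and `s y / y ∈ U1 P` for `ord P y = 0` are INE with INZ (3). Let `π` be the
unit with value `1 - zl`, `ord P π = 1` (RAM), `l π = 0` (l_pi). Put `c = l (s π)`, not zero by CNZ.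
For `x` with `m = ord P x` write `x = π ^ m * y`, `ord P y = 0`; then
`l (s x) = m c + l (s y) = m c + l y = m c + l x`. -/
def Stmt_LSX : Prop :=
  ∀ (E : Type) [Field E] [NumberField E] [IsCyclotomicExtension {133356} ℚ E] (f : Frame E)
    (L : Loc f), (∀ x : Eˣ, ord L.P (gu f.s x) = ord L.P x) ∧
      ∃ c : ZMod 3, c ≠ 0 ∧ ∀ x : Eˣ, L.l (gu f.s x) = L.l x + (ord L.P x : ZMod 3) * c

/-- LEL. `l 11113 = 0`. Proof: 11113 is the product of the `1 - zl ^ j`, `0 < j < 11113`, that is of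
the `s ^ k (1 - zl)`, `0 ≤ k < 11112` (13 is a primitive root). By LSX and induction
`l (s ^ k π) = k * c` with `π = 1 - zl` (`ord P (s ^ k π) = 1`, `l π = 0`). The sum over `k` is
`c * 11112 * 11111 / 2 = 0` in `ZMod 3`. -/
def Stmt_LEL : Prop :=
  ∀ (E : Type) [Field E] [NumberField E] [IsCyclotomicExtension {133356} ℚ E] (f : Frame E)
    (L : Loc f) (x : Eˣ), (x : E) = 11113 → L.l x = 0

/-- E4. The prime elements `77 ± 72 i` above 11113 = 77 ^ 2 + 72 ^ 2. Proof: `e e' = 11113`, so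
`ord P e + ord P e' = 11112` (RAM), both are nonnegative. They are not both positive: otherwise
`e + e' = 154 ∈ P`, but 154 and 11113 are coprime. So (symmetry) say `ord P e' = 0` and
`ord P e = 11112`; then `e ∈ P` and `e' = 154 - e ≡ 154 ≡ 4973 ^ 3` modulo `P` (11113 divides
`154 - 4973 ^ 3`), so `l e' = 0` by `Loc.l_congr`, and `l e = l 11113 - l e' = 0` (LEL). -/
def Stmt_E4 : Prop :=
  ∀ (E : Type) [Field E] [NumberField E] [IsCyclotomicExtension {133356} ℚ E] (f : Frame E)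
    (L : Loc f) (e e' : Eˣ), (e : E) = 77 + 72 * (f.i : E) → (e' : E) = 77 - 72 * (f.i : E) →
    L.l e = 0 ∧ L.l e' = 0 ∧
      ((ord L.P e = 11112 ∧ ord L.P e' = 0) ∨ (ord L.P e = 0 ∧ ord L.P e' = 11112))

/-- E12. The elements `109 ± 16 r`, `109 ^ 2 - 3 * 16 ^ 2 = 11113`. Proof as for E4 with
`218 ≡ 4016 ^ 3` modulo 11113. -/
def Stmt_E12 : Prop :=
  ∀ (E : Type) [Field E] [NumberField E] [IsCyclotomicExtension {133356} ℚ E] (f : Frame E)
    (L : Loc f) (e e' : Eˣ), (e : E) = 109 + 16 * f.r → (e' : E) = 109 - 16 * f.r →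
    L.l e = 0 ∧ L.l e' = 0 ∧
      ((ord L.P e = 11112 ∧ ord L.P e' = 0) ∨ (ord L.P e = 0 ∧ ord L.P e' = 11112))

/-- CCJ. Complex conjugation is `a b s ^ 5556`. Proof: both sides are ring homomorphisms of `x`
(`starRingEnd ℂ` composed with `φ`, and `φ` composed with the automorphism); they agree on `z`:
`φ z` is a root of unity, so its conjugate is its inverse, and
`44453 * 66679 * 13 ^ 5556 = -1` modulo 133356; and `z` generates `E` over ℚ
(e.g. IsCyclotomicExtension / `AlgHom` ext on the power basis, or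
`IsPrimitiveRoot.powerBasis`). -/
def Stmt_CCJ : Prop :=
  ∀ (E : Type) [Field E] [NumberField E] [IsCyclotomicExtension {133356} ℚ E] (f : Frame E)
    (φ : E →+* ℂ) (x : E), (starRingEnd ℂ) (φ x) = φ ((f.a * f.b * f.s ^ 5556) x)

/-- CUB. Cube roots of unity. Proof: `t ^ 3 = 1` gives `t = w ^ j`, `j < 3` (the roots of
`X ^ 3 - 1` in a field with the primitive root `w`: `IsPrimitiveRoot.eq_pow_of_pow_eq_one`).
(1) `(a b) w = w ^ 2` (a_w, b_w), so `w ^ (2 j) = w ^ j` and `j = 0`. (2) `b w = w`, so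
`t = b t = t⁻¹`, `t ^ 2 = 1` and `t = t ^ 3 / t ^ 2 = 1`. -/
def Stmt_CUB : Prop :=
  ∀ (E : Type) [Field E] [NumberField E] (f : Frame E) (t : Eˣ), t ^ 3 = 1 →
    (gu f.a (gu f.b t) = t → t = 1) ∧ (gu f.b t = t⁻¹ → t = 1)

/-- FX12. The fixed field of `a b` and `s` is `ℚ(√3)`. Proof: `y = x + a x` is fixed by `a`, `b`
(`b y = b x + a b x = a (a b x) + x = a x + x`, using `b x = a (a b x)` as `a ^ 2 = 1`), `s`, so
rational (GAL, COM, `IsGalois.mem_bot_iff_fixed`), and `(x - a x) r` too (`a r = b r = -r`). So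
`x = (y + (x - a x)) / 2 = p + q r`. -/
def Stmt_FX12 : Prop :=
  ∀ (E : Type) [Field E] [NumberField E] [IsCyclotomicExtension {133356} ℚ E] (f : Frame E)
    (x : E), f.a (f.b x) = x → f.s x = x → ∃ p q : ℚ, x = (p : E) + (q : E) * f.r

/-- VY. Let `x` be a unit outside 133356 with `b x = x⁻¹`, `s ^ 3 x = x`. Then the order of `x` is
zero at all places not above 11113. Proof: if `133356 ∉ v` this is the hypothesis. Otherwise
(`133356 = 2 ^ 2 * 3 * 11113` is in the prime ideal `v`, and `11113 ∉ v`) `2 ∈ v` or `3 ∈ v`. If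
`2 ∈ v` then `b` preserves the order at `v` (INZ (1), INE), so
`ord v x = ord v (b x) = ord v x⁻¹ = - ord v x` and `ord v x = 0`. If `3 ∈ v`: the automorphism
`b * s ^ 3384` preserves the order at `v` (INZ (4), FRO) and `s ^ 3384 = (s ^ 3) ^ 1128` fixes `x`,
so `ord v x = ord v ((b s ^ 3384) x) = ord v (b x) = - ord v x`. -/
def Stmt_VY : Prop :=
  ∀ (E : Type) [Field E] [NumberField E] [IsCyclotomicExtension {133356} ℚ E] (f : Frame E)
    (x : Eˣ), IsUnitAway 133356 x → gu f.b x = x⁻¹ → gu (f.s ^ 3) x = x →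
    ∀ v : HeightOneSpectrum (𝓞 E), (11113 : 𝓞 E) ∉ v.asIdeal → ord v x = 0

end Pool.CU
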