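import Pool.Agent.Work.MP_2b7bfc_cu.Interface

/-!
# Blocks of THEOREM CUP, part 2: units

Same rules as for Interface.lean: file `B_X.lean`,
`import Pool.Agent.Work.MP_2b7bfc_cu.Interface2`, `namespace Pool.CU`,
`theorem p_X (hA : Stmt_A) ... : Stmt_X`, names of auxiliary lemmas start with `X_`.

`f.T12 x`: `a x = b x = x⁻¹` and `s ^ 3 x = x`; `f.M0 x`: moreover all orders of `x` are zero.
-/

namespace Pool.CU

open scoped NumberField
open IsDedekindDomain

/-- ROO. Proof: a root of unity of `E` has order dividing 133356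
(`IsCyclotomicExtension.Rat.torsionOrder_eq`, 133356 is even, or
`NumberField.Units.dvd_torsionOrder_of_isPrimitiveRoot`), so `t = z ^ k`
(`IsPrimitiveRoot.eq_pow_of_pow_eq_one`). `s ^ 3 t = t`: 133356 divides `2196 k`
(`13 ^ 3 = 2197`), and `2196 = 12 * 183`, 183 prime to 11113, so `k = 11113 m`. `b t = t⁻¹`: 133356
divides `66680 k`, that is 12 divides `66680 m`, so `3 ∣ m` (66680 = 8 modulo 12), `k = 33339 m'`,
`t = i ^ m'` and `t ^ 4 = 1`; so `l t = l (t ^ 4) - 3 l t = 0`. -/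
def Stmt_ROO : Prop :=
  ∀ (E : Type) [Field E] [NumberField E] [IsCyclotomicExtension {133356} ℚ E] (f : Frame E)
    (L : Loc f) (t : Eˣ), (∃ k : ℕ, 0 < k ∧ t ^ k = 1) → gu f.b t = t⁻¹ → gu (f.s ^ 3) t = t →
    L.l t = 0

/-- KRO (Kronecker). Proof: with `c = a b s ^ 5556` (complex conjugation, CCJ) the element
`e = x * (c x)⁻¹` is a unit (VAL: the orders of `c x` are zero too, `exists_unit`), so an algebraic
integer, and for every `φ : E →+* ℂ` `|φ (c x)| = |conj (φ x)| = |φ x|`, so `|φ e| = 1`. Use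
`NumberField.Embeddings.pow_eq_one_of_norm_eq_one`. -/
def Stmt_KRO : Prop :=
  ∀ (E : Type) [Field E] [NumberField E] [IsCyclotomicExtension {133356} ℚ E] (f : Frame E)
    (x : Eˣ), (∀ v : HeightOneSpectrum (𝓞 E), ord v x = 0) →
    ∃ k : ℕ, 0 < k ∧ (x * (gu (f.a * f.b * f.s ^ 5556) x)⁻¹) ^ k = 1

/-- LAT. Four vectors of `ℝ ^ 3` which generate a discrete group are dependent over `ℤ`. Proof: the
span over `ℤ` of the range of `v` is discrete (a subgroup with finitely many elements in the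
closed unit ball: some ball around 0 contains only 0). By
`Real.finrank_eq_int_finrank_of_discrete` the `ℤ`-rank of the range is at most 3, so the four vectors
are not linearly independent over `ℤ` (`finrank_span_eq_card` for a linearly independent family;
`Fintype.not_linearIndependent_iff`). -/
def Stmt_LAT : Prop :=
  ∀ (v : Fin 4 → (Fin 3 → ℝ)),
    {x : Fin 3 → ℝ | x ∈ Submodule.span ℤ (Set.range v) ∧ ∀ i, |x i| ≤ 1}.Finite →
    ∃ n : Fin 4 → ℤ, n ≠ 0 ∧ ∑ j, n j • v j = 0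

/-- DIS. Proof: for every `ψ : E →+* ℂ` one has `ψ = φ ∘ σ` for some `σ` in the Galois group
(`NumberField.InfinitePlace`/`IsGalois`; or: `ψ z` and `φ z` are primitive 133356-th roots of unity, so
`ψ z = (φ z) ^ k` with `k` a unit modulo 133356, take `σ = galEquivZMod.symm k`; `E` is generated
by `z`). By GAL and COM `σ = a ^ i b ^ j s ^ k`, so for `x` of type M0
`ψ x = φ (s ^ k' x) ^ (± 1)`, `k' = k` modulo 3. So all `|ψ x|` are at most `exp 1` and `x` is
an algebraic integer (`exists_unit`): `NumberField.Embeddings.finite_of_norm_le`. -/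
def Stmt_DIS : Prop :=
  ∀ (E : Type) [Field E] [NumberField E] [IsCyclotomicExtension {133356} ℚ E] (f : Frame E)
    (φ : E →+* ℂ), {x : Eˣ | f.M0 x ∧ |Real.log ‖φ (x : E)‖| ≤ 1 ∧
      |Real.log ‖φ (gu f.s x : E)‖| ≤ 1 ∧ |Real.log ‖φ (gu f.s (gu f.s x) : E)‖| ≤ 1}.Finite

/-- SGN. Proof: `φ x` is real: `conj (φ x) = φ ((a b s ^ 5556) x) = φ x` (CCJ;
`s ^ 5556 = (s ^ 3) ^ 1852`, and `a b x = a x⁻¹ = x`). A real number of absolute value 1 is 1 or
-1. -/
def Stmt_SGN : Prop :=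
  ∀ (E : Type) [Field E] [NumberField E] [IsCyclotomicExtension {133356} ℚ E] (f : Frame E)
    (φ : E →+* ℂ) (x : Eˣ), f.T12 x → ‖φ (x : E)‖ = 1 → x = 1 ∨ x = -1

/-- RNK. Four elements of type M0 satisfy a relation modulo cubes. Proof: choose `φ : E →+* ℂ` and
let `Λ x = (log |φ x|, log |φ (s x)|, log |φ (s s x)|)`, a homomorphism to `ℝ ^ 3` on the group of
elements of type M0 (closed under products, inverses and `s`: COM, VAL). With DIS and LAT for
`v j = Λ (g j)` (the elements of the span are the `Λ` of products) there is `n ≠ 0` with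
`Λ (∏ g j ^ n j) = 0`, so by SGN `∏ g j ^ n j = 1` or `-1`. If all `n j` are divisible by 3,
`n j = 3 n' j`, then `h = ∏ g j ^ n' j` has `(± h) ^ 3 = 1` and `b (± h) = (± h)⁻¹`, so
`± h = 1` by CUB (2): so `n'` has the same property, and `∑ |n' j| < ∑ |n j|`. So (induction) we may
assume that some `n j` is not divisible by 3; `y = 1` or `y = -1` (`-1` is of type M0,
`(-1) ^ 3 = -1`). -/
def Stmt_RNK : Prop :=
  ∀ (E : Type) [Field E] [NumberField E] [IsCyclotomicExtension {133356} ℚ E] (f : Frame E)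
    (g : Fin 4 → Eˣ), (∀ j, f.M0 (g j)) →
    ∃ n : Fin 4 → ℤ, (∃ j, ¬ (3 : ℤ) ∣ n j) ∧ ∃ y : Eˣ, f.M0 y ∧ ∏ j, g j ^ n j = y ^ 3

/-- EPS. `2 + √3` is not a cube, in the form: `(2 + r) ^ q = y ^ 3` with `y` of type T12 implies
`3 ∣ q`. Proof: if 3 does not divide `q` then `q = 3 k + 1` or `q = 3 k - 1`, and
`y' = y ε ^ (-k)` or its inverse is of type T12 (`ε` is of type T12: `a r = b r = -r`,
`(2 + r)(2 - r) = 1`) with `y' ^ 3 = ε`. As `s ε = ε`, `t = s y' / y'` has `t ^ 3 = 1` and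
`b t = t⁻¹` (COM), so `t = 1` by CUB (2) and `s y' = y'`. By FX12 (`a b y' = y'`)
`y' = p + q r` with `p, q ∈ ℚ`, and `y' * a y' = 1` gives `p ^ 2 - 3 q ^ 2 = 1`. Comparing the
coefficients of `r` in `(p + q r) ^ 3 = 2 + r` (`r` is irrational: `b r = -r ≠ r`):
`3 p ^ 2 q + 3 q ^ 3 = 1`, so `3 q (1 + 3 q ^ 2) + 3 q ^ 3 = 12 q ^ 3 + 3 q = 1`. With `Q = 6 q`:
`Q ^ 3 + 9 Q = 18`, so `Q` is an integer (rational root theorem, monic polynomial), but
`Q ^ 3 + 9 Q` is at most 10 for `Q ≤ 1` and at least 26 for `Q ≥ 2`. -/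
def Stmt_EPS : Prop :=
  ∀ (E : Type) [Field E] [NumberField E] [IsCyclotomicExtension {133356} ℚ E] (f : Frame E)
    (ε y : Eˣ), (ε : E) = 2 + f.r → f.T12 y → ∀ q : ℤ, ε ^ q = y ^ 3 → (3 : ℤ) ∣ q

/-- IND. If `u` is of type T12 and `u * s u * s ^ 2 u = 2 + √3` then `u, s u, s ^ 2 u` are independent
modulo cubes of elements of type T12. Proof (pure group theory in the group of elements of type
T12, on which `s` acts with `s ^ 3 = 1`; write it additively, `N = 1 + s + s ^ 2`,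
`N u = ε = 2 + r`, EPS says: `q ε` is in `3 T12` only if `3 ∣ q`). Let
`e0 u + e1 s u + e2 s ^ 2 u = 3 y`. Apply `N`: `(e0 + e1 + e2) ε = 3 N y`, so
`3 ∣ e0 + e1 + e2`. So modulo cubes `e2 = -e0 - e1` and the relation becomes
`e0 (u - s ^ 2 u) + e1 (s u - s ^ 2 u) = 3 y'`. Apply `s - 1` and use
`(s - 1)(u - s ^ 2 u) = s u - u - u + s ^ 2 u = N u - 3 u` and
`(s - 1)(s u - s ^ 2 u) = s ^ 2 u - u - s u + s ^ 2 u = 3 s ^ 2 u - N u`: so
`(e0 - e1) ε ∈ 3 T12`, `3 ∣ e0 - e1`. So modulo cubes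
`e0 (u + s u - 2 s ^ 2 u) = e0 N u - 3 e0 s ^ 2 u`, hence `e0 ε ∈ 3 T12` and `3 ∣ e0`; then `3 ∣ e1`
and `3 ∣ e2`. -/
def Stmt_IND : Prop :=
  ∀ (E : Type) [Field E] [NumberField E] [IsCyclotomicExtension {133356} ℚ E] (f : Frame E)
    (u : Eˣ), f.T12 u → (u : E) * (gu f.s u : E) * (gu f.s (gu f.s u) : E) = 2 + f.r →
    ∀ (e0 e1 e2 : ℤ) (y : Eˣ), f.T12 y →
      u ^ e0 * gu f.s u ^ e1 * gu f.s (gu f.s u) ^ e2 = y ^ 3 →
      (3 : ℤ) ∣ e0 ∧ (3 : ℤ) ∣ e1 ∧ (3 : ℤ) ∣ e2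

/-- UNI. If `u` is a relative unit with `N u = 2 + √3` and `l u = 0` then `l x = 0` for all relative
units `x`. Proof: apply RNK to `x, u, s u, s s u` (type M0: COM, VAL):
`x ^ n0 * u ^ n1 * (s u) ^ n2 * (s s u) ^ n3 = y ^ 3`. By LSX `l (s u) = l u = 0`,
`l (s s u) = 0` (orders zero). If `3 ∤ n0` then `n0 * l x = 0` in `ZMod 3`, so `l x = 0`. If
`n0 = 3 m` then `u ^ n1 * (s u) ^ n2 * (s s u) ^ n3 = (y * x ^ (-m)) ^ 3`, so by IND 3 divides `n1`,
`n2`, `n3`, contradiction. -/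
def Stmt_UNI : Prop :=
  ∀ (E : Type) [Field E] [NumberField E] [IsCyclotomicExtension {133356} ℚ E] (f : Frame E)
    (L : Loc f) (u : Eˣ), f.M0 u →
    (u : E) * (gu f.s u : E) * (gu f.s (gu f.s u) : E) = 2 + f.r → L.l u = 0 →
    ∀ x : Eˣ, f.M0 x → L.l x = 0

/-- UNB. Proof: let `c = a b s ^ 5556`; `s ^ 5556 = (s ^ 3) ^ 1852` fixes `x`, so
`c x = a (b x) = (a x)⁻¹` and `x * (c x)⁻¹ = x * a x =: e` is a root of unity by KRO; `b e = e⁻¹`
and `s ^ 3 e = e` (COM), so `l e = 0` by ROO. And `y = x * (a x)⁻¹` is of type M0: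
`a y = y⁻¹` (`a a = 1`, COM), `b y = y⁻¹`, `s ^ 3 y = y`, orders zero (VAL); so `l y = 0` by the
hypothesis. As `x ^ 2 = e * y`, `2 l x = 0`. -/
def Stmt_UNB : Prop :=
  ∀ (E : Type) [Field E] [NumberField E] [IsCyclotomicExtension {133356} ℚ E] (f : Frame E)
    (L : Loc f), (∀ x : Eˣ, f.M0 x → L.l x = 0) →
    ∀ x : Eˣ, (∀ v : HeightOneSpectrum (𝓞 E), ord v x = 0) → gu f.b x = x⁻¹ →
      gu (f.s ^ 3) x = x → L.l x = 0

/-- TRB. Proof: let `v` be a place with `11113 ∈ v` (for the others the order is zero by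
hypothesis). The Galois group acts transitively on the primes of `𝓞 E` above 11113 (Mathlib
`Ideal.exists_map_eq_of_isGalois` or `MulAction.IsPretransitive` on primesOver), so with VAL there
is `σ` with `ord v x = ord L.P (σ x)` for all `x` (choose `σ` with the `v'` of VAL for `σ`, `L.P` equal
to `v`). By GAL `σ = a ^ i b ^ j s ^ k`, and by COM, LSX and `b x = x⁻¹` the order
`ord P (σ x) = ord P (a ^ i b ^ j x)` is `± ord P x` or `± ord P (a x)`, zero. -/
def Stmt_TRB : Prop :=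
  ∀ (E : Type) [Field E] [NumberField E] [IsCyclotomicExtension {133356} ℚ E] (f : Frame E)
    (L : Loc f) (x : Eˣ), gu f.b x = x⁻¹ → gu (f.s ^ 3) x = x →
    (∀ v : HeightOneSpectrum (𝓞 E), (11113 : 𝓞 E) ∉ v.asIdeal → ord v x = 0) →
    ord L.P x = 0 → ord L.P (gu f.a x) = 0 → ∀ v : HeightOneSpectrum (𝓞 E), ord v x = 0

/-- RD1. The order at `P` is divisible by 3. Proof: `y = s x * x⁻¹`. Its order is zero at every
place: at `v ∌ 11113` both orders are zero (for `s x` use VAL: `ord v (s x) = ord v' x`,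
`11113 ∉ v'`), at `v ∋ 11113` by INE and INZ (3). `b y = y⁻¹`, `s ^ 3 y = y` (COM). So `l y = 0` by the
hypothesis; `l y = ord P x * c` with `c ≠ 0` by LSX. -/
def Stmt_RD1 : Prop :=
  ∀ (E : Type) [Field E] [NumberField E] [IsCyclotomicExtension {133356} ℚ E] (f : Frame E)
    (L : Loc f), (∀ x : Eˣ, (∀ v : HeightOneSpectrum (𝓞 E), ord v x = 0) → gu f.b x = x⁻¹ →
      gu (f.s ^ 3) x = x → L.l x = 0) →
    ∀ x : Eˣ, gu f.b x = x⁻¹ → gu (f.s ^ 3) x = x →
    (∀ v : HeightOneSpectrum (𝓞 E), (11113 : 𝓞 E) ∉ v.asIdeal → ord v x = 0) →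
    (3 : ℤ) ∣ ord L.P x

/-- RD2. The residue symbol is trivial. Proof: let `ord P x = 3 m`, and `ord P (a x) = 3 n` by the
last hypothesis applied to `a x` (`b (a x) = a (b x) = (a x)⁻¹`, `s ^ 3 (a x) = a x`: COM; orders
away from 11113: VAL). Let `e = 77 + 72 i`, `e' = 77 - 72 i` (as units of `E`; `e e' = 11113`),
`δ = e / e'` or its inverse, so that `ord P δ = 11112` (E4), `l δ = 0`, `a δ = δ`, `b δ = δ⁻¹`,
`s δ = δ`; and in the same way with `109 ± 16 r` (E12) `δ'` with `ord P δ' = 11112`, `l δ' = 0`,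
`a δ' = b δ' = δ'⁻¹`, `s δ' = δ'`. Put `X = x ^ 7408 * δ ^ (-(m + n)) * δ' ^ (-(m - n))`. Then
`ord P X = 22224 m - 22224 m = 0` and `ord P (a X) = 22224 n - 11112 (m + n) + 11112 (m - n) = 0`,
`b X = X⁻¹`, `s ^ 3 X = X`, and the orders away from 11113 are zero (`e e' = 11113`, both integral).
By TRB all orders of `X` are zero, so `l X = 0` by the first hypothesis, and `7408 * l x = 0`,
`7408 = 1` modulo 3. -/
def Stmt_RD2 : Prop :=
  ∀ (E : Type) [Field E] [NumberField E] [IsCyclotomicExtension {133356} ℚ E] (f : Frame E)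
    (L : Loc f), (∀ x : Eˣ, (∀ v : HeightOneSpectrum (𝓞 E), ord v x = 0) → gu f.b x = x⁻¹ →
      gu (f.s ^ 3) x = x → L.l x = 0) →
    (∀ x : Eˣ, gu f.b x = x⁻¹ → gu (f.s ^ 3) x = x →
      (∀ v : HeightOneSpectrum (𝓞 E), (11113 : 𝓞 E) ∉ v.asIdeal → ord v x = 0) →
      (3 : ℤ) ∣ ord L.P x) →
    ∀ x : Eˣ, gu f.b x = x⁻¹ → gu (f.s ^ 3) x = x →
    (∀ v : HeightOneSpectrum (𝓞 E), (11113 : 𝓞 E) ∉ v.asIdeal → ord v x = 0) → L.l x = 0

/-- RED. The orders at `P` and the residue symbols of `x` and `b x` agree for every unit `x`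
outside 133356. Proof: let `y = x / b x`, so `b y = y⁻¹` (COM: `b ^ 2 = 1`), and
`Y = ∏_{k < 3704} s ^ (3 k) y`, which is fixed by `s ^ 3` (`s ^ 11112 = 1`), `b Y = Y⁻¹` (COM), and is
a unit outside 133356 (`ord v (σ x) = ord v' x`, VAL). By the hypothesis
`3 ∣ ord P Y = 3704 ord P y` (LSX), so `3 ∣ ord P y`; and
`l Y = ∑_k l (s ^ (3 k) y) = ∑_k (l y + 3 k c ord P y) = 3704 l y` in `ZMod 3`, so `l y = 0`. -/
def Stmt_RED : Prop :=
  ∀ (E : Type) [Field E] [NumberField E] [IsCyclotomicExtension {133356} ℚ E] (f : Frame E)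
    (L : Loc f),
    (∀ x : Eˣ, IsUnitAway 133356 x → gu f.b x = x⁻¹ → gu (f.s ^ 3) x = x →
      (3 : ℤ) ∣ ord L.P x ∧ L.l x = 0) →
    ∀ x : Eˣ, IsUnitAway 133356 x → (ord L.P x : ZMod 3) = (ord L.P (gu f.b x) : ZMod 3) ∧
      L.l x = L.l (gu f.b x)

/-- UEL (its proof: Interface4.lean). The relative unit `u = c0 T0 + c1 T1 + c2 T2` with
`c0 = -47000312152226 + 27134755231425 r`, `c1 = -45557514050138 + 26301749171313 r`,
`c2 = -45875057341730 + 26485060953281 r`, where the `T_m` are the cubic periods. -/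
def Stmt_UEL : Prop :=
  ∀ (E : Type) [Field E] [NumberField E] [IsCyclotomicExtension {133356} ℚ E] (f : Frame E),
    ∃ u : Eˣ, f.M0 u ∧ (u : E) * (gu f.s u : E) * (gu f.s (gu f.s u) : E) = 2 + f.r ∧
      ∀ L : Loc f, L.l u = 0

end Pool.CU
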