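import Pool.Agent.Work.MP_2b7bfc_cu.Interface2

/-!
# Blocks of THEOREM CUP, part 3: the functional `Phi`, the character `θ`, the `θ`-part

File `B_X.lean`, `import Pool.Agent.Work.MP_2b7bfc_cu.Interface3`, same rules.
-/

namespace Pool.CU

open scoped NumberField TensorProduct
open IsDedekindDomain

/-- TKA. Proof: let `133356 ∉ v`; the claim is that the tame symbol at `v` of
`(107 ^ 1389 - 1) • {x, y}` is zero (`tameKernel`, `AddSubgroup.mem_iInf`, `tame_sym`). The element
`x = 1 - zl` divides 11113 in `𝓞 E` (the product of the `1 - zl ^ j`, `0 < j < 11113`, is 11113,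
`IsPrimitiveRoot`, Polynomial.eval_one_cyclotomic_prime), so `x ∉ v`, `ord v x = 0`. So
`tameRep v x y = x ^ (ord v y)`. If `ord v y = 0` this is 1. Otherwise `y ∈ v` and
`(1 + 6 r) (1 - 6 r) = -107` is in `v`. In the ring `𝓞 E ⧸ v` of characteristic 107
`x ^ (107 ^ 1389) = 1 - zl ^ (107 ^ 1389) = 1 - zl = x` (`sub_pow_char_pow`; 11113 divides
`107 ^ 1389 - 1`, check with `Nat.pow_mod` or in `ZMod 11113`), so `x ^ (107 ^ 1389 - 1) ∈ U1 v`
(`div_mem_U1` with `x ^ (107 ^ 1389)` and `x`), hence also its power with exponent `ord v y`. (Do not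
evaluate `107 ^ 1389`.) -/
def Stmt_TKA : Prop :=
  ∀ (E : Type) [Field E] [NumberField E] [IsCyclotomicExtension {133356} ℚ E] (f : Frame E)
    (x y : Eˣ), (x : E) = 1 - (f.zl : E) → (y : E) = 1 + 6 * f.r →
    ((107 : ℤ) ^ 1389 - 1) • sym x y ∈ tameKernel E 133356

/-- PHN. Proof: `a x = b x = x` (a_zl, b_zl), `ord P x = 1` (RAM), `l x = 0` (l_pi), and with `y'` the
unit with value `1 - 6 r` `a y = b y = y'`, `a b y = y` (a_r, b_r). So `Phi_sym`, `tau_sym` give
`Phi {x, y} = - l y + l y' + l y' - l y = l y - l y'` in `ZMod 3`. Modulo `P`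
`(r - 3466) (r + 3466) = 3 - 3466 ^ 2` is divisible by 11113, so `r ≡ 3466` or `r ≡ -3466`, so
`{y, y'}` are congruent to `9684` and `1431` in one of the two orders; and as in CNZ `w ≡ 7255` or
`w ≡ 3857` modulo `P` (`(w - 7255) (w - 3857)` is in `P`). 11113 divides
`9684 * 7255 - 1431 * 1254 ^ 3`, `1431 * 7255 ^ 2 - 9684 * 257 ^ 3`,
`9684 * 3857 ^ 2 - 1431 * 1254 ^ 3`, `1431 * 3857 - 9684 * 257 ^ 3`; so (`div_mem_U1`, `l_U1`,
`l_cube`) in the four cases `l y - l y'` is `± l w` or `± 2 l w`, not zero (`l_w`). (It is enough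
to use that the unit with value `1431` times `w ^ j` and the unit with value `9684` times a cube
are congruent modulo `P`.) -/
def Stmt_PHN : Prop :=
  ∀ (E : Type) [Field E] [NumberField E] [IsCyclotomicExtension {133356} ℚ E] (f : Frame E)
    (L : Loc f) (x y : Eˣ), (x : E) = 1 - (f.zl : E) → (y : E) = 1 + 6 * f.r →
    L.Phi (sym x y) ≠ 0

/-- PH3. An element of the tame kernel on which `Phi` does not vanish. Proof: `x`, `y` as in TKA
(both are nonzero: `zl ≠ 1`, and `(1 + 6 r) (1 - 6 r) = -107`); the element is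
`(107 ^ 1389 - 1) • {x, y}`, `Phi` of it is `(107 ^ 1389 - 1) * Phi {x, y} = Phi {x, y}` because
`107 ^ 1389 - 1` is 1 modulo 3, not zero by PHN. -/
def Stmt_PH3 : Prop :=
  ∀ (E : Type) [Field E] [NumberField E] [IsCyclotomicExtension {133356} ℚ E] (f : Frame E)
    (L : Loc f), ∃ x ∈ tameKernel E 133356, L.Phi x ≠ 0

/-- PH1. `Phi` vanishes on symbols of units outside 133356. Proof: `Phi_sym`, `tau_sym`; by the
hypothesis for `x`, `y` (RED) the first and the third term cancel, and by the hypothesis for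
`a x`, `a y` (again units outside 133356 by VAL; `b (a x) = a (b x)` by COM) the second and the
fourth. -/
def Stmt_PH1 : Prop :=
  ∀ (E : Type) [Field E] [NumberField E] [IsCyclotomicExtension {133356} ℚ E] (f : Frame E)
    (L : Loc f),
    (∀ x : Eˣ, IsUnitAway 133356 x → (ord L.P x : ZMod 3) = (ord L.P (gu f.b x) : ZMod 3) ∧
      L.l x = L.l (gu f.b x)) →
    ∀ x y : Eˣ, IsUnitAway 133356 x → IsUnitAway 133356 y → L.Phi (sym x y) = 0

/-- PH2. Equivariance of `Phi`. Proof: enough on symbols (`K2_induction`; both sides are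
additive). `a`: by COM the four terms of `Phi (a x)` are `tau (a x) - tau x - tau (a b x) +
tau (b x)`. `b`: the same. `s`: `tau {s x, s y} = tau {x, y}` by LSX (the terms with `c` cancel), and
`s` commutes with `a` and `b`. -/
def Stmt_PH2 : Prop :=
  ∀ (E : Type) [Field E] [NumberField E] [IsCyclotomicExtension {133356} ℚ E] (f : Frame E)
    (L : Loc f) (x : K2 E), L.Phi (act (f.a : E ≃+* E) x) = - L.Phi x ∧
      L.Phi (act (f.b : E ≃+* E) x) = - L.Phi x ∧ L.Phi (act (f.s : E ≃+* E) x) = L.Phi x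

/-- CHR. The character `θ = ω χ_{-4} ε`. Proof: `133356 = 12 * 11113`. Let `χ12` be the character
modulo 12 with values `1, -1, -1, 1` at `1, 5, 7, 11` and `ε` a character of order 3 modulo 11113
(values in the cube roots of unity of the algebraically closed field of characteristic zero;
13 is a primitive root, `ε 13 = ζ` a primitive cube root of unity), and
`θ x = χ12 (x mod 12) * ε (x mod 11113)` (`DirichletCharacter.changeLevel` of both characters and
the product). Even: `χ12 11 = 1`, `ε (-1) = 1` (`-1` is a cube). The listed properties (the values)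
are the definition. -/
def Stmt_CHR : Prop :=
  ∃ (θ : DirichletCharacter (AlgebraicClosure ℚ_[3]) (44452 * 3))
    (ζ : AlgebraicClosure ℚ_[3]), ζ ^ 3 = 1 ∧ ζ ≠ 1 ∧
    ∀ x k : ℕ, Nat.Coprime x 133356 → x % 11113 = 13 ^ k % 11113 →
      θ ((x : ℕ) : ZMod (44452 * 3)) = (if x % 12 = 1 ∨ x % 12 = 11 then 1 else -1) * ζ ^ k

/-- PRM. `θ` is primitive, even, and `θ ω⁻¹` on `(ℤ/N)ˣ` is not 1 at `p = 3`.
Proof: every `x` prime to 133356 is `13 ^ k` modulo 11113 for some `k` (13 is a primitive root).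
Primitive: if `θ` factors through a proper divisor `d` of 133356 then `d` divides `133356 / q` with
`q ∈ {2, 3, 11113}` (`DirichletCharacter.conductor`, `FactorsThrough`,
`Nat.exists_prime_and_dvd`), so `θ x = 1` for every unit `x ≡ 1` modulo `133356 / q`. But
`x = 66679 = 1 + 133356 / 2` is 7 modulo 12 and 1 modulo 11113: `θ x = -1`; `x = 44453 =
1 + 133356 / 3` is 5 modulo 12 and 1 modulo 11113: `θ x = -1`; `x = 13` is 1 modulo
12: `θ x = ζ ≠ 1`. Even: `-1 ≡ 133355`, which is 11 modulo 12 and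
`11112 = 13 ^ 5556` modulo 11113 with `5556 = 3 * 1852`. Last claim: `x = 44455` is 3 modulo
44452 and 1 modulo 3; it is 7 modulo 12 and `3 = 13 ^ 3384` modulo 11113, so `θ x = -1 ≠ 1`. -/
def Stmt_PRM : Prop :=
  ∀ (θ : DirichletCharacter (AlgebraicClosure ℚ_[3]) (44452 * 3))
    (ζ : AlgebraicClosure ℚ_[3]), ζ ^ 3 = 1 → ζ ≠ 1 →
    (∀ x k : ℕ, Nat.Coprime x 133356 → x % 11113 = 13 ^ k % 11113 →
      θ ((x : ℕ) : ZMod (44452 * 3)) = (if x % 12 = 1 ∨ x % 12 = 11 then 1 else -1) * ζ ^ k) →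
    θ.IsPrimitive ∧ θ.Even ∧ ¬ TrivialFrob θ

/-- RDN. Reduction of `ℤ_3[θ]` modulo its maximal ideal. Proof: `Zp θ` is generated over `ℤ_3` by
the values of `θ`, which are 0 or `± ζ ^ k`, so it is integral over `ℤ_3`. Let `𝔮` be a prime ideal
of `Zp θ` over the maximal ideal `(3)` of `ℤ_3`
(`Ideal.exists_ideal_over_maximal_of_isIntegral` or `Ideal.exists_ideal_comap_eq_of_isIntegral`; the
structure map is injective) and `k` its residue ring, a domain of characteristic 3. The image of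
`ζ` satisfies `(t - 1) ^ 3 = t ^ 3 - 1 = 0`, so it is 1. Hence the image of every element of `Zp θ` in
`k` lies in the image of `ℤ_3` (the preimage is a subalgebra containing the generators:
`Algebra.adjoin_le`), so `k = ℤ_3 / 3 = ZMod 3` (`PadicInt.toZMod`, its kernel is the maximal
ideal), and `red` is the quotient map: the image of `± ζ ^ k` is `± 1`. -/
def Stmt_RDN : Prop :=
  ∀ (θ : DirichletCharacter (AlgebraicClosure ℚ_[3]) (44452 * 3))
    (ζ : AlgebraicClosure ℚ_[3]), ζ ^ 3 = 1 → ζ ≠ 1 →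
    (∀ x k : ℕ, Nat.Coprime x 133356 → x % 11113 = 13 ^ k % 11113 →
      θ ((x : ℕ) : ZMod (44452 * 3)) = (if x % 12 = 1 ∨ x % 12 = 11 then 1 else -1) * ζ ^ k) →
    ∃ red : Zp θ →+* ZMod 3, ∀ (x : ℕ), Nat.Coprime x 133356 → ∀ t : Zp θ,
      (t : AlgebraicClosure ℚ_[3]) = θ ((x : ℕ) : ZMod (44452 * 3)) →
      red t = if x % 12 = 1 ∨ x % 12 = 11 then 1 else -1

/-- LIF. Passage to the `θ`-part. Proof: make `ZMod 3` a `Zp θ`-module through `red`
(`Module.compHom`). The map `z ⊗ x ↦ red z * Φ x` on `Zp θ ⊗[ℤ] tameKernel E m` is `Zp θ`-linear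
(`TensorProduct.AlgebraTensorModule.lift`), it kills the generators
`thetaVal σ ⊗ x - 1 ⊗ y` (`y = act σ x`) of `thetaRel` by the first hypothesis, so it factors through
`ThetaPart E θ`; it kills the generators `1 ⊗ {a, b}` of `cupImage`, and it does not kill
`1 ⊗ x` for the `x` of the last hypothesis. So `cupImage ≠ ⊤`. -/
def Stmt_LIF : Prop :=
  ∀ (m : ℕ) [NeZero m] (E : Type) [Field E] [NumberField E] [IsCyclotomicExtension {m} ℚ E]
    (θ : DirichletCharacter (AlgebraicClosure ℚ_[3]) m) (red : Zp θ →+* ZMod 3)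
    (Φ : K2 E →+ ZMod 3),
    (∀ (σ : Gal(E/ℚ)) (x : K2 E),
      Φ (act (σ : E ≃+* E) x) = red (thetaVal E θ σ) * Φ x) →
    (∀ a b : Eˣ, IsUnitAway m a → IsUnitAway m b → Φ (sym a b) = 0) →
    (∃ x ∈ tameKernel E m, Φ x ≠ 0) → cupImage E θ ≠ ⊤

/-- EQV. The reduction of `thetaVal σ` is the character by which `Phi` transforms. Proof: by GAL
`σ = a ^ i b ^ j s ^ k`, so by PH2 `Phi (σ x) = (-1) ^ (i + j) Phi x` (`act` is
multiplicative: `act (σ τ) = act σ ∘ act τ`, check on symbols). And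
`galEquivZMod (44452 * 3) E σ` is the class of a natural number `t` prime to 133356 with
`σ z = z ^ t` (`galEquivZMod_apply_of_pow_eq`), so `t ≡ 44453 ^ i 66679 ^ j 13 ^ k` modulo 133356,
which modulo 12 is `5 ^ i 7 ^ j`; so the value of `red` at `thetaVal σ` is 1 for
`i = j` (1 or 35 = 11) and -1 otherwise. (`44452 * 3` is 133356: the instance
`IsCyclotomicExtension {133356} ℚ E` is the given one by `by norm_num` / `show`.) -/
def Stmt_EQV : Prop :=
  ∀ (E : Type) [Field E] [NumberField E] [IsCyclotomicExtension {44452 * 3} ℚ E] (f : Frame E)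
    (L : Loc f) (θ : DirichletCharacter (AlgebraicClosure ℚ_[3]) (44452 * 3))
    (red : Zp θ →+* ZMod 3),
    (∀ (x : ℕ), Nat.Coprime x 133356 → ∀ t : Zp θ,
      (t : AlgebraicClosure ℚ_[3]) = θ ((x : ℕ) : ZMod (44452 * 3)) →
      red t = if x % 12 = 1 ∨ x % 12 = 11 then 1 else -1) →
    (∀ (σ : Gal(E/ℚ)), ∃ i j k : ℕ, i < 2 ∧ j < 2 ∧ k < 11112 ∧
      σ = f.a ^ i * f.b ^ j * f.s ^ k) →
    (∀ x : K2 E, L.Phi (act (f.a : E ≃+* E) x) = - L.Phi x ∧
      L.Phi (act (f.b : E ≃+* E) x) = - L.Phi x ∧ L.Phi (act (f.s : E ≃+* E) x) = L.Phi x) →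
    ∀ (σ : Gal(E/ℚ)) (x : K2 E),
      L.Phi (act (σ : E ≃+* E) x) = red (thetaVal E θ σ) * L.Phi x

end Pool.CU
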