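import Pool.Agent.Work.MP_2b7bfc_cu.Interface2

/-!
# Blocks of THEOREM CUP, part 4: cubic Gauss sums for 11113 and the relative unit

Same rules as for Interface.lean: file `B_X.lean`,
`import Pool.Agent.Work.MP_2b7bfc_cu.Interface4`, `namespace Pool.CU`,
`theorem p_X (hA : Stmt_A) ... : Stmt_X`, names of auxiliary lemmas start with `X_`.
Blocks GCH (80 lines), GAD (50 lines), GJA (130 lines), GSS (90 lines, uses GCH GAD GJA),
UEL (250 lines, uses GSS; statement `Stmt_UEL` in Interface2.lean).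

Main point: no class group, no discrete logarithm table. The Gauss sums `G, G'` of the two cubic
characters of `ℤ/11113` satisfy `G G' = 11113`, `G ^ 2 = J G'`, `G' ^ 2 = J' G`, where the Jacobi sum
`J` is `-1` modulo 3 and `J J' = 11113`, hence `J` is `-49 + 72 w` or its conjugate `-121 - 72 w`
(finite check). Everything about `u = (t + ρ G + ρ' G') / 3` follows from these relations.
-/

namespace Pool.CU

open scoped NumberField
open IsDedekindDomain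

instance fact_prime_11113 : Fact (Nat.Prime 11113) := ⟨by norm_num⟩

/-- GCH. A cubic character of `ℤ/11113`. Proof: `MulChar.exists_mulChar_orderOf` with `n = 3`
(3 divides 11112) and `ζ = w` (`f.w_prim` mapped to `E`: `IsPrimitiveRoot.map_of_injective` for
`Units.coeHom` or `IsPrimitiveRoot.coe_units_iff`) gives `χ` of order 3. Values:
`MulChar.exists_apply_eq_pow` gives `χ t = w ^ k` for `t ≠ 0`; `χ 0 = 0`. `χ⁻¹ = χ ^ 2`, so
`χ⁻¹ t = w ^ (2 k)`, and `a w = w ^ 2`, `b w = s w = w` (`f.a_w`, `f.b_w`, `f.s_w` through `gu_val`).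
`χ 13 ≠ 1`: otherwise `χ (13 ^ k) = 1` for all `k`; 13 has order 11112 in `(ZMod 11113)ˣ`
(`orderOf_eq_of_pow_and_pow_div_prime`, `11112 = 2 ^ 3 * 3 * 463`; the powers with
`by decide` / `norm_num` / `Nat.ModEq` / `ZMod.natCast_eq_natCast_iff`), so all units are powers of 13
(`MulChar.eq_iff` or `mem_zpowers` from the cardinality, `ZMod.card_units`), and `χ = 1`. With
`χ 13 = w ^ k`, `k < 3`, `k ≠ 0`, this is the third claim. -/
def Stmt_GCH : Prop :=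
  ∀ (E : Type) [Field E] [NumberField E] (f : Frame E),
    ∃ χ : MulChar (ZMod 11113) E, χ ≠ 1 ∧ χ ^ 3 = 1 ∧
      (χ 13 = (f.w : E) ∨ χ 13 = (f.w : E) ^ 2) ∧
      ∀ t : ZMod 11113, f.a (χ t) = χ⁻¹ t ∧ f.a (χ⁻¹ t) = χ t ∧ f.b (χ t) = χ t ∧
        f.b (χ⁻¹ t) = χ⁻¹ t ∧ f.s (χ t) = χ t ∧ f.s (χ⁻¹ t) = χ⁻¹ t ∧
        IsIntegral ℤ (χ t) ∧ IsIntegral ℤ (χ⁻¹ t)

/-- GAD. The additive character. Proof: `ψ = AddChar.zmodChar 11113 (zl ^ 11113 = 1)`, primitive by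
`AddChar.zmodChar_primitive_of_primitive_root` (`f.zl_prim` mapped to `E`); `ψ t = zl ^ t.val`; `a` and
`b` fix `zl` and `s zl = zl ^ 13` (`f.a_zl`, `f.b_zl`, `f.s_zl` through `gu_val`), and
`ψ (13 * t) = ψ t ^ 13` (`AddChar.map_nsmul_eq_pow`, `13 * t = 13 • t`). Integral: `zl` is a root of unity. -/
def Stmt_GAD : Prop :=
  ∀ (E : Type) [Field E] [NumberField E] (f : Frame E),
    ∃ ψ : AddChar (ZMod 11113) E, ψ.IsPrimitive ∧
      ∀ t : ZMod 11113, f.a (ψ t) = ψ t ∧ f.b (ψ t) = ψ t ∧ f.s (ψ t) = ψ (13 * t) ∧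
        IsIntegral ℤ (ψ t)

/-- GJA. The relations between the Gauss sums `G = gaussSum χ ψ`, `G' = gaussSum χ⁻¹ ψ`. Proof:
(1) `gaussSum_mul_gaussSum_eq_card` gives `G * gaussSum χ⁻¹ ψ⁻¹ = 11113`, and
`gaussSum χ⁻¹ ψ⁻¹ = G'` because `ψ⁻¹ = ψ.mulShift (-1)` and `χ (-1) = 1` (`χ (-1) ^ 3 = 1` and
`χ (-1) ^ 2 = 1`), by `gaussSum_mulShift`. (2) `jacobiSum_mul_nontrivial` with `χ * χ = χ⁻¹ ≠ 1`:
`G' * J = G * G`, `J = jacobiSum χ χ`; in the same way `G * J' = G' * G'`,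
`J' = jacobiSum χ⁻¹ χ⁻¹`. Multiply: `J * J' = 11113`. And `J' = a J`: `J = ∑ x, χ x * χ (1 - x)`.
(3) `exists_jacobiSum_eq_neg_one_add` with `n = 3`, `μ = w`: `J = -1 + z (w - 1) ^ 2` with
`z ∈ Algebra.adjoin ℤ {w}`, that is `z = m + n w` with integers `m, n`
(`Algebra.adjoin_induction`, `w ^ 2 = -w - 1`), and `(w - 1) ^ 2 = -3 w`; so
`J = x + y w` with `x = 3 n - 1`, `y = 3 (n - m)`. `J' = a J = x + y w ^ 2` (`a w = w ^ 2`),
so `J J' = x ^ 2 - x y + y ^ 2 = 11113`. (4) Then `(2 x - y) ^ 2 + 3 y ^ 2 = 44452` and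
`(2 y - x) ^ 2 + 3 x ^ 2 = 44452`, so `|x|, |y| ≤ 121`, and a finite check (x = 2 modulo 3,
y = 0 modulo 3, so 81 * 81 pairs; `decide +kernel`, or `interval_cases` on y and then x) leaves
`(x, y) = (-49, 72)` or `(-121, -72)`. -/
def Stmt_GJA : Prop :=
  ∀ (E : Type) [Field E] [NumberField E] (f : Frame E) (χ : MulChar (ZMod 11113) E)
    (ψ : AddChar (ZMod 11113) E), χ ≠ 1 → χ ^ 3 = 1 → ψ.IsPrimitive →
    (∀ t : ZMod 11113, f.a (χ t) = χ⁻¹ t) →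
    gaussSum χ ψ * gaussSum χ⁻¹ ψ = 11113 ∧
    ∃ J J' : E, gaussSum χ ψ ^ 2 = J * gaussSum χ⁻¹ ψ ∧ gaussSum χ⁻¹ ψ ^ 2 = J' * gaussSum χ ψ ∧
      ((J = -49 + 72 * (f.w : E) ∧ J' = -121 - 72 * (f.w : E)) ∨
        (J = -121 - 72 * (f.w : E) ∧ J' = -49 + 72 * (f.w : E)))

/-- GSS. The Gauss sums as elements of `E`. Proof: `χ` from GCH, `ψ` from GAD. If GJA gives the first
case put `G = gaussSum χ ψ`, `G' = gaussSum χ⁻¹ ψ`, otherwise `G = gaussSum χ⁻¹ ψ` and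
`G' = gaussSum χ ψ`. As `gaussSum χ ψ = ∑ t, χ t * ψ t` (unfold, `map_sum`, `map_mul`): `a` interchanges
the two sums, `b` fixes them; `s (gaussSum χ ψ) = ∑ t, χ t * ψ (13 t) = gaussSum χ (ψ.mulShift 13)`
and `χ 13 * gaussSum χ (ψ.mulShift 13) = gaussSum χ ψ` (`gaussSum_mulShift` with the unit 13), the same for
`χ⁻¹` (`χ⁻¹ 13 = (χ 13)⁻¹`, which is `w ^ 2` or `w`). Sums of products of integral elements are
integral. -/
def Stmt_GSS : Prop :=
  ∀ (E : Type) [Field E] [NumberField E] (f : Frame E),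
    ∃ G G' : E, IsIntegral ℤ G ∧ IsIntegral ℤ G' ∧ G * G' = 11113 ∧
      G ^ 2 = (-49 + 72 * (f.w : E)) * G' ∧ G' ^ 2 = (-121 - 72 * (f.w : E)) * G ∧
      f.a G = G' ∧ f.a G' = G ∧ f.b G = G ∧ f.b G' = G' ∧
      ((f.s G = (f.w : E) * G ∧ f.s G' = (f.w : E) ^ 2 * G') ∨
        (f.s G = (f.w : E) ^ 2 * G ∧ f.s G' = (f.w : E) * G'))

/-
UEL (statement `Stmt_UEL` in Interface2.lean). Proof, from GSS. Put
  t  = 138432883544094 - 79921565356019 r,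
  ρ  = -1442798102088 + 833006060112 r + (-317543291592 + 183311781968 r) w,
  ρ' = -1125254810496 + 649694278144 r + (317543291592 - 183311781968 r) w,
and t~, ρ~, ρ'~ the same with r replaced by -r (w fixed); u = (t + ρ G + ρ' G') / 3,
u~ = (t~ + ρ~ G + ρ'~ G') / 3.
(1) u u~ = 1: t t~ + 11113 (ρ ρ'~ + ρ' ρ~) = 9, t ρ~ + t~ ρ + ρ' ρ'~ J' = 0,
    t ρ'~ + t~ ρ' + ρ ρ~ J = 0.
(2) b u = u~ (b w = w, b r = -r), a u = u~ (a w = w ^ 2, a r = -r, a exchanges G and G', and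
    a ρ = ρ'~, a ρ' = ρ~). s ^ 3 fixes G, G' (w ^ 3 = 1), r and w, so s ^ 3 u = u.
(3) u * s u * s s u = (t ^ 3 + 11113 J ρ ^ 3 + 11113 J' ρ' ^ 3 - 3 * 11113 t ρ ρ') / 27 = 2 + r,
    with G ^ 3 = 11113 J, G' ^ 3 = 11113 J'.
(4) u ^ 3 - t u ^ 2 + e u - (2 + r) = 0 with e = 516630463156245 + 298276014256132 r
    (e = (t ^ 2 - 11113 ρ ρ') / 3): so u is integral, and u~ = b u too; so all orders of u are 0.
(5) 11113 ∈ P: G ^ 3 = 11113 J, so G, G' ∈ P and 3 u - t ∈ P; (r - 3466)(r + 3466) = -11113 * 1081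
    so r = 3466 or r = -3466 modulo P, and u = 5551 ^ 3 or u = 309 ^ 3 modulo P. Use Loc.l_congr.
-/

end Pool.CU
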