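import Pool.Agent.Work.MP_2b7bfc_cu.Frame

/-! # The cubic residue symbol at a prime above 11113, and the functional `Phi` on `K_2` -/

namespace Pool.CU

open scoped NumberField
open IsDedekindDomain

variable {E : Type} [Field E] [NumberField E]

/-- A prime `P` above 11113 and a homomorphism `l` from `Eˣ` to `ℤ/3` which is trivial on
`1 + P` and on `1 - ζ_11113` (so it is a logarithm of the cubic residue symbol modulo `P` of the
leading coefficient) and not trivial on the cube root of unity `w`. -/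
structure Loc (f : Frame E) where
  P : HeightOneSpectrum (𝓞 E)
  hP : (11113 : 𝓞 E) ∈ P.asIdeal
  l : Eˣ → ZMod 3
  l_mul : ∀ x y, l (x * y) = l x + l y
  l_U1 : ∀ x ∈ U1 P, l x = 0
  l_pi : ∀ x : Eˣ, (x : E) = 1 - (f.zl : E) → l x = 0
  l_w : l f.w ≠ 0

namespace Loc

variable {f : Frame E} (L : Loc f)

theorem l_one : L.l 1 = 0 := by
  have := L.l_mul 1 1
  simpa using this

theorem l_inv (x : Eˣ) : L.l x⁻¹ = - L.l x := by
  have := L.l_mul x x⁻¹
  rw [mul_inv_cancel, L.l_one] at this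
  linear_combination -this

/-- `l` as a homomorphism. -/
def lHom : Eˣ →* Multiplicative (ZMod 3) :=
  MonoidHom.mk' (fun x => Multiplicative.ofAdd (L.l x)) (fun x y => by rw [L.l_mul]; rfl)

theorem l_zpow (x : Eˣ) (k : ℤ) : L.l (x ^ k) = k * L.l x := by
  have h := map_zpow L.lHom x k
  have h2 : L.l (x ^ k) = k • L.l x := h
  rw [h2, zsmul_eq_mul]

theorem l_pow (x : Eˣ) (k : ℕ) : L.l (x ^ k) = k * L.l x := by
  have := L.l_zpow x (k : ℤ)
  simpa using this

theorem l_neg_one : L.l (-1) = 0 := by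
  have h := L.l_mul (-1) (-1)
  rw [neg_mul_neg, one_mul, L.l_one] at h
  have h2 : ∀ t : ZMod 3, 0 = t + t → t = 0 := by decide
  exact h2 _ h

theorem l_neg (x : Eˣ) : L.l (-x) = L.l x := by
  rw [neg_eq_neg_one_mul, L.l_mul, L.l_neg_one, zero_add]

theorem l_cube (x : Eˣ) : L.l (x ^ 3) = 0 := by
  rw [L.l_pow]
  have : ((3 : ℕ) : ZMod 3) = 0 := by decide
  rw [this, zero_mul]

/-- If `x` is congruent to the cube of an integer prime to 11113 then it is a cubic residue. -/
theorem l_congr (x : Eˣ) (X : 𝓞 E) (hX : (x : E) = X) (t : ℤ) (ht : ¬ (11113 : ℤ) ∣ t)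
    (h : X - ((t ^ 3 : ℤ) : 𝓞 E) ∈ L.P.asIdeal) : ord L.P x = 0 ∧ L.l x = 0 := by
  have htP : ((t : ℤ) : 𝓞 E) ∉ L.P.asIdeal := by
    intro h1
    have hp : Prime ((11113 : ℕ) : ℤ) := Nat.prime_iff_prime_int.1 (by norm_num)
    have hcop : IsCoprime ((11113 : ℕ) : ℤ) t := (Prime.coprime_iff_not_dvd hp).2 (by
      intro h2
      exact ht (by exact_mod_cast h2))
    obtain ⟨u, v, huv⟩ := hcop
    apply L.P.isPrime.ne_top
    rw [Ideal.eq_top_iff_one]
    have h3 : (1 : 𝓞 E) = (u : 𝓞 E) * 11113 + (v : 𝓞 E) * (t : 𝓞 E) := by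
      have := congrArg (fun k : ℤ => (k : 𝓞 E)) huv
      push_cast at this
      exact this.symm
    rw [h3]
    exact L.P.asIdeal.add_mem (L.P.asIdeal.mul_mem_left _ L.hP) (L.P.asIdeal.mul_mem_left _ h1)
  have ht0 : (t : E) ≠ 0 := by
    intro h0
    apply htP
    have : ((t : ℤ) : 𝓞 E) = 0 := by
      apply NumberField.RingOfIntegers.ext
      push_cast
      exact_mod_cast h0
    rw [this]
    exact L.P.asIdeal.zero_mem
  set y : Eˣ := Units.mk0 (t : E) ht0 with hy
  have hyv : ((y ^ 3 : Eˣ) : E) = (((t ^ 3 : ℤ) : 𝓞 E) : E) := by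
    rw [Units.val_pow_eq_pow_val, hy, Units.val_mk0]
    push_cast
    rfl
  have hnot : ((t ^ 3 : ℤ) : 𝓞 E) ∉ L.P.asIdeal := by
    push_cast
    intro h1
    exact htP (L.P.isPrime.mem_of_pow_mem _ h1)
  have h1 := div_mem_U1 L.P hX hyv h hnot
  have h2 := L.l_U1 _ h1
  have h3 := ord_of_mem_U1 L.P h1
  rw [L.l_mul, L.l_inv, L.l_cube] at h2
  rw [ord_mul, ord_inv, (ord_eq_zero_iff L.P hyv).2 hnot] at h3
  constructor
  · omega
  · linear_combination h2

/-- The tame symbol at `P` composed with the cubic residue symbol. -/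
noncomputable def tauFun (x y : Eˣ) : ZMod 3 :=
  (ord L.P y : ZMod 3) * L.l x - (ord L.P x : ZMod 3) * L.l y

theorem tauFun_eq (x y : Eˣ) : L.tauFun x y = L.l (tameRep L.P x y) := by
  rw [tameRep, L.l_mul, L.l_mul, L.l_zpow, L.l_zpow, L.l_zpow, L.l_neg_one, tauFun]
  push_cast
  ring

/-- `tau {x, y} = ord y * l x - ord x * l y`, a homomorphism on `K_2(E)`. -/
noncomputable def tau : K2 E →+ ZMod 3 :=
  K2.lift (fun x y => L.tauFun x y)
    (fun x x' y => by simp only [tauFun, ord_mul, L.l_mul]; push_cast; ring)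
    (fun x y y' => by simp only [tauFun, ord_mul, L.l_mul]; push_cast; ring)
    (fun x y h => by
      rw [tauFun_eq]
      exact L.l_U1 _ (tameRep_steinberg L.P x y h))

theorem tau_sym (x y : Eˣ) :
    L.tau (sym x y) = (ord L.P y : ZMod 3) * L.l x - (ord L.P x : ZMod 3) * L.l y := rfl

/-- The functional `Phi x = tau x - tau (a x) - tau (b x) + tau (a b x)`. -/
noncomputable def Phi : K2 E →+ ZMod 3 :=
  L.tau - L.tau.comp (act (f.a : E ≃+* E)) - L.tau.comp (act (f.b : E ≃+* E)) +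
    L.tau.comp (act ((f.a * f.b : Gal(E/ℚ)) : E ≃+* E))

theorem Phi_sym (x y : Eˣ) :
    L.Phi (sym x y) = L.tau (sym x y) - L.tau (sym (gu f.a x) (gu f.a y)) -
      L.tau (sym (gu f.b x) (gu f.b y)) +
      L.tau (sym (gu f.a (gu f.b x)) (gu f.a (gu f.b y))) := rfl

end Loc

end Pool.CU
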