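import Pool.Agent.Work.MP_2b7bfc_cu.Defs

/-!
# The `θ`-part of `K_2(O') ⊗ ℤ_p` and the submodule generated by the symbols of units

The same objects as at the end of Defs.lean, cut into small definitions.
-/

namespace Pool.CU

open scoped TensorProduct NumberField
open IsDedekindDomain

section values

variable {p : ℕ} [Fact p.Prime] {m : ℕ}

/-- The ring `ℤ_p[θ]` generated over `ℤ_p` by the values of `θ`. -/
def ValRing (θ : DirichletCharacter (AlgebraicClosure ℚ_[p]) m) : Type :=
  Algebra.adjoin ℤ_[p] (Set.range θ)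

noncomputable instance ValRing.commRing (θ : DirichletCharacter (AlgebraicClosure ℚ_[p]) m) :
    CommRing (ValRing θ) :=
  Subalgebra.toCommRing (Algebra.adjoin ℤ_[p] (Set.range θ))

/-- The value `θ(a)` as an element of `ℤ_p[θ]`. -/
noncomputable def value (θ : DirichletCharacter (AlgebraicClosure ℚ_[p]) m) (a : ZMod m) :
    ValRing θ :=
  ⟨θ a, Algebra.subset_adjoin ⟨a, rfl⟩⟩

end values

section group

variable {A : Type} [CommRing A] {B : Type} [AddCommGroup B]

variable (A B) in
/-- The `A`-module `A ⊗ B` for an abelian group `B`. -/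
def Tens : Type := A ⊗[ℤ] B

noncomputable instance Tens.addCommGroup : AddCommGroup (Tens A B) :=
  TensorProduct.addCommGroup

noncomputable instance Tens.module : Module A (Tens A B) :=
  TensorProduct.leftModule

/-- The element `z ⊗ x` of `A ⊗ B`. -/
def Tens.mk (z : A) (x : B) : Tens A B := z ⊗ₜ[ℤ] x

end group

section kernel

variable (m : ℕ) (E : Type) [Field E] [NumberField E]

/-- The group `K_2(O')`, `O' = 𝓞 E[1/m]`, as a type. -/
def K2O : Type := tameKernel E m

noncomputable instance K2O.addCommGroup : AddCommGroup (K2O m E) :=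
  AddSubgroup.toAddCommGroup (tameKernel E m)

variable {m E} in
/-- The inclusion of `K_2(O')` in `K_2(E)`. -/
def K2O.val (x : K2O m E) : K2 E := Subtype.val x

/-- The class `a` modulo `m` with `σ ζ = ζ ^ a` for the `m`-th roots of unity `ζ`. -/
noncomputable def galClass [NeZero m] [IsCyclotomicExtension {m} ℚ E] (σ : Gal(E/ℚ)) : ZMod m :=
  (IsCyclotomicExtension.Rat.galEquivZMod m E σ : (ZMod m)ˣ)

end kernel

section theta

variable {p : ℕ} [Fact p.Prime] {m : ℕ} [NeZero m]
variable (E : Type) [Field E] [NumberField E] [IsCyclotomicExtension {m} ℚ E]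
  (θ : DirichletCharacter (AlgebraicClosure ℚ_[p]) m)

/-- The elements `θ(σ) ⊗ x - 1 ⊗ σ x` of `ℤ_p[θ] ⊗ K_2(O')`. -/
def IsRelation (t : Tens (ValRing θ) (K2O m E)) : Prop :=
  ∃ (σ : Gal(E/ℚ)) (x y : K2O m E), y.val = act (σ : E ≃+* E) x.val ∧
    t = Tens.mk (value θ (galClass m E σ)) x - Tens.mk 1 y

/-- The submodule generated by the elements `θ(σ) ⊗ x - 1 ⊗ σ x`. -/
noncomputable def relations : Submodule (ValRing θ) (Tens (ValRing θ) (K2O m E)) :=
  Submodule.span (ValRing θ) {t | IsRelation E θ t}

/-- The `θ`-part `M_θ` of `M = K_2(O') ⊗ ℤ_p`, that is the tensor product over `ℤ_p[Gal(E/ℚ)]` of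
`M` and `ℤ_p[θ]`. -/
def MTheta : Type := Tens (ValRing θ) (K2O m E) ⧸ relations E θ

noncomputable instance MTheta.addCommGroup : AddCommGroup (MTheta E θ) :=
  Submodule.Quotient.addCommGroup (relations E θ)

noncomputable instance MTheta.module : Module (ValRing θ) (MTheta E θ) :=
  Submodule.Quotient.module (relations E θ)

/-- The image in `M_θ` of an element `x` of `K_2(O')`. -/
noncomputable def proj (x : K2O m E) : MTheta E θ :=
  Submodule.Quotient.mk (p := relations E θ) (Tens.mk 1 x)

/-- The images in `M_θ` of the symbols of two units of `O'`. -/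
def IsUnitSymbol (t : MTheta E θ) : Prop :=
  ∃ (a b : Eˣ) (x : K2O m E), IsUnitAway m a ∧ IsUnitAway m b ∧ x.val = sym a b ∧ t = proj E θ x

/-- `M_θ` is generated by the symbols of units. -/
def GeneratedBySymbols : Prop :=
  Submodule.span (ValRing θ) {t : MTheta E θ | IsUnitSymbol E θ t} = ⊤

end theta

end Pool.CU
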