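import Pool.Agent.Work.MP_2b7bfc_cu.Interface3

/-! # Assembly of THEOREM CUP from the blocks -/

namespace Pool.CU

open scoped NumberField TensorProduct
open IsDedekindDomain

/-- The four statements on units give the invariance of orders and residue symbols. -/
theorem skel_inv (hVY : Stmt_VY) (hUNI : Stmt_UNI) (hUNB : Stmt_UNB) (hRD1 : Stmt_RD1)
    (hRD2 : Stmt_RD2) (hRED : Stmt_RED) (hUEL : Stmt_UEL)
    (E : Type) [Field E] [NumberField E] [IsCyclotomicExtension {133356} ℚ E] (f : Frame E)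
    (L : Loc f) : ∀ x : Eˣ, IsUnitAway 133356 x →
      (ord L.P x : ZMod 3) = (ord L.P (gu f.b x) : ZMod 3) ∧ L.l x = L.l (gu f.b x) := by
  obtain ⟨u, hu, hN, hl⟩ := hUEL E f
  have h1 : ∀ x : Eˣ, f.M0 x → L.l x = 0 := hUNI E f L u hu hN (hl L)
  have h2 := hUNB E f L h1
  have h3 := hRD1 E f L h2
  have h4 := hRD2 E f L h2 h3
  refine hRED E f L ?_
  intro x hx hb hs
  exact ⟨h3 x hb hs (hVY E f x hx hb hs), h4 x hb hs (hVY E f x hx hb hs)⟩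

theorem skel_main (hFRA : Stmt_FRA) (hGAL : Stmt_GAL) (hLOC : Stmt_LOC) (hVY : Stmt_VY)
    (hUNI : Stmt_UNI) (hUNB : Stmt_UNB) (hRD1 : Stmt_RD1)
    (hRD2 : Stmt_RD2) (hRED : Stmt_RED) (hUEL : Stmt_UEL) (hPH1 : Stmt_PH1) (hPH2 : Stmt_PH2)
    (hPH3 : Stmt_PH3) (hCHR : Stmt_CHR) (hPRM : Stmt_PRM) (hRDN : Stmt_RDN) (hLIF : Stmt_LIF)
    (hEQV : Stmt_EQV) :
    ∃ θ : DirichletCharacter (AlgebraicClosure ℚ_[3]) (44452 * 3),
      θ.IsPrimitive ∧ θ.Even ∧ ¬ TrivialFrob θ ∧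
      ∀ (E : Type) [Field E] [NumberField E] [IsCyclotomicExtension {44452 * 3} ℚ E],
        cupImage E θ ≠ ⊤ := by
  obtain ⟨θ, ζ, hζ, hζ1, hθ⟩ := hCHR
  obtain ⟨hprim, heven, hfrob⟩ := hPRM θ ζ hζ hζ1 hθ
  refine ⟨θ, hprim, heven, hfrob, ?_⟩
  intro E _ _ hE
  have hE' : IsCyclotomicExtension {133356} ℚ E := hE
  obtain ⟨f⟩ := hFRA E
  obtain ⟨L⟩ := hLOC E f
  obtain ⟨red, hred⟩ := hRDN θ ζ hζ hζ1 hθ
  have hinv := skel_inv hVY hUNI hUNB hRD1 hRD2 hRED hUEL E f L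
  have hk := hPH1 E f L hinv
  have hact := hPH2 E f L
  have hne := hPH3 E f L
  exact hLIF (44452 * 3) E θ red L.Phi
    (hEQV E f L θ red hred (hGAL E f) hact) hk hne

end Pool.CU
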