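import Pool.Agent.Work.MP_2b7bfc_cu.Defs

/-! # Elementary facts on orders, for the blocks of THEOREM CUP -/

namespace Pool.CU

open scoped NumberField
open IsDedekindDomain

variable {E : Type*} [Field E] [NumberField E] (v : HeightOneSpectrum (𝓞 E))

theorem ord_one : ord v 1 = 0 := by simp [ord]

theorem ord_inv (a : Eˣ) : ord v a⁻¹ = - ord v a := by simp [ord]

theorem ord_zpow (a : Eˣ) (k : ℤ) : ord v (a ^ k) = k * ord v a := by
  simp [ord, map_zpow, toAdd_zpow]

theorem ord_pow (a : Eˣ) (k : ℕ) : ord v (a ^ k) = k * ord v a := by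
  have := ord_zpow v a (k : ℤ)
  simpa using this

theorem ord_prod {ι : Type*} (s : Finset ι) (g : ι → Eˣ) :
    ord v (∏ i ∈ s, g i) = ∑ i ∈ s, ord v (g i) := by
  classical
  induction s using Finset.induction_on with
  | empty => simp [ord_one]
  | insert a s ha ih => rw [Finset.prod_insert ha, Finset.sum_insert ha, ord_mul, ih]

theorem valuation_lt_one_iff' (x : Eˣ) : v.valuation E (x : E) < 1 ↔ 0 < ord v x := by
  rw [valuation_eq_exp, ← WithZero.coe_one, WithZero.coe_lt_coe, ← ofAdd_zero,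
    Multiplicative.ofAdd_lt]
  omega

theorem valuation_eq_one_iff' (x : Eˣ) : v.valuation E (x : E) = 1 ↔ ord v x = 0 := by
  rw [valuation_eq_exp, ← WithZero.coe_one, WithZero.coe_inj, ← ofAdd_zero]
  rw [Multiplicative.ofAdd.injective.eq_iff]
  omega

theorem valuation_le_one_iff' (x : Eˣ) : v.valuation E (x : E) ≤ 1 ↔ 0 ≤ ord v x := by
  rw [le_iff_lt_or_eq, valuation_lt_one_iff', valuation_eq_one_iff']
  omega

/-- An algebraic integer `y` has positive order at `v` exactly if `y ∈ v`. -/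
theorem ord_pos_iff {x : Eˣ} {y : 𝓞 E} (h : (x : E) = y) : 0 < ord v x ↔ y ∈ v.asIdeal := by
  rw [← valuation_lt_one_iff', h]
  exact v.valuation_lt_one_iff_mem y

theorem ord_nonneg {x : Eˣ} {y : 𝓞 E} (h : (x : E) = y) : 0 ≤ ord v x := by
  rw [← valuation_le_one_iff', h]
  exact v.valuation_le_one y

theorem ord_eq_zero_iff {x : Eˣ} {y : 𝓞 E} (h : (x : E) = y) : ord v x = 0 ↔ y ∉ v.asIdeal := by
  rw [← ord_pos_iff v h]
  have := ord_nonneg v h
  omega

theorem ord_neg_one : ord v (-1 : Eˣ) = 0 := by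
  have h : ord v ((-1 : Eˣ) * (-1)) = 0 := by rw [neg_mul_neg, one_mul, ord_one]
  rw [ord_mul] at h
  omega

theorem ord_neg (a : Eˣ) : ord v (-a) = ord v a := by
  rw [neg_eq_neg_one_mul, ord_mul, ord_neg_one, zero_add]

/-- Units of the ring of integers have order zero. -/
theorem ord_unit {x : Eˣ} (u : (𝓞 E)ˣ) (h : (x : E) = (u : 𝓞 E)) : ord v x = 0 := by
  rw [ord_eq_zero_iff v h]
  intro hu
  exact v.isPrime.ne_top (Ideal.eq_top_of_isUnit_mem _ hu u.isUnit)

/-- Elements of nonnegative order everywhere are algebraic integers. -/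
theorem exists_integer {x : Eˣ} (h : ∀ v : HeightOneSpectrum (𝓞 E), 0 ≤ ord v x) :
    ∃ y : 𝓞 E, (x : E) = y := by
  have := HeightOneSpectrum.mem_integers_of_valuation_le_one E (x : E)
    (fun v => (valuation_le_one_iff' v x).2 (h v))
  obtain ⟨y, hy⟩ := this
  exact ⟨y, hy.symm⟩

/-- Elements of order zero everywhere are units of the ring of integers. -/
theorem exists_unit {x : Eˣ} (h : ∀ v : HeightOneSpectrum (𝓞 E), ord v x = 0) :
    ∃ u : (𝓞 E)ˣ, (x : E) = (u : 𝓞 E) := by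
  obtain ⟨y, hy⟩ := exists_integer (x := x) (fun v => (h v).ge)
  obtain ⟨y', hy'⟩ := exists_integer (x := x⁻¹) (fun v => by rw [ord_inv, h v]; simp)
  refine ⟨⟨y, y', ?_, ?_⟩, hy⟩
  · apply NumberField.RingOfIntegers.ext
    change (y : E) * (y' : E) = 1
    rw [← hy, ← hy', Units.mul_inv]
  · apply NumberField.RingOfIntegers.ext
    change (y' : E) * (y : E) = 1
    rw [← hy, ← hy', Units.inv_mul]

theorem ord_of_mem_U1 {x : Eˣ} (h : x ∈ U1 v) : ord v x = 0 := by
  have h' : v.valuation E ((x : E) - 1) < 1 := h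
  rw [← valuation_eq_one_iff']
  have h2 : (x : E) = 1 + ((x : E) - 1) := by ring
  rw [h2, Valuation.map_one_add_of_lt _ h']

/-- If `X` and `Y` are congruent modulo `v` and not in `v` then `X / Y` lies in `U1 v`. -/
theorem div_mem_U1 {x y : Eˣ} {X Y : 𝓞 E} (hx : (x : E) = X) (hy : (y : E) = Y)
    (hXY : X - Y ∈ v.asIdeal) (hY : Y ∉ v.asIdeal) : x * y⁻¹ ∈ U1 v := by
  change v.valuation E (((x * y⁻¹ : Eˣ) : E) - 1) < 1
  have h1 : ((x * y⁻¹ : Eˣ) : E) - 1 = ((X - Y : 𝓞 E) : E) * ((y⁻¹ : Eˣ) : E) := by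
    have h0 : ((X - Y : 𝓞 E) : E) = (x : E) - (y : E) := by rw [hx, hy]; rfl
    rw [h0]
    push_cast
    field_simp
  have h2 : v.valuation E ((y⁻¹ : Eˣ) : E) = 1 := by
    rw [valuation_eq_one_iff', ord_inv, (ord_eq_zero_iff v hy).2 hY, neg_zero]
  rw [h1, map_mul, h2, mul_one]
  exact (v.valuation_lt_one_iff_mem _).2 hXY

/-- The action of an automorphism on `Eˣ`. -/
def gu {E : Type*} [Field E] [NumberField E] (σ : Gal(E/ℚ)) : Eˣ →* Eˣ :=
  Units.map ((σ : E ≃+* E) : E →* E)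

theorem gu_val (σ : Gal(E/ℚ)) (x : Eˣ) : (gu σ x : E) = σ (x : E) := rfl

theorem gu_mul (σ τ : Gal(E/ℚ)) (x : Eˣ) : gu (σ * τ) x = gu σ (gu τ x) := rfl

theorem gu_one (x : Eˣ) : gu (1 : Gal(E/ℚ)) x = x := rfl

theorem act_sym' (σ : Gal(E/ℚ)) (x y : Eˣ) :
    act (σ : E ≃+* E) (sym x y) = sym (gu σ x) (gu σ y) := rfl

end Pool.CU
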